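import Mathlib
import Pool.Agent.TH881.RQ.Defs2

/-!
# RQ-B (job 2921): Mertens type bounds for the moments
-/

set_option autoImplicit false

namespace Pool.Agent.TH554.J2921

open Finset Filter Topology Polynomial

section gen

variable {c x : ℕ → ℝ} {C : ℕ} {E : ℝ}

/-- large primes -/
lemma large (hC : ∀ p : ℕ, p.Prime → c p ≤ C / p) (hx1 : ∀ p : ℕ, p.Prime → 1 ≤ x p) (hE : 0 ≤ E)
    {k p : ℕ} (hp : p.Prime) (hkp : k < p) (hx2 : x p ≤ Real.exp (E / p)) :
    1 + c p * (x p ^ k - 1) ≤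
      Real.exp (C * E * Real.exp E * k * (1 / ((p : ℝ) - 1) - 1 / (p : ℝ))) := by
  have h2 : (2 : ℝ) ≤ p := by exact_mod_cast hp.two_le
  have hp0 : (0 : ℝ) < p := by linarith
  have hp1 : (0 : ℝ) < p - 1 := by linarith
  have hk : (k : ℝ) ≤ p := by exact_mod_cast hkp.le
  obtain ⟨y, hy⟩ : ∃ y : ℝ, y = k * (E / p) := ⟨_, rfl⟩
  have hy0 : 0 ≤ y := by rw [hy]; positivity
  have hyE : y ≤ E := by
    rw [hy, ← mul_div_assoc, div_le_iff₀ hp0]
    nlinarith
  have h3 : x p ^ k ≤ Real.exp y := by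
    calc x p ^ k ≤ Real.exp (E / p) ^ k :=
          pow_le_pow_left₀ (by linarith [hx1 p hp]) hx2 k
      _ = Real.exp y := by rw [← Real.exp_nat_mul, hy]
  have h4 : Real.exp y - 1 ≤ y * Real.exp E := by
    have h8 : Real.exp y - 1 ≤ y * Real.exp y := by
      have h9 := Real.add_one_le_exp (-y)
      have h10 : Real.exp y * Real.exp (-y) = 1 := by rw [← Real.exp_add]; simp
      nlinarith [Real.exp_pos y]
    exact h8.trans (mul_le_mul_of_nonneg_left (Real.exp_le_exp.2 hyE) hy0)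
  have h5 : c p * (x p ^ k - 1) ≤
      C * E * Real.exp E * k * (1 / ((p : ℝ) - 1) - 1 / (p : ℝ)) := by
    have h6 : 0 ≤ x p ^ k - 1 := by
      have := one_le_pow₀ (hx1 p hp) (n := k)
      linarith
    calc c p * (x p ^ k - 1) ≤ (C / p) * (x p ^ k - 1) :=
          mul_le_mul_of_nonneg_right (hC p hp) h6
      _ ≤ (C / p) * (y * Real.exp E) :=
          mul_le_mul_of_nonneg_left (by linarith) (by positivity)
      _ = C * E * Real.exp E * k * (1 / ((p : ℝ) * p)) := by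
          rw [hy]; field_simp
      _ ≤ C * E * Real.exp E * k * (1 / ((p : ℝ) - 1) - 1 / (p : ℝ)) := by
          refine mul_le_mul_of_nonneg_left ?_ (by positivity)
          rw [div_sub_div _ _ hp1.ne' hp0.ne', div_le_div_iff₀ (by positivity) (by positivity)]
          nlinarith
  have h7 := Real.add_one_le_exp (C * E * Real.exp E * k * (1 / ((p : ℝ) - 1) - 1 / (p : ℝ)))
  linarith

/-- small primes -/
lemma small (hC : ∀ p : ℕ, p.Prime → c p ≤ C / p) (hx1 : ∀ p : ℕ, p.Prime → 1 ≤ x p)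
    (k : ℕ) {p : ℕ} (hp : p.Prime) :
    1 + c p * (x p ^ k - 1) ≤ (if p ≤ C then ((C : ℝ) + 1) else 1) * x p ^ k := by
  have h2 : (2 : ℝ) ≤ p := by exact_mod_cast hp.two_le
  have h1 : 1 ≤ x p ^ k := one_le_pow₀ (hx1 p hp)
  have hC0 : (0 : ℝ) ≤ C := Nat.cast_nonneg C
  have h3 := hC p hp
  split_ifs with h
  · have h6 : c p ≤ C + 1 := by
      refine h3.trans ?_
      rw [div_le_iff₀ (by linarith)]
      nlinarith
    have h7 : c p * (x p ^ k - 1) ≤ (C + 1) * (x p ^ k - 1) :=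
      mul_le_mul_of_nonneg_right h6 (by linarith)
    linarith
  · have h6 : c p ≤ 1 := by
      refine h3.trans ?_
      rw [div_le_one (by linarith)]
      exact_mod_cast (by omega : C ≤ p)
    have h7 : c p * (x p ^ k - 1) ≤ 1 * (x p ^ k - 1) :=
      mul_le_mul_of_nonneg_right h6 (by linarith)
    linarith

/-- telescoping sum -/
lemma tele (k : ℕ) (hk : 1 ≤ k) (w : ℕ) :
    ∑ m ∈ Icc (k + 1) w, (1 / ((m : ℝ) - 1) - 1 / (m : ℝ)) ≤ 1 / (k : ℝ) := by
  have hk2 : (1 : ℝ) ≤ k := by exact_mod_cast hk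
  have key : ∀ w : ℕ, k ≤ w → ∑ m ∈ Icc (k + 1) w, (1 / ((m : ℝ) - 1) - 1 / (m : ℝ)) =
      1 / (k : ℝ) - 1 / (w : ℝ) := by
    intro w hw
    induction w, hw using Nat.le_induction with
    | base => simp
    | succ w hw ih =>
      rw [← insert_Icc_right_eq_Icc_add_one (by omega), sum_insert (by simp), ih]
      push_cast
      have e2 : (w : ℝ) + 1 - 1 = w := by ring
      rw [e2]
      ring
  rcases Nat.lt_or_ge w k with h | h
  · have : Icc (k + 1) w = ∅ := by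
      rw [Icc_eq_empty]; omega
    rw [this, sum_empty]
    positivity
  · rw [key w h]
    have h2 : (k : ℝ) ≤ w := by exact_mod_cast h
    have : 0 < (w : ℝ) := by linarith
    have : 0 ≤ 1 / (w : ℝ) := by positivity
    linarith

lemma one_le_fac (hc0 : ∀ p : ℕ, p.Prime → 0 ≤ c p) (hx1 : ∀ p : ℕ, p.Prime → 1 ≤ x p)
    (k : ℕ) {p : ℕ} (hp : p.Prime) : 1 ≤ 1 + c p * (x p ^ k - 1) := by
  have h1 : 1 ≤ x p ^ k := one_le_pow₀ (hx1 p hp)
  have := mul_nonneg (hc0 p hp) (sub_nonneg.2 h1)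
  linarith

lemma prod_le (hC : ∀ p : ℕ, p.Prime → c p ≤ C / p)
    (hc0 : ∀ p : ℕ, p.Prime → 0 ≤ c p) (hx1 : ∀ p : ℕ, p.Prime → 1 ≤ x p) (hE : 0 ≤ E)
    {p₀ : ℕ} (hx2 : ∀ p : ℕ, p.Prime → p₀ ≤ p → x p ≤ Real.exp (E / p))
    {k : ℕ} (hk1 : 1 ≤ k) (hk : p₀ ≤ k) (w : ℕ) :
    ∏ p ∈ (Icc 1 w).filter Nat.Prime, (1 + c p * (x p ^ k - 1)) ≤
      (Real.exp (C * E * Real.exp E) * ((C : ℝ) + 1) ^ C) *
        (∏ p ∈ (Icc 1 k).filter Nat.Prime, x p) ^ k := by
  have hkR : (1 : ℝ) ≤ k := by exact_mod_cast hk1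
  obtain ⟨S, hS⟩ : ∃ S : Finset ℕ, S = (Icc 1 w).filter Nat.Prime := ⟨_, rfl⟩
  have hSm : ∀ p ∈ S, p ≤ w ∧ p.Prime := by
    intro p hp
    rw [hS, mem_filter, mem_Icc] at hp
    exact ⟨hp.1.2, hp.2⟩
  rw [← hS, ← prod_filter_mul_prod_filter_not S (fun p => p ≤ k)]
  have hlarge : ∏ p ∈ S.filter (fun p => ¬ p ≤ k), (1 + c p * (x p ^ k - 1)) ≤
      Real.exp (C * E * Real.exp E) := by
    have h1 : ∏ p ∈ S.filter (fun p => ¬ p ≤ k), (1 + c p * (x p ^ k - 1)) ≤
        ∏ p ∈ S.filter (fun p => ¬ p ≤ k),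
          Real.exp (C * E * Real.exp E * k * (1 / ((p : ℝ) - 1) - 1 / (p : ℝ))) := by
      refine prod_le_prod (fun p hp => ?_) (fun p hp => ?_)
      · rw [mem_filter] at hp
        linarith [one_le_fac hc0 hx1 k (hSm p hp.1).2]
      · rw [mem_filter] at hp
        exact large hC hx1 hE (hSm p hp.1).2 (by omega) (hx2 p (hSm p hp.1).2 (by omega))
    refine h1.trans ?_
    rw [← Real.exp_sum, Real.exp_le_exp, ← mul_sum]
    have h2 : ∑ p ∈ S.filter (fun p => ¬ p ≤ k), (1 / ((p : ℝ) - 1) - 1 / (p : ℝ)) ≤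
        ∑ m ∈ Icc (k + 1) w, (1 / ((m : ℝ) - 1) - 1 / (m : ℝ)) := by
      refine sum_le_sum_of_subset_of_nonneg ?_ ?_
      · intro p hp
        rw [mem_filter] at hp
        have := (hSm p hp.1).1
        rw [mem_Icc]
        omega
      · intro m hm _
        rw [mem_Icc] at hm
        have h3 : (k : ℝ) + 1 ≤ m := by exact_mod_cast hm.1
        have h4 : (0 : ℝ) < m - 1 := by linarith
        rw [sub_nonneg]
        exact one_div_le_one_div_of_le h4 (by linarith)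
    have h3 := h2.trans (tele k hk1 w)
    calc C * E * Real.exp E * k * ∑ p ∈ S.filter (fun p => ¬ p ≤ k),
          (1 / ((p : ℝ) - 1) - 1 / (p : ℝ))
        ≤ C * E * Real.exp E * k * (1 / (k : ℝ)) :=
          mul_le_mul_of_nonneg_left h3 (by positivity)
      _ = C * E * Real.exp E := by
          field_simp
  have hsmall : ∏ p ∈ S.filter (fun p => p ≤ k), (1 + c p * (x p ^ k - 1)) ≤
      ((C : ℝ) + 1) ^ C * (∏ p ∈ (Icc 1 k).filter Nat.Prime, x p) ^ k := by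
    have h1 : ∏ p ∈ S.filter (fun p => p ≤ k), (1 + c p * (x p ^ k - 1)) ≤
        ∏ p ∈ S.filter (fun p => p ≤ k), ((if p ≤ C then ((C : ℝ) + 1) else 1) * x p ^ k) := by
      refine prod_le_prod (fun p hp => ?_) (fun p hp => ?_)
      · rw [mem_filter] at hp
        linarith [one_le_fac hc0 hx1 k (hSm p hp.1).2]
      · rw [mem_filter] at hp
        exact small hC hx1 k (hSm p hp.1).2
    refine h1.trans ?_
    rw [prod_mul_distrib, prod_pow]
    have hC0 : (0 : ℝ) ≤ C := Nat.cast_nonneg C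
    have h2 : ∏ p ∈ S.filter (fun p => p ≤ k), (if p ≤ C then ((C : ℝ) + 1) else 1) ≤
        ((C : ℝ) + 1) ^ C := by
      rw [prod_ite, prod_const_one, mul_one, prod_const]
      refine pow_le_pow_right₀ (by linarith) ?_
      have h3 : (S.filter (fun p => p ≤ k)).filter (fun p => p ≤ C) ⊆ Icc 1 C := by
        intro p hp
        rw [mem_filter, mem_filter] at hp
        have := (hSm p hp.1.1).2.one_le
        rw [mem_Icc]
        exact ⟨this, hp.2⟩
      calc ((S.filter (fun p => p ≤ k)).filter (fun p => p ≤ C)).card ≤ (Icc 1 C).card :=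
            card_le_card h3
        _ = C := by rw [Nat.card_Icc, Nat.add_sub_cancel]
    have h3 : ∏ p ∈ S.filter (fun p => p ≤ k), x p ≤ ∏ p ∈ (Icc 1 k).filter Nat.Prime, x p := by
      refine prod_le_prod_of_subset_of_one_le ?_ ?_ ?_
      · intro p hp
        rw [mem_filter] at hp
        obtain ⟨a2, a3⟩ := hSm p hp.1
        rw [mem_filter, mem_Icc]
        exact ⟨⟨a3.one_le, hp.2⟩, a3⟩
      · intro p hp
        rw [mem_filter] at hp
        linarith [hx1 p (hSm p hp.1).2]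
      · intro p hp _
        rw [mem_filter, mem_Icc] at hp
        exact hx1 p hp.2
    have h4 : 0 ≤ ∏ p ∈ S.filter (fun p => p ≤ k), x p := by
      refine prod_nonneg fun p hp => ?_
      rw [mem_filter] at hp
      linarith [hx1 p (hSm p hp.1).2]
    exact mul_le_mul h2 (pow_le_pow_left₀ h4 h3 k) (by positivity) (by positivity)
  have h5 : 0 ≤ ∏ p ∈ S.filter (fun p => ¬ p ≤ k), (1 + c p * (x p ^ k - 1)) := by
    refine prod_nonneg fun p hp => ?_
    rw [mem_filter] at hp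
    linarith [one_le_fac hc0 hx1 k (hSm p hp.1).2]
  have h6 : 0 ≤ ((C : ℝ) + 1) ^ C * (∏ p ∈ (Icc 1 k).filter Nat.Prime, x p) ^ k := by
    have : 0 ≤ ∏ p ∈ (Icc 1 k).filter Nat.Prime, x p := by
      refine prod_nonneg fun p hp => ?_
      rw [mem_filter, mem_Icc] at hp
      linarith [hx1 p hp.2]
    positivity
  calc _ ≤ (((C : ℝ) + 1) ^ C * (∏ p ∈ (Icc 1 k).filter Nat.Prime, x p) ^ k) *
        Real.exp (C * E * Real.exp E) := mul_le_mul hsmall hlarge h5 h6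
    _ = _ := by ring

/-- the general bound -/
theorem gen (hC : ∀ p : ℕ, p.Prime → c p ≤ C / p)
    (hc0 : ∀ p : ℕ, p.Prime → 0 ≤ c p) (hx1 : ∀ p : ℕ, p.Prime → 1 ≤ x p) (hE : 0 ≤ E)
    {p₀ : ℕ} (hx2 : ∀ p : ℕ, p.Prime → p₀ ≤ p → x p ≤ Real.exp (E / p))
    {δ : ℝ} (hδ : 0 < δ) : ∃ k0 : ℕ, ∀ k : ℕ, k0 ≤ k → ∀ w : ℕ,
    (∏ p ∈ (Icc 1 w).filter Nat.Prime, (1 + c p * (x p ^ k - 1))) ^ (1 / (k : ℝ)) ≤
      (1 + δ) * ∏ p ∈ (Icc 1 k).filter Nat.Prime, x p := by
  obtain ⟨A, hA⟩ : ∃ A : ℝ, A = Real.exp (C * E * Real.exp E) * ((C : ℝ) + 1) ^ C := ⟨_, rfl⟩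
  have hA0 : 0 < A := by rw [hA]; positivity
  have h1 : ∀ᶠ k : ℕ in atTop, A ^ (1 / (k : ℝ)) < 1 + δ := by
    have h2 : Tendsto (fun k : ℕ => A ^ (1 / (k : ℝ))) atTop (𝓝 1) := by
      have h3 : Tendsto (fun k : ℕ => (1 / (k : ℝ))) atTop (𝓝 0) := tendsto_one_div_atTop_nhds_zero_nat
      have h4 := (Real.continuousAt_const_rpow hA0.ne' (b := 0)).tendsto.comp h3
      simpa [Real.rpow_zero, Function.comp_def] using h4
    exact h2.eventually (gt_mem_nhds (by linarith))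
  obtain ⟨k1, hk1⟩ := eventually_atTop.1 h1
  refine ⟨max k1 (max p₀ 1), fun k hk w => ?_⟩
  have hkp : p₀ ≤ k := (le_max_left _ _).trans ((le_max_right _ _).trans hk)
  have hk1' : 1 ≤ k := (le_max_right _ _).trans ((le_max_right _ _).trans hk)
  have h3 := hk1 k (le_trans (le_max_left _ _) hk)
  have hkR : (1 : ℝ) ≤ k := by exact_mod_cast hk1'
  obtain ⟨X, hX⟩ : ∃ X, X = ∏ p ∈ (Icc 1 k).filter Nat.Prime, x p := ⟨_, rfl⟩
  have hX0 : 0 ≤ X := by
    rw [hX]
    refine prod_nonneg fun p hp => ?_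
    rw [mem_filter] at hp
    linarith [hx1 p hp.2]
  have hM0 : 0 ≤ ∏ p ∈ (Icc 1 w).filter Nat.Prime, (1 + c p * (x p ^ k - 1)) := by
    refine prod_nonneg fun p hp => ?_
    rw [mem_filter] at hp
    linarith [one_le_fac hc0 hx1 k hp.2]
  have hb := prod_le hC hc0 hx1 hE hx2 hk1' hkp w
  rw [← hA, ← hX] at hb
  rw [← hX]
  calc _ ≤ (A * X ^ k) ^ (1 / (k : ℝ)) := Real.rpow_le_rpow hM0 hb (by positivity)
    _ = A ^ (1 / (k : ℝ)) * X := by
        rw [Real.mul_rpow hA0.le (by positivity), ← Real.rpow_natCast X k, ← Real.rpow_mul hX0]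
        have : (k : ℝ) * (1 / (k : ℝ)) = 1 := by field_simp
        rw [this, Real.rpow_one]
    _ ≤ (1 + δ) * X := mul_le_mul_of_nonneg_right h3.le hX0

end gen

open Pool.Agent.TH881
open Pool.Agent.TH881.RG
open Pool.Agent.H373R2.T7
open Pool.Agent.TH881.RQ

theorem stMBq_of (u : ℕ → ℝ) (hu0 : ∀ p : ℕ, p.Prime → 0 ≤ u p) (hu1 : ∀ p : ℕ, p.Prime → u p < 1)
    (D : ℝ) (hD : ∀ p : ℕ, p.Prime → u p ≤ D / p) : StMBq u := by
  intro K δ hδ
  have hD0 : 0 ≤ D := by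
    have h1 := hu0 2 Nat.prime_two
    have h2 := hD 2 Nat.prime_two
    push_cast at h2
    linarith
  have h := gen (c := fun p => (K : ℝ) / ((p : ℝ) - 1)) (x := fun p => 1 / (1 - u p))
    (C := 2 * K) (E := 2 * D) (p₀ := ⌈2 * D⌉₊) ?_ ?_ ?_ (by positivity) ?_ hδ
  · obtain ⟨k0, hk0⟩ := h
    refine ⟨k0, fun k hk w => ?_⟩
    have h2 := hk0 k hk w
    have e : (Phq u k)⁻¹ = ∏ p ∈ (Icc 1 k).filter Nat.Prime, (1 / (1 - u p)) := by
      unfold Phq pz
      rw [← prod_inv_distrib]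
      refine prod_congr rfl fun p _ => ?_
      rw [one_div]
    rw [e]
    exact h2
  · intro p hp
    have h2 : (2 : ℝ) ≤ p := by exact_mod_cast hp.two_le
    have hK : (0 : ℝ) ≤ K := Nat.cast_nonneg K
    push_cast
    rw [div_le_div_iff₀ (by linarith) (by linarith)]
    nlinarith
  · intro p hp
    have h2 : (2 : ℝ) ≤ p := by exact_mod_cast hp.two_le
    exact div_nonneg (Nat.cast_nonneg K) (by linarith)
  · intro p hp
    have h1 := hu0 p hp
    have h2 := hu1 p hp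
    rw [le_div_iff₀ (by linarith)]
    linarith
  · intro p hp hp0
    have h1 := hu0 p hp
    have h2 := hu1 p hp
    have h3 := hD p hp
    have h4 : (0 : ℝ) < p := by exact_mod_cast hp.pos
    have h5 : 2 * D ≤ p := (Nat.le_ceil _).trans (by exact_mod_cast hp0)
    have h6 : u p ≤ 1 / 2 := by
      refine h3.trans ?_
      rw [div_le_iff₀ h4]
      linarith
    have h7 : 1 / (1 - u p) ≤ 1 + 2 * u p := by
      rw [div_le_iff₀ (by linarith)]
      nlinarith
    have h8 := Real.add_one_le_exp (2 * D / (p : ℝ))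
    have h9 : 2 * u p ≤ 2 * D / p := by
      rw [mul_div_assoc]
      linarith
    linarith

theorem stMBd_of (u : ℕ → ℝ) (hu0 : ∀ p : ℕ, p.Prime → 0 ≤ u p)
    (D : ℝ) (hD : ∀ p : ℕ, p.Prime → u p ≤ D / p) : StMBd u := by
  intro K δ hδ
  have hD0 : 0 ≤ D := by
    have h1 := hu0 2 Nat.prime_two
    have h2 := hD 2 Nat.prime_two
    push_cast at h2
    linarith
  have h := gen (c := fun p => (K : ℝ) * u p) (x := fun p => (p : ℝ) / ((p : ℝ) - 1))
    (C := ⌈K * D⌉₊) (E := 2) (p₀ := 0) ?_ ?_ ?_ (by positivity) ?_ hδ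
  · obtain ⟨k0, hk0⟩ := h
    refine ⟨k0, fun k hk w => ?_⟩
    have h2 := hk0 k hk w
    have e : (Vz k)⁻¹ = ∏ p ∈ (Icc 1 k).filter Nat.Prime, ((p : ℝ) / ((p : ℝ) - 1)) := by
      unfold Vz pz
      rw [← prod_inv_distrib]
      refine prod_congr rfl fun p hp => ?_
      rw [mem_filter] at hp
      have h2 : (2 : ℝ) ≤ p := by exact_mod_cast hp.2.two_le
      have h3 : (p : ℝ) - 1 ≠ 0 := by linarith
      have h4 : (p : ℝ) ≠ 0 := by linarith
      have e1 : 1 - 1 / (p : ℝ) = (p - 1) / p := by field_simp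
      rw [e1, inv_div]
    rw [e]
    exact h2
  · intro p hp
    have h4 : (0 : ℝ) < p := by exact_mod_cast hp.pos
    calc (K : ℝ) * u p ≤ K * (D / p) := mul_le_mul_of_nonneg_left (hD p hp) (Nat.cast_nonneg K)
      _ = (K * D) / p := by ring
      _ ≤ _ := div_le_div_of_nonneg_right (Nat.le_ceil _) h4.le
  · intro p hp
    exact mul_nonneg (Nat.cast_nonneg K) (hu0 p hp)
  · intro p hp
    have h2 : (2 : ℝ) ≤ p := by exact_mod_cast hp.two_le
    rw [le_div_iff₀ (by linarith)]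
    linarith
  · intro p hp _
    have h2 : (2 : ℝ) ≤ p := by exact_mod_cast hp.two_le
    have h7 : (p : ℝ) / (p - 1) ≤ 2 / p + 1 := by
      rw [div_add_one (by linarith), div_le_div_iff₀ (by linarith) (by linarith)]
      nlinarith
    exact h7.trans (Real.add_one_le_exp _)

end Pool.Agent.TH554.J2921
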