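import Mathlib
import Pool.Agent.H438R2.BR.T11
import Pool.Agent.H789R2.FR.Sph
import Pool.Agent.TH554.J1595.C
set_option autoImplicit false

namespace Pool.Agent.TH554.J1595

open MeasureTheory Set Complex
open scoped ENNReal NNReal RealInnerProductSpace
open Pool.Agent.H789R2.FR (E sg T)
open Pool.Agent.H438R2.BR (Q J)
open Pool.Agent.H438R2.BR.T10 (e0 sg_one)

/-- the signs -/
def sgn : Bool → ℝ
  | true => 1
  | false => -1

/-- the points of the circle -/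
noncomputable def pt (i : Bool × Bool) (θ : ℝ) : E 2 :=
  J (Real.cos θ • (sgn i.1 • e0)) (Real.sin θ • (sgn i.2 • e0))

theorem pt_zero (i : Bool × Bool) (θ : ℝ) : pt i θ 0 = sgn i.1 * Real.cos θ := by
  have h : pt i θ 0 = (Real.cos θ • (sgn i.1 • e0)) 0 := rfl
  rw [h]
  simp [e0]
  ring

theorem pt_one (i : Bool × Bool) (θ : ℝ) : pt i θ 1 = sgn i.2 * Real.sin θ := by
  have h : pt i θ 1 = (Real.sin θ • (sgn i.2 • e0)) 0 := rfl
  rw [h]
  simp [e0]
  ring

theorem pt_meas (i : Bool × Bool) : Measurable (pt i) := by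
  have h := (Pool.Agent.H438R2.BR.J_mp 1 1).measurable
  have h2 : Measurable fun θ : ℝ => ((Real.cos θ • (sgn i.1 • e0), Real.sin θ • (sgn i.2 • e0)) :
      E 1 × E 1) :=
    (Real.measurable_cos.smul_const _).prodMk (Real.measurable_sin.smul_const _)
  exact h.comp h2

theorem sg_two_lint (h : E 2 → ℝ≥0∞) (hm : Measurable h) :
    ∫⁻ z, h z ∂(sg 2) = ∑ i : Bool × Bool, ∫⁻ θ in Q, h (pt i θ) := by
  have h1 := Pool.Agent.H438R2.BR.bipolar 1 1 le_rfl le_rfl h hm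
  have h2 : ∫⁻ z, h z ∂(sg 2) = ∫⁻ θ in Q, ENNReal.ofReal ((Real.cos θ) ^ (1 - 1) *
      (Real.sin θ) ^ (1 - 1)) * ∫⁻ u, ∫⁻ v, h (J (Real.cos θ • u) (Real.sin θ • v))
        ∂(sg 1) ∂(sg 1) := h1
  have h3 : ∀ i ∈ (Finset.univ : Finset (Bool × Bool)), Measurable fun θ : ℝ => h (pt i θ) :=
    fun i _ => hm.comp (pt_meas i)
  rw [h2, ← lintegral_finsetSum _ h3]
  refine lintegral_congr fun θ => ?_
  rw [sg_one, sg_one, sg_one, Fintype.sum_prod_type]
  simp only [Fintype.sum_bool, pt, sgn, one_smul, neg_smul]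
  simp

theorem sg_two : sg 2 = ∑ i : Bool × Bool, (volume.restrict Q).map (pt i) := by
  refine Measure.ext_of_lintegral _ fun h hm => ?_
  rw [sg_two_lint h hm, lintegral_finsetSum_measure]
  refine Finset.sum_congr rfl fun i _ => ?_
  rw [lintegral_map hm (pt_meas i)]

/-- the reflections -/
noncomputable def Re (i : Bool × Bool) : E 2 ≃ₗᵢ[ℝ] E 2 :=
  LinearIsometryEquiv.piLpCongrRight 2 fun j : Fin 2 =>
    if (if j = 0 then i.1 else i.2) then LinearIsometryEquiv.refl ℝ ℝ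
      else LinearIsometryEquiv.neg ℝ

theorem Re_zero (i : Bool × Bool) (x : E 2) : Re i x 0 = sgn i.1 * x 0 := by
  unfold Re
  rw [LinearIsometryEquiv.piLpCongrRight_apply]
  rcases i with ⟨i, j⟩
  cases i <;> simp [sgn]

theorem Re_one (i : Bool × Bool) (x : E 2) : Re i x 1 = sgn i.2 * x 1 := by
  unfold Re
  rw [LinearIsometryEquiv.piLpCongrRight_apply]
  rcases i with ⟨i, j⟩
  cases j <;> simp [sgn]

theorem T_eq (g : E 2 → ℂ) (hg : Measurable g) (M : ℝ) (hM : ∀ z, ‖g z‖ ≤ M) (x : E 2) :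
    T g x = ∑ i : Bool × Bool, FF (fun θ => g (pt i θ)) (Re i x) := by
  unfold T
  have hmeas : Measurable fun w : E 2 => Complex.exp (-((⟪x, w⟫ : ℝ) : ℂ) * I) * g w := by
    have h1 : Continuous fun w : E 2 => Complex.exp (-((⟪x, w⟫ : ℝ) : ℂ) * I) := by fun_prop
    exact h1.measurable.mul hg
  have hn : ∀ w : E 2, ‖Complex.exp (-((⟪x, w⟫ : ℝ) : ℂ) * I) * g w‖ ≤ M := by
    intro w
    rw [norm_mul]
    have h2 : -((⟪x, w⟫ : ℝ) : ℂ) * I = ((-⟪x, w⟫ : ℝ) : ℂ) * I := by push_cast; ring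
    rw [h2, Complex.norm_exp_ofReal_mul_I, one_mul]
    exact hM w
  have hfin : IsFiniteMeasure (volume.restrict Q) :=
    ⟨by rw [Measure.restrict_apply_univ, Q_vol]; exact ENNReal.ofReal_lt_top⟩
  rw [sg_two, integral_finsetSum_measure]
  · refine Finset.sum_congr rfl fun i _ => ?_
    rw [integral_map (pt_meas i).aemeasurable hmeas.aestronglyMeasurable]
    unfold FF
    refine integral_congr_ae (Filter.Eventually.of_forall fun θ => ?_)
    simp only
    unfold ff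
    rw [mul_comm, Re_zero, Re_one]
    congr 2
    rw [PiLp.inner_apply, Fin.sum_univ_two, pt_zero, pt_one]
    simp only [RCLike.inner_apply, conj_trivial]
    push_cast
    ring
  · intro i _
    exact Integrable.mono' (integrable_const M) hmeas.aestronglyMeasurable
      (Filter.Eventually.of_forall hn)

theorem FF_meas (b : ℝ → ℂ) (hb : Measurable b) : Measurable (FF b) := by
  have h1 : StronglyMeasurable (Function.uncurry fun (x : E 2) (θ : ℝ) => ff b x θ) :=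
    (ff_meas b hb).stronglyMeasurable
  exact (h1.integral_prod_right (ν := volume.restrict Q)).measurable

theorem sum_rpow {ι : Type*} [Fintype ι] (a : ι → ℝ≥0∞) (q : ℝ) (hq : 0 < q) :
    (∑ i, a i) ^ q ≤ (Fintype.card ι : ℝ≥0∞) ^ q * ∑ i, a i ^ q := by
  classical
  by_cases hι : Nonempty ι
  · obtain ⟨i0, -, hi0⟩ := Finset.exists_max_image (Finset.univ : Finset ι) a Finset.univ_nonempty
    have h1 : ∑ i, a i ≤ (Fintype.card ι : ℝ≥0∞) * a i0 := by
      calc ∑ i, a i ≤ ∑ _i : ι, a i0 := Finset.sum_le_sum fun i _ => hi0 i (Finset.mem_univ i)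
        _ = (Fintype.card ι : ℝ≥0∞) * a i0 := by
            rw [Finset.sum_const, nsmul_eq_mul, Finset.card_univ]
    calc (∑ i, a i) ^ q ≤ ((Fintype.card ι : ℝ≥0∞) * a i0) ^ q := ENNReal.rpow_le_rpow h1 hq.le
      _ = (Fintype.card ι : ℝ≥0∞) ^ q * a i0 ^ q := ENNReal.mul_rpow_of_nonneg _ _ hq.le
      _ ≤ _ := mul_le_mul' le_rfl
          (Finset.single_le_sum (f := fun i => a i ^ q) (fun _ _ => zero_le)
            (Finset.mem_univ i0))
  · have : IsEmpty ι := not_nonempty_iff.1 hι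
    simp [hq]

theorem circle (q : ℝ) (hq : 4 < q) : ∃ C : ℝ≥0, ∀ g : E 2 → ℂ, Measurable g →
    (∃ M : ℝ, ∀ z, ‖g z‖ ≤ M) →
    ∫⁻ x : E 2, ‖T g x‖ₑ ^ q ≤ C * (∫⁻ z, ‖g z‖ₑ ^ 4 ∂(sg 2)) ^ (q / 4) := by
  obtain ⟨C, hC⟩ := quarter q hq
  refine ⟨4 ^ q * (4 * C), fun g hg hM => ?_⟩
  obtain ⟨M, hM⟩ := hM
  have hb : ∀ i : Bool × Bool, Measurable fun θ => g (pt i θ) := fun i => hg.comp (pt_meas i)
  set N : ℝ≥0∞ := ∫⁻ z, ‖g z‖ₑ ^ 4 ∂(sg 2) with hN
  have hNi : ∀ i : Bool × Bool, ∫⁻ θ in Q, ‖g (pt i θ)‖ₑ ^ 4 ≤ N := by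
    intro i
    rw [hN, sg_two_lint _ (hg.enorm.pow_const 4)]
    exact Finset.single_le_sum (f := fun i => ∫⁻ θ in Q, ‖g (pt i θ)‖ₑ ^ 4)
      (fun _ _ => zero_le) (Finset.mem_univ i)
  have hi : ∀ i : Bool × Bool, ∫⁻ x : E 2, ‖FF (fun θ => g (pt i θ)) (Re i x)‖ₑ ^ q ≤
      C * N ^ (q / 4) := by
    intro i
    have h1 := (Re i).measurePreserving.lintegral_comp
      ((FF_meas _ (hb i)).enorm.pow_const q)
    rw [h1]
    refine (hC _ (hb i) ⟨M, fun z => hM _⟩).trans ?_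
    exact mul_le_mul' le_rfl (ENNReal.rpow_le_rpow (hNi i) (by linarith))
  have hm : ∀ i : Bool × Bool, Measurable fun x : E 2 =>
      ‖FF (fun θ => g (pt i θ)) (Re i x)‖ₑ ^ q := fun i =>
    ((FF_meas _ (hb i)).comp (Re i).continuous.measurable).enorm.pow_const q
  calc ∫⁻ x : E 2, ‖T g x‖ₑ ^ q
      ≤ ∫⁻ x : E 2, (4 : ℝ≥0∞) ^ q * ∑ i : Bool × Bool,
          ‖FF (fun θ => g (pt i θ)) (Re i x)‖ₑ ^ q := by
        refine lintegral_mono fun x => ?_
        rw [T_eq g hg M hM x]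
        refine (ENNReal.rpow_le_rpow (enorm_sum_le _ _) (by linarith)).trans ?_
        refine (sum_rpow _ q (by linarith)).trans (le_of_eq ?_)
        congr 2
    _ = (4 : ℝ≥0∞) ^ q * ∑ i : Bool × Bool, ∫⁻ x : E 2,
          ‖FF (fun θ => g (pt i θ)) (Re i x)‖ₑ ^ q := by
        rw [lintegral_const_mul _ (Finset.measurable_fun_sum _ fun i _ => hm i),
          lintegral_finsetSum _ fun i _ => hm i]
    _ ≤ (4 : ℝ≥0∞) ^ q * ∑ _i : Bool × Bool, C * N ^ (q / 4) :=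
        mul_le_mul' le_rfl (Finset.sum_le_sum fun i _ => hi i)
    _ = ((4 ^ q * (4 * C) : ℝ≥0) : ℝ≥0∞) * N ^ (q / 4) := by
        rw [Finset.sum_const, Finset.card_univ, nsmul_eq_mul]
        have h2 : Fintype.card (Bool × Bool) = 4 := by decide
        rw [h2, ENNReal.coe_mul, ENNReal.coe_mul,
          ENNReal.coe_rpow_of_nonneg _ (by linarith : (0 : ℝ) ≤ q)]
        push_cast
        ring

end Pool.Agent.TH554.J1595
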