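import Mathlib
import Pool.Agent.TH974.IH.Box

set_option autoImplicit false

open Finset MeasureTheory ProbabilityTheory Filter Topology
open scoped ENNReal NNReal

/-! The boxes `X1` and `X2` are admissible (job 2165). -/

namespace Pool.Agent.TH554.J2165

open Pool.Agent.TH974.IH

theorem mem_cube {d : ℕ} {a b : ℤ} {x : Zd d} : x ∈ cube d a b ↔ ∀ i, a ≤ x i ∧ x i ≤ b := by
  simp [cube, Fintype.mem_piFinset]

theorem cube_mono {d : ℕ} {a b a' b' : ℤ} (ha : a' ≤ a) (hb : b ≤ b') : cube d a b ⊆ cube d a' b' := by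
  intro x hx
  rw [mem_cube] at hx ⊢
  exact fun i => ⟨ha.trans (hx i).1, (hx i).2.trans hb⟩

theorem mem_Fc {d K : ℕ} {x : Zd d} : x ∈ Fc d K ↔ x ∈ cube d 1 (K + 4) ∧ nex K x = 1 := by
  simp [Fc]

theorem Rm_not_Fc {d K : ℕ} {x : Zd d} (hx : x ∈ Rm d K) : x ∉ Fc d K := by
  intro h
  rw [mem_Fc] at h
  have h1 : nex K x = 0 := by
    unfold nex
    rw [Finset.card_eq_zero, Finset.filter_eq_empty_iff]
    intro i _
    have := mem_cube.mp hx i
    omega
  omega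

theorem Fc_not_Rm {d K : ℕ} {x : Zd d} (hx : x ∈ Fc d K) : x ∉ Rm d K := fun h => Rm_not_Fc h hx

theorem nbr {d K : ℕ} {x y : Zd d} (hx : x ∈ Rm d K) (i : Fin d) (h1 : ∀ j, j ≠ i → y j = x j)
    (h2 : y i = x i + 1 ∨ y i = x i - 1) : y ∈ Rm d K ∨ y ∈ Fc d K := by
  have hx' := mem_cube.mp hx
  by_cases h : 2 ≤ y i ∧ y i ≤ (K : ℤ) + 3
  · left
    refine mem_cube.mpr fun j => ?_
    by_cases hj : j = i
    · subst hj
      exact h
    · rw [h1 j hj]
      exact hx' j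
  · right
    rw [mem_Fc]
    have hi := hx' i
    refine ⟨mem_cube.mpr fun j => ?_, ?_⟩
    · by_cases hj : j = i
      · subst hj
        omega
      · rw [h1 j hj]
        have := hx' j
        omega
    · unfold nex
      rw [Finset.card_eq_one]
      refine ⟨i, ?_⟩
      ext j
      simp only [Finset.mem_filter, Finset.mem_univ, true_and, Finset.mem_singleton]
      constructor
      · intro hj
        by_contra hne
        rw [h1 j hne] at hj
        have := hx' j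
        omega
      · rintro rfl
        omega

theorem nbr_hd {d K : ℕ} {e : Ed d} (h : e.1 ∈ Rm d K) : hd e ∈ Rm d K ∨ hd e ∈ Fc d K := by
  refine nbr h e.2 (fun j hj => ?_) ?_
  · simp [hd, Pi.single_eq_of_ne hj]
  · left
    simp [hd]

theorem nbr_tl {d K : ℕ} {e : Ed d} (h : hd e ∈ Rm d K) : e.1 ∈ Rm d K ∨ e.1 ∈ Fc d K := by
  refine nbr h e.2 (fun j hj => ?_) ?_
  · simp [hd, Pi.single_eq_of_ne hj]
  · right
    simp [hd]

theorem corner {d K : ℕ} {x : Zd d} {i j : Fin d} (hij : i ≠ j) (hi : x i = 1 ∨ x i = (K : ℤ) + 4)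
    (hj : x j = 1 ∨ x j = (K : ℤ) + 4) : x ∉ Rm d K ∧ x ∉ Fc d K := by
  constructor
  · intro h
    have := mem_cube.mp h i
    omega
  · intro h
    rw [mem_Fc] at h
    have h1 : 1 < nex K x := by
      unfold nex
      exact Finset.one_lt_card.mpr ⟨i, by simp [hi], j, by simp [hj], hij⟩
    omega

theorem mem_eds {d : ℕ} {V : Finset (Zd d)} {e : Ed d} : e ∈ eds V ↔ e.1 ∈ V ∧ hd e ∈ V := by
  simp [eds]

theorem Fc_cube {d K : ℕ} {x : Zd d} (h : x ∈ Fc d K) : x ∈ cube d 1 (K + 4) := (mem_Fc.mp h).1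

theorem Rm_cube {d K : ℕ} {x : Zd d} (h : x ∈ Rm d K) : x ∈ cube d 1 (K + 4) :=
  cube_mono (by norm_num) (by omega) h

/-- the endpoint of a bridge -/
def vv {d : ℕ} (i j : Fin d) (c b : ℤ) : Zd d := Function.update (Function.update (fun _ => 2) i c) j b

theorem vv_j {d : ℕ} (i j : Fin d) (c b : ℤ) : vv i j c b j = b := by
  unfold vv
  rw [Function.update_self]

theorem vv_i {d : ℕ} {i j : Fin d} (hij : i ≠ j) (c b : ℤ) : vv i j c b i = c := by
  unfold vv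
  rw [Function.update_of_ne hij, Function.update_self]

theorem vv_k {d : ℕ} {i j k : Fin d} (hi : k ≠ i) (hj : k ≠ j) (c b : ℤ) : vv i j c b k = 2 := by
  unfold vv
  rw [Function.update_of_ne hj, Function.update_of_ne hi]

/-- a bridge lies in the cell and has an endpoint which is a corner -/
theorem EB_spec {d K : ℕ} {e : Ed d} (he : e ∈ EB d K) :
    e ∈ cedges d 0 ((K : ℤ) + 5) ∧
      ((e.1 ∉ Rm d K ∧ e.1 ∉ Fc d K) ∨ (hd e ∉ Rm d K ∧ hd e ∉ Fc d K)) := by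
  obtain ⟨i, j, a, b, hij, ha, hb, h⟩ := he
  have key : ∀ c : ℤ, (c = 1 ∨ c = (K : ℤ) + 3) →
      ((vv i j c b, i) : Ed d) ∈ cedges d 0 ((K : ℤ) + 5) := by
    intro c hc
    have h1 : ∀ k, (0 ≤ vv i j c b k ∧ vv i j c b k ≤ (K : ℤ) + 5) ∧
        (0 ≤ vv i j c b k + (Pi.single i (1 : ℤ) : Zd d) k ∧
          vv i j c b k + (Pi.single i (1 : ℤ) : Zd d) k ≤ (K : ℤ) + 5) := by
      intro k
      by_cases hkj : k = j
      · subst hkj
        rw [vv_j, Pi.single_eq_of_ne hij.symm]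
        omega
      · by_cases hki : k = i
        · subst hki
          rw [vv_i hij, Pi.single_eq_same]
          omega
        · rw [vv_k hki hkj, Pi.single_eq_of_ne hki]
          omega
    exact ⟨mem_cube.mpr fun k => (h1 k).1, mem_cube.mpr fun k => (h1 k).2⟩
  rcases h with ⟨ha1, h⟩ | ⟨ha1, h⟩
  · have h' : e = (vv i j 1 b, i) := h
    subst h'
    refine ⟨key 1 (Or.inl rfl), Or.inl ?_⟩
    refine corner hij ?_ ?_
    · left
      exact vv_i hij 1 b
    · show vv i j 1 b j = 1 ∨ vv i j 1 b j = (K : ℤ) + 4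
      rw [vv_j]
      exact hb
  · have h' : e = (vv i j ((K : ℤ) + 3) b, i) := h
    subst h'
    refine ⟨key ((K : ℤ) + 3) (Or.inr rfl), Or.inr ?_⟩
    refine corner hij ?_ ?_
    · right
      show vv i j ((K : ℤ) + 3) b i + (Pi.single i (1 : ℤ) : Zd d) i = (K : ℤ) + 4
      rw [vv_i hij, Pi.single_eq_same]
      ring
    · show vv i j ((K : ℤ) + 3) b j + (Pi.single i (1 : ℤ) : Zd d) j = 1 ∨
        vv i j ((K : ℤ) + 3) b j + (Pi.single i (1 : ℤ) : Zd d) j = (K : ℤ) + 4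
      rw [vv_j, Pi.single_eq_of_ne hij.symm, add_zero]
      exact hb

theorem X2_OK {d : ℕ} (K : ℕ) (hK : 1 ≤ K) : (X2 d K).OK := by
  have hL : (((K + 6 : ℕ) : ℤ) - 2) = (K : ℤ) + 4 := by push_cast; ring
  have hL' : (((K + 6 : ℕ) : ℤ) - 1) = (K : ℤ) + 5 := by push_cast; ring
  have hV : ∀ v, v ∈ Rm d K ∪ Fc d K ↔ v ∈ Rm d K ∨ v ∈ Fc d K := fun v => Finset.mem_union
  refine ⟨?_, ?_, ?_, ?_, ?_⟩
  · exact Finset.subset_union_right
  · intro v hv
    show v ∈ cube d 1 (((K + 6 : ℕ) : ℤ) - 2)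
    rw [hL]
    rcases (hV v).mp hv with h | h
    · exact Rm_cube h
    · exact Fc_cube h
  · intro e he
    exact mem_eds.mp he
  · have hsub : ∀ e ∈ EB d K, e ∈ cedges d 0 (((K + 6 : ℕ) : ℤ) - 1) \
        ((eds (Rm d K ∪ Fc d K) : Finset (Ed d)) : Set (Ed d)) := by
      intro e he
      obtain ⟨h1, h2⟩ := EB_spec he
      rw [hL']
      refine ⟨h1, fun h3 => ?_⟩
      have h4 := mem_eds.mp (Finset.mem_coe.mp h3)
      rw [hV, hV] at h4
      tauto
    intro ω ω' h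
    constructor
    · intro hω e he
      rw [← h e (hsub e he)]
      exact hω e he
    · intro hω e he
      rw [h e (hsub e he)]
      exact hω e he
  · intro ω _ e he h
    exfalso
    apply he
    show e ∈ eds (Rm d K ∪ Fc d K)
    rw [mem_eds]
    rcases h with ⟨h1, h2⟩ | ⟨h1, h2⟩
    · have h3 : e.1 ∈ Rm d K := by
        rcases (hV _).mp h1 with h | h
        · exact h
        · exact absurd h h2
      exact ⟨h1, (hV _).mpr (nbr_hd h3)⟩
    · have h3 : hd e ∈ Rm d K := by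
        rcases (hV _).mp h1 with h | h
        · exact h
        · exact absurd h h2
      exact ⟨(hV _).mpr (nbr_tl h3), h1⟩

theorem X1_OK {d : ℕ} (K : ℕ) (hK : 1 ≤ K) (x y : Zd d) (hx : x ∈ Fc d K) (hy : y ∈ Fc d K) :
    (X1 d K x y).OK := by
  have hL : (((K + 6 : ℕ) : ℤ) - 2) = (K : ℤ) + 4 := by push_cast; ring
  have hL' : (((K + 6 : ℕ) : ℤ) - 1) = (K : ℤ) + 5 := by push_cast; ring
  have hV : ∀ v, v ∈ Rm d K ∪ {x, y} ↔ v ∈ Rm d K ∨ v = x ∨ v = y := by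
    intro v
    rw [Finset.mem_union, Finset.mem_insert, Finset.mem_singleton]
  have hT : ∀ v, v ∈ ({x, y} : Finset (Zd d)) ↔ v = x ∨ v = y := by
    intro v
    rw [Finset.mem_insert, Finset.mem_singleton]
  have hE : ∀ e, e ∈ (eds (Rm d K ∪ {x, y})).filter (fun e => e.1 ∈ Rm d K ∨ hd e ∈ Rm d K) ↔
      ((e.1 ∈ Rm d K ∨ e.1 = x ∨ e.1 = y) ∧ (hd e ∈ Rm d K ∨ hd e = x ∨ hd e = y)) ∧
        (e.1 ∈ Rm d K ∨ hd e ∈ Rm d K) := by
    intro e
    rw [Finset.mem_filter, mem_eds, hV, hV]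
  have hxF : ∀ v, v = x → v ∈ Fc d K := by rintro _ rfl; exact hx
  have hyF : ∀ v, v = y → v ∈ Fc d K := by rintro _ rfl; exact hy
  have hcube : ∀ v, v ∈ cube d 1 ((K : ℤ) + 4) → v ∈ cube d 0 ((K : ℤ) + 5) := fun v hv =>
    cube_mono (by norm_num) (by omega) hv
  refine ⟨?_, ?_, ?_, ?_, ?_⟩
  · exact Finset.subset_union_right
  · intro v hv
    show v ∈ cube d 1 (((K + 6 : ℕ) : ℤ) - 2)
    rw [hL]
    rcases (hV v).mp hv with h | h | h
    · exact Rm_cube h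
    · exact Fc_cube (hxF v h)
    · exact Fc_cube (hyF v h)
  · intro e he
    exact mem_eds.mp (Finset.mem_filter.mp he).1
  · have hB : ∀ e ∈ EB d K, e ∈ cedges d 0 (((K + 6 : ℕ) : ℤ) - 1) \
        (((eds (Rm d K ∪ {x, y})).filter (fun e => e.1 ∈ Rm d K ∨ hd e ∈ Rm d K) :
          Finset (Ed d)) : Set (Ed d)) := by
      intro e he
      obtain ⟨h1, h2⟩ := EB_spec he
      rw [hL']
      refine ⟨h1, fun h3 => ?_⟩
      have h4 := (hE e).mp (Finset.mem_coe.mp h3)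
      have a1 := hxF e.1
      have a2 := hyF e.1
      have a3 := hxF (hd e)
      have a4 := hyF (hd e)
      tauto
    have hF : ∀ e ∈ EF d K, e ∈ cedges d 0 (((K + 6 : ℕ) : ℤ) - 1) \
        (((eds (Rm d K ∪ {x, y})).filter (fun e => e.1 ∈ Rm d K ∨ hd e ∈ Rm d K) :
          Finset (Ed d)) : Set (Ed d)) := by
      intro e he
      rw [hL']
      refine ⟨⟨hcube _ (Fc_cube he.1), hcube _ (Fc_cube he.2)⟩, fun h3 => ?_⟩
      have h4 := (hE e).mp (Finset.mem_coe.mp h3)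
      have a1 := Fc_not_Rm he.1
      have a2 := Fc_not_Rm he.2
      tauto
    have hX : ∀ e ∈ EX d K, e.1 ≠ x → hd e ≠ x → e.1 ≠ y → hd e ≠ y →
        e ∈ cedges d 0 (((K + 6 : ℕ) : ℤ) - 1) \
        (((eds (Rm d K ∪ {x, y})).filter (fun e => e.1 ∈ Rm d K ∨ hd e ∈ Rm d K) :
          Finset (Ed d)) : Set (Ed d)) := by
      intro e he h1 h2 h3 h4
      rw [hL']
      refine ⟨?_, fun h5 => ?_⟩
      · rcases he with ⟨h6, h7⟩ | ⟨h6, h7⟩
        · exact ⟨hcube _ (Rm_cube h6), hcube _ (Fc_cube h7)⟩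
        · exact ⟨hcube _ (Fc_cube h6), hcube _ (Rm_cube h7)⟩
      · have h8 := (hE e).mp (Finset.mem_coe.mp h5)
        rcases he with ⟨h6, h7⟩ | ⟨h6, h7⟩
        · have := Fc_not_Rm h7
          tauto
        · have := Fc_not_Rm h6
          tauto
    have main : ∀ ω ω' : Env d, (∀ e ∈ cedges d 0 (((K + 6 : ℕ) : ℤ) - 1) \
        (((eds (Rm d K ∪ {x, y})).filter (fun e => e.1 ∈ Rm d K ∨ hd e ∈ Rm d K) :
          Finset (Ed d)) : Set (Ed d)), ω e = ω' e) → ω ∈ (X1 d K x y).G →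
        ω' ∈ (X1 d K x y).G := by
      intro ω ω' h hω
      obtain ⟨g1, g2, g3⟩ := hω
      refine ⟨fun e he => ?_, fun e he => ?_, fun e he h1 h2 h3 h4 => ?_⟩
      · rw [← h e (hB e he)]
        exact g1 e he
      · rw [← h e (hF e he)]
        exact g2 e he
      · rw [← h e (hX e he h1 h2 h3 h4)]
        exact g3 e he h1 h2 h3 h4
    intro ω ω' h
    exact ⟨main ω ω' h, main ω' ω fun e he => (h e he).symm⟩
  · intro ω hω e he h
    obtain ⟨g1, g2, g3⟩ := hω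
    have he' : ¬ (((e.1 ∈ Rm d K ∨ e.1 = x ∨ e.1 = y) ∧
        (hd e ∈ Rm d K ∨ hd e = x ∨ hd e = y)) ∧ (e.1 ∈ Rm d K ∨ hd e ∈ Rm d K)) :=
      fun h' => he ((hE e).mpr h')
    rcases h with ⟨h1, h2⟩ | ⟨h1, h2⟩
    · have h3 : e.1 ∈ Rm d K := by
        rcases (hV _).mp h1 with h | h
        · exact h
        · exact absurd ((hT _).mpr h) h2
      have h4 := nbr_hd h3
      have h5 : hd e ∈ Fc d K := by
        rcases h4 with h4 | h4
        · exact absurd ⟨⟨Or.inl h3, Or.inl h4⟩, Or.inl h3⟩ he'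
        · exact h4
      refine g3 e (Or.inl ⟨h3, h5⟩) ?_ ?_ ?_ ?_
      · intro h; exact Rm_not_Fc h3 (hxF _ h)
      · intro h; exact he' ⟨⟨Or.inl h3, Or.inr (Or.inl h)⟩, Or.inl h3⟩
      · intro h; exact Rm_not_Fc h3 (hyF _ h)
      · intro h; exact he' ⟨⟨Or.inl h3, Or.inr (Or.inr h)⟩, Or.inl h3⟩
    · have h3 : hd e ∈ Rm d K := by
        rcases (hV _).mp h1 with h | h
        · exact h
        · exact absurd ((hT _).mpr h) h2
      have h4 := nbr_tl h3
      have h5 : e.1 ∈ Fc d K := by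
        rcases h4 with h4 | h4
        · exact absurd ⟨⟨Or.inl h4, Or.inl h3⟩, Or.inr h3⟩ he'
        · exact h4
      refine g3 e (Or.inr ⟨h5, h3⟩) ?_ ?_ ?_ ?_
      · intro h; exact he' ⟨⟨Or.inr (Or.inl h), Or.inl h3⟩, Or.inr h3⟩
      · intro h; exact Rm_not_Fc h3 (hxF _ h)
      · intro h; exact he' ⟨⟨Or.inr (Or.inr h), Or.inl h3⟩, Or.inr h3⟩
      · intro h; exact Rm_not_Fc h3 (hyF _ h)

end Pool.Agent.TH554.J2165
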