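import Pool.Agent.TH91.LG.Defs

set_option autoImplicit false

namespace Pool.Agent.TH91.LG

open Topology Filter
open scoped ContDiff Manifold

namespace J1258

section

variable {G : Type*} [Group G] [TopologicalSpace G] {E : Type*}
  [NormedAddCommGroup E] [NormedSpace ℝ E] (L : LocLie G E)

/-- multiplication in the chart -/
def mu (p : E × E) : E := L.e (L.e.symm p.1 * L.e.symm p.2)

theorem zero_mem : (0 : E) ∈ L.e.target := by
  rw [← L.map_one]; exact L.e.map_source L.one_mem

theorem symm_zero : L.e.symm 0 = 1 := by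
  rw [← L.map_one]; exact L.e.left_inv L.one_mem

theorem ev_src : ∀ᶠ g in 𝓝 (1 : G), g ∈ L.e.source := L.e.open_source.mem_nhds L.one_mem

theorem ev_tgt : ∀ᶠ x in 𝓝 (0 : E), x ∈ L.e.target := L.e.open_target.mem_nhds (zero_mem L)

theorem mu_left : ∀ᶠ x in 𝓝 (0 : E), mu L (x, 0) = x := by
  filter_upwards [ev_tgt L] with x hx
  simp [mu, symm_zero, L.e.right_inv hx]

theorem mu_right : ∀ᶠ x in 𝓝 (0 : E), mu L (0, x) = x := by
  filter_upwards [ev_tgt L] with x hx
  simp [mu, symm_zero, L.e.right_inv hx]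

theorem mu_cd : ContDiffAt ℝ 1 (mu L) (0, 0) := L.mul.of_le (by exact_mod_cast le_top)

theorem mu_fderiv : fderiv ℝ (mu L) (0, 0) =
    ContinuousLinearMap.fst ℝ E E + ContinuousLinearMap.snd ℝ E E := by
  have h1 : HasFDerivAt (mu L) (fderiv ℝ (mu L) (0, 0)) (0, 0) :=
    ((mu_cd L).differentiableAt one_ne_zero).hasFDerivAt
  have ha : HasFDerivAt (fun x : E => mu L (x, 0))
      ((fderiv ℝ (mu L) (0, 0)).comp (ContinuousLinearMap.inl ℝ E E)) 0 :=
    HasFDerivAt.comp (g := mu L) (f := fun x : E => (x, (0 : E))) (0 : E) h1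
      (hasFDerivAt_prodMk_left (𝕜 := ℝ) (0 : E) (0 : E))
  have ha' : HasFDerivAt (fun x : E => mu L (x, 0)) (ContinuousLinearMap.id ℝ E) 0 :=
    (hasFDerivAt_id 0).congr_of_eventuallyEq (mu_left L)
  have hb : HasFDerivAt (fun x : E => mu L (0, x))
      ((fderiv ℝ (mu L) (0, 0)).comp (ContinuousLinearMap.inr ℝ E E)) 0 :=
    HasFDerivAt.comp (g := mu L) (f := fun x : E => ((0 : E), x)) (0 : E) h1
      (hasFDerivAt_prodMk_right (𝕜 := ℝ) (0 : E) (0 : E))
  have hb' : HasFDerivAt (fun x : E => mu L (0, x)) (ContinuousLinearMap.id ℝ E) 0 :=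
    (hasFDerivAt_id 0).congr_of_eventuallyEq (mu_right L)
  have ea := ha.unique ha'
  have eb := hb.unique hb'
  ext x
  · have := DFunLike.congr_fun ea x
    simpa using this
  · have := DFunLike.congr_fun eb x
    simpa using this

theorem mu_strict : HasStrictFDerivAt (mu L)
    (ContinuousLinearMap.fst ℝ E E + ContinuousLinearMap.snd ℝ E E) (0, 0) := by
  rw [← mu_fderiv L]
  exact (mu_cd L).hasStrictFDerivAt one_ne_zero

theorem strict_c (c : ℝ → G) (hadd : ∀ s t, c (s + t) = c s * c t) (X : E)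
    (hT : L.T c X) : HasStrictDerivAt (fun t => L.e (c t)) X 0 := by
  obtain ⟨h0, hc0, hd⟩ := hT
  set x : ℝ → E := fun t => L.e (c t) with hx
  have hx0 : x 0 = 0 := by simp [hx, h0, L.map_one]
  have hxc : ContinuousAt x 0 := hd.continuousAt
  have hsrc : ∀ᶠ t in 𝓝 (0 : ℝ), c t ∈ L.e.source := by
    have : Tendsto c (𝓝 0) (𝓝 1) := by
      have := hc0.tendsto
      rwa [h0] at this
    exact this.eventually (ev_src L)
  have hpair : Tendsto (fun t => (x t, (0 : E))) (𝓝 0) (𝓝 (0, 0)) := by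
    have h1 : Tendsto x (𝓝 0) (𝓝 0) := by
      have := hxc.tendsto
      rwa [hx0] at this
    exact h1.prodMk_nhds tendsto_const_nhds
  have hdiff : ∀ᶠ p in 𝓝 ((0, 0) : E × E), DifferentiableAt ℝ (mu L) p := by
    have := (mu_cd L).eventually (by simp)
    filter_upwards [this] with p hp
    exact hp.differentiableAt one_ne_zero
  have hder : ∀ᶠ t in 𝓝 (0 : ℝ), HasDerivAt x (fderiv ℝ (mu L) (x t, 0) (0, X)) t := by
    filter_upwards [hsrc, hpair.eventually hdiff] with t ht hdt
    have e1 : (fun h => x (t + h)) =ᶠ[𝓝 (0 : ℝ)] fun h => mu L (x t, x h) := by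
      filter_upwards [hsrc] with h hh
      simp [mu, hx, L.e.left_inv ht, L.e.left_inv hh, hadd]
    have e2 : HasDerivAt (fun h => mu L (x t, x h)) (fderiv ℝ (mu L) (x t, 0) (0, X)) 0 := by
      have h1 : HasFDerivAt (mu L) (fderiv ℝ (mu L) (x t, 0)) (x t, x 0) := by
        rw [hx0]
        exact hdt.hasFDerivAt
      exact HasFDerivAt.comp_hasDerivAt (0 : ℝ) h1 ((hasDerivAt_const (0 : ℝ) (x t)).prodMk hd)
    have e3 : HasDerivAt (fun h => x (t + h)) (fderiv ℝ (mu L) (x t, 0) (0, X)) 0 :=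
      e2.congr_of_eventuallyEq e1
    have e4 : HasDerivAt (fun s : ℝ => s - t) 1 t := (hasDerivAt_id t).sub_const t
    have e5 : HasDerivAt (fun h => x (t + h)) (fderiv ℝ (mu L) (x t, 0) (0, X)) (t - t) := by
      rw [sub_self]; exact e3
    have e6 := HasDerivAt.scomp (h := fun s : ℝ => s - t) t e5 e4
    rw [one_smul] at e6
    refine e6.congr_of_eventuallyEq (Eventually.of_forall fun s => ?_)
    simp
  have hcont : ContinuousAt (fun t => fderiv ℝ (mu L) (x t, 0) (0, X)) 0 := by
    have h1 : ContinuousAt (fderiv ℝ (mu L)) ((x 0, 0) : E × E) := by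
      rw [hx0]
      exact (ContDiffAt.fderiv_right (m := 0) (mu_cd L) (by simp)).continuousAt
    have h2 : ContinuousAt (fun t => (x t, (0 : E))) 0 := hxc.prodMk continuousAt_const
    have h3 : ContinuousAt (fun t => fderiv ℝ (mu L) (x t, 0)) 0 :=
      ContinuousAt.comp (f := fun t => (x t, (0 : E))) (g := fderiv ℝ (mu L)) h1 h2
    exact h3.clm_apply continuousAt_const
  have key := hasStrictDerivAt_of_hasDerivAt_of_continuousAt hder hcont
  have e7 : fderiv ℝ (mu L) (x 0, 0) (0, X) = X := by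
    rw [hx0, mu_fderiv]
    simp
  rw [e7] at key
  exact key

variable [IsTopologicalGroup G]

theorem list_strict {n : ℕ} (X : Fin n → E) (c : Fin n → ℝ → G) (hc : ∀ i, Continuous (c i))
    (hadd : ∀ i s t, c i (s + t) = c i s * c i t) (hT : ∀ i, L.T (c i) (X i))
    (l : List (Fin n)) :
    Continuous (fun t : Fin n → ℝ => (l.map fun i => c i (t i)).prod) ∧
    (l.map fun i => c i ((0 : Fin n → ℝ) i)).prod = 1 ∧
    HasStrictFDerivAt (fun t : Fin n → ℝ => L.e ((l.map fun i => c i (t i)).prod))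
      ((l.map fun i => (ContinuousLinearMap.proj (R := ℝ) (φ := fun _ : Fin n => ℝ) i).smulRight
        (X i)).sum) 0 := by
  induction l with
  | nil =>
    refine ⟨by simpa using continuous_const, by simp, ?_⟩
    simp only [List.map_nil, List.prod_nil, List.sum_nil]
    exact hasStrictFDerivAt_const _ _
  | cons i l ih =>
    obtain ⟨h1, h2, h3⟩ := ih
    have hci : Continuous (fun t : Fin n → ℝ => c i (t i)) := (hc i).comp (continuous_apply i)
    refine ⟨?_, ?_, ?_⟩
    · simp only [List.map_cons, List.prod_cons]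
      exact hci.mul h1
    · rw [List.map_cons, List.prod_cons, h2, mul_one]
      exact (hT i).1
    · have h4 := strict_c L (c i) (hadd i) (X i) (hT i)
      have h5 : HasStrictFDerivAt (fun t : Fin n → ℝ => L.e (c i (t i)))
          ((ContinuousLinearMap.proj (R := ℝ) (φ := fun _ : Fin n => ℝ) i).smulRight (X i)) 0 := by
        have h6 : HasStrictFDerivAt (fun t => L.e (c i t))
            ((1 : ℝ →L[ℝ] ℝ).smulRight (X i)) ((0 : Fin n → ℝ) i) := h4
        have h7 := h6.comp (0 : Fin n → ℝ)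
          (ContinuousLinearMap.proj (R := ℝ) (φ := fun _ : Fin n => ℝ) i).hasStrictFDerivAt
        refine h7.congr_fderiv ?_
        ext t
        simp
      have h8 : HasStrictFDerivAt (mu L)
          (ContinuousLinearMap.fst ℝ E E + ContinuousLinearMap.snd ℝ E E)
          (L.e (c i ((0 : Fin n → ℝ) i)), L.e ((l.map fun i => c i ((0 : Fin n → ℝ) i)).prod)) := by
        rw [h2]
        have : c i ((0 : Fin n → ℝ) i) = 1 := (hT i).1
        rw [this, L.map_one]
        exact mu_strict L
      have h9 := HasStrictFDerivAt.comp (0 : Fin n → ℝ) h8 (h5.prodMk h3)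
      have h10 := h9.congr_of_eventuallyEq (f₁ := fun t : Fin n → ℝ =>
        L.e (((i :: l).map fun i => c i (t i)).prod)) (by
          have s1 : ∀ᶠ t in 𝓝 (0 : Fin n → ℝ), c i (t i) ∈ L.e.source := by
            have := hci.tendsto 0
            have h0 : c i ((0 : Fin n → ℝ) i) = 1 := (hT i).1
            rw [h0] at this
            exact this.eventually (ev_src L)
          have s2 : ∀ᶠ t in 𝓝 (0 : Fin n → ℝ), (l.map fun i => c i (t i)).prod ∈ L.e.source := by
            have := h1.tendsto 0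
            rw [h2] at this
            exact this.eventually (ev_src L)
          filter_upwards [s1, s2] with t ht1 ht2
          simp only [Function.comp, mu, List.map_cons, List.prod_cons]
          rw [L.e.left_inv ht1, L.e.left_inv ht2])
      refine h10.congr_fderiv ?_
      ext t
      simp

end

end J1258

variable {G : Type*} [Group G] [TopologicalSpace G] [IsTopologicalGroup G] {E : Type*}
  [NormedAddCommGroup E] [NormedSpace ℝ E] [FiniteDimensional ℝ E] (L : LocLie G E)

theorem LocLie.open_prod {n : ℕ} (X : Fin n → E) (hX : Submodule.span ℝ (Set.range X) = ⊤)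
    (c : Fin n → ℝ → G) (hc : ∀ i, Continuous (c i)) (hadd : ∀ i s t, c i (s + t) = c i s * c i t)
    (hT : ∀ i, L.T (c i) (X i)) (δ : ℝ) (hδ : 0 < δ) :
    {g : G | ∃ t : Fin n → ℝ, (∀ i, |t i| < δ) ∧
      g = (List.ofFn fun i => c i (t i)).prod} ∈ 𝓝 (1 : G) := by
  obtain ⟨h1, h2, h3⟩ := J1258.list_strict L X c hc hadd hT (List.finRange n)
  have hcomp : CompleteSpace E := FiniteDimensional.complete ℝ E
  set P : (Fin n → ℝ) → G := fun t => ((List.finRange n).map fun i => c i (t i)).prod with hP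
  set A : (Fin n → ℝ) →L[ℝ] E := ((List.finRange n).map fun i =>
    (ContinuousLinearMap.proj (R := ℝ) (φ := fun _ : Fin n => ℝ) i).smulRight (X i)).sum with hA
  have hAapp : ∀ t, A t = ∑ i, t i • X i := by
    intro t
    have : ∀ l : List (Fin n), (l.map fun i =>
        (ContinuousLinearMap.proj (R := ℝ) (φ := fun _ : Fin n => ℝ) i).smulRight (X i)).sum t =
        (l.map fun i => t i • X i).sum := by
      intro l
      induction l with
      | nil => simp
      | cons i l ih => simp [ih]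
    rw [hA, this, ← List.ofFn_eq_map, List.sum_ofFn]
  have hsurj : (A : (Fin n → ℝ) →ₗ[ℝ] E).range = ⊤ := by
    rw [eq_top_iff, ← hX, Submodule.span_le]
    rintro _ ⟨i, rfl⟩
    refine ⟨Pi.single i 1, ?_⟩
    show A (Pi.single i 1) = X i
    rw [hAapp, Finset.sum_eq_single i]
    · simp
    · intro j _ hj
      simp [hj]
    · intro h
      exact absurd (Finset.mem_univ i) h
  have hmap := HasStrictFDerivAt.map_nhds_eq_of_surj h3 hsurj
  have hP0 : P 0 = 1 := h2
  have hPe : L.e (P 0) = 0 := by rw [hP0, L.map_one]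
  have hW : {t : Fin n → ℝ | (∀ i, |t i| < δ) ∧ P t ∈ L.e.source} ∈ 𝓝 (0 : Fin n → ℝ) := by
    have s1 : ∀ᶠ t in 𝓝 (0 : Fin n → ℝ), P t ∈ L.e.source := by
      have := h1.tendsto 0
      rw [hP0] at this
      exact this.eventually (J1258.ev_src L)
    have s2 : ∀ᶠ t in 𝓝 (0 : Fin n → ℝ), ∀ i, |t i| < δ := by
      refine eventually_all.2 fun i => ?_
      have : Continuous (fun t : Fin n → ℝ => |t i|) := (continuous_apply i).abs
      have h5 := this.tendsto (0 : Fin n → ℝ)
      simp only [Pi.zero_apply, abs_zero] at h5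
      exact h5.eventually (gt_mem_nhds hδ)
    filter_upwards [s1, s2] with t ht1 ht2
    exact ⟨ht2, ht1⟩
  have him := image_mem_map (m := fun t => L.e (P t)) hW
  have him2 : (fun t => L.e (P t)) '' {t : Fin n → ℝ | (∀ i, |t i| < δ) ∧ P t ∈ L.e.source} ∈
      𝓝 (0 : E) := by
    have e : 𝓝 (0 : E) = map (fun t => L.e (P t)) (𝓝 0) := by
      rw [hmap]
      show 𝓝 (0 : E) = 𝓝 (L.e (P 0))
      rw [hPe]
    rw [e]
    exact him
  have hcont : Tendsto L.e (𝓝 1) (𝓝 0) := by
    have := (L.e.continuousAt L.one_mem).tendsto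
    rwa [L.map_one] at this
  filter_upwards [J1258.ev_src L, hcont.eventually him2] with g hg1 hg2
  obtain ⟨t, ⟨ht1, ht2⟩, ht3⟩ := hg2
  refine ⟨t, ht1, ?_⟩
  have := L.e.injOn ht2 hg1 ht3
  rw [← this, List.ofFn_eq_map]

end Pool.Agent.TH91.LG
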