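import Pool.Agent.TH279.MZ.Defs

set_option autoImplicit false

open Set Filter Metric MeasureTheory
open Pool.Agent.TH279.MZ

namespace Pool.Agent.TH554.J1684

theorem vv_eq (c₀ : ℂ) (j : ℕ) : vv c₀ c₀ j = (f c₀)^[j + 1] 0 := by
  unfold vv
  rw [Function.iterate_succ_apply]
  congr 1
  unfold f
  simp

theorem it_succ (c₀ : ℂ) (i : ℕ) : (f c₀)^[i + 1] 0 = ((f c₀)^[i] 0) ^ 2 + c₀ := by
  rw [Function.iterate_succ_apply']
  rfl

/-- a strictly preperiodic critical point -/
theorem orb_of_preper {c₀ : ℂ}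
    (hpp : ∃ m n : ℕ, 1 ≤ n ∧ (f c₀)^[m + n] 0 = (f c₀)^[m] 0)
    (hnp : ∀ p : ℕ, 1 ≤ p → (f c₀)^[p] 0 ≠ 0) : ∃ L k : ℕ, Orb L k c₀ c₀ := by
  classical
  -- existence of a pair
  have hex : ∃ L k : ℕ, k < L ∧ vv c₀ c₀ L = - vv c₀ c₀ k := by
    have hm := Nat.find_spec hpp
    set m := Nat.find hpp with hmdef
    obtain ⟨n, hn, hmn⟩ := hm
    have hm0 : m ≠ 0 := by
      intro h0
      rw [h0, zero_add] at hmn
      exact hnp n hn hmn
    obtain ⟨m', hm'⟩ : ∃ m', m = m' + 1 := ⟨m - 1, by omega⟩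
    have hmin : ¬ ∃ n : ℕ, 1 ≤ n ∧ (f c₀)^[m' + n] 0 = (f c₀)^[m'] 0 :=
      Nat.find_min hpp (by omega)
    have h1 : ((f c₀)^[m' + n] 0) ^ 2 = ((f c₀)^[m'] 0) ^ 2 := by
      have h2 : (f c₀)^[(m' + n) + 1] 0 = (f c₀)^[m' + 1] 0 := by
        rw [← hm', ← hmn]
        congr 1
        omega
      rw [it_succ, it_succ] at h2
      exact add_right_cancel h2
    have h3 : (f c₀)^[m' + n] 0 = - (f c₀)^[m'] 0 := by
      rcases sq_eq_sq_iff_eq_or_eq_neg.1 h1 with h | h
      · exact absurd ⟨n, hn, h⟩ hmin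
      · exact h
    have hm'0 : m' ≠ 0 := by
      intro h0
      rw [h0, zero_add] at h3
      refine hnp n hn ?_
      rw [h3]
      simp
    obtain ⟨m'', hm''⟩ : ∃ m'', m' = m'' + 1 := ⟨m' - 1, by omega⟩
    refine ⟨m'' + n, m'', by omega, ?_⟩
    rw [vv_eq, vv_eq, ← hm'', ← h3]
    congr 1
    omega
  obtain ⟨k, hk, hopp⟩ := Nat.find_spec hex
  set L := Nat.find hex with hL
  have hminL : ∀ L' < L, ∀ k' < L', vv c₀ c₀ L' ≠ - vv c₀ c₀ k' := by
    intro L' hL' k' hk' h
    exact Nat.find_min hex hL' ⟨k', hk', h⟩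
  refine ⟨L, k, hk, ?_, hopp⟩
  -- injectivity
  have key : ∀ i j : ℕ, i < j → j ≤ L → vv c₀ c₀ i ≠ vv c₀ c₀ j := by
    intro i
    induction i with
    | zero =>
      intro j hj hjL h
      obtain ⟨j', rfl⟩ : ∃ j', j = j' + 1 := ⟨j - 1, by omega⟩
      rw [vv_zero, vv_succ] at h
      have h1 : vv c₀ c₀ j' ^ 2 = 0 := by
        have : vv c₀ c₀ j' ^ 2 + c₀ = 0 + c₀ := by rw [← h, zero_add]
        exact add_right_cancel this
      have h2 : vv c₀ c₀ j' = 0 := by
        rcases pow_eq_zero_iff (two_ne_zero) |>.1 h1 with h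
        exact h
      rw [vv_eq] at h2
      exact hnp (j' + 1) (by omega) h2
    | succ i ih =>
      intro j hj hjL h
      obtain ⟨j', rfl⟩ : ∃ j', j = j' + 1 := ⟨j - 1, by omega⟩
      rw [vv_succ, vv_succ] at h
      have h1 : vv c₀ c₀ j' ^ 2 = vv c₀ c₀ i ^ 2 := (add_right_cancel h).symm
      rcases sq_eq_sq_iff_eq_or_eq_neg.1 h1 with h2 | h2
      · exact ih j' (by omega) (by omega) h2.symm
      · exact hminL j' (by omega) i (by omega) h2
  intro i hi j hj h
  rcases lt_trichotomy i j with h1 | h1 | h1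
  · exact absurd h (key i j h1 hj)
  · exact h1
  · exact absurd h.symm (key j i h1 hi)

/-- the points of the orbit are not critical -/
theorem vv_ne_zero {L k : ℕ} {c₀ : ℂ} (h : Orb L k c₀ c₀) (j : ℕ) : vv c₀ c₀ j ≠ 0 := by
  have h1 : ∀ j < L, vv c₀ c₀ j ≠ 0 := by
    intro j hj h0
    have h2 : vv c₀ c₀ (j + 1) = vv c₀ c₀ 0 := by
      rw [vv_succ, h0, vv_zero]
      ring
    have := h.inj (j + 1) hj 0 (Nat.zero_le _) h2
    omega
  have h2 : vv c₀ c₀ L ≠ 0 := by
    rw [h.opp]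
    exact neg_ne_zero.2 (h1 k h.lt)
  have hlt := h.lt
  have hper : ∀ i, vv c₀ c₀ (L + 1 + i) = vv c₀ c₀ (k + 1 + i) := by
    intro i
    induction i with
    | zero =>
      rw [add_zero, add_zero, vv_succ, vv_succ, h.opp]
      ring
    | succ i ih =>
      rw [← add_assoc, ← add_assoc, vv_succ, ih, vv_succ]
  induction j using Nat.strong_induction_on with
  | _ j ih =>
    rcases lt_trichotomy j L with h3 | h3 | h3
    · exact h1 j h3
    · rw [h3]
      exact h2
    · have h4 := hper (j - (L + 1))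
      rw [show L + 1 + (j - (L + 1)) = j by omega] at h4
      rw [h4]
      exact ih _ (by omega)

open Polynomial in
/-- the iterates as polynomials -/
noncomputable def pv (c : ℂ) : ℕ → ℂ[X]
  | 0 => X
  | j + 1 => pv c j ^ 2 + C c

open Polynomial in
theorem pv_eval (c v : ℂ) (j : ℕ) : (pv c j).eval v = vv c v j := by
  induction j with
  | zero => simp [pv, vv_zero]
  | succ j ih => rw [pv, eval_add, eval_pow, ih, eval_C, vv_succ]

open Polynomial in
theorem pv_deriv (c v : ℂ) (j : ℕ) :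
    (derivative (pv c j)).eval v = ∏ i ∈ Finset.range j, (2 * vv c v i) := by
  induction j with
  | zero => simp [pv]
  | succ j ih =>
    rw [pv, derivative_add, derivative_C, add_zero, derivative_sq, eval_mul, eval_mul, ih,
      Finset.prod_range_succ, pv_eval, eval_C]
    ring

open Polynomial in
theorem pv_deg (c : ℂ) (j : ℕ) : (pv c j).natDegree ≤ 2 ^ j := by
  induction j with
  | zero => simp [pv]
  | succ j ih =>
    rw [pv]
    refine (natDegree_add_le _ _).trans (max_le ?_ ?_)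
    · refine natDegree_pow_le.trans ?_
      rw [pow_succ]
      omega
    · rw [natDegree_C]
      exact Nat.zero_le _

open Polynomial in
/-- a root near a point where the derivative does not vanish -/
theorem root_near (p : ℂ[X]) (D : ℕ) (hD : p.natDegree ≤ D) (a : ℂ)
    (hd : (derivative p).eval a ≠ 0) :
    ∃ r, p.eval r = 0 ∧ ‖r - a‖ ≤ D * (‖p.eval a‖ / ‖(derivative p).eval a‖) := by
  by_cases h0 : p.eval a = 0
  · exact ⟨a, h0, by rw [sub_self, norm_zero]; positivity⟩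
  by_contra hcon
  push Not at hcon
  have hp0 : p ≠ 0 := by
    rintro rfl
    simp at h0
  have h1 := (IsAlgClosed.splits p).eval_derivative_div_eval_of_ne_zero h0
  have hpa : 0 < ‖p.eval a‖ := norm_pos_iff.2 h0
  have hda : 0 < ‖(derivative p).eval a‖ := norm_pos_iff.2 hd
  set B : ℝ := D * (‖p.eval a‖ / ‖(derivative p).eval a‖) with hB
  have hcard : (p.roots.card : ℝ) ≤ D := by
    exact_mod_cast (card_roots' p).trans hD
  have hne : p.roots ≠ 0 := by
    intro h
    rw [h] at h1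
    simp at h1
    rcases h1 with h1 | h1
    · exact hd h1
    · exact h0 h1
  obtain ⟨r0, hr0⟩ := Multiset.exists_mem_of_ne_zero hne
  have hD0 : 0 < (D : ℝ) := by
    refine lt_of_lt_of_le ?_ hcard
    have : 0 < p.roots.card := Multiset.card_pos.2 hne
    exact_mod_cast this
  have hB0 : 0 < B := by positivity
  have h2 : ‖(p.roots.map fun z => 1 / (a - z)).sum‖ < D * B⁻¹ := by
    have h3 : ‖(p.roots.map fun z => 1 / (a - z)).sum‖ ≤
        (p.roots.map fun z => ‖1 / (a - z)‖).sum := by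
      refine (norm_multiset_sum_le _).trans (le_of_eq ?_)
      rw [Multiset.map_map]
      rfl
    have h4 : (p.roots.map fun z => ‖1 / (a - z)‖).sum < (p.roots.map fun _ => B⁻¹).sum := by
      refine Multiset.sum_lt_sum_of_nonempty hne fun z hz => ?_
      have hz' : p.eval z = 0 := (mem_roots'.1 hz).2
      have h5 := hcon z hz'
      rw [norm_div, norm_one, one_div, norm_sub_rev]
      exact inv_strictAnti₀ hB0 h5
    have h6 : (p.roots.map fun _ => B⁻¹).sum = p.roots.card * B⁻¹ := by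
      rw [Multiset.map_const', Multiset.sum_replicate, nsmul_eq_mul]
    calc _ ≤ _ := h3
      _ < _ := h4
      _ = _ := h6
      _ ≤ D * B⁻¹ := mul_le_mul_of_nonneg_right hcard (by positivity)
  rw [← h1, norm_div] at h2
  rw [hB, mul_inv, ← mul_assoc, mul_inv_cancel₀ hD0.ne', one_mul, inv_div] at h2
  exact lt_irrefl _ h2

theorem vv_cont (j : ℕ) : Continuous fun p : ℂ × ℂ => vv p.1 p.2 j := by
  induction j with
  | zero =>
    simp only [vv_zero]
    exact continuous_snd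
  | succ j ih =>
    simp only [vv_succ]
    exact (ih.pow 2).add continuous_fst

theorem vv_diff (v : ℂ) (j : ℕ) : Differentiable ℂ fun c : ℂ => vv c v j := by
  induction j with
  | zero =>
    simp only [vv_zero]
    exact differentiable_const _
  | succ j ih =>
    simp only [vv_succ]
    exact (ih.pow 2).add differentiable_id

open Polynomial in
/-- persistence of the preperiodic point -/
theorem cont {L k : ℕ} {c₀ : ℂ} (h : Orb L k c₀ c₀)
    (hmu : 1 < ‖∏ j ∈ Finset.Icc (k + 1) L, (2 * vv c₀ c₀ j)‖) :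
    ∃ ρ C : ℝ, 0 < ρ ∧ 0 < C ∧ ∀ c : ℂ, ‖c - c₀‖ ≤ ρ →
      ∃ v : ℂ, ‖v - c₀‖ ≤ C * ‖c - c₀‖ ∧ Orb L k c v := by
  have hlt := h.lt
  let P : ℂ → ℂ[X] := fun c => pv c L + pv c k
  have hPe : ∀ c v, (P c).eval v = vv c v L + vv c v k := fun c v => by
    simp only [P]
    rw [eval_add, pv_eval, pv_eval]
  have hPd : ∀ c v, (derivative (P c)).eval v =
      ∏ i ∈ Finset.range L, (2 * vv c v i) + ∏ i ∈ Finset.range k, (2 * vv c v i) := fun c v => by
    simp only [P]
    rw [derivative_add, eval_add, pv_deriv, pv_deriv]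
  have hdeg : ∀ c, (P c).natDegree ≤ 2 ^ L := fun c =>
    (natDegree_add_le _ _).trans (max_le (pv_deg c L)
      ((pv_deg c k).trans (Nat.pow_le_pow_right (by norm_num) hlt.le)))
  -- the derivative at the base point
  have hd0 : (derivative (P c₀)).eval c₀ ≠ 0 := by
    rw [hPd]
    have e1 : ∏ i ∈ Finset.range L, (2 * vv c₀ c₀ i) =
        (∏ i ∈ Finset.range k, (2 * vv c₀ c₀ i)) * ∏ i ∈ Finset.Ico k L, (2 * vv c₀ c₀ i) :=
      (Finset.prod_range_mul_prod_Ico _ hlt.le).symm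
    have e2 : ∏ i ∈ Finset.Ico k L, (2 * vv c₀ c₀ i) =
        (2 * vv c₀ c₀ k) * ∏ i ∈ Finset.Ico (k + 1) L, (2 * vv c₀ c₀ i) :=
      Finset.prod_eq_prod_Ico_succ_bot hlt _
    have e3 : ∏ i ∈ Finset.Icc (k + 1) L, (2 * vv c₀ c₀ i) =
        (∏ i ∈ Finset.Ico (k + 1) L, (2 * vv c₀ c₀ i)) * (2 * vv c₀ c₀ L) := by
      have : Finset.Icc (k + 1) L = Finset.Ico (k + 1) (L + 1) := by
        ext i
        simp only [Finset.mem_Icc, Finset.mem_Ico]
        omega
      rw [this, Finset.prod_Ico_succ_top (by omega)]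
    have e4 : ∏ i ∈ Finset.Ico k L, (2 * vv c₀ c₀ i) =
        - ∏ i ∈ Finset.Icc (k + 1) L, (2 * vv c₀ c₀ i) := by
      rw [e2, e3, h.opp]
      ring
    rw [e1, e4]
    have e5 : (∏ i ∈ Finset.range k, (2 * vv c₀ c₀ i)) *
        (-∏ i ∈ Finset.Icc (k + 1) L, (2 * vv c₀ c₀ i)) + ∏ i ∈ Finset.range k, (2 * vv c₀ c₀ i) =
        (∏ i ∈ Finset.range k, (2 * vv c₀ c₀ i)) *
          (1 - ∏ i ∈ Finset.Icc (k + 1) L, (2 * vv c₀ c₀ i)) := by ring
    rw [e5]
    refine mul_ne_zero ?_ ?_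
    · rw [Finset.prod_ne_zero_iff]
      intro i _
      exact mul_ne_zero two_ne_zero (vv_ne_zero h i)
    · intro h0
      rw [sub_eq_zero] at h0
      rw [← h0, norm_one] at hmu
      exact lt_irrefl _ hmu
  have hP0 : (P c₀).eval c₀ = 0 := by
    rw [hPe, h.opp]
    ring
  set A : ℝ := ‖(derivative (P c₀)).eval c₀‖ with hA
  have hA0 : 0 < A := norm_pos_iff.2 hd0
  -- near the base point
  have hdc : Continuous fun c => ‖(derivative (P c)).eval c₀‖ := by
    simp only [hPd]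
    have hv : ∀ i, Continuous fun c : ℂ => vv c c₀ i := fun i =>
      (vv_cont i).comp (continuous_id.prodMk continuous_const)
    refine Continuous.norm (Continuous.add ?_ ?_) <;>
      exact continuous_finsetProd _ fun i _ => continuous_const.mul (hv i)
  have hev1 : ∀ᶠ c in nhds c₀, A / 2 < ‖(derivative (P c)).eval c₀‖ := by
    refine hdc.continuousAt.eventually_const_lt ?_
    show A / 2 < A
    linarith
  have hdiff : DifferentiableAt ℂ (fun c => (P c).eval c₀) c₀ := by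
    simp only [hPe]
    exact ((vv_diff c₀ L).add (vv_diff c₀ k)).differentiableAt
  obtain ⟨K, hK0, hK⟩ := hdiff.isBigO_sub.exists_pos
  have hev2 : ∀ᶠ c in nhds c₀, ‖(P c).eval c₀‖ ≤ K * ‖c - c₀‖ := by
    filter_upwards [hK.bound] with c hc
    rwa [hP0, sub_zero] at hc
  -- distinctness
  have hev3 : ∀ᶠ p : ℂ × ℂ in nhds (c₀, c₀), ∀ i ∈ Finset.range (L + 1),
      ∀ j ∈ Finset.range (L + 1), i ≠ j → vv p.1 p.2 i ≠ vv p.1 p.2 j := by
    rw [Filter.eventually_all_finset]
    intro i hi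
    rw [Filter.eventually_all_finset]
    intro j hj
    by_cases hij : i = j
    · exact Filter.Eventually.of_forall fun p hne => absurd hij hne
    · have h1 : vv c₀ c₀ i ≠ vv c₀ c₀ j := fun h2 =>
        hij (h.inj i (by rw [Finset.mem_range] at hi; omega) j
          (by rw [Finset.mem_range] at hj; omega) h2)
      have h2 : ∀ᶠ p : ℂ × ℂ in nhds (c₀, c₀), vv p.1 p.2 i - vv p.1 p.2 j ≠ 0 :=
        ((vv_cont i).sub (vv_cont j)).continuousAt.eventually_ne (sub_ne_zero.2 h1)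
      exact h2.mono fun p hp _ => sub_ne_zero.1 hp
  obtain ⟨ε1, hε1, h1⟩ := Metric.eventually_nhds_iff.1 hev1
  obtain ⟨ε2, hε2, h2⟩ := Metric.eventually_nhds_iff.1 hev2
  obtain ⟨ε3, hε3, h3⟩ := Metric.eventually_nhds_iff.1 hev3
  set C' : ℝ := ((2 ^ L : ℕ) : ℝ) * (K / (A / 2)) with hC
  have hC0 : 0 < C' := by positivity
  refine ⟨min (min (ε1 / 2) (ε2 / 2)) (min (ε3 / 2) (ε3 / 2 / C')), C', ?_, hC0, ?_⟩
  · exact lt_min (lt_min (by linarith) (by linarith)) (lt_min (by linarith) (by positivity))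
  intro c hc
  have hc1 : ‖c - c₀‖ < ε1 := by
    have := hc.trans ((min_le_left _ _).trans (min_le_left _ _))
    linarith
  have hc2 : ‖c - c₀‖ < ε2 := by
    have := hc.trans ((min_le_left _ _).trans (min_le_right _ _))
    linarith
  have hc3 : ‖c - c₀‖ < ε3 := by
    have := hc.trans ((min_le_right _ _).trans (min_le_left _ _))
    linarith
  have hc4 : C' * ‖c - c₀‖ < ε3 := by
    have h5 := hc.trans ((min_le_right _ _).trans (min_le_right _ _))
    rw [le_div_iff₀ hC0] at h5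
    linarith
  have hd : A / 2 < ‖(derivative (P c)).eval c₀‖ := h1 (by rw [dist_eq_norm]; exact hc1)
  have hb : ‖(P c).eval c₀‖ ≤ K * ‖c - c₀‖ := h2 (by rw [dist_eq_norm]; exact hc2)
  have hdne : (derivative (P c)).eval c₀ ≠ 0 := by
    intro h0
    rw [h0, norm_zero] at hd
    linarith
  obtain ⟨v, hv, hv'⟩ := root_near (P c) (2 ^ L) (hdeg c) c₀ hdne
  have hvb : ‖v - c₀‖ ≤ C' * ‖c - c₀‖ := by
    refine hv'.trans ?_
    rw [hC, mul_assoc]
    refine mul_le_mul_of_nonneg_left ?_ (by positivity)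
    calc ‖(P c).eval c₀‖ / ‖(derivative (P c)).eval c₀‖
        ≤ (K * ‖c - c₀‖) / (A / 2) := by
          exact div_le_div₀ (by positivity) hb (by positivity) hd.le
      _ = K / (A / 2) * ‖c - c₀‖ := by ring
  refine ⟨v, hvb, hlt, ?_, ?_⟩
  · have h6 := h3 (y := (c, v)) (by
      rw [Prod.dist_eq, max_lt_iff, dist_eq_norm, dist_eq_norm]
      exact ⟨hc3, lt_of_le_of_lt hvb hc4⟩)
    intro i hi j hj hij
    by_contra hne
    exact h6 i (by rw [Finset.mem_range]; omega) j (by rw [Finset.mem_range]; omega) hne hij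
  · rw [hPe] at hv
    exact eq_neg_of_add_eq_zero_left hv

end Pool.Agent.TH554.J1684
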