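import Mathlib
import Pool.Agent.TH278.Defs
set_option autoImplicit false

namespace Pool.Agent.TH554.J639

open MeasureTheory Set Complex
open scoped ENNReal RealInnerProductSpace
open Pool.Agent.TH278
open Pool.Agent.H438R2.RZ (e Good ft Pl Bump mA mC Arc Win sl SL Bk gA TR)
open Pool.Agent.H789R2.FR (E)

theorem e_norm (x : ℝ) : ‖e x‖ = 1 := by
  unfold e
  exact Complex.norm_exp_ofReal_mul_I _

theorem e_cont : Continuous e := by
  unfold e
  fun_prop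

theorem e_add (x y : ℝ) : e (x + y) = e x * e y := by
  unfold e
  rw [← Complex.exp_add]
  push_cast
  ring_nf

theorem M_int (n : ℕ) (M : ℝ → ℝ) (hM : Continuous M) (hM2 : ∀ u, 2 < u → M u = 0) :
    Integrable (fun ξ : E n => ((M (‖ξ‖ ^ 2) : ℝ) : ℂ)) := by
  refine Continuous.integrable_of_hasCompactSupport (by fun_prop) ?_
  refine HasCompactSupport.intro (isCompact_closedBall (0 : E n) 2) ?_
  intro ξ hξ
  have h1 : 2 < ‖ξ‖ := by
    simpa using hξ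
  have h2 : M (‖ξ‖ ^ 2) = 0 := hM2 _ (by nlinarith)
  rw [h2]
  simp

/-- splitting of radial multiplier operators -/
theorem TR_split {n : ℕ} (M : ℝ → ℝ) (hM : Continuous M) (hM2 : ∀ u, 2 < u → M u = 0)
    {X₁ X₂ : Type} [MeasureSpace X₁] [MeasureSpace X₂]
    [SigmaFinite (volume : Measure X₁)] [SigmaFinite (volume : Measure X₂)]
    (ι : X₁ × X₂ ≃ᵐ E n) (hι : MeasurePreserving ι volume volume)
    (b₁ : X₁ → X₁ → ℝ) (b₂ : X₂ → X₂ → ℝ) (q₁ : X₁ → ℝ) (q₂ : X₂ → ℝ)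
    (hb : ∀ x y : X₁ × X₂, (⟪ι x, ι y⟫ : ℝ) = b₁ x.1 y.1 + b₂ x.2 y.2)
    (hb₁ : Measurable (Function.uncurry b₁)) (hb₂ : Measurable (Function.uncurry b₂))
    (hq : ∀ x : X₁ × X₂, ‖ι x‖ ^ 2 = q₁ x.1 + q₂ x.2)
    (f : E n → ℂ) (hfm : Measurable f) (hf : Integrable f) (x₁ : X₁) (x₂ : X₂) :
    TR n M f (ι (x₁, x₂)) = ∫ ζ : X₂, (∫ ξ : X₁, ((M (q₁ ξ + q₂ ζ) : ℝ) : ℂ) *
      (∫ y₁ : X₁, e (-(b₁ y₁ ξ)) * (∫ y₂ : X₂, e (-(b₂ y₂ ζ)) * f (ι (y₁, y₂)))) *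
        e (b₁ x₁ ξ)) * e (b₂ x₂ ζ) := by
  have hMi := M_int n M hM hM2
  -- the Fourier integral
  let F : E n → ℂ := fun ξ => ∫ y : E n, e (-(⟪y, ξ⟫ : ℝ)) * f y
  have hFm : Measurable F := by
    have : StronglyMeasurable (Function.uncurry (fun (ξ y : E n) => e (-(⟪y, ξ⟫ : ℝ)) * f y)) := by
      refine Measurable.stronglyMeasurable ?_
      refine Measurable.mul ?_ (hfm.comp measurable_snd)
      exact (e_cont.comp (by fun_prop)).measurable
    exact this.integral_prod_right.measurable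
  have hFb : ∀ ξ, ‖F ξ‖ ≤ ∫ y, ‖f y‖ := by
    intro ξ
    refine (norm_integral_le_integral_norm _).trans (le_of_eq ?_)
    refine integral_congr_ae (ae_of_all _ fun y => ?_)
    simp [e_norm]
  let Φ : E n → ℂ := fun ξ => ((M (‖ξ‖ ^ 2) : ℝ) : ℂ) * F ξ * e (⟪ι (x₁, x₂), ξ⟫ : ℝ)
  have hΦi : Integrable Φ := by
    refine Integrable.mul_bdd (c := 1) (hMi.mul_bdd (c := ∫ y, ‖f y‖) hFm.aestronglyMeasurable
      (ae_of_all _ hFb)) ?_ (ae_of_all _ fun ξ => (e_norm _).le)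
    exact (e_cont.comp (by fun_prop)).aestronglyMeasurable
  have hfι : Integrable (fun p : X₁ × X₂ => f (ι p)) ((volume : Measure X₁).prod volume) :=
    (hι.integrable_comp_emb ι.measurableEmbedding).2 hf
  -- the Fourier integral in product coordinates
  have hFι : ∀ p : X₁ × X₂, F (ι p) =
      ∫ y₁ : X₁, e (-(b₁ y₁ p.1)) * (∫ y₂ : X₂, e (-(b₂ y₂ p.2)) * f (ι (y₁, y₂))) := by
    intro p
    have h1 : F (ι p) = ∫ y : X₁ × X₂, e (-(⟪ι y, ι p⟫ : ℝ)) * f (ι y) := by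
      exact (hι.integral_comp ι.measurableEmbedding (fun y => e (-(⟪y, ι p⟫ : ℝ)) * f y)).symm
    rw [h1]
    have h2 : Integrable (fun y : X₁ × X₂ => e (-(b₁ y.1 p.1 + b₂ y.2 p.2)) * f (ι y))
        ((volume : Measure X₁).prod volume) := by
      refine hfι.bdd_mul (c := 1) ?_ (ae_of_all _ fun ξ => (e_norm _).le)
      refine Measurable.aestronglyMeasurable ?_
      refine e_cont.measurable.comp (Measurable.neg (Measurable.add ?_ ?_))
      · exact hb₁.comp (measurable_fst.prodMk measurable_const)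
      · exact hb₂.comp (measurable_snd.prodMk measurable_const)
    simp_rw [hb]
    rw [Measure.volume_eq_prod, integral_prod _ h2]
    refine integral_congr_ae (ae_of_all _ fun y₁ => ?_)
    simp only
    rw [← integral_const_mul]
    refine integral_congr_ae (ae_of_all _ fun y₂ => ?_)
    simp only
    rw [neg_add, e_add]
    ring
  have h3 : TR n M f (ι (x₁, x₂)) = ∫ p : X₁ × X₂, Φ (ι p) :=
    (hι.integral_comp ι.measurableEmbedding Φ).symm
  rw [h3]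
  have h4 : Integrable (fun p : X₁ × X₂ => Φ (ι p)) ((volume : Measure X₁).prod volume) :=
    (hι.integrable_comp_emb ι.measurableEmbedding).2 hΦi
  rw [Measure.volume_eq_prod, integral_prod_symm _ h4]
  refine integral_congr_ae (ae_of_all _ fun ζ => ?_)
  simp only
  rw [← integral_mul_const]
  refine integral_congr_ae (ae_of_all _ fun ξ => ?_)
  simp only [Φ]
  rw [hFι, hb, hq, e_add]
  ring

/-- coordinates: one variable and the others -/
theorem ins_equiv (m : ℕ) (i : Fin (m + 1)) : ∃ ι : ℝ × E m ≃ᵐ E (m + 1),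
    (∀ x, ι x = ins i x.1 x.2) ∧ MeasurePreserving ι volume volume ∧
    (∀ x y : ℝ × E m, (⟪ι x, ι y⟫ : ℝ) = x.1 * y.1 + (⟪x.2, y.2⟫ : ℝ)) ∧
    (∀ x : ℝ × E m, ‖ι x‖ ^ 2 = x.1 ^ 2 + ‖x.2‖ ^ 2) := by
  let ι₁ : ℝ × E m ≃ᵐ ℝ × (Fin m → ℝ) :=
    MeasurableEquiv.prodCongr (MeasurableEquiv.refl ℝ) (MeasurableEquiv.toLp 2 (Fin m → ℝ)).symm
  let ι₂ : (Fin (m + 1) → ℝ) ≃ᵐ ℝ × (Fin m → ℝ) := MeasurableEquiv.piFinSuccAbove (fun _ => ℝ) i
  let ι₃ : (Fin (m + 1) → ℝ) ≃ᵐ E (m + 1) := MeasurableEquiv.toLp 2 (Fin (m + 1) → ℝ)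
  let ι : ℝ × E m ≃ᵐ E (m + 1) := (ι₁.trans ι₂.symm).trans ι₃
  have hι : ∀ x, ι x = ins i x.1 x.2 := fun x => rfl
  have hin : ∀ x y : ℝ × E m, (⟪ι x, ι y⟫ : ℝ) = x.1 * y.1 + (⟪x.2, y.2⟫ : ℝ) := by
    intro x y
    rw [hι, hι]
    unfold ins
    simp only [PiLp.inner_apply, RCLike.inner_apply, conj_trivial]
    rw [Fin.sum_univ_succAbove _ i]
    simp [mul_comm]
  refine ⟨ι, hι, ?_, hin, ?_⟩
  · have h1 : MeasurePreserving ι₁ volume volume := by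
      exact (MeasurePreserving.id volume).prod (EuclideanSpace.volume_preserving_symm_measurableEquiv_toLp (Fin m))
    have h2 : MeasurePreserving ι₂ volume volume := volume_preserving_piFinSuccAbove (fun _ => ℝ) i
    have h3 : MeasurePreserving ι₃ volume volume := PiLp.volume_preserving_toLp (Fin (m + 1))
    exact h3.comp ((MeasurePreserving.symm _ h2).comp h1)
  · intro x
    rw [← real_inner_self_eq_norm_sq, ← real_inner_self_eq_norm_sq, hin, sq]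

/-- coordinates: two variables and the others -/
theorem inp_equiv (k : ℕ) : ∃ ι : (ℝ × ℝ) × E k ≃ᵐ E (k + 2),
    (∀ x, ι x = inp x.1 x.2) ∧ MeasurePreserving ι volume volume ∧
    (∀ x y : (ℝ × ℝ) × E k, (⟪ι x, ι y⟫ : ℝ) = (x.1.1 * y.1.1 + x.1.2 * y.1.2) + (⟪x.2, y.2⟫ : ℝ)) ∧
    (∀ x : (ℝ × ℝ) × E k, ‖ι x‖ ^ 2 = (x.1.1 ^ 2 + x.1.2 ^ 2) + ‖x.2‖ ^ 2) := by
  obtain ⟨ι₁, a1, a2, a3, a4⟩ := ins_equiv k 0
  obtain ⟨ι₂, b1, b2, b3, b4⟩ := ins_equiv (k + 1) 0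
  let ι₃ : ℝ × ℝ × E k ≃ᵐ ℝ × E (k + 1) := MeasurableEquiv.prodCongr (MeasurableEquiv.refl ℝ) ι₁
  let ι : (ℝ × ℝ) × E k ≃ᵐ E (k + 2) := (MeasurableEquiv.prodAssoc.trans ι₃).trans ι₂
  have hι : ∀ x, ι x = ι₂ (x.1.1, ι₁ (x.1.2, x.2)) := fun x => rfl
  refine ⟨ι, ?_, ?_, ?_, ?_⟩
  · intro x
    rw [hι, b1, a1]
    unfold ins inp
    ext j
    refine Fin.cases ?_ (fun j => ?_) j
    · simp
    · refine Fin.cases ?_ (fun j => ?_) j
      · simp
      · simp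
  · have h1 : MeasurePreserving ι₃ volume volume := (MeasurePreserving.id volume).prod a2
    exact b2.comp (h1.comp volume_preserving_prodAssoc)
  · intro x y
    rw [hι, hι, b3, a3]
    ring
  · intro x
    rw [hι, b4, a4]
    ring

end Pool.Agent.TH554.J639
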