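import Pool.Agent.TH554.CLR.C
set_option autoImplicit false

/-!
# Radially decreasing functions (job 2329)
-/

open MeasureTheory Set Filter
open scoped ENNReal Pointwise

namespace Pool.Agent.TH554.CLR
open Pool.Agent.TH280.LS

theorem ftm_shift {m : ℕ} (b : ℂ) (c : Fin m → ℝ) (F : ℝ → ℝ) (η : Fin m → ℝ) :
    ftm m (fun y => b * ((F (nr (y - c)) : ℝ) : ℂ)) η =
      b * (e (-(∑ i, c i * η i)) * ftm m (fun y => ((F (nr y) : ℝ) : ℂ)) η) := by
  unfold ftm
  rw [← integral_const_mul, ← integral_const_mul]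
  rw [← integral_add_right_eq_self _ c]
  refine integral_congr_ae (Filter.Eventually.of_forall fun y => ?_)
  show e (-(∑ i, (y + c) i * η i)) * (b * ((F (nr (y + c - c)) : ℝ) : ℂ)) =
    b * (e (-(∑ i, c i * η i)) * (e (-(∑ i, y i * η i)) * ((F (nr y) : ℝ) : ℂ)))
  rw [add_sub_cancel_right]
  have h1 : (-(∑ i, (y + c) i * η i)) = (-(∑ i, c i * η i)) + (-(∑ i, y i * η i)) := by
    simp only [Pi.add_apply, add_mul, Finset.sum_add_distrib]
    ring
  rw [h1, e_add]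
  ring

theorem clr_thm : S_BALL → S_CLR := by
  intro hball m p hm hp hp'
  have hm0 : 0 < m := by omega
  have hp0 : 0 < p := by linarith
  obtain ⟨CB, hCB, hb⟩ := hball m hm0
  obtain ⟨CS, hCS, hs⟩ := schur hm p hp hp'
  have hCfin : KC m CB ^ p * CS < ⊤ :=
    ENNReal.mul_lt_top (ENNReal.rpow_lt_top_of_nonneg hp0.le (KC_fin CB).ne) hCS
  refine ⟨(KC m CB ^ p * CS).toReal + 1, by positivity, ?_⟩
  intro b c F hF hint
  by_cases hb0 : b = 0
  · subst hb0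
    have h1 : ∀ η : Fin m → ℝ, ftm m (fun y => (0 : ℂ) * ((F (nr (y - c)) : ℝ) : ℂ)) η = 0 := by
      intro η
      rw [ftm_shift, zero_mul]
    simp only [h1, enorm_zero]
    rw [ENNReal.zero_rpow_of_pos hp0]
    simp
  -- the function on the line
  set g : ℝ → ℝ := fun r => F (max r 0) with hg
  have hga : Antitone g := by
    intro r r' hrr'
    exact hF (Set.mem_Ici.mpr (le_max_right r 0)) (Set.mem_Ici.mpr (le_max_right r' 0))
      (max_le_max hrr' le_rfl)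
  have hgF : ∀ y : Fin m → ℝ, F (nr y) = g (nr y) := by
    intro y
    rw [hg]
    show F (nr y) = F (max (nr y) 0)
    rw [max_eq_left (nr_nonneg y)]
  have hint1 : Integrable (fun y : Fin m → ℝ => ((F (nr y) : ℝ) : ℂ)) := by
    have h1 := (hint.const_mul b⁻¹).comp_add_right c
    refine h1.congr (Filter.Eventually.of_forall fun y => ?_)
    show b⁻¹ * (b * ((F (nr (y + c - c)) : ℝ) : ℂ)) = ((F (nr y) : ℝ) : ℂ)
    rw [add_sub_cancel_right, ← mul_assoc, inv_mul_cancel₀ hb0, one_mul]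
  have hint2 : Integrable (fun y : Fin m → ℝ => g (nr y)) := by
    have h1 := hint1.re
    refine h1.congr (Filter.Eventually.of_forall fun y => ?_)
    show RCLike.re ((F (nr y) : ℝ) : ℂ) = g (nr y)
    rw [← hgF y]
    rfl
  have hg0 : ∀ r, 0 ≤ r → 0 ≤ g r := by
    intro r0 _
    by_contra hcon
    push Not at hcon
    apply no_lower hm0 _ hint2 r0 (-(g r0)) (by linarith)
    intro y hy
    have h1 := hga hy
    rw [Real.norm_of_nonpos (by linarith)]
    linarith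
  have hgm : Measurable (fun y : Fin m → ℝ => g (nr y)) := hga.measurable.comp measurable_nr
  have hlay := fun η => layer hm0 CB hCB hb g hga hint2 hg0 η
  -- the right-hand side
  have hRHS : ∫⁻ y : Fin m → ℝ, ‖b * ((F (nr (y - c)) : ℝ) : ℂ)‖ₑ ^ p =
      ‖b‖ₑ ^ p * ∫⁻ y : Fin m → ℝ, ENNReal.ofReal (g (nr y)) ^ p := by
    rw [lintegral_sub_right_eq_self (fun y : Fin m → ℝ => ‖b * ((F (nr y) : ℝ) : ℂ)‖ₑ ^ p) c,
      ← lintegral_const_mul' _ _ (ENNReal.rpow_lt_top_of_nonneg hp0.le enorm_lt_top.ne).ne]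
    refine lintegral_congr fun y => ?_
    rw [enorm_mul, ENNReal.mul_rpow_of_nonneg _ _ hp0.le, hgF y]
    congr 2
    rw [← ofReal_norm, Complex.norm_real, Real.norm_of_nonneg (hg0 _ (nr_nonneg y))]
  rw [hRHS]
  have hfe : (fun y : Fin m → ℝ => ((F (nr y) : ℝ) : ℂ)) = fun y => ((g (nr y) : ℝ) : ℂ) := by
    funext y
    rw [hgF y]
  have hbp : ‖b‖ₑ ^ p ≠ ⊤ := (ENNReal.rpow_lt_top_of_nonneg hp0.le enorm_lt_top.ne).ne
  have hKp : KC m CB ^ p ≠ ⊤ := (ENNReal.rpow_lt_top_of_nonneg hp0.le (KC_fin CB).ne).ne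
  calc ∫⁻ η : Fin m → ℝ, ENNReal.ofReal ((nr η ^ m) ^ (p - 2)) *
      ‖ftm m (fun y => b * ((F (nr (y - c)) : ℝ) : ℂ)) η‖ₑ ^ p
      ≤ ∫⁻ η : Fin m → ℝ, (‖b‖ₑ ^ p * KC m CB ^ p) *
          (ENNReal.ofReal ((nr η ^ m) ^ (p - 2)) *
            (∫⁻ y : Fin m → ℝ, ENNReal.ofReal (g (nr y)) * KK m y η) ^ p) := by
        refine lintegral_mono fun η => ?_
        have h1 : ‖ftm m (fun y => b * ((F (nr (y - c)) : ℝ) : ℂ)) η‖ₑ ≤
            ‖b‖ₑ * (KC m CB * ∫⁻ y : Fin m → ℝ, ENNReal.ofReal (g (nr y)) * KK m y η) := by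
          rw [ftm_shift, enorm_mul, enorm_mul]
          have h2 : ‖e (-(∑ i, c i * η i))‖ₑ = 1 := by
            rw [← ofReal_norm, norm_e, ENNReal.ofReal_one]
          rw [h2, one_mul, hfe]
          exact mul_le_mul' le_rfl (hlay η)
        have h3 := ENNReal.rpow_le_rpow h1 hp0.le
        rw [ENNReal.mul_rpow_of_nonneg _ _ hp0.le, ENNReal.mul_rpow_of_nonneg _ _ hp0.le] at h3
        refine (mul_le_mul' le_rfl h3).trans (le_of_eq ?_)
        ring
    _ = (‖b‖ₑ ^ p * KC m CB ^ p) * ∫⁻ η : Fin m → ℝ,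
          (ENNReal.ofReal ((nr η ^ m) ^ (p - 2)) *
            (∫⁻ y : Fin m → ℝ, ENNReal.ofReal (g (nr y)) * KK m y η) ^ p) := by
        rw [lintegral_const_mul' _ _ (ENNReal.mul_ne_top hbp hKp)]
    _ ≤ (‖b‖ₑ ^ p * KC m CB ^ p) * (CS *
          ∫⁻ y : Fin m → ℝ, ENNReal.ofReal (g (nr y)) ^ p) :=
        mul_le_mul' le_rfl (hs _ (ENNReal.measurable_ofReal.comp hgm))
    _ = (KC m CB ^ p * CS) * (‖b‖ₑ ^ p *
          ∫⁻ y : Fin m → ℝ, ENNReal.ofReal (g (nr y)) ^ p) := by ring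
    _ ≤ ENNReal.ofReal ((KC m CB ^ p * CS).toReal + 1) * (‖b‖ₑ ^ p *
          ∫⁻ y : Fin m → ℝ, ENNReal.ofReal (g (nr y)) ^ p) := by
        refine mul_le_mul' ?_ le_rfl
        conv_lhs => rw [← ENNReal.ofReal_toReal hCfin.ne]
        exact ENNReal.ofReal_le_ofReal (by linarith)

end Pool.Agent.TH554.CLR
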