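import Mathlib
import Pool.Agent.TH72.CF.Defs

/-!
The counting lemma: many separating conjugates of a short tuple give a distinguishing 2-colouring.
-/

set_option autoImplicit false
set_option linter.unusedSectionVars false

namespace Pool.Agent.TH554.J545

open Pool.Agent.TH72.CF Equiv Finset
open scoped Classical

variable {Δ : Type} [Fintype Δ] [DecidableEq Δ]

theorem exists_indep (h : Perm Δ) : ∃ S : Finset Δ, (∀ x ∈ S, h x ∉ S) ∧
    h.support.card ≤ 3 * S.card := by
  have hex : ((univ : Finset (Finset Δ)).filter (fun S => ∀ x ∈ S, h x ∉ S)).Nonempty :=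
    ⟨∅, by simp⟩
  obtain ⟨S, hS, hmax⟩ := exists_max_image _ card hex
  rw [mem_filter] at hS
  refine ⟨S, hS.2, ?_⟩
  have hcov : h.support ⊆ S ∪ (S.image h ∪ S.image h.symm) := by
    intro y hy
    by_contra hcon
    simp only [mem_union, mem_image, not_or, not_exists, not_and] at hcon
    obtain ⟨h1, h2, h3⟩ := hcon
    have h4 := hmax (insert y S) (by
      rw [mem_filter]
      refine ⟨mem_univ _, ?_⟩
      intro x hx
      rw [mem_insert] at hx ⊢
      rcases hx with rfl | hx
      · rintro (h5 | h5)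
        · exact (Perm.mem_support.1 hy) h5
        · exact h3 _ h5 (by simp)
      · rintro (h5 | h5)
        · exact h2 x hx h5
        · exact hS.2 x hx h5)
    rw [card_insert_of_notMem h1] at h4
    omega
  have e1 := card_le_card hcov
  have e2 := card_union_le S (S.image h ∪ S.image h.symm)
  have e3 := card_union_le (S.image h) (S.image h.symm)
  have e4 : (S.image h).card ≤ S.card := card_image_le
  have e5 : (S.image h.symm).card ≤ S.card := card_image_le
  omega

theorem count_col (h : Perm Δ) (b : Bool) :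
    ((univ.filter (fun α : Δ → Bool => ∀ x, α (h x) = xor (α x) b)).card : ℝ) ≤
      2 ^ Fintype.card Δ * (2 : ℝ) ^ (-((h.support.card : ℝ) / 3)) := by
  obtain ⟨S, hS, hs⟩ := exists_indep h
  have h1 : (univ.filter (fun α : Δ → Bool => ∀ x, α (h x) = xor (α x) b)).card ≤
      (univ : Finset ({x // x ∈ Sᶜ} → Bool)).card := by
    refine card_le_card_of_injOn (fun α x => α x.1) (fun _ _ => mem_univ _) ?_
    intro α hα β hβ hαβ
    simp only [coe_filter, mem_univ, true_and, Set.mem_ofPred_eq] at hα hβ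
    have hoff : ∀ x, x ∉ S → α x = β x := fun x hx =>
      congrFun hαβ ⟨x, mem_compl.2 hx⟩
    funext x
    by_cases hx : x ∈ S
    · have e1 := hα x
      have e2 := hβ x
      rw [hoff _ (hS x hx), e2] at e1
      revert e1
      cases α x <;> cases β x <;> cases b <;> simp
    · exact hoff x hx
  rw [card_univ, Fintype.card_fun, Fintype.card_bool, Fintype.card_coe, card_compl] at h1
  have hle : S.card ≤ Fintype.card Δ := card_le_univ S
  have h2 : ((univ.filter (fun α : Δ → Bool => ∀ x, α (h x) = xor (α x) b)).card : ℝ) ≤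
      2 ^ (Fintype.card Δ - S.card) := by exact_mod_cast h1
  refine h2.trans ?_
  rw [← Real.rpow_natCast, ← Real.rpow_natCast, ← Real.rpow_add (by norm_num)]
  refine Real.rpow_le_rpow_of_exponent_le (by norm_num) ?_
  rw [Nat.cast_sub hle]
  have : (h.support.card : ℝ) ≤ 3 * S.card := by exact_mod_cast hs
  linarith

section main

variable (H : Subgroup (Perm Δ)) {j t : ℕ} (Z : Fin j → Δ)

/-- the long tuple -/
def RR (w : Fin t → H) (p : Fin t × Fin j) : Δ := (w p.1).1 (Z p.2)

/-- goodness -/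
def Good (w : Fin t → H) : Prop := ∀ x y, x ≠ y → ∃ i, Sep H (fun l => (w i).1 (Z l)) x y

theorem good_fix {w : Fin t → H} (hw : Good H Z w) {g : Perm Δ} (hg : g ∈ H)
    (h : ∀ p, g (RR H Z w p) = RR H Z w p) : g = 1 := by
  by_contra hne
  obtain ⟨x, hx⟩ : ∃ x, g x ≠ x := by
    by_contra hcon
    push Not at hcon
    exact hne (Equiv.ext hcon)
  obtain ⟨i, hi⟩ := hw x (g x) hx.symm
  exact hi g hg (fun l => h (i, l)) rfl

theorem bad_count (δ : ℝ)
    (hsep : ∀ x y : Δ, x ≠ y →
      δ * (Nat.card H : ℝ) ≤ (Nat.card {h : H // Sep H (fun i => h.1 (Z i)) x y} : ℝ)) (hδ1 : δ ≤ 1)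
    (h1 : (Fintype.card Δ : ℝ) ^ 2 * (1 - δ) ^ t ≤ 1 / 4) :
    ((univ.filter (fun w : Fin t → H => ¬ Good H Z w)).card : ℝ) ≤
      (Fintype.card (Fin t → H) : ℝ) / 4 := by
  have hsub : univ.filter (fun w : Fin t → H => ¬ Good H Z w) ⊆
      (univ : Finset (Δ × Δ)).biUnion (fun xy => if xy.1 ≠ xy.2 then
        Fintype.piFinset (fun _ : Fin t => univ.filter
          (fun h : H => ¬ Sep H (fun i => h.1 (Z i)) xy.1 xy.2)) else ∅) := by
    intro w hw
    rw [mem_filter] at hw
    have := hw.2
    unfold Good at this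
    push Not at this
    obtain ⟨x, y, hxy, h⟩ := this
    refine mem_biUnion.2 ⟨(x, y), mem_univ _, ?_⟩
    rw [if_pos hxy]
    rw [Fintype.mem_piFinset]
    intro i
    rw [mem_filter]
    exact ⟨mem_univ _, h i⟩
  have hcount : ∀ x y : Δ, x ≠ y →
      ((univ.filter (fun h : H => ¬ Sep H (fun i => h.1 (Z i)) x y)).card : ℝ) ≤
        (1 - δ) * Fintype.card H := by
    intro x y hxy
    have e1 : δ * (Fintype.card H : ℝ) ≤
        ((univ.filter (fun h : H => Sep H (fun i => h.1 (Z i)) x y)).card : ℝ) := by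
      have e0 := hsep x y hxy
      rw [Nat.card_eq_fintype_card, Nat.card_eq_fintype_card] at e0
      rw [← Fintype.card_subtype (fun h : H => Sep H (fun i => h.1 (Z i)) x y)]
      exact e0
    have e2 := card_filter_add_card_filter_not (s := (univ : Finset H))
      (fun h => Sep H (fun i => h.1 (Z i)) x y)
    rw [card_univ] at e2
    have e3 : ((univ.filter (fun h : H => Sep H (fun i => h.1 (Z i)) x y)).card : ℝ) +
      ((univ.filter (fun h : H => ¬ Sep H (fun i => h.1 (Z i)) x y)).card : ℝ) = Fintype.card H := by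
      exact_mod_cast e2
    linarith
  have h2 : ((univ.filter (fun w : Fin t → H => ¬ Good H Z w)).card : ℝ) ≤
      ∑ xy : Δ × Δ, ((1 - δ) * Fintype.card H) ^ t := by
    calc _ ≤ (∑ xy : Δ × Δ, (if xy.1 ≠ xy.2 then
        Fintype.piFinset (fun _ : Fin t => univ.filter
          (fun h : H => ¬ Sep H (fun i => h.1 (Z i)) xy.1 xy.2)) else ∅).card : ℝ) := by
          exact_mod_cast (card_le_card hsub).trans card_biUnion_le
      _ ≤ _ := by
          refine sum_le_sum fun xy _ => ?_
          split_ifs with h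
          · rw [Fintype.card_piFinset_const]
            push_cast
            exact pow_le_pow_left₀ (by positivity) (hcount _ _ h) t
          · rw [card_empty, Nat.cast_zero]
            exact pow_nonneg (mul_nonneg (by linarith) (by positivity)) t
  refine h2.trans ?_
  rw [sum_const, card_univ, Fintype.card_prod, nsmul_eq_mul, mul_pow, Fintype.card_fun,
    Fintype.card_fin]
  push_cast
  have h3 : (0 : ℝ) ≤ (Fintype.card H : ℝ) ^ t := by positivity
  nlinarith [mul_le_mul_of_nonneg_right h1 h3]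

theorem trans_count (htr : ∀ x y : Δ, ∃ h ∈ H, h x = y) (p : Fin t × Fin j) (x : Δ) :
    Fintype.card Δ * (univ.filter (fun w : Fin t → H => RR H Z w p = x)).card =
      Fintype.card (Fin t → H) := by
  have hconst : ∀ x y, (univ.filter (fun w : Fin t → H => RR H Z w p = x)).card =
      (univ.filter (fun w : Fin t → H => RR H Z w p = y)).card := by
    intro x y
    obtain ⟨h, hh, hxy⟩ := htr x y
    let h' : H := ⟨h, hh⟩
    refine card_bij (fun w _ k => h' * w k) ?_ ?_ ?_
    · intro w hw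
      rw [mem_filter] at hw ⊢
      refine ⟨mem_univ _, ?_⟩
      have : (w p.1).1 (Z p.2) = x := hw.2
      show (h * (w p.1).1) (Z p.2) = y
      rw [Perm.mul_apply, this, hxy]
    · intro w _ w' _ hww
      funext k
      have := congrFun hww k
      exact mul_left_cancel this
    · intro w hw
      rw [mem_filter] at hw
      refine ⟨fun k => h'⁻¹ * w k, ?_, ?_⟩
      · rw [mem_filter]
        refine ⟨mem_univ _, ?_⟩
        have : (w p.1).1 (Z p.2) = y := hw.2
        show (h⁻¹ * (w p.1).1) (Z p.2) = x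
        rw [Perm.mul_apply, this, ← hxy]; simp
      · funext k
        simp
  have hsum : Fintype.card (Fin t → H) =
      ∑ y : Δ, (univ.filter (fun w : Fin t → H => RR H Z w p = y)).card := by
    rw [← card_univ]
    exact card_eq_sum_card_fiberwise (fun w _ => mem_univ _)
  rw [hsum, sum_congr rfl (fun y _ => hconst y x), sum_const, card_univ, smul_eq_mul]

/-- number of moved entries -/
noncomputable def aa (h : Perm Δ) (w : Fin t → H) : ℕ :=
  (univ.filter (fun p : Fin t × Fin j => h (RR H Z w p) ≠ RR H Z w p)).card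

theorem sum_aa (htr : ∀ x y : Δ, ∃ h ∈ H, h x = y) (h : Perm Δ) :
    Fintype.card Δ * ∑ w : Fin t → H, aa H Z h w =
      (t * j) * h.support.card * Fintype.card (Fin t → H) := by
  have h1 : ∑ w : Fin t → H, aa H Z h w =
      ∑ p : Fin t × Fin j, ∑ x ∈ h.support, (univ.filter (fun w : Fin t → H => RR H Z w p = x)).card := by
    unfold aa
    simp_rw [card_filter]
    rw [sum_comm]
    refine sum_congr rfl fun p _ => ?_
    rw [sum_comm]
    refine sum_congr rfl fun w _ => ?_
    rw [sum_ite_eq]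
    simp only [Perm.mem_support]
  rw [h1, mul_sum]
  simp_rw [mul_sum, trans_count H Z htr]
  rw [sum_const, sum_const, card_univ, Fintype.card_prod, Fintype.card_fin, Fintype.card_fin]
  simp only [smul_eq_mul]
  ring

theorem small_count (htr : ∀ x y : Δ, ∃ h ∈ H, h x = y) (hj : 0 < j) (ht : 0 < t)
    {h : Perm Δ} (h1 : h ≠ 1) :
    2 * (univ.filter (fun w : Fin t → H =>
      2 * (t * j) * h.support.card ≤ Fintype.card Δ * aa H Z h w)).card ≤
      Fintype.card (Fin t → H) := by
  have hs : 0 < h.support.card := by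
    rw [card_pos, nonempty_iff_ne_empty]
    exact fun h' => h1 (Perm.support_eq_empty_iff.1 h')
  set B := univ.filter (fun w : Fin t → H =>
      2 * (t * j) * h.support.card ≤ Fintype.card Δ * aa H Z h w) with hB
  have e1 : B.card * (2 * (t * j) * h.support.card) ≤ (t * j) * h.support.card * Fintype.card (Fin t → H) := by
    rw [← sum_aa H Z htr h, ← smul_eq_mul, ← sum_const, mul_sum]
    calc ∑ w ∈ B, 2 * (t * j) * h.support.card ≤ ∑ w ∈ B, Fintype.card Δ * aa H Z h w :=
          sum_le_sum fun w hw => (mem_filter.1 hw).2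
      _ ≤ _ := sum_le_sum_of_subset (subset_univ _)
  have e2 : ((t * j) * h.support.card) * (2 * B.card) ≤
      ((t * j) * h.support.card) * Fintype.card (Fin t → H) := by
    calc _ = B.card * (2 * (t * j) * h.support.card) := by ring
      _ ≤ _ := e1
  exact Nat.le_of_mul_le_mul_left e2 (by positivity)

/-- weights -/
noncomputable def rho (θ : ℝ) : Option Δ → ℝ
  | none => 1
  | some _ => θ

/-- the pattern of an element -/
noncomputable def pat (w : Fin t → H) (h : Perm Δ) (p : Fin t × Fin j) : Option Δ :=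
  if h (RR H Z w p) = RR H Z w p then none else some (h (RR H Z w p))

theorem prod_rho (θ : ℝ) (w : Fin t → H) (h : Perm Δ) :
    ∏ p, rho θ (pat H Z w h p) = θ ^ aa H Z h w := by
  have : ∀ p, rho θ (pat H Z w h p) = if h (RR H Z w p) ≠ RR H Z w p then θ else 1 := by
    intro p
    unfold pat
    by_cases hp : h (RR H Z w p) = RR H Z w p
    · simp [hp, rho]
    · simp [hp, rho]
  simp_rw [this]
  rw [prod_ite, prod_const_one, mul_one, prod_const]
  rfl

theorem good_sum {θ : ℝ} (hθ : 0 ≤ θ) {w : Fin t → H} (hw : Good H Z w) :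
    ∑ h ∈ (univ : Finset H).filter (fun h => h ≠ 1), θ ^ aa H Z h.1 w ≤
      (1 + Fintype.card Δ * θ) ^ (t * j) - 1 := by
  have hinj : ∀ h h' : H, (∀ p, pat H Z w h.1 p = pat H Z w h'.1 p) → h = h' := by
    intro h h' hpp
    have hp' : ∀ p, h.1 (RR H Z w p) = h'.1 (RR H Z w p) := by
      intro p
      have := hpp p
      unfold pat at this
      split_ifs at this with a1 a2 a2
      · rw [a1, a2]
      · exact Option.some.inj this
    have h2 : (h'.1)⁻¹ * h.1 = 1 := by
      refine good_fix H Z hw (H.mul_mem (H.inv_mem h'.2) h.2) (fun p => ?_)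
      rw [Perm.mul_apply, hp' p]
      simp
    apply Subtype.ext
    rw [inv_mul_eq_one] at h2
    exact h2.symm
  have hrho : ∀ o : Option Δ, 0 ≤ rho θ o := by
    intro o; cases o
    · exact zero_le_one
    · exact hθ
  have hnone : ∀ h : H, h ≠ 1 → pat H Z w h.1 ≠ fun _ => none := by
    intro h h1 hc
    apply h1
    apply hinj
    intro p
    rw [hc]
    unfold pat
    rw [if_pos]
    rfl
  have e1 : ∑ h ∈ (univ : Finset H).filter (fun h => h ≠ 1), θ ^ aa H Z h.1 w =
      ∑ φ ∈ ((univ : Finset H).filter (fun h => h ≠ 1)).image (fun h => pat H Z w h.1),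
        ∏ p, rho θ (φ p) := by
    rw [sum_image]
    · exact sum_congr rfl fun h _ => (prod_rho H Z θ w h.1).symm
    · intro h _ h' _ hh
      exact hinj h h' (fun p => congrFun hh p)
  rw [e1]
  have e2 : ∑ φ : Fin t × Fin j → Option Δ, ∏ p, rho θ (φ p) = (1 + Fintype.card Δ * θ) ^ (t * j) := by
    have := prod_univ_sum (fun _ : Fin t × Fin j => (univ : Finset (Option Δ))) (fun _ o => rho θ o)
    rw [Fintype.piFinset_univ] at this
    rw [← this, prod_const, card_univ, Fintype.card_prod, Fintype.card_fin, Fintype.card_fin,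
      Fintype.sum_option]
    congr 1
    simp [rho]
  have e3 : (∏ p : Fin t × Fin j, rho θ ((fun _ => none : Fin t × Fin j → Option Δ) p)) = 1 := by
    simp [rho]
  have e4 := sum_erase_add (univ : Finset (Fin t × Fin j → Option Δ)) (fun φ => ∏ p, rho θ (φ p))
    (mem_univ (fun _ => none))
  rw [e2] at e4
  have e5 : ∑ φ ∈ ((univ : Finset H).filter (fun h => h ≠ 1)).image (fun h => pat H Z w h.1),
        ∏ p, rho θ (φ p) ≤ ∑ φ ∈ (univ : Finset (Fin t × Fin j → Option Δ)).erase (fun _ => none),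
        ∏ p, rho θ (φ p) := by
    refine sum_le_sum_of_subset_of_nonneg ?_ (fun φ _ _ => prod_nonneg fun p _ => hrho _)
    intro φ hφ
    obtain ⟨h, hh, rfl⟩ := mem_image.1 hφ
    exact mem_erase.2 ⟨hnone h (mem_filter.1 hh).2, mem_univ _⟩
  linarith

end main

theorem count_lemma {Δ : Type} [Fintype Δ] [DecidableEq Δ] (H : Subgroup (Perm Δ))
    (htr : ∀ x y : Δ, ∃ h ∈ H, h x = y) (j t : ℕ) (hj : 0 < j) (ht : 0 < t) (Z : Fin j → Δ)
    (δ : ℝ) (hδ0 : 0 ≤ δ) (hδ1 : δ ≤ 1)
    (hsep : ∀ x y : Δ, x ≠ y →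
      δ * (Nat.card H : ℝ) ≤ (Nat.card {h : H // Sep H (fun i => h.1 (Z i)) x y} : ℝ))
    (h1 : (Fintype.card Δ : ℝ) ^ 2 * (1 - δ) ^ t ≤ 1 / 4)
    (h2 : ((j * t : ℕ) : ℝ) * (Fintype.card Δ : ℝ) *
      (2 : ℝ) ^ (-((Fintype.card Δ : ℝ) / (6 * ((j * t : ℕ) : ℝ)))) ≤ 1 / 16) :
    ∃ α : Δ → Bool, Dist H α := by
  have hΔ : 0 < Fintype.card Δ := Fintype.card_pos_iff.2 ⟨Z ⟨0, hj⟩⟩
  obtain ⟨n, hn⟩ : ∃ n : ℝ, (Fintype.card Δ : ℝ) = n := ⟨_, rfl⟩
  have hn0 : 0 < n := by rw [← hn]; exact_mod_cast hΔ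
  obtain ⟨r, hr⟩ : ∃ r : ℕ, j * t = r := ⟨_, rfl⟩
  have hr0 : 0 < r := by rw [← hr]; positivity
  have hr0' : (0 : ℝ) < r := by exact_mod_cast hr0
  rw [hn, hr] at h2
  rw [hn] at h1
  set θ : ℝ := (2 : ℝ) ^ (-(n / (6 * (r : ℝ)))) with hθ
  have hθ0 : 0 < θ := Real.rpow_pos_of_pos (by norm_num) _
  have hW : 0 < (Fintype.card (Fin t → H) : ℝ) := by
    exact_mod_cast Fintype.card_pos
  have hbad := bad_count H Z δ hsep hδ1 (by rw [hn]; exact h1)
  have htj : t * j = r := by rw [mul_comm]; exact hr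
  set W : ℝ := (Fintype.card (Fin t → H) : ℝ) with hWdef
  -- step 3
  have hmany : ∀ h : Perm Δ, h ≠ 1 → W / 4 * (2 : ℝ) ^ (-((h.support.card : ℝ) / 3)) ≤
      ∑ w ∈ univ.filter (fun w : Fin t → H => Good H Z w), θ ^ aa H Z h w := by
    intro h hne
    have hsmall := small_count H Z htr hj ht hne
    set B := univ.filter (fun w : Fin t → H =>
      2 * (t * j) * h.support.card ≤ Fintype.card Δ * aa H Z h w) with hB
    set Gd := univ.filter (fun w : Fin t → H => Good H Z w) with hGd
    set Bd := univ.filter (fun w : Fin t → H => ¬ Good H Z w) with hBd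
    have hcov : (univ : Finset (Fin t → H)) ⊆ (Gd \ B) ∪ (Bd ∪ B) := by
      intro w _
      by_cases a1 : w ∈ B
      · exact mem_union_right _ (mem_union_right _ a1)
      · by_cases a2 : Good H Z w
        · exact mem_union_left _ (mem_sdiff.2 ⟨mem_filter.2 ⟨mem_univ _, a2⟩, a1⟩)
        · exact mem_union_right _ (mem_union_left _ (mem_filter.2 ⟨mem_univ _, a2⟩))
    have hc1 : W ≤ ((Gd \ B).card : ℝ) + ((Bd.card : ℝ) + (B.card : ℝ)) := by
      have := (card_le_card hcov).trans ((card_union_le _ _).trans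
        (Nat.add_le_add_left (card_union_le _ _) _))
      rw [card_univ] at this
      rw [hWdef]
      exact_mod_cast this
    have hc2 : 2 * (B.card : ℝ) ≤ W := by rw [hWdef]; exact_mod_cast hsmall
    have hc3 : W / 4 ≤ ((Gd \ B).card : ℝ) := by linarith
    calc W / 4 * (2 : ℝ) ^ (-((h.support.card : ℝ) / 3)) ≤
          ((Gd \ B).card : ℝ) * (2 : ℝ) ^ (-((h.support.card : ℝ) / 3)) := by
          exact mul_le_mul_of_nonneg_right hc3 (Real.rpow_nonneg (by norm_num) _)
      _ = ∑ w ∈ Gd \ B, (2 : ℝ) ^ (-((h.support.card : ℝ) / 3)) := by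
          rw [sum_const, nsmul_eq_mul]
      _ ≤ ∑ w ∈ Gd \ B, θ ^ aa H Z h w := by
          refine sum_le_sum fun w hw => ?_
          have hwB : ¬ (2 * (t * j) * h.support.card ≤ Fintype.card Δ * aa H Z h w) := fun h' =>
            (mem_sdiff.1 hw).2 (mem_filter.2 ⟨mem_univ _, h'⟩)
          rw [htj] at hwB
          have hlt : n * (aa H Z h w : ℝ) < 2 * r * h.support.card := by
            rw [← hn]; exact_mod_cast not_le.1 hwB
          rw [hθ, ← Real.rpow_natCast, ← Real.rpow_mul (by norm_num)]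
          refine Real.rpow_le_rpow_of_exponent_le (by norm_num) ?_
          rw [neg_mul, neg_le_neg_iff, div_mul_eq_mul_div, div_le_div_iff₀ (by positivity) (by norm_num)]
          nlinarith
      _ ≤ ∑ w ∈ Gd, θ ^ aa H Z h w :=
          sum_le_sum_of_subset_of_nonneg sdiff_subset fun w _ _ => pow_nonneg hθ0.le _
  -- step 4
  have hgs : ∀ w ∈ univ.filter (fun w : Fin t → H => Good H Z w),
      ∑ h ∈ (univ : Finset H).filter (fun h => h ≠ 1), θ ^ aa H Z h.1 w ≤ (1 + n * θ) ^ r - 1 := by
    intro w hw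
    have := good_sum H Z hθ0.le (mem_filter.1 hw).2
    rwa [hn, htj] at this
  have hexp : (1 + n * θ) ^ r ≤ 16 / 15 := by
    have e1 : (1 + n * θ) ^ r ≤ Real.exp (r * (n * θ)) := by
      rw [Real.exp_nat_mul]
      exact pow_le_pow_left₀ (by positivity) (by linarith [Real.add_one_le_exp (n * θ)]) r
    have e2 : (r : ℝ) * (n * θ) ≤ 1 / 16 := by rw [← mul_assoc]; exact h2
    have e3 : Real.exp (1 / 16) ≤ 16 / 15 := by
      have := Real.add_one_le_exp (-(1 / 16) : ℝ)
      rw [Real.exp_neg] at this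
      have hpos := Real.exp_pos (1 / 16 : ℝ)
      rw [← one_div, le_div_iff₀ hpos] at this
      linarith
    exact e1.trans ((Real.exp_le_exp.2 e2).trans e3)
  have hpow1 : 0 ≤ (1 + n * θ) ^ r - 1 := by
    have : 1 ≤ (1 + n * θ) ^ r := one_le_pow₀ (by nlinarith [mul_pos hn0 hθ0])
    linarith
  have hsum : ∑ h ∈ (univ : Finset H).filter (fun h => h ≠ 1),
      (2 : ℝ) ^ (-((h.1.support.card : ℝ) / 3)) ≤ 4 / 15 := by
    have e1 : W / 4 * ∑ h ∈ (univ : Finset H).filter (fun h => h ≠ 1),
        (2 : ℝ) ^ (-((h.1.support.card : ℝ) / 3)) ≤ W * ((1 + n * θ) ^ r - 1) := by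
      rw [mul_sum]
      calc _ ≤ ∑ h ∈ (univ : Finset H).filter (fun h => h ≠ 1),
            ∑ w ∈ univ.filter (fun w : Fin t → H => Good H Z w), θ ^ aa H Z h.1 w := by
            refine sum_le_sum fun h hh => hmany h.1 ?_
            intro h'
            exact (mem_filter.1 hh).2 (Subtype.ext h')
        _ = ∑ w ∈ univ.filter (fun w : Fin t → H => Good H Z w),
            ∑ h ∈ (univ : Finset H).filter (fun h => h ≠ 1), θ ^ aa H Z h.1 w := sum_comm
        _ ≤ ∑ w ∈ univ.filter (fun w : Fin t → H => Good H Z w), ((1 + n * θ) ^ r - 1) :=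
            sum_le_sum hgs
        _ ≤ ∑ w : Fin t → H, ((1 + n * θ) ^ r - 1) :=
            sum_le_sum_of_subset_of_nonneg (filter_subset _ _) fun _ _ _ => hpow1
        _ = W * ((1 + n * θ) ^ r - 1) := by rw [sum_const, card_univ, nsmul_eq_mul]
    have e2 : W * ((1 + n * θ) ^ r - 1) ≤ W * (1 / 15) := by
      refine mul_le_mul_of_nonneg_left (by linarith) hW.le
    nlinarith
  -- step 5
  have hcardH : (Fintype.card H : ℝ) ≤ n ^ r := by
    obtain ⟨w, hw⟩ : ∃ w : Fin t → H, Good H Z w := by
      by_contra hcon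
      push Not at hcon
      have : univ.filter (fun w : Fin t → H => ¬ Good H Z w) = univ := by
        rw [filter_eq_self]; exact fun w _ => hcon w
      rw [this, card_univ] at hbad
      linarith
    have : Fintype.card H ≤ Fintype.card (Fin t × Fin j → Δ) := by
      refine Fintype.card_le_of_injective (fun h p => h.1 (RR H Z w p)) ?_
      intro h h' hh
      have h3 : (h'.1)⁻¹ * h.1 = 1 := by
        refine good_fix H Z hw (H.mul_mem (H.inv_mem h'.2) h.2) (fun p => ?_)
        have := congrFun hh p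
        dsimp only at this
        rw [Perm.mul_apply, this]
        simp
      apply Subtype.ext
      rw [inv_mul_eq_one] at h3
      exact h3.symm
    rw [Fintype.card_fun, Fintype.card_prod, Fintype.card_fin, Fintype.card_fin, htj] at this
    rw [← hn]
    exact_mod_cast this
  have h5 : (Fintype.card H : ℝ) * (2 : ℝ) ^ (-(n / 3)) ≤ 1 / 16 := by
    have e0 : (2 : ℝ) ^ (-(n / 3)) = θ ^ r * (2 : ℝ) ^ (-(n / 6)) := by
      rw [hθ, ← Real.rpow_natCast, ← Real.rpow_mul (by norm_num), ← Real.rpow_add (by norm_num)]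
      congr 1
      field_simp
      ring
    have e1 : (2 : ℝ) ^ (-(n / 6)) ≤ 1 :=
      Real.rpow_le_one_of_one_le_of_nonpos (by norm_num) (by linarith)
    have e2 : n * θ ≤ 1 / 16 := by
      have : (1 : ℝ) ≤ r := by exact_mod_cast hr0
      nlinarith [mul_pos hn0 hθ0]
    have e3 : (n * θ) ^ r ≤ 1 / 16 := by
      calc (n * θ) ^ r ≤ (n * θ) ^ 1 :=
            pow_le_pow_of_le_one (by positivity) (by linarith) hr0
        _ ≤ _ := by rw [pow_one]; exact e2
    calc (Fintype.card H : ℝ) * (2 : ℝ) ^ (-(n / 3)) ≤ n ^ r * (θ ^ r * (2 : ℝ) ^ (-(n / 6))) := by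
          rw [e0]
          exact mul_le_mul_of_nonneg_right hcardH (by positivity)
      _ = (n * θ) ^ r * (2 : ℝ) ^ (-(n / 6)) := by rw [mul_pow]; ring
      _ ≤ (1 / 16) * 1 := mul_le_mul e3 e1 (by positivity) (by norm_num)
      _ = _ := by norm_num
  -- step 6
  by_contra hcon
  push Not at hcon
  let A1 : H → Finset (Δ → Bool) := fun h =>
    univ.filter (fun α : Δ → Bool => ∀ x, α (h.1 x) = xor (α x) false)
  let A2 : H → Finset (Δ → Bool) := fun h =>
    univ.filter (fun α : Δ → Bool => ∀ x, α (h.1 x) = xor (α x) true)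
  have hcov : (univ : Finset (Δ → Bool)) ⊆
      ((univ : Finset H).filter (fun h => h ≠ 1)).biUnion A1 ∪ (univ : Finset H).biUnion A2 := by
    intro α _
    have := hcon α
    unfold Pool.Agent.TH72.CF.Dist at this
    rw [not_and_or] at this
    rcases this with h | h
    · push Not at h
      obtain ⟨g, hg, hα, hne⟩ := h
      refine mem_union_left _ (mem_biUnion.2 ⟨⟨g, hg⟩, mem_filter.2 ⟨mem_univ _, ?_⟩,
        mem_filter.2 ⟨mem_univ _, ?_⟩⟩)
      · exact fun h' => hne (congrArg Subtype.val h')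
      · intro x; simpa using hα x
    · push Not at h
      obtain ⟨g, hg, hα⟩ := h
      refine mem_union_right _ (mem_biUnion.2 ⟨⟨g, hg⟩, mem_univ _,
        mem_filter.2 ⟨mem_univ _, ?_⟩⟩)
      intro x; simpa using hα x
  have hA1 : ∀ h : H, ((A1 h).card : ℝ) ≤ 2 ^ Fintype.card Δ * (2 : ℝ) ^ (-((h.1.support.card : ℝ) / 3)) :=
    fun h => count_col h.1 false
  have hA2 : ∀ h : H, ((A2 h).card : ℝ) ≤ 2 ^ Fintype.card Δ * (2 : ℝ) ^ (-(n / 3)) := by
    intro h
    by_cases hne : (A2 h).Nonempty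
    · obtain ⟨α, hα⟩ := hne
      have hα' := (mem_filter.1 hα).2
      have hsupp : h.1.support = univ := by
        rw [eq_univ_iff_forall]
        intro x
        rw [Perm.mem_support]
        intro hx
        have := hα' x
        rw [hx] at this
        simp at this
      have := count_col h.1 true
      rw [hsupp, card_univ, hn] at this
      exact this
    · rw [not_nonempty_iff_eq_empty] at hne
      rw [hne, card_empty, Nat.cast_zero]
      positivity
  have hfin : (2 : ℝ) ^ Fintype.card Δ ≤ 2 ^ Fintype.card Δ * (4 / 15) + 2 ^ Fintype.card Δ * (1 / 16) := by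
    have e1 := (card_le_card hcov).trans ((card_union_le _ _).trans
      (add_le_add card_biUnion_le card_biUnion_le))
    rw [card_univ, Fintype.card_fun, Fintype.card_bool] at e1
    have e2 : (2 : ℝ) ^ Fintype.card Δ ≤
        ∑ h ∈ (univ : Finset H).filter (fun h => h ≠ 1), ((A1 h).card : ℝ) +
        ∑ h : H, ((A2 h).card : ℝ) := by exact_mod_cast e1
    refine e2.trans (add_le_add ?_ ?_)
    · calc _ ≤ ∑ h ∈ (univ : Finset H).filter (fun h => h ≠ 1),
            2 ^ Fintype.card Δ * (2 : ℝ) ^ (-((h.1.support.card : ℝ) / 3)) :=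
            sum_le_sum fun h _ => hA1 h
        _ = 2 ^ Fintype.card Δ * ∑ h ∈ (univ : Finset H).filter (fun h => h ≠ 1),
            (2 : ℝ) ^ (-((h.1.support.card : ℝ) / 3)) := by rw [mul_sum]
        _ ≤ _ := mul_le_mul_of_nonneg_left hsum (by positivity)
    · calc _ ≤ ∑ h : H, 2 ^ Fintype.card Δ * (2 : ℝ) ^ (-(n / 3)) :=
            sum_le_sum fun h _ => hA2 h
        _ = 2 ^ Fintype.card Δ * ((Fintype.card H : ℝ) * (2 : ℝ) ^ (-(n / 3))) := by
            rw [sum_const, card_univ, nsmul_eq_mul]; ring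
        _ ≤ _ := mul_le_mul_of_nonneg_left h5 (by positivity)
  have hpos : (0 : ℝ) < 2 ^ Fintype.card Δ := by positivity
  nlinarith

end Pool.Agent.TH554.J545
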