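import Pool.Agent.TH490.StmN

set_option autoImplicit false

namespace Pool.Agent.TH554.NBT

open Pool.Agent.TH490 Finset Classical

noncomputable section

/-! ### Probabilities on a finite list -/

section prob

variable {X : Type} (L : Finset X) (p : X → ℝ)

/-- probability of an event -/
def Pm (Q : X → Prop) : ℝ := ∑ x ∈ L.filter Q, p x

variable {L p}

theorem Pm_ite (Q : X → Prop) : Pm L p Q = ∑ x ∈ L, if Q x then p x else 0 := by
  unfold Pm
  rw [sum_filter]

theorem Pm_mono (hp : ∀ x ∈ L, 0 ≤ p x) {Q Q' : X → Prop} (h : ∀ x ∈ L, Q x → Q' x) :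
    Pm L p Q ≤ Pm L p Q' := by
  rw [Pm_ite, Pm_ite]
  refine sum_le_sum fun x hx => ?_
  by_cases hQ : Q x
  · rw [if_pos hQ, if_pos (h x hx hQ)]
  · rw [if_neg hQ]
    split_ifs
    · exact hp x hx
    · exact le_rfl

theorem Pm_nonneg (hp : ∀ x ∈ L, 0 ≤ p x) (Q : X → Prop) : 0 ≤ Pm L p Q :=
  sum_nonneg fun x hx => hp x (mem_filter.1 hx).1

theorem Pm_or {Q Q' : X → Prop} (h : ∀ x ∈ L, Q x → ¬ Q' x) :
    Pm L p (fun x => Q x ∨ Q' x) = Pm L p Q + Pm L p Q' := by
  rw [Pm_ite, Pm_ite, Pm_ite, ← sum_add_distrib]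
  refine sum_congr rfl fun x hx => ?_
  by_cases hQ : Q x
  · have := h x hx hQ
    simp [hQ, this]
  · simp [hQ]

theorem Pm_or_le (hp : ∀ x ∈ L, 0 ≤ p x) (Q Q' : X → Prop) :
    Pm L p (fun x => Q x ∨ Q' x) ≤ Pm L p Q + Pm L p Q' := by
  rw [Pm_ite, Pm_ite, Pm_ite, ← sum_add_distrib]
  refine sum_le_sum fun x hx => ?_
  have := hp x hx
  by_cases hQ : Q x <;> by_cases hQ' : Q' x <;> simp [hQ, hQ', this]

theorem Pm_not (h1 : ∑ x ∈ L, p x = 1) (Q : X → Prop) :
    Pm L p (fun x => ¬ Q x) = 1 - Pm L p Q := by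
  rw [← h1, Pm_ite, Pm_ite, ← sum_sub_distrib]
  refine sum_congr rfl fun x _ => ?_
  by_cases hQ : Q x <;> simp [hQ]

theorem Pm_false : Pm L p (fun _ => False) = 0 := by simp [Pm]

theorem Pm_ex_le (hp : ∀ x ∈ L, 0 ≤ p x) (V : Finset X) (Q : X → X → Prop) :
    Pm L p (fun x => ∃ v ∈ V, Q x v) ≤ ∑ v ∈ V, Pm L p (fun x => Q x v) := by
  induction V using Finset.induction_on with
  | empty => simp [Pm_false]
  | insert a V ha ih =>
    rw [sum_insert ha]
    have h1 : Pm L p (fun x => ∃ v ∈ insert a V, Q x v) =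
        Pm L p (fun x => Q x a ∨ ∃ v ∈ V, Q x v) := by
      congr 1
      funext x
      simp
    rw [h1]
    exact (Pm_or_le hp _ _).trans (by linarith)

theorem Pm_ex_disj (V : Finset X) (Q : X → X → Prop)
    (h : ∀ x ∈ L, ∀ v ∈ V, ∀ v' ∈ V, v ≠ v' → Q x v → ¬ Q x v') :
    Pm L p (fun x => ∃ v ∈ V, Q x v) = ∑ v ∈ V, Pm L p (fun x => Q x v) := by
  induction V using Finset.induction_on with
  | empty => simp [Pm_false]
  | insert a V ha ih =>
    rw [sum_insert ha]
    have h1 : Pm L p (fun x => ∃ v ∈ insert a V, Q x v) =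
        Pm L p (fun x => Q x a ∨ ∃ v ∈ V, Q x v) := by
      congr 1
      funext x
      simp
    rw [h1, Pm_or, ih]
    · intro x hx v hv v' hv' hne
      exact h x hx v (mem_insert_of_mem hv) v' (mem_insert_of_mem hv') hne
    · rintro x hx hQ ⟨v, hv, hQv⟩
      have hne : a ≠ v := by rintro rfl; exact ha hv
      exact h x hx a (mem_insert_self _ _) v (mem_insert_of_mem hv) hne hQ hQv

end prob

variable {n : ℕ} {X ι : Type} [Fintype X] [Fintype ι]

/-- key disjointness -/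
theorem disj {D : Nib n X ι} {K R : ℕ} (h : NHyp D K R) {s : NSt n X ι} {β : ι} (hβ : D.tiny β)
    {e : Finset X} (he : e ∈ D.conf β) {v v' x : X} (hv : v ∈ e) (hv' : v' ∈ e) (hne : v ≠ v')
    (h1 : blkN D s x v) : ¬ blk D s x v' := by
  intro h2
  obtain ⟨γ, hγ, e1, he1, ht1, hx1, hxv, _⟩ := h1
  have hvB : v ∈ D.B β := h.conf_sub β e he hv
  have hv'B : v' ∈ D.B β := h.conf_sub β e he hv'
  have hxγ : x ∈ D.B γ := h.conf_sub γ e1 he1 hx1
  have hvγ : v ∈ D.B γ := h.conf_sub γ e1 he1 ht1.1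
  have hγβ : β ≠ γ := by rintro rfl; exact hγ hβ
  have hxB : x ∉ D.B β := by
    intro hx
    have hc := h.H1 β γ hγβ
    have h3 := one_lt_card.2 ⟨x, mem_inter.2 ⟨hx, hxγ⟩, v, mem_inter.2 ⟨hvB, hvγ⟩, hxv⟩
    exact absurd hc (not_le.2 h3)
  have hx2 : ∃ γ, x ∈ D.B γ ∧ v' ∈ D.B γ := by
    rcases h2 with ⟨γ', _, e2, he2, ht2, hx2, _, _⟩ | ⟨γ', _, e2, he2, ht2, hx2, _, _⟩
    · exact ⟨γ', h.conf_sub _ _ he2 hx2, h.conf_sub _ _ he2 ht2.1⟩
    · exact ⟨γ', h.conf_sub _ _ he2 hx2, h.conf_sub _ _ he2 ht2.1⟩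
  exact hne (h.H2 β x hxB v hvB v' hv'B ⟨γ, hxγ, hvγ⟩ hx2)

/-- the factor -/
def gf (D : Nib n X ι) (R : ℕ) (s : NSt n X ι) (x v : X) : ℝ :=
  if blk D s x v then 0 else 1 + (1 - 1 / Real.log R) * hN D s v

omit [Fintype ι] in
theorem eng_step {D : Nib n X ι} {R : ℕ} {s : NSt n X ι} {β : ι} (hβ : D.tiny β)
    {e : Finset X} {u : X} (he : e ∈ confB D s β u) (x : X) :
    eng D (stepS D R s x) β e u = eng D s β e u *
      ∏ v ∈ (e.erase u).filter (fun v => s.t < (D.o v : ℕ)), gf D R s x v := by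
  unfold eng
  rw [if_pos hβ, if_pos hβ, one_mul, one_mul, prod_filter, ← prod_mul_distrib]
  refine prod_congr rfl fun v hv => ?_
  have hne : (D.o v : ℕ) ≠ s.t := (mem_filter.1 he).2.2 v (mem_of_mem_erase hv)
  unfold hat stepS gf
  simp only
  by_cases h1 : (D.o v : ℕ) < s.t
  · have h2 : (D.o v : ℕ) < s.t + 1 := by omega
    have h3 : ¬ s.t < (D.o v : ℕ) := by omega
    simp only [h1, h2, h3, hne, if_true, if_false, mul_one]
  · have h2 : ¬ (D.o v : ℕ) < s.t + 1 := by omega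
    have h3 : s.t < (D.o v : ℕ) := by omega
    simp only [h1, h2, h3, if_true, if_false]
    by_cases hb : blk D s x v
    · simp [hb]
    · simp only [hb, if_false]
      ring

theorem eng_nonneg {D : Nib n X ι} {R : ℕ} {s : NSt n X ι} (hI : NInv D R s) (β : ι)
    (e : Finset X) (u : X) : 0 ≤ eng D s β e u := by
  unfold eng
  refine mul_nonneg ?_ (prod_nonneg fun v _ => ?_)
  · split_ifs
    · norm_num
    · exact (Real.exp_pos _).le
  · unfold hat
    split_ifs
    · norm_num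
    · norm_num
    · have := hI.w_nonneg v
      linarith

theorem exp_bound {a b : ℝ} (ha : 0 ≤ a) (ha1 : a ≤ 1 / 10) (hb : 0 ≤ b) (hb1 : b ≤ 1 / 10) :
    Real.exp (-a - b) ≤ 1 - a + a ^ 2 / 2 - (6 / 10) * b := by
  have h1 : ∀ t : ℝ, 0 ≤ t → t ≤ 1 / 10 → Real.exp (-t) ≤ 1 - t + t ^ 2 / 2 := by
    intro t ht ht1
    -- e^{t} ≥ 1 + t + t^2/2 and (1 - t + t^2/2)(1 + t + t^2/2) = 1 + t^4/4 ≥ 1
    have h2 : 1 + t + t ^ 2 / 2 ≤ Real.exp t := Real.quadratic_le_exp_of_nonneg ht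
    have h3 : 0 < 1 + t + t ^ 2 / 2 := by positivity
    rw [Real.exp_neg]
    have h4 : (Real.exp t)⁻¹ ≤ (1 + t + t ^ 2 / 2)⁻¹ := inv_anti₀ h3 h2
    refine h4.trans ?_
    rw [inv_le_iff_one_le_mul₀ h3]
    have : (1 - t + t ^ 2 / 2) * (1 + t + t ^ 2 / 2) = 1 + t ^ 4 / 4 := by ring
    rw [this]
    have : 0 ≤ t ^ 4 := by positivity
    linarith
  have ea := h1 a ha ha1
  have eb := h1 b hb hb1
  have la : 1 - a ≤ Real.exp (-a) := by
    have := Real.add_one_le_exp (-a)
    linarith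
  have e1 : Real.exp (-a - b) = Real.exp (-a) * Real.exp (-b) := by
    rw [← Real.exp_add]; ring_nf
  rw [e1]
  have hpos := Real.exp_pos (-a)
  have h5 : Real.exp (-a) * Real.exp (-b) ≤ Real.exp (-a) * (1 - b + b ^ 2 / 2) :=
    mul_le_mul_of_nonneg_left eb hpos.le
  -- = exp(-a) - exp(-a) * b * (1 - b/2)
  have h6 : Real.exp (-a) * (1 - b + b ^ 2 / 2) =
      Real.exp (-a) - Real.exp (-a) * (b * (1 - b / 2)) := by ring
  have h7 : (9 / 10) * (b * (1 - b / 2)) ≤ Real.exp (-a) * (b * (1 - b / 2)) := by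
    refine mul_le_mul_of_nonneg_right (by linarith) ?_
    have : 0 ≤ 1 - b / 2 := by linarith
    positivity
  have h8 : (6 / 10) * b ≤ (9 / 10) * (b * (1 - b / 2)) := by
    nlinarith
  linarith

theorem exp_sub_one_le {t : ℝ} (ht : 0 ≤ t) (ht1 : t ≤ 1) : Real.exp t - 1 ≤ 2 * t := by
  have h := Real.abs_exp_sub_one_le (x := t) (by rw [abs_of_nonneg ht]; exact ht1)
  rw [abs_of_nonneg ht] at h
  exact (le_abs_self _).trans h

theorem core {D : Nib n X ι} {K R : ℕ} (h : NHyp D K R) {s : NSt n X ι} (hI : NInv D R s)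
    (hR : 1 ≤ Real.log R)
    {ε : ℝ} (hε : ε ≤ 1 / 100)
    (hsum : ∑ x ∈ lst D s.t, pr D s x = 1) (hpr : ∀ x ∈ lst D s.t, 0 ≤ pr D s x)
    (hel : ∀ v : X, s.t < (D.o v : ℕ) → 0 ≤ hN D s v ∧ hN D s v ≤ hb D s v ∧ hb D s v ≤ ε)
    {u : X} (hu : s.t < (D.o u : ℕ)) {β : ι} (hβ : D.tiny β) {e : Finset X}
    (he : e ∈ confB D s β u) :
    ∑ x ∈ (lst D s.t).filter (fun x => ¬ blk D s x u), pr D s x * eng D (stepS D R s x) β e u
        ≤ eng D s β e u * (1 - hN D s u + (hN D s u) ^ 2 / 2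
            - (1 / 10) * (1 / Real.log R * Htot D s e u)) ∧
    ∑ x ∈ lst D s.t, pr D s x * |eng D (stepS D R s x) β e u - eng D s β e u|
        ≤ 3 * eng D s β e u * Htot D s e u := by
  have hec : e ∈ D.conf β := (mem_filter.1 he).1
  have hue : u ∈ e := (mem_filter.1 he).2.1.1
  set L := lst D s.t with hL
  set p := pr D s with hp
  set η : ℝ := 1 / Real.log R with hη
  have hη0 : 0 ≤ η := by positivity
  have hη1 : η ≤ 1 := by
    rw [hη, div_le_one (by linarith)]; exact hR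
  set V := (e.erase u).filter (fun v => s.t < (D.o v : ℕ)) with hV
  have hVe : ∀ v ∈ V, v ∈ e ∧ v ≠ u ∧ s.t < (D.o v : ℕ) := by
    intro v hv
    have h1 := mem_filter.1 hv
    exact ⟨mem_of_mem_erase h1.1, ne_of_mem_erase h1.1, h1.2⟩
  have hVcard : V.card ≤ 3 := by
    have h1 : V.card ≤ (e.erase u).card := card_filter_le _ _
    rw [card_erase_of_mem hue, h.conf_card β e hec] at h1
    omega
  set H := ∑ v ∈ V, hN D s v with hH
  set Ht := Htot D s e u with hHt
  have hHt' : Ht = ∑ v ∈ V, hb D s v := rfl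
  have hH0 : 0 ≤ H := sum_nonneg fun v hv => (hel v (hVe v hv).2.2).1
  have hHle : H ≤ Ht := sum_le_sum fun v hv => (hel v (hVe v hv).2.2).2.1
  have hHt3 : Ht ≤ 3 * ε := by
    rw [hHt']
    have h1 : ∑ v ∈ V, hb D s v ≤ ∑ _v ∈ V, ε := sum_le_sum fun v hv => (hel v (hVe v hv).2.2).2.2
    rw [sum_const, nsmul_eq_mul] at h1
    have hε0 : 0 ≤ ε := by
      have := hel u hu
      linarith
    have h2 : (V.card : ℝ) ≤ 3 := by exact_mod_cast hVcard
    nlinarith
  have hHt0 : 0 ≤ Ht := hH0.trans hHle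
  set E := eng D s β e u with hE
  have hE0 : 0 ≤ E := eng_nonneg hI β e u
  -- the product of factors
  have hprod : ∀ x ∈ L, (∃ v ∈ V, blk D s x v) → ∏ v ∈ V, gf D R s x v = 0 := by
    rintro x _ ⟨v, hv, hb⟩
    refine prod_eq_zero hv ?_
    unfold gf
    rw [if_pos hb]
  have hprod1 : ∀ x ∈ L, (¬ ∃ v ∈ V, blk D s x v) →
      1 ≤ ∏ v ∈ V, gf D R s x v ∧ ∏ v ∈ V, gf D R s x v ≤ Real.exp ((1 - η) * H) := by
    intro x _ hx
    have hgf : ∀ v ∈ V, gf D R s x v = 1 + (1 - η) * hN D s v := by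
      intro v hv
      unfold gf
      rw [if_neg (fun hb => hx ⟨v, hv, hb⟩)]
    have hge : ∀ v ∈ V, 1 ≤ gf D R s x v := by
      intro v hv
      rw [hgf v hv]
      have h1 := (hel v (hVe v hv).2.2).1
      have h2 : 0 ≤ 1 - η := by linarith
      have := mul_nonneg h2 h1
      linarith
    constructor
    · calc (1:ℝ) = ∏ _v ∈ V, (1:ℝ) := by simp
        _ ≤ _ := prod_le_prod (fun _ _ => zero_le_one) hge
    · calc ∏ v ∈ V, gf D R s x v ≤ ∏ v ∈ V, Real.exp ((1 - η) * hN D s v) := by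
            refine prod_le_prod (fun v hv => zero_le_one.trans (hge v hv)) fun v hv => ?_
            rw [hgf v hv, add_comm]
            exact Real.add_one_le_exp _
        _ = Real.exp ((1 - η) * H) := by
            rw [← Real.exp_sum, ← mul_sum]
  -- the probability that some element of `V` is blocked
  set PV := Pm L p (fun x => ∃ v ∈ V, blk D s x v) with hPV
  have hPV1 : H ≤ PV := by
    have h1 : Pm L p (fun x => ∃ v ∈ V, blkN D s x v) = H := by
      rw [Pm_ex_disj]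
      · rfl
      · intro x _ v hv v' hv' hne hb hb'
        exact disj h hβ hec (hVe v hv).1 (hVe v' hv').1 hne hb (Or.inl hb')
    rw [← h1]
    refine Pm_mono hpr ?_
    rintro x _ ⟨v, hv, hb⟩
    exact ⟨v, hv, Or.inl hb⟩
  have hPV2 : Ht / 3 ≤ PV := by
    have h1 : ∀ v ∈ V, hb D s v ≤ PV := by
      intro v hv
      exact Pm_mono hpr (fun x _ hb => ⟨v, hv, hb⟩)
    have h2 : Ht ≤ ∑ _v ∈ V, PV := by
      rw [hHt']
      exact sum_le_sum h1
    rw [sum_const, nsmul_eq_mul] at h2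
    have h3 : (V.card : ℝ) ≤ 3 := by exact_mod_cast hVcard
    have h4 : 0 ≤ PV := Pm_nonneg hpr _
    nlinarith
  have hPV3 : PV ≤ Ht := by
    rw [hHt']
    exact Pm_ex_le hpr V (fun x v => blk D s x v)
  constructor
  · -- first part
    set E1 := Real.exp ((1 - η) * H) with hE1
    set PN := Pm L p (fun x => ¬ (blk D s x u ∨ ∃ v ∈ V, blk D s x v)) with hPN
    have h1 : ∑ x ∈ L.filter (fun x => ¬ blk D s x u), p x * eng D (stepS D R s x) β e u ≤
        E * (E1 * PN) := by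
      have h2 : E * (E1 * PN) = ∑ x ∈ L, E * (E1 *
          (if ¬ (blk D s x u ∨ ∃ v ∈ V, blk D s x v) then p x else 0)) := by
        rw [hPN, Pm_ite, mul_sum, mul_sum]
        refine sum_congr rfl fun x _ => ?_
        congr!
      rw [h2, sum_filter]
      refine sum_le_sum fun x hx => ?_
      by_cases hu' : blk D s x u
      · simp [hu']
      · rw [if_pos hu', eng_step hβ he]
        by_cases hx' : ∃ v ∈ V, blk D s x v
        · rw [hprod x hx hx', if_neg (not_not.2 (Or.inr hx'))]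
          simp
        · rw [if_pos (by rintro (h3 | h3); exacts [hu' h3, hx' h3])]
          have h3 := (hprod1 x hx hx').2
          have h4 := hpr x hx
          calc p x * (E * ∏ v ∈ V, gf D R s x v) ≤ p x * (E * E1) := by gcongr
            _ = _ := by ring
    have hPN1 : PN ≤ 1 - hN D s u - PV := by
      rw [hPN, Pm_not hsum]
      have h2 : hN D s u + PV = Pm L p (fun x => blkN D s x u ∨ ∃ v ∈ V, blk D s x v) := by
        rw [Pm_or]
        · rfl
        · rintro x _ hb ⟨v, hv, hbv⟩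
          exact disj h hβ hec hue (hVe v hv).1 (hVe v hv).2.1.symm hb hbv
      have h3 : Pm L p (fun x => blkN D s x u ∨ ∃ v ∈ V, blk D s x v) ≤
          Pm L p (fun x => blk D s x u ∨ ∃ v ∈ V, blk D s x v) := by
        refine Pm_mono hpr ?_
        rintro x _ (hb | hb)
        · exact Or.inl (Or.inl hb)
        · exact Or.inr hb
      linarith
    have hPV4 : (1 - η / 2) * H + η / 6 * Ht ≤ PV := by
      have h2 : (1 - η / 2) * H ≤ (1 - η / 2) * PV := mul_le_mul_of_nonneg_left hPV1 (by linarith)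
      have h3 : (η / 2) * (Ht / 3) ≤ (η / 2) * PV := mul_le_mul_of_nonneg_left hPV2 (by linarith)
      linarith
    have h5 : 1 - hN D s u - PV ≤ Real.exp (-(hN D s u + PV)) := by
      have := Real.add_one_le_exp (-(hN D s u + PV))
      linarith
    have h6 : E1 * PN ≤ Real.exp (-hN D s u - η / 6 * Ht) := by
      calc E1 * PN ≤ E1 * Real.exp (-(hN D s u + PV)) := by
            have : 0 ≤ E1 := (Real.exp_pos _).le
            exact mul_le_mul_of_nonneg_left (hPN1.trans h5) this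
        _ = Real.exp ((1 - η) * H - (hN D s u + PV)) := by
            rw [hE1, ← Real.exp_add]; ring_nf
        _ ≤ _ := by
            apply Real.exp_le_exp.2
            have : 0 ≤ η * H := mul_nonneg hη0 hH0
            nlinarith
    have hu1 := hel u hu
    have h7 : Real.exp (-hN D s u - η / 6 * Ht) ≤
        1 - hN D s u + (hN D s u) ^ 2 / 2 - (6 / 10) * (η / 6 * Ht) := by
      refine exp_bound hu1.1 (by linarith) (by positivity) ?_
      have : η / 6 * Ht ≤ 1 / 6 * Ht := by gcongr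
      linarith
    calc ∑ x ∈ L.filter (fun x => ¬ blk D s x u), p x * eng D (stepS D R s x) β e u
        ≤ E * (E1 * PN) := h1
      _ ≤ E * (1 - hN D s u + (hN D s u) ^ 2 / 2 - (6 / 10) * (η / 6 * Ht)) := by
          exact mul_le_mul_of_nonneg_left (h6.trans h7) hE0
      _ = _ := by ring
  · -- second part
    have h1 : ∀ x ∈ L, p x * |eng D (stepS D R s x) β e u - E| ≤
        E * ((if ∃ v ∈ V, blk D s x v then p x else 0) + p x * (Real.exp H - 1)) := by
      intro x hx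
      have h4 := hpr x hx
      have hexp : 0 ≤ Real.exp H - 1 := by
        have := Real.add_one_le_exp H
        linarith
      rw [eng_step hβ he]
      by_cases hx' : ∃ v ∈ V, blk D s x v
      · rw [hprod x hx hx', if_pos hx', mul_zero, zero_sub, abs_neg, abs_of_nonneg hE0]
        have : 0 ≤ p x * (Real.exp H - 1) := mul_nonneg h4 hexp
        nlinarith
      · rw [if_neg hx', zero_add]
        have h5 := hprod1 x hx hx'
        have h6 : |E * ∏ v ∈ V, gf D R s x v - E| = E * (∏ v ∈ V, gf D R s x v - 1) := by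
          rw [abs_of_nonneg]
          · ring
          · have := mul_le_mul_of_nonneg_left h5.1 hE0
            linarith
        rw [h6]
        have h7 : Real.exp ((1 - η) * H) ≤ Real.exp H := by
          apply Real.exp_le_exp.2
          have : 0 ≤ η * H := mul_nonneg hη0 hH0
          linarith
        calc p x * (E * (∏ v ∈ V, gf D R s x v - 1)) ≤ p x * (E * (Real.exp H - 1)) := by
              gcongr
              linarith [h5.2]
          _ = _ := by ring
    have h2 : Real.exp H - 1 ≤ 2 * H := exp_sub_one_le hH0 (by linarith)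
    calc ∑ x ∈ L, p x * |eng D (stepS D R s x) β e u - E|
        ≤ ∑ x ∈ L, E * ((if ∃ v ∈ V, blk D s x v then p x else 0) + p x * (Real.exp H - 1)) :=
          sum_le_sum h1
      _ = E * (PV + (Real.exp H - 1)) := by
          rw [← mul_sum, sum_add_distrib, ← sum_mul, hsum, one_mul, hPV, Pm_ite]
          congr 2
          refine sum_congr rfl fun x _ => ?_
          congr!
      _ ≤ E * (3 * Ht) := by
          refine mul_le_mul_of_nonneg_left ?_ hE0
          linarith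
      _ = _ := by ring

theorem exists_R1 (K : ℕ) : ∃ R₁ : ℕ, ∀ R : ℕ, R₁ ≤ R →
    2 * (K:ℝ) * (R : ℝ) ^ (-(99 / 100) : ℝ) ≤ 1 / 100 ∧ 1 ≤ Real.log R := by
  have h1 : Filter.Tendsto (fun R : ℕ => 2 * (K:ℝ) * (R : ℝ) ^ (-(99 / 100) : ℝ)) Filter.atTop
      (nhds 0) := by
    have := ((tendsto_rpow_neg_atTop (y := (99 / 100 : ℝ)) (by norm_num)).comp
      (tendsto_natCast_atTop_atTop (R := ℝ))).const_mul (2 * (K:ℝ))
    simpa using this
  have h2 : Filter.Tendsto (fun R : ℕ => Real.log R) Filter.atTop Filter.atTop :=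
    Real.tendsto_log_atTop.comp tendsto_natCast_atTop_atTop
  have h3 := (h1.eventually_le_const (show (0:ℝ) < 1 / 100 by norm_num)).and
    (h2.eventually_ge_atTop 1)
  exact Filter.eventually_atTop.1 h3

theorem nbt : N_elem → N_Btiny := by
  intro hel K
  obtain ⟨R₀, hR₀⟩ := hel K
  obtain ⟨R₁, hR₁⟩ := exists_R1 K
  refine ⟨max R₀ R₁, fun R hR n X ι _ _ D hD s hs hst u hu β hβ e he => ?_⟩
  obtain ⟨_, h2, h3, h4, _, _⟩ := hR₀ R (le_of_max_le_left hR) n X ι D hD s hs hst
  obtain ⟨h5, h6⟩ := hR₁ R (le_of_max_le_right hR)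
  exact core hD hs h6 h5 h2 (fun x hx => (h3 x hx).1)
    (fun v hv => ⟨(h4 v hv).1, (h4 v hv).2.1, (h4 v hv).2.2.2.2⟩) hu hβ he

end

end Pool.Agent.TH554.NBT

namespace Pool.Agent.TH490

theorem nbt : N_elem → N_Btiny := Pool.Agent.TH554.NBT.nbt

end Pool.Agent.TH490
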