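import Mathlib

set_option autoImplicit false
set_option linter.unusedSectionVars false
set_option linter.unusedVariables false

namespace Pool.Agent.TH554.CRDye

open Set MeasureTheory Filter

variable {X : Type} [MeasurableSpace X] [StandardBorelSpace X]

theorem exists_left_inv {D : Set X} (hD : MeasurableSet D) {f : X → X} (hf : Measurable f)
    (hi : InjOn f D) : ∃ g : X → X, Measurable g ∧ ∀ x ∈ D, g (f x) = x := by
  have := hD.standardBorel
  have hemb : MeasurableEmbedding (fun x : D => f x) :=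
    Measurable.measurableEmbedding (hf.comp measurable_subtype_coe) (injOn_iff_injective.1 hi)
  obtain ⟨g, hg, hgf⟩ := hemb.exists_measurable_extend
    (g := (Subtype.val : D → X)) measurable_subtype_coe (fun x => ⟨x⟩)
  exact ⟨g, hg, fun x hx => congrFun hgf ⟨x, hx⟩⟩

theorem image_meas {D : Set X} (hD : MeasurableSet D) {f : X → X} (hf : Measurable f)
    (hi : InjOn f D) : MeasurableSet (f '' D) :=
  hD.image_of_measurable_injOn hf hi

theorem eq_meas {f g : X → X} (hf : Measurable f) (hg : Measurable g) :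
    MeasurableSet {x | f x = g x} := by
  obtain ⟨t, ht, hti⟩ := MeasurableSpace.measurable_injection_nat_bool_of_countablySeparated X
  have : {x | f x = g x} = {x | t (f x) = t (g x)} := by
    ext x; exact ⟨fun h => congrArg t h, fun h => hti h⟩
  rw [this]
  exact measurableSet_eq_fun (ht.comp hf) (ht.comp hg)

theorem measure_image {s : ℕ → X → X}
    (hs : ∀ n, Measurable (s n)) (hinv : ∀ n x, s n (s n x) = x) {E : X → X → Prop}
    (hsE : ∀ x y, E x y ↔ ∃ n, s n x = y)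
    {ν : Measure X} (hν : ∀ n, ν.map (s n) = ν) {A : Set X} (hA : MeasurableSet A)
    {f : X → X} (hf : Measurable f) (hE : ∀ x, E x (f x)) (hi : InjOn f A) : ν (f '' A) = ν A := by
  let B : ℕ → Set X := fun n => {x | x ∈ A ∧ s n x = f x ∧ ∀ m < n, s m x ≠ f x}
  have hB : ∀ n, MeasurableSet (B n) := by
    intro n
    have : B n = A ∩ ({x | s n x = f x} ∩ ⋂ m ∈ Iio n, {x | s m x = f x}ᶜ) := by
      ext x; simp [B]; tauto
    rw [this]
    refine hA.inter ((eq_meas (hs n) hf).inter ?_)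
    exact MeasurableSet.biInter (to_countable _) fun m _ => (eq_meas (hs m) hf).compl
  have hAB : A = ⋃ n, B n := by
    ext x
    simp only [mem_iUnion, B, mem_ofPred_eq]
    constructor
    · intro hx
      classical
      have h := (hsE x (f x)).1 (hE x)
      exact ⟨Nat.find h, hx, Nat.find_spec h, fun m hm => Nat.find_min h hm⟩
    · rintro ⟨n, h, _⟩; exact h
  have hd : Pairwise (fun i j => Disjoint (B i) (B j)) := by
    intro i j hij
    rw [Set.disjoint_left]
    rintro x ⟨_, h1, h2⟩ ⟨_, h3, h4⟩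
    rcases lt_or_gt_of_ne hij with h | h
    · exact h4 i h h1
    · exact h2 j h h3
  have hfB : ∀ n, f '' B n = s n ⁻¹' B n := by
    intro n
    ext y
    constructor
    · rintro ⟨x, hx, rfl⟩
      have : s n (f x) = x := by rw [← hx.2.1, hinv]
      rw [mem_preimage, this]; exact hx
    · intro hy
      refine ⟨s n y, hy, ?_⟩
      have := hy.2.1
      rw [hinv] at this
      exact this.symm
  have hBA : ∀ n, B n ⊆ A := fun n x hx => hx.1
  have hd' : Pairwise (fun i j => Disjoint (f '' B i) (f '' B j)) := by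
    intro i j hij
    exact (hi.image_inter (hBA i) (hBA j) ▸ by
      rw [Set.disjoint_iff_inter_eq_empty.1 (hd hij)]; simp : f '' B i ∩ f '' B j = ∅) |> Set.disjoint_iff_inter_eq_empty.2
  have hm : ∀ n, ν (f '' B n) = ν (B n) := by
    intro n
    rw [hfB n]
    conv_rhs => rw [← hν n]
    rw [Measure.map_apply (hs n) (hB n)]
  calc ν (f '' A) = ν (⋃ n, f '' B n) := by rw [hAB, image_iUnion]
    _ = ∑' n, ν (f '' B n) := measure_iUnion hd' (fun n => by rw [hfB n]; exact hs n (hB n))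
    _ = ∑' n, ν (B n) := by simp_rw [hm]
    _ = ν (⋃ n, B n) := (measure_iUnion hd hB).symm
    _ = ν A := by rw [← hAB]

/-- one step: the cells with their inverse maps -/
theorem step {s : ℕ → X → X}
    (hs : ∀ n, Measurable (s n)) (hinv : ∀ n x, s n (s n x) = x) {E : X → X → Prop}
    (hE : Equivalence E) (hsE : ∀ x y, E x y ↔ ∃ n, s n x = y)
    (ν : Measure X) [IsProbabilityMeasure ν] {C : Set X} {r : ℕ} (v : X → Fin r)
    {m : ℕ} {D : Set X} {φ : Fin (2 ^ m) → X → X} (hD : MeasurableSet D) (hDC : D ⊆ C)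
    (hφ : ∀ i, Measurable (φ i)) (hφE : ∀ i x, E x (φ i x))
    (hφi : ∀ i, InjOn (φ i) D) (hφC : ∀ i, MapsTo (φ i) D C)
    (hφd : ∀ i j, i ≠ j → Disjoint (φ i '' D) (φ j '' D)) :
    ∃ (idx : X → Fin (2 ^ m)) (back : X → X), Measurable idx ∧ Measurable back ∧
      (∀ x, E x (back x)) ∧ (∀ i, ∀ x ∈ D, idx (φ i x) = i ∧ back (φ i x) = x) := by
  classical
  choose g hg hgf using fun i => exists_left_inv hD (hφ i) (hφi i)
  have hmeas : ∀ i, MeasurableSet (φ i '' D) := fun i => image_meas hD (hφ i) (hφi i)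
  have i0 : Fin (2 ^ m) := ⟨0, by positivity⟩
  let idx : X → Fin (2 ^ m) := fun x => if h : ∃ i, x ∈ φ i '' D then h.choose else i0
  have hidx : ∀ i, ∀ x ∈ φ i '' D, idx x = i := by
    intro i x hx
    have h : ∃ i, x ∈ φ i '' D := ⟨i, hx⟩
    have h1 : idx x = h.choose := dif_pos h
    rw [h1]
    by_contra hne
    exact (Set.disjoint_left.1 (hφd _ _ hne)) h.choose_spec hx
  have hidxm : Measurable idx := by
    refine measurable_to_countable' fun i => ?_
    have : idx ⁻¹' {i} = φ i '' D ∪ (if i = i0 then (⋃ j, φ j '' D)ᶜ else ∅) := by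
      ext x
      simp only [mem_preimage, mem_singleton_iff, mem_union]
      constructor
      · intro h
        by_cases hx : ∃ j, x ∈ φ j '' D
        · obtain ⟨j, hj⟩ := hx
          rw [hidx j x hj] at h
          subst h; exact Or.inl hj
        · right
          have : idx x = i0 := dif_neg hx
          rw [← h, this, if_pos rfl]
          simpa using hx
      · rintro (h | h)
        · exact hidx i x h
        · split_ifs at h with hi
          · have : idx x = i0 := dif_neg (by simpa using h)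
            rw [this, hi]
          · exact h.elim
    rw [this]
    refine (hmeas i).union ?_
    split_ifs
    · exact (MeasurableSet.iUnion hmeas).compl
    · exact MeasurableSet.empty
  have hgm : Measurable (fun x => g (idx x) x) := by
    intro U hU
    have : (fun x => g (idx x) x) ⁻¹' U = ⋃ i, idx ⁻¹' {i} ∩ g i ⁻¹' U := by
      ext x; simp
    rw [this]
    exact MeasurableSet.iUnion fun i => (hidxm (measurableSet_singleton i)).inter (hg i hU)
  refine ⟨idx, fun x => if x ∈ ⋃ j, φ j '' D then g (idx x) x else x, hidxm,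
    Measurable.ite (MeasurableSet.iUnion hmeas) hgm measurable_id, ?_, ?_⟩
  · intro x
    dsimp only
    split_ifs with h
    · obtain ⟨i, y, hy, rfl⟩ := mem_iUnion.1 h
      have hh : φ i y ∈ φ i '' D := ⟨y, hy, rfl⟩
      rw [hidx i _ hh, hgf i y hy]
      exact hE.symm (hφE i y)
    · exact hE.refl x
  · intro i x hx
    have h1 := hidx i _ ⟨x, hx, rfl⟩
    refine ⟨h1, ?_⟩
    have hh : φ i x ∈ ⋃ j, φ j '' D := mem_iUnion.2 ⟨i, mem_image_of_mem _ hx⟩
    dsimp only
    rw [if_pos hh, h1, hgf i x hx]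

open Classical in
/-- state of the construction: the set and the finite set of composites -/
structure St (X : Type) [MeasurableSpace X] where
  C : Set X
  S : Finset (X → X)
  hC : MeasurableSet C
  hS : ∀ f ∈ S, Measurable f

/-- the data of one step -/
structure Data (s : ℕ → X → X) (E : X → X → Prop) (ν : Measure X) (t : X → ℕ → Bool) (k : ℕ) (p : St X) where
  m : ℕ
  hm : 1 ≤ m
  q : St X
  φ : Fin (2 ^ m) → X → X
  idx : X → Fin (2 ^ m)
  back : X → X
  w : Fin (2 ^ m) → X → ℕ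
  v : X → ℕ
  hv : ∀ x y, v x = v y → ∀ f ∈ p.S, ∀ i < k, t (f x) i = t (f y) i
  hsub : q.C ⊆ p.C
  hφ : ∀ i, Measurable (φ i)
  hφE : ∀ i x, E x (φ i x)
  hφi : ∀ i, InjOn (φ i) q.C
  hφC : ∀ i, MapsTo (φ i) q.C p.C
  hφd : ∀ i j, i ≠ j → Disjoint (φ i '' q.C) (φ j '' q.C)
  hcov : ν (p.C \ ⋃ i, φ i '' q.C) = 0
  hw : ∀ i, Measurable (w i)
  hvm : Measurable v
  hwE : ∀ i x y, E x y → w i x = w i y
  hbad : ν {x | x ∈ p.C ∧ x ∈ ⋃ i, φ i '' q.C ∧ v x ≠ w (idx x) x} ≤ (2⁻¹ : ENNReal) ^ k * ν p.C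
  hidx : Measurable idx
  hback : Measurable back
  hbackE : ∀ x, E x (back x)
  hib : ∀ i, ∀ x ∈ q.C, idx (φ i x) = i ∧ back (φ i x) = x
  hqS : ∀ f ∈ p.S, ∀ i, (fun x => f (φ i x)) ∈ q.S

theorem exists_data (s : ℕ → X → X)
    (hs : ∀ n, Measurable (s n)) (hinv : ∀ n x, s n (s n x) = x) (E : X → X → Prop)
    (hE : Equivalence E) (hsE : ∀ x y, E x y ↔ ∃ n, s n x = y)
    (ν : Measure X) [IsProbabilityMeasure ν]
    (hcells : ∀ (C : Set X), MeasurableSet C → ∀ (r : ℕ) (v : X → Fin r), Measurable v → ∀ m : ℕ,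
      ∃ (D : Set X) (φ : Fin (2 ^ m) → X → X) (w : Fin (2 ^ m) → X → Fin r),
      MeasurableSet D ∧ D ⊆ C ∧ (∀ i, Measurable (φ i)) ∧ (∀ i x, E x (φ i x)) ∧
      (∀ i, InjOn (φ i) D) ∧ (∀ i, MapsTo (φ i) D C) ∧
      (∀ i j, i ≠ j → Disjoint (φ i '' D) (φ j '' D)) ∧ ν (C \ ⋃ i, φ i '' D) = 0 ∧
      (∀ i, Measurable (w i)) ∧ (∀ i x y, E x y → w i x = w i y) ∧
      ν {x | x ∈ C ∧ ∃ i, x ∈ φ i '' D ∧ v x ≠ w i x} ≤ (r : ENNReal) / 2 ^ m * ν C)
    (t : X → ℕ → Bool) (ht : Measurable t) (k : ℕ) (p : St X) :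
    Nonempty (Data s E ν t k p) := by
  classical
  -- the vector of tags
  let T := (p.S → Fin k → Bool)
  let e := Fintype.equivFin T
  let r := Fintype.card T
  let v : X → Fin r := fun x => e (fun f i => t (f.1 x) i)
  have hvm : Measurable v := by
    have h1 : Measurable (fun x => (fun f i => t (f.1 x) i : T)) := by
      refine measurable_pi_iff.2 fun f => measurable_pi_iff.2 fun i => ?_
      exact (measurable_pi_apply (i : ℕ)).comp (ht.comp (p.hS f.1 f.2))
    have h2 : Measurable e := measurable_of_countable _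
    exact h2.comp h1
  obtain ⟨D, φ, w, hD, hDC, hφ, hφE, hφi, hφC, hφd, hcov, hw, hwE, hbad⟩ :=
    hcells p.C p.hC r v hvm (r + k + 1)
  obtain ⟨idx, back, hidx, hback, hbackE, hib⟩ := step hs hinv hE hsE ν v hD hDC hφ hφE hφi hφC hφd
  refine ⟨{ m := r + k + 1, hm := by omega,
            q := ⟨D, (p.S ×ˢ (Finset.univ : Finset (Fin (2 ^ (r + k + 1))))).image
              (fun fi x => fi.1 (φ fi.2 x)), hD, ?_⟩,
            φ := φ, idx := idx, back := back, w := fun i x => (w i x : ℕ), v := fun x => (v x : ℕ),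
            hv := ?_, hsub := hDC, hφ := hφ, hφE := hφE, hφi := hφi, hφC := hφC, hφd := hφd,
            hcov := hcov, hw := fun i => (measurable_of_countable _).comp (hw i),
            hvm := (measurable_of_countable _).comp hvm,
            hwE := fun i x y h => by rw [hwE i x y h], hbad := ?_, hidx := hidx, hback := hback,
            hbackE := hbackE, hib := hib, hqS := ?_ }⟩
  · intro f hf
    simp only [Finset.mem_image, Finset.mem_product, Finset.mem_univ, and_true] at hf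
    obtain ⟨⟨g, i⟩, hg, rfl⟩ := hf
    exact (p.hS g hg).comp (hφ i)
  · intro x y hxy f hf i hi
    have h1 : v x = v y := Fin.ext hxy
    have h2 := e.injective h1
    exact congrFun (congrFun h2 ⟨f, hf⟩) ⟨i, hi⟩
  · have h1 : {x | x ∈ p.C ∧ x ∈ ⋃ i, φ i '' D ∧ ((v x : ℕ)) ≠ (w (idx x) x : ℕ)} ⊆
        {x | x ∈ p.C ∧ ∃ i, x ∈ φ i '' D ∧ v x ≠ w i x} := by
      rintro x ⟨hx, hx2, hx3⟩
      obtain ⟨i, y, hy, rfl⟩ := mem_iUnion.1 hx2
      refine ⟨hx, i, ⟨y, hy, rfl⟩, ?_⟩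
      rw [(hib i y hy).1] at hx3
      exact fun h => hx3 (congrArg _ h)
    refine (measure_mono h1).trans (hbad.trans ?_)
    gcongr
    rw [ENNReal.div_le_iff (by positivity) (by finiteness)]
    have h3 : (r : ENNReal) ≤ 2 ^ (r + 1) := by
      have : r < 2 ^ r := Nat.lt_two_pow_self
      have h4 : r ≤ 2 ^ (r + 1) := by rw [pow_succ]; omega
      exact_mod_cast h4
    calc (r : ENNReal) ≤ 2 ^ (r + 1) := h3
      _ = (2⁻¹ ^ k * 2 ^ k) * 2 ^ (r + 1) := by
        rw [← mul_pow, ENNReal.inv_mul_cancel (by norm_num) (by norm_num), one_pow, one_mul]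
      _ = 2⁻¹ ^ k * 2 ^ (r + k + 1) := by ring
  · intro f hf i
    exact Finset.mem_image.2 ⟨(f, i), by simp [hf], rfl⟩

/-- the whole sequence of data -/
structure Seq (E : X → X → Prop) (ν : Measure X) (t : X → ℕ → Bool) where
  C : ℕ → Set X
  S : ℕ → Finset (X → X)
  m : ℕ → ℕ
  φ : ∀ k, Fin (2 ^ m k) → X → X
  idx : ∀ k, X → Fin (2 ^ m k)
  back : ℕ → X → X
  w : ∀ k, Fin (2 ^ m k) → X → ℕ
  v : ℕ → X → ℕ
  hC0 : C 0 = univ
  hS0 : (fun x => x) ∈ S 0
  hC : ∀ k, MeasurableSet (C k)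
  hm : ∀ k, 1 ≤ m k
  hv : ∀ k x y, v k x = v k y → ∀ f ∈ S k, ∀ i < k, t (f x) i = t (f y) i
  hφ : ∀ k i, Measurable (φ k i)
  hφE : ∀ k i x, E x (φ k i x)
  hφi : ∀ k i, InjOn (φ k i) (C (k + 1))
  hφC : ∀ k i, MapsTo (φ k i) (C (k + 1)) (C k)
  hφd : ∀ k i j, i ≠ j → Disjoint (φ k i '' C (k + 1)) (φ k j '' C (k + 1))
  hcov : ∀ k, ν (C k \ ⋃ i, φ k i '' C (k + 1)) = 0
  hw : ∀ k i, Measurable (w k i)
  hvm : ∀ k, Measurable (v k)
  hwE : ∀ k i x y, E x y → w k i x = w k i y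
  hbad : ∀ k, ν {x | x ∈ C k ∧ x ∈ ⋃ i, φ k i '' C (k + 1) ∧ v k x ≠ w k (idx k x) x} ≤
    (2⁻¹ : ENNReal) ^ k * ν (C k)
  hidx : ∀ k, Measurable (idx k)
  hback : ∀ k, Measurable (back k)
  hbackE : ∀ k x, E x (back k x)
  hib : ∀ k i, ∀ x ∈ C (k + 1), idx k (φ k i x) = i ∧ back k (φ k i x) = x
  hqS : ∀ k, ∀ f ∈ S k, ∀ i, (fun x => f (φ k i x)) ∈ S (k + 1)

theorem exists_seq (s : ℕ → X → X) (E : X → X → Prop) (ν : Measure X) (t : X → ℕ → Bool)
    (hex : ∀ (k : ℕ) (p : St X), Nonempty (Data s E ν t k p)) : Nonempty (Seq E ν t) := by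
  let dat : ∀ (k : ℕ) (p : St X), Data s E ν t k p := fun k p => (hex k p).some
  let p0 : St X := ⟨univ, {fun x => x}, MeasurableSet.univ, by
    intro f hf
    rw [Finset.mem_singleton] at hf
    subst hf; exact measurable_id⟩
  let P : ℕ → St X := fun k => Nat.rec p0 (fun k p => (dat k p).q) k
  let d : ∀ k, Data s E ν t k (P k) := fun k => dat k (P k)
  exact ⟨{
    C := fun k => (P k).C
    S := fun k => (P k).S
    m := fun k => (d k).m
    φ := fun k => (d k).φ
    idx := fun k => (d k).idx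
    back := fun k => (d k).back
    w := fun k => (d k).w
    v := fun k => (d k).v
    hC0 := rfl
    hS0 := Finset.mem_singleton_self _
    hC := fun k => (P k).hC
    hm := fun k => (d k).hm
    hv := fun k => (d k).hv
    hφ := fun k => (d k).hφ
    hφE := fun k => (d k).hφE
    hφi := fun k => (d k).hφi
    hφC := fun k => (d k).hφC
    hφd := fun k => (d k).hφd
    hcov := fun k => (d k).hcov
    hw := fun k => (d k).hw
    hvm := fun k => (d k).hvm
    hwE := fun k => (d k).hwE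
    hbad := fun k => (d k).hbad
    hidx := fun k => (d k).hidx
    hback := fun k => (d k).hback
    hbackE := fun k => (d k).hbackE
    hib := fun k => (d k).hib
    hqS := fun k => (d k).hqS }⟩

namespace Seq

variable {E : X → X → Prop} {ν : Measure X} {t : X → ℕ → Bool} (Q : Seq E ν t)

/-- the successive positions -/
def pos : ℕ → X → X
  | 0, x => x
  | k + 1, x => Q.back k (pos k x)

/-- the good part at level `k` -/
def W (k : ℕ) : Set X := ⋃ i, Q.φ k i '' Q.C (k + 1)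

/-- digits -/
def om (x : X) (k : ℕ) : Fin (2 ^ Q.m k) := Q.idx k (Q.pos k x)

/-- composites -/
def Y (θ : ∀ k, Fin (2 ^ Q.m k)) : ℕ → X → X
  | 0, x => x
  | k + 1, x => Y θ k (Q.φ k (θ k) x)

/-- the set of points good below `k` -/
def G (k : ℕ) : Set X := {x | ∀ j < k, Q.pos j x ∈ Q.W j}

theorem pos_meas (k : ℕ) : Measurable (Q.pos k) := by
  induction k with
  | zero => exact measurable_id
  | succ k ih => exact (Q.hback k).comp ih

theorem W_meas (k : ℕ) : MeasurableSet (Q.W k) :=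
  MeasurableSet.iUnion fun i => image_meas (Q.hC _) (Q.hφ k i) (Q.hφi k i)

theorem G_meas (k : ℕ) : MeasurableSet (Q.G k) := by
  have : Q.G k = ⋂ j ∈ Iio k, Q.pos j ⁻¹' Q.W j := by
    ext x; simp [G]
  rw [this]
  exact MeasurableSet.biInter (to_countable _) fun j _ => Q.pos_meas j (Q.W_meas j)

theorem G_succ (k : ℕ) : Q.G (k + 1) = Q.G k ∩ Q.pos k ⁻¹' Q.W k := by
  ext x
  simp only [G, mem_ofPred_eq, mem_inter_iff, mem_preimage]
  constructor
  · intro h
    exact ⟨fun j hj => h j (by omega), h k (by omega)⟩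
  · rintro ⟨h1, h2⟩ j hj
    rcases Nat.lt_succ_iff_lt_or_eq.1 hj with h | rfl
    · exact h1 j h
    · exact h2

theorem W_sub (k : ℕ) : Q.W k ⊆ Q.C k := by
  intro x hx
  obtain ⟨i, y, hy, rfl⟩ := mem_iUnion.1 hx
  exact Q.hφC k i hy

theorem back_mem {k : ℕ} {x : X} (hx : x ∈ Q.W k) :
    Q.back k x ∈ Q.C (k + 1) ∧ Q.φ k (Q.idx k x) (Q.back k x) = x := by
  obtain ⟨i, y, hy, rfl⟩ := mem_iUnion.1 hx
  rw [(Q.hib k i y hy).1, (Q.hib k i y hy).2]
  exact ⟨hy, rfl⟩

theorem pos_mem {k : ℕ} {x : X} (hx : x ∈ Q.G k) : Q.pos k x ∈ Q.C k := by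
  cases k with
  | zero => rw [Q.hC0]; trivial
  | succ k => exact (Q.back_mem (hx k (by omega))).1

theorem Y_om {k : ℕ} {x : X} (hx : x ∈ Q.G k) : Q.Y (Q.om x) k (Q.pos k x) = x := by
  induction k with
  | zero => rfl
  | succ k ih =>
    have h1 : x ∈ Q.G k := fun j hj => hx j (by omega)
    have h2 := (Q.back_mem (hx k (by omega))).2
    show Q.Y (Q.om x) k (Q.φ k (Q.idx k (Q.pos k x)) (Q.back k (Q.pos k x))) = x
    rw [h2, ih h1]

theorem Y_mem (θ : ∀ k, Fin (2 ^ Q.m k)) (k : ℕ) : (fun x => Q.Y θ k x) ∈ Q.S k := by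
  induction k with
  | zero => exact Q.hS0
  | succ k ih => exact Q.hqS k _ ih (θ k)

theorem Y_congr {θ θ' : ∀ k, Fin (2 ^ Q.m k)} {k : ℕ} (h : ∀ j < k, θ j = θ' j) (x : X) :
    Q.Y θ k x = Q.Y θ' k x := by
  induction k generalizing x with
  | zero => rfl
  | succ k ih =>
    show Q.Y θ k (Q.φ k (θ k) x) = Q.Y θ' k (Q.φ k (θ' k) x)
    rw [h k (by omega), ih (fun j hj => h j (by omega))]

theorem om_Y (θ : ∀ k, Fin (2 ^ Q.m k)) {k : ℕ} {c : X} (hc : c ∈ Q.C k) :
    Q.pos k (Q.Y θ k c) = c ∧ (∀ j < k, Q.om (Q.Y θ k c) j = θ j) := by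
  induction k generalizing c with
  | zero => exact ⟨rfl, by simp⟩
  | succ k ih =>
    obtain ⟨h1, h2⟩ := ih (Q.hφC k (θ k) hc)
    have h3 := Q.hib k (θ k) c hc
    refine ⟨?_, ?_⟩
    · show Q.back k (Q.pos k (Q.Y θ k (Q.φ k (θ k) c))) = c
      rw [h1, h3.2]
    · intro j hj
      rcases Nat.lt_succ_iff_lt_or_eq.1 hj with h | rfl
      · exact h2 j h
      · show Q.idx j (Q.pos j (Q.Y θ j (Q.φ j (θ j) c))) = θ j
        rw [h1, h3.1]

theorem pos_E (hE : Equivalence E) (k : ℕ) (x : X) : E x (Q.pos k x) := by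
  induction k with
  | zero => exact hE.refl x
  | succ k ih => exact hE.trans ih (Q.hbackE k _)

theorem Y_E (hE : Equivalence E) (θ : ∀ k, Fin (2 ^ Q.m k)) (k : ℕ) (x : X) : E x (Q.Y θ k x) := by
  induction k generalizing x with
  | zero => exact hE.refl x
  | succ k ih => exact hE.trans (Q.hφE k (θ k) x) (ih _)

/-- the fundamental measure identity -/
theorem measure_G {s : ℕ → X → X}
    (hs : ∀ n, Measurable (s n)) (hinv : ∀ n x, s n (s n x) = x)
    (hsE : ∀ x y, E x y ↔ ∃ n, s n x = y) (hν : ∀ n, ν.map (s n) = ν) (k : ℕ) :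
    ∀ B : Set X, MeasurableSet B → B ⊆ Q.C k →
      ν (Q.G k ∩ Q.pos k ⁻¹' B) = (∏ j ∈ Finset.range k, (2 ^ Q.m j : ENNReal)) * ν B := by
  induction k with
  | zero =>
    intro B hB _
    have : Q.G 0 ∩ Q.pos 0 ⁻¹' B = B := by
      ext x; simp [G, pos]
    rw [this]; simp
  | succ k ih =>
    intro B hB hBC
    have h1 : Q.G (k + 1) ∩ Q.pos (k + 1) ⁻¹' B = Q.G k ∩ Q.pos k ⁻¹' (⋃ i, Q.φ k i '' B) := by
      ext x
      rw [G_succ]
      constructor
      · rintro ⟨⟨h1, h2⟩, h3⟩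
        refine ⟨h1, ?_⟩
        rw [mem_preimage, ← (Q.back_mem h2).2]
        exact mem_iUnion.2 ⟨_, mem_image_of_mem _ h3⟩
      · rintro ⟨h1, h2⟩
        obtain ⟨i, b, hb, hbx⟩ := mem_iUnion.1 h2
        refine ⟨⟨h1, ?_⟩, ?_⟩
        · exact mem_iUnion.2 ⟨i, b, hBC hb, hbx⟩
        · show Q.back k (Q.pos k x) ∈ B
          rw [← hbx, (Q.hib k i b (hBC hb)).2]
          exact hb
    have hm : ∀ i, MeasurableSet (Q.φ k i '' B) := fun i =>
      image_meas hB (Q.hφ k i) ((Q.hφi k i).mono hBC)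
    rw [h1, ih _ (MeasurableSet.iUnion hm), measure_iUnion, Finset.prod_range_succ]
    · have h2 : ∀ i, ν (Q.φ k i '' B) = ν B := fun i =>
        measure_image hs hinv hsE hν hB (Q.hφ k i) (Q.hφE k i) ((Q.hφi k i).mono hBC)
      simp_rw [h2]
      rw [tsum_fintype, Finset.sum_const, Finset.card_univ, Fintype.card_fin, nsmul_eq_mul]
      push_cast
      ring
    · intro i j hij
      exact (Q.hφd k i j hij).mono (image_mono hBC) (image_mono hBC)
    · exact hm
    · exact iUnion_subset fun i => ((Q.hφC k i).mono_left hBC).image_subset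

theorem measure_G_compl {s : ℕ → X → X}
    (hs : ∀ n, Measurable (s n)) (hinv : ∀ n x, s n (s n x) = x)
    (hsE : ∀ x y, E x y ↔ ∃ n, s n x = y) (hν : ∀ n, ν.map (s n) = ν) (k : ℕ) :
    ν (Q.G k)ᶜ = 0 := by
  induction k with
  | zero =>
    have : (Q.G 0)ᶜ = ∅ := by ext x; simp [G]
    rw [this]; simp
  | succ k ih =>
    have h1 : (Q.G (k + 1))ᶜ ⊆ (Q.G k)ᶜ ∪ (Q.G k ∩ Q.pos k ⁻¹' (Q.C k \ Q.W k)) := by
      intro x hx
      rw [G_succ] at hx
      by_cases h : x ∈ Q.G k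
      · right
        exact ⟨h, Q.pos_mem h, fun h' => hx ⟨h, h'⟩⟩
      · exact Or.inl h
    refine measure_mono_null h1 (measure_union_null ih ?_)
    rw [Q.measure_G hs hinv hsE hν k _ ((Q.hC k).diff (Q.W_meas k)) sdiff_subset]
    have : ν (Q.C k \ Q.W k) = 0 := Q.hcov k
    rw [this, mul_zero]

theorem measure_bad [IsProbabilityMeasure ν] {s : ℕ → X → X}
    (hs : ∀ n, Measurable (s n)) (hinv : ∀ n x, s n (s n x) = x)
    (hsE : ∀ x y, E x y ↔ ∃ n, s n x = y) (hν : ∀ n, ν.map (s n) = ν) (k : ℕ) :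
    ν {x | Q.v k (Q.pos k x) ≠ Q.w k (Q.om x k) (Q.pos k x)} ≤ (2⁻¹ : ENNReal) ^ k := by
  set B : Set X := {x | x ∈ Q.C k ∧ x ∈ ⋃ i, Q.φ k i '' Q.C (k + 1) ∧ Q.v k x ≠ Q.w k (Q.idx k x) x} with hBdef
  have hwm : Measurable (fun x => Q.w k (Q.idx k x) x) := by
    intro U hU
    have : (fun x => Q.w k (Q.idx k x) x) ⁻¹' U = ⋃ i, Q.idx k ⁻¹' {i} ∩ Q.w k i ⁻¹' U := by
      ext x; simp
    rw [this]
    exact MeasurableSet.iUnion fun i => (Q.hidx k (measurableSet_singleton i)).inter (Q.hw k i hU)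
  have hB : MeasurableSet B := by
    have : B = Q.C k ∩ (Q.W k ∩ {x | Q.v k x = Q.w k (Q.idx k x) x}ᶜ) := by
      ext x; simp [hBdef, W]; tauto
    rw [this]
    exact (Q.hC k).inter ((Q.W_meas k).inter (measurableSet_eq_fun (Q.hvm k) hwm).compl)
  have h1 : {x | Q.v k (Q.pos k x) ≠ Q.w k (Q.om x k) (Q.pos k x)} ⊆
      (Q.G (k + 1))ᶜ ∪ (Q.G k ∩ Q.pos k ⁻¹' B) := by
    intro x hx
    by_cases h : x ∈ Q.G (k + 1)
    · right
      rw [G_succ] at h
      exact ⟨h.1, Q.pos_mem h.1, h.2, hx⟩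
    · exact Or.inl h
  calc _ ≤ ν ((Q.G (k + 1))ᶜ ∪ (Q.G k ∩ Q.pos k ⁻¹' B)) := measure_mono h1
    _ ≤ ν (Q.G (k + 1))ᶜ + ν (Q.G k ∩ Q.pos k ⁻¹' B) := measure_union_le _ _
    _ = (∏ j ∈ Finset.range k, (2 ^ Q.m j : ENNReal)) * ν B := by
        rw [Q.measure_G_compl hs hinv hsE hν, zero_add,
          Q.measure_G hs hinv hsE hν k B hB (fun x hx => hx.1)]
    _ ≤ (∏ j ∈ Finset.range k, (2 ^ Q.m j : ENNReal)) * ((2⁻¹ : ENNReal) ^ k * ν (Q.C k)) := by
        gcongr
        exact Q.hbad k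
    _ = (2⁻¹ : ENNReal) ^ k * ((∏ j ∈ Finset.range k, (2 ^ Q.m j : ENNReal)) * ν (Q.C k)) := by ring
    _ = (2⁻¹ : ENNReal) ^ k * ν (Q.G k ∩ Q.pos k ⁻¹' Q.C k) := by
        rw [Q.measure_G hs hinv hsE hν k _ (Q.hC k) subset_rfl]
    _ ≤ (2⁻¹ : ENNReal) ^ k * 1 := by
        gcongr
        exact prob_le_one
    _ = _ := mul_one _

end Seq

/-- JOB DYE (nonergodic Dye theorem for a hyperfinite subrelation) from the cells lemma. -/
theorem dye {X : Type} [MeasurableSpace X] [StandardBorelSpace X] (s : ℕ → X → X)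
    (hs : ∀ n, Measurable (s n)) (hinv : ∀ n x, s n (s n x) = x) (E : X → X → Prop)
    (hE : Equivalence E) (hsE : ∀ x y, E x y ↔ ∃ n, s n x = y)
    (ν : Measure X) [IsProbabilityMeasure ν]
    (hν : ∀ n, ν.map (s n) = ν)
    -- this hypothesis is the conclusion of job CELLS
    (hcells : ∀ (C : Set X), MeasurableSet C → ∀ (r : ℕ) (v : X → Fin r), Measurable v → ∀ m : ℕ,
      ∃ (D : Set X) (φ : Fin (2 ^ m) → X → X) (w : Fin (2 ^ m) → X → Fin r),
      MeasurableSet D ∧ D ⊆ C ∧ (∀ i, Measurable (φ i)) ∧ (∀ i x, E x (φ i x)) ∧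
      (∀ i, InjOn (φ i) D) ∧ (∀ i, MapsTo (φ i) D C) ∧
      (∀ i j, i ≠ j → Disjoint (φ i '' D) (φ j '' D)) ∧ ν (C \ ⋃ i, φ i '' D) = 0 ∧
      (∀ i, Measurable (w i)) ∧ (∀ i x y, E x y → w i x = w i y) ∧
      ν {x | x ∈ C ∧ ∃ i, x ∈ φ i '' D ∧ v x ≠ w i x} ≤ (r : ENNReal) / 2 ^ m * ν C) :
    ∃ (N : ℕ → ℕ) (X1 : Set X) (z : X → (ℕ → Bool)) (ω : X → (k : ℕ) → Fin (N k)),
      (∀ k, 2 ≤ N k) ∧ MeasurableSet X1 ∧ ν X1ᶜ = 0 ∧ (∀ x y, E x y → x ∈ X1 → y ∈ X1) ∧
      Measurable z ∧ Measurable ω ∧ (∀ x y, E x y → z x = z y) ∧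
      (∀ x ∈ X1, ∀ y ∈ X1, z x = z y → ω x = ω y → x = y) ∧
      ∀ x ∈ X1, ∀ (k : ℕ) (i : Fin (N k)), ∃ y ∈ X1, E x y ∧ ω y = Function.update (ω x) k i := by
  classical
  obtain ⟨t, ht, hti⟩ := MeasurableSpace.measurable_injection_nat_bool_of_countablySeparated X
  obtain ⟨Q⟩ := exists_seq s E ν t (fun k p => exists_data s hs hinv E hE hsE ν hcells t ht k p)
  let bad : ℕ → X → Prop := fun k x => Q.v k (Q.pos k x) ≠ Q.w k (Q.om x k) (Q.pos k x)
  have hbadm : ∀ k, MeasurableSet {x | bad k x} := by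
    intro k
    have hwm : Measurable (fun x => Q.w k (Q.idx k x) x) := by
      intro U hU
      have : (fun x => Q.w k (Q.idx k x) x) ⁻¹' U = ⋃ i, Q.idx k ⁻¹' {i} ∩ Q.w k i ⁻¹' U := by
        ext x; simp
      rw [this]
      exact MeasurableSet.iUnion fun i => (Q.hidx k (measurableSet_singleton i)).inter (Q.hw k i hU)
    exact (measurableSet_eq_fun ((Q.hvm k).comp (Q.pos_meas k)) (hwm.comp (Q.pos_meas k))).compl
  let Nul : Set X := {x | (∃ k, Q.pos k x ∉ Q.W k) ∨ ∃ᶠ k in atTop, bad k x}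
  have hNulm : MeasurableSet Nul := by
    have : Nul = (⋃ k, Q.pos k ⁻¹' (Q.W k)ᶜ) ∪ ⋂ k, ⋃ j ∈ Ici k, {x | bad j x} := by
      ext x
      simp only [Nul, mem_ofPred_eq, mem_union, mem_iUnion, mem_preimage, mem_compl_iff, mem_iInter,
        frequently_atTop, mem_Ici, exists_prop]
    rw [this]
    refine (MeasurableSet.iUnion fun k => Q.pos_meas k (Q.W_meas k).compl).union ?_
    exact MeasurableSet.iInter fun k => MeasurableSet.biUnion (to_countable _) fun j _ => hbadm j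
  have hNul0 : ν Nul = 0 := by
    have h1 : Nul ⊆ (⋃ k, (Q.G (k + 1))ᶜ) ∪ {x | ∃ᶠ k in atTop, bad k x} := by
      rintro x (⟨k, hk⟩ | h)
      · left
        exact mem_iUnion.2 ⟨k, fun h => hk (h k (by omega))⟩
      · exact Or.inr h
    refine measure_mono_null h1 (measure_union_null ?_ ?_)
    · exact measure_iUnion_null fun k => Q.measure_G_compl hs hinv hsE hν (k + 1)
    · apply measure_setOfPred_frequently_eq_zero
      refine ne_of_lt (lt_of_le_of_lt (ENNReal.tsum_le_tsum fun k => Q.measure_bad hs hinv hsE hν k) ?_)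
      rw [ENNReal.tsum_geometric, ENNReal.one_sub_inv_two, inv_inv]
      exact ENNReal.ofNat_lt_top
  let X1 : Set X := {x | ∀ n, s n x ∉ Nul}
  have hX1 : ∀ x, x ∈ X1 ↔ ∀ y, E x y → y ∉ Nul := by
    intro x
    constructor
    · intro h y hy
      obtain ⟨n, rfl⟩ := (hsE x y).1 hy
      exact h n
    · intro h n
      exact h _ ((hsE _ _).2 ⟨n, rfl⟩)
  have hX1self : ∀ x ∈ X1, x ∉ Nul := fun x hx => (hX1 x).1 hx x (hE.refl x)
  have hX1G : ∀ x ∈ X1, ∀ k, x ∈ Q.G k := by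
    intro x hx k j _
    by_contra h
    exact hX1self x hx (Or.inl ⟨j, h⟩)
  have hX1inv : ∀ x y, E x y → x ∈ X1 → y ∈ X1 := by
    intro x y hxy hx
    rw [hX1] at hx ⊢
    exact fun y' hy' => hx y' (hE.trans hxy hy')
  -- the invariant coordinate
  obtain ⟨e, he, hei⟩ := MeasurableSpace.measurable_injection_nat_bool_of_countablySeparated (ℕ → ℕ → ℕ)
  let zz : X → ℕ → ℕ → ℕ := fun x k i => if h : i < 2 ^ Q.m k then Q.w k ⟨i, h⟩ x else 0
  have hzz : Measurable zz := by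
    refine measurable_pi_iff.2 fun k => measurable_pi_iff.2 fun i => ?_
    by_cases h : i < 2 ^ Q.m k
    · simp only [zz, dif_pos h]; exact Q.hw k _
    · simp only [zz, dif_neg h]; exact measurable_const
  refine ⟨fun k => 2 ^ Q.m k, X1, fun x => e (zz x), Q.om, ?_, ?_, ?_, hX1inv, he.comp hzz, ?_, ?_, ?_, ?_⟩
  · intro k
    calc 2 = 2 ^ 1 := rfl
      _ ≤ 2 ^ Q.m k := Nat.pow_le_pow_right (by norm_num) (Q.hm k)
  · have : X1 = ⋂ n, s n ⁻¹' Nulᶜ := by
      ext x; simp [X1]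
    rw [this]
    exact MeasurableSet.iInter fun n => hs n hNulm.compl
  · have : X1ᶜ = ⋃ n, s n ⁻¹' Nul := by
      ext x; simp [X1]
    rw [this]
    refine measure_iUnion_null fun n => ?_
    rw [← Measure.map_apply (hs n) hNulm, hν n, hNul0]
  · refine measurable_pi_iff.2 fun k => ?_
    exact (Q.hidx k).comp (Q.pos_meas k)
  · intro x y hxy
    have : zz x = zz y := by
      funext k i
      by_cases h : i < 2 ^ Q.m k
      · simp only [zz, dif_pos h]; exact Q.hwE k _ _ _ hxy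
      · simp only [zz, dif_neg h]
    show e (zz x) = e (zz y)
    rw [this]
  · intro x hx y hy hz hω
    have hzz' : zz x = zz y := hei hz
    have hw : ∀ k i, Q.w k i x = Q.w k i y := by
      intro k i
      have := congrFun (congrFun hzz' k) i
      simpa only [zz, dif_pos i.2] using this
    have h1 : ∀ᶠ k in atTop, ¬ bad k x := by
      by_contra h
      exact hX1self x hx (Or.inr h)
    have h2 : ∀ᶠ k in atTop, ¬ bad k y := by
      by_contra h
      exact hX1self y hy (Or.inr h)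
    obtain ⟨K, hK⟩ := eventually_atTop.1 (h1.and h2)
    apply hti
    funext i
    have h3 := hK (max K (i + 1)) (le_max_left _ _)
    set k := max K (i + 1) with hk
    have h4 : Q.v k (Q.pos k x) = Q.w k (Q.om x k) (Q.pos k x) := not_not.1 h3.1
    have h5 : Q.v k (Q.pos k y) = Q.w k (Q.om y k) (Q.pos k y) := not_not.1 h3.2
    have h6 : Q.v k (Q.pos k x) = Q.v k (Q.pos k y) := by
      rw [h4, h5, ← Q.hwE k _ _ _ (Q.pos_E hE k x), ← Q.hwE k _ _ _ (Q.pos_E hE k y), hw, hω]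
    have h7 := Q.hv k _ _ h6 _ (Q.Y_mem (Q.om x) k) i (by omega)
    have h8 : Q.Y (Q.om x) k (Q.pos k x) = x := Q.Y_om (hX1G x hx k)
    have h9 : Q.Y (Q.om x) k (Q.pos k y) = y := by
      rw [hω]; exact Q.Y_om (hX1G y hy k)
    simpa only [h8, h9] using h7
  · intro x hx k i
    have hc : Q.pos (k + 1) x ∈ Q.C (k + 1) := Q.pos_mem (hX1G x hx (k + 1))
    set θ := Function.update (Q.om x) k i with hθ
    obtain ⟨h1, h2⟩ := Q.om_Y θ hc
    have hEy : E x (Q.Y θ (k + 1) (Q.pos (k + 1) x)) :=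
      hE.trans (Q.pos_E hE (k + 1) x) (Q.Y_E hE θ (k + 1) _)
    refine ⟨Q.Y θ (k + 1) (Q.pos (k + 1) x), hX1inv _ _ hEy hx, hEy, ?_⟩
    set y := Q.Y θ (k + 1) (Q.pos (k + 1) x)
    have h3 : ∀ j, k + 1 ≤ j → Q.pos j y = Q.pos j x := by
      intro j hj
      induction j, hj using Nat.le_induction with
      | base => exact h1
      | succ j _ ih =>
        show Q.back j (Q.pos j y) = Q.back j (Q.pos j x)
        rw [ih]
    funext j
    by_cases hj : j < k + 1
    · exact h2 j hj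
    · have h4 : Q.om y j = Q.om x j := by
        show Q.idx j (Q.pos j y) = Q.idx j (Q.pos j x)
        rw [h3 j (by omega)]
      rw [h4, hθ, Function.update_of_ne (by omega)]

end Pool.Agent.TH554.CRDye
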