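import Pool.Agent.TH948.HT.Defs

set_option autoImplicit false
set_option linter.unusedSectionVars false

/-!
# Few edges have a light pair of facets
-/

namespace Pool.Agent.TH948.HT.HT9L

open Finset
open scoped Classical
open Pool.Agent.TH965.Spread Pool.Agent.TH948.KK Pool.Agent.TH948.BD

section gen

variable {X : Type*} [DecidableEq X] {I : Type*}

lemma exs_sum (s : Finset X) (p : ℝ) (N : Finset I) (f : I → Finset X → ℝ) :
    exs s p (fun W => ∑ i ∈ N, f i W) = ∑ i ∈ N, exs s p (f i) := by
  unfold exs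
  rw [Finset.sum_comm]
  refine Finset.sum_congr rfl fun W _ => ?_
  rw [Finset.mul_sum]

/-- the exponential moments -/
lemma exs_exp (p l : ℝ) (A : Finset X) (s : Finset X) :
    exs s p (fun W => Real.exp (l * ((W ∩ A).card : ℝ))) =
      (1 - p + p * Real.exp l) ^ (s ∩ A).card := by
  induction s using Finset.induction_on with
  | empty => rw [exs_empty]; simp
  | insert x s hx ih =>
    rw [exs_insert s x hx, ih]
    by_cases hA : x ∈ A
    · have e1 : exs s p (fun W => Real.exp (l * ((insert x W ∩ A).card : ℝ))) =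
          Real.exp l * exs s p (fun W => Real.exp (l * ((W ∩ A).card : ℝ))) := by
        rw [← exs_mul_left]
        refine exs_congr s p fun W hW => ?_
        rw [Finset.insert_inter_of_mem hA,
          Finset.card_insert_of_notMem (fun h => hx (hW (Finset.mem_inter.1 h).1))]
        push_cast
        rw [mul_add, mul_one, Real.exp_add, mul_comm]
      rw [e1, ih, Finset.insert_inter_of_mem hA,
        Finset.card_insert_of_notMem (fun h => hx (Finset.mem_inter.1 h).1), pow_succ]
      ring
    · have e1 : exs s p (fun W => Real.exp (l * ((insert x W ∩ A).card : ℝ))) =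
          exs s p (fun W => Real.exp (l * ((W ∩ A).card : ℝ))) := by
        refine exs_congr s p fun W hW => ?_
        rw [Finset.insert_inter_of_notMem hA]
      rw [e1, ih, Finset.insert_inter_of_notMem hA]
      ring

/-- the upper tail -/
lemma exs_tail (s A : Finset X) {p l : ℝ} (M : ℝ) (hp0 : 0 ≤ p) (hp1 : p ≤ 1) (hl : 0 ≤ l) :
    exs s p (fun W => ind (M < ((W ∩ A).card : ℝ))) ≤
      Real.exp (-(l * M)) * Real.exp (p * A.card * (Real.exp l - 1)) := by
  have h1 : exs s p (fun W => ind (M < ((W ∩ A).card : ℝ))) ≤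
      exs s p (fun W => Real.exp (-(l * M)) * Real.exp (l * ((W ∩ A).card : ℝ))) := by
    refine exs_mono s hp0 hp1 fun W _ => ?_
    rw [← Real.exp_add]
    by_cases h : M < ((W ∩ A).card : ℝ)
    · rw [ind_true h]
      apply Real.one_le_exp
      nlinarith
    · rw [ind_false h]
      exact (Real.exp_pos _).le
  refine h1.trans ?_
  rw [exs_mul_left, exs_exp]
  refine mul_le_mul_of_nonneg_left ?_ (Real.exp_pos _).le
  have he : 0 ≤ Real.exp l - 1 := by
    have := Real.one_le_exp hl
    linarith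
  have h2 : 1 - p + p * Real.exp l ≤ Real.exp (p * (Real.exp l - 1)) := by
    have := Real.add_one_le_exp (p * (Real.exp l - 1))
    linarith
  have h3 : 0 ≤ 1 - p + p * Real.exp l := by
    have := mul_nonneg hp0 (Real.exp_pos l).le
    linarith
  calc (1 - p + p * Real.exp l) ^ (s ∩ A).card
      ≤ Real.exp (p * (Real.exp l - 1)) ^ (s ∩ A).card := pow_le_pow_left₀ h3 h2 _
    _ = Real.exp (((s ∩ A).card : ℝ) * (p * (Real.exp l - 1))) := (Real.exp_nat_mul _ _).symm
    _ ≤ Real.exp (p * A.card * (Real.exp l - 1)) := by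
        apply Real.exp_le_exp.2
        have h4 : ((s ∩ A).card : ℝ) ≤ A.card := by
          exact_mod_cast Finset.card_le_card Finset.inter_subset_right
        have h5 : 0 ≤ p * (Real.exp l - 1) := mul_nonneg hp0 he
        nlinarith

end gen

/-- the number of edges with a light pair -/
lemma lp_card {n k : ℕ} (hk : 2 ≤ k) {ε : ℝ} (hε : 0 ≤ ε) {T : Finset (Finset (Fin n))}
    (hT : T ⊆ facets n k) :
    ((lp k ε T).card : ℝ) ≤ T.card * (((k : ℝ) - 1) * (ε * n)) := by
  have hcard : ∀ f ∈ T, f.card = k - 1 := fun f hf => (Finset.mem_powersetCard.1 (hT hf)).2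
  set G : Finset (Fin n) → Finset (Finset (Fin n)) := fun f =>
    (f.powersetCard (k - 2)).filter (fun R => (deg T R : ℝ) < ε * n) with hG
  have hsub : lp k ε T ⊆ T.biUnion (fun f => (G f).biUnion (fun R =>
      (T.filter (fun g => R ⊆ g)).image (fun g => f ∪ g))) := by
    intro e he
    unfold lp at he
    rw [Finset.mem_filter] at he
    obtain ⟨he, f, hf, g, hg, hfg, hfe, hge, hd⟩ := he
    have hec : e.card = k := (Finset.mem_powersetCard.1 he).2
    have hfc := hcard f hf
    have hgc := hcard g hg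
    have h1 : (f ∪ g).card ≤ k := by
      rw [← hec]
      exact Finset.card_le_card (Finset.union_subset hfe hge)
    have h2 : f.card < (f ∪ g).card := by
      apply Finset.card_lt_card
      refine ⟨Finset.subset_union_left, fun h => hfg ?_⟩
      have hgf : g ⊆ f := Finset.subset_union_right.trans h
      exact (Finset.eq_of_subset_of_card_le hgf (by omega)).symm
    have h3 : e = f ∪ g := by
      symm
      apply Finset.eq_of_subset_of_card_le (Finset.union_subset hfe hge)
      omega
    have h4 := Finset.card_union_add_card_inter f g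
    rw [Finset.mem_biUnion]
    refine ⟨f, hf, ?_⟩
    rw [Finset.mem_biUnion]
    refine ⟨f ∩ g, ?_, ?_⟩
    · rw [hG, Finset.mem_filter, Finset.mem_powersetCard]
      exact ⟨⟨Finset.inter_subset_left, by omega⟩, hd⟩
    · rw [Finset.mem_image]
      exact ⟨g, Finset.mem_filter.2 ⟨hg, Finset.inter_subset_right⟩, h3.symm⟩
  have h1 : (lp k ε T).card ≤ ∑ f ∈ T, ∑ R ∈ G f, deg T R := by
    refine (Finset.card_le_card hsub).trans (Finset.card_biUnion_le.trans ?_)
    refine Finset.sum_le_sum fun f _ => Finset.card_biUnion_le.trans ?_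
    exact Finset.sum_le_sum fun R _ => Finset.card_image_le
  have h2 : ((lp k ε T).card : ℝ) ≤ ∑ f ∈ T, ∑ R ∈ G f, (deg T R : ℝ) := by exact_mod_cast h1
  refine h2.trans ?_
  have h3 : ∀ f ∈ T, ∑ R ∈ G f, (deg T R : ℝ) ≤ ((k : ℝ) - 1) * (ε * n) := by
    intro f hf
    have h4 : ∑ R ∈ G f, (deg T R : ℝ) ≤ ∑ _R ∈ G f, ε * n := by
      refine Finset.sum_le_sum fun R hR => ?_
      rw [hG, Finset.mem_filter] at hR
      exact hR.2.le
    refine h4.trans ?_
    rw [Finset.sum_const, nsmul_eq_mul]
    refine mul_le_mul_of_nonneg_right ?_ (mul_nonneg hε (Nat.cast_nonneg n))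
    have h5 : (G f).card ≤ k - 1 := by
      refine (Finset.card_filter_le _ _).trans ?_
      rw [Finset.card_powersetCard, hcard f hf, ← Nat.choose_symm (by omega : k - 2 ≤ k - 1),
        show k - 1 - (k - 2) = 1 by omega, Nat.choose_one_right]
    have h6 : ((G f).card : ℝ) ≤ ((k - 1 : ℕ) : ℝ) := by exact_mod_cast h5
    rwa [Nat.cast_sub (by omega), Nat.cast_one] at h6
  refine (Finset.sum_le_sum h3).trans ?_
  rw [Finset.sum_const, nsmul_eq_mul]

/-- one set of facets -/
lemma one_set {n k : ℕ} (hk : 2 ≤ k) {c l ε δ : ℝ} (hc : 0 < c) (hl : l = 3 * k / c)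
    (hε : ε = 1 / (2 * k ^ 2 * Real.exp l)) (hδ : 0 < δ) (hδ1 : δ ≤ 1 / 8) (hn : 1 ≤ n)
    (hp1 : pp k δ n ≤ 1) {T : Finset (Finset (Fin n))} (hT : T ⊆ facets n k) :
    exs (edges n k) (pp k δ n)
      (fun W => ind (c * T.card * Real.log n < ((W ∩ lp k ε T).card : ℝ))) ≤
      (((n : ℝ) ^ (3 * k - 1))⁻¹) ^ T.card := by
  have hn0 : (0 : ℝ) < n := by exact_mod_cast (by omega : 0 < n)
  have hn1 : (1 : ℝ) ≤ n := by exact_mod_cast hn
  have hlog : 0 ≤ Real.log n := Real.log_nonneg hn1
  have hk2 : (2 : ℝ) ≤ k := by exact_mod_cast hk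
  have hk0 : (0 : ℝ) < k := by linarith
  have hl0 : 0 ≤ l := by rw [hl]; positivity
  have hε0 : 0 < ε := by rw [hε]; positivity
  have hp0 : 0 ≤ pp k δ n := by
    unfold pp
    have : 0 ≤ (k : ℝ) - 1 := by linarith
    positivity
  refine (exs_tail (edges n k) (lp k ε T) (c * T.card * Real.log n) hp0 hp1 hl0).trans ?_
  have hlc : l * (c * T.card * Real.log n) = 3 * k * T.card * Real.log n := by
    rw [hl]
    field_simp
  have h1 : pp k δ n * (lp k ε T).card * (Real.exp l - 1) ≤ T.card * Real.log n := by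
    have h2 := lp_card hk hε0.le hT
    have h3 : pp k δ n ≤ 2 * k * Real.log n / n := by
      unfold pp
      refine div_le_div_of_nonneg_right ?_ hn0.le
      nlinarith [mul_nonneg hk0.le hlog]
    have h4 : T.card * (((k : ℝ) - 1) * (ε * n)) ≤ T.card * (k * (ε * n)) := by
      refine mul_le_mul_of_nonneg_left ?_ (Nat.cast_nonneg _)
      exact mul_le_mul_of_nonneg_right (by linarith) (by positivity)
    have h5 : Real.exp l - 1 ≤ Real.exp l := by linarith
    have h6 : 0 ≤ Real.exp l - 1 := by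
      have := Real.one_le_exp hl0
      linarith
    calc pp k δ n * (lp k ε T).card * (Real.exp l - 1)
        ≤ (2 * k * Real.log n / n) * (T.card * (k * (ε * n))) * Real.exp l := by
          refine mul_le_mul (mul_le_mul h3 (h2.trans h4) (Nat.cast_nonneg _) (by positivity)) h5 h6
            (by positivity)
      _ = T.card * Real.log n := by
          rw [hε]
          field_simp
  have h3k : ((3 * k - 1 : ℕ) : ℝ) = 3 * k - 1 := by
    rw [Nat.cast_sub (by omega)]
    push_cast
    ring
  calc Real.exp (-(l * (c * T.card * Real.log n))) *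
        Real.exp (pp k δ n * (lp k ε T).card * (Real.exp l - 1))
      ≤ Real.exp (-(3 * k * T.card * Real.log n)) * Real.exp (T.card * Real.log n) := by
        rw [hlc]
        exact mul_le_mul_of_nonneg_left (Real.exp_le_exp.2 h1) (Real.exp_pos _).le
    _ = Real.exp ((T.card : ℝ) * (-(((3 * k - 1 : ℕ) : ℝ) * Real.log n))) := by
        rw [← Real.exp_add, h3k]
        congr 1
        ring
    _ = (((n : ℝ) ^ (3 * k - 1))⁻¹) ^ T.card := by
        rw [Real.exp_nat_mul, Real.exp_neg, Real.exp_nat_mul, Real.exp_log hn0]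

lemma log_div_tendsto : Filter.Tendsto (fun n : ℕ => Real.log n / n) Filter.atTop (nhds 0) := by
  have h := (Real.tendsto_pow_log_div_mul_add_atTop 1 0 1 one_ne_zero).comp
    (tendsto_natCast_atTop_atTop (R := ℝ))
  refine h.congr fun n => ?_
  simp

lemma pp_tendsto (k : ℕ) (δ : ℝ) : Filter.Tendsto (fun n : ℕ => pp k δ n) Filter.atTop (nhds 0) := by
  have h := log_div_tendsto.const_mul ((1 + δ) * ((k : ℝ) - 1))
  rw [mul_zero] at h
  refine h.congr fun n => ?_
  unfold pp
  ring

end Pool.Agent.TH948.HT.HT9L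

namespace Pool.Agent.TH948.HT

open Finset
open scoped Classical
open Pool.Agent.TH965.Spread Pool.Agent.TH948.KK Pool.Agent.TH948.BD HT9L

theorem prob_Q4 {k : ℕ} (hk : 2 ≤ k) (c : ℝ) (hc : 0 < c) : ∃ ε : ℝ, 0 < ε ∧
    ∀ δ : ℝ, 0 < δ → δ ≤ 1 / 8 →
    Filter.Tendsto (fun n : ℕ => exs (edges n k) (pp k δ n) (fun W => ind (¬ Q4 k ε c W)))
      Filter.atTop (nhds 0) := by
  have hk0 : (0 : ℝ) < k := by exact_mod_cast (by omega : 0 < k)
  obtain ⟨l, hl⟩ : ∃ l : ℝ, l = 3 * k / c := ⟨_, rfl⟩
  obtain ⟨ε, hε⟩ : ∃ ε : ℝ, ε = 1 / (2 * k ^ 2 * Real.exp l) := ⟨_, rfl⟩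
  have hε0 : 0 < ε := by rw [hε]; positivity
  refine ⟨ε, hε0, ?_⟩
  intro δ hδ hδ1
  have hev : ∀ᶠ n : ℕ in Filter.atTop, 1 ≤ n ∧ pp k δ n ≤ 1 := by
    filter_upwards [Filter.eventually_ge_atTop 1,
      (pp_tendsto k δ).eventually_lt_const (zero_lt_one' ℝ)] with n h1 h2
    exact ⟨h1, h2.le⟩
  have hg : Filter.Tendsto (fun n : ℕ => Real.exp ((n : ℝ)⁻¹) - 1) Filter.atTop (nhds 0) := by
    have h1 : Filter.Tendsto (fun n : ℕ => ((n : ℝ))⁻¹) Filter.atTop (nhds 0) :=
      tendsto_inv_atTop_nhds_zero_nat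
    have h2 := (Real.continuous_exp.tendsto 0).comp h1
    have h3 := h2.sub_const 1
    rw [Real.exp_zero, sub_self] at h3
    exact h3
  have hp0 : ∀ n : ℕ, 1 ≤ n → 0 ≤ pp k δ n := by
    intro n hn
    have hn1 : (1 : ℝ) ≤ n := by exact_mod_cast hn
    have hk2 : (2 : ℝ) ≤ k := by exact_mod_cast hk
    have h1 : 0 ≤ (k : ℝ) - 1 := by linarith
    have h2 : 0 ≤ Real.log n := Real.log_nonneg hn1
    unfold pp
    positivity
  refine squeeze_zero' ?_ ?_ hg
  · filter_upwards [hev] with n hn
    exact exs_nonneg _ (hp0 n hn.1) hn.2 fun W _ => ind_nonneg _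
  · filter_upwards [hev] with n hn
    have hn0 : (0 : ℝ) < n := by exact_mod_cast (by omega : 0 < n)
    have hn1 : (1 : ℝ) ≤ n := by exact_mod_cast hn.1
    set x : ℝ := ((n : ℝ) ^ (3 * k - 1))⁻¹ with hx
    have hx0 : 0 ≤ x := by positivity
    set S : Finset (Finset (Finset (Fin n))) := (facets n k).powerset.erase ∅ with hS
    have h1 : exs (edges n k) (pp k δ n) (fun W => ind (¬ Q4 k ε c W)) ≤
        exs (edges n k) (pp k δ n) (fun W => ∑ T ∈ S,
          ind (c * T.card * Real.log n < ((W ∩ lp k ε T).card : ℝ))) := by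
      refine exs_mono _ (hp0 n hn.1) hn.2 fun W _ => ?_
      by_cases hQ : Q4 k ε c W
      · rw [ind_false (not_not.2 hQ)]
        exact Finset.sum_nonneg fun T _ => ind_nonneg _
      · rw [ind_true hQ]
        unfold Q4 at hQ
        push Not at hQ
        obtain ⟨T, hT, hlt⟩ := hQ
        have hT0 : T ≠ ∅ := by
          rintro rfl
          have : lp k ε (∅ : Finset (Finset (Fin n))) = ∅ := by
            unfold lp
            rw [Finset.filter_eq_empty_iff]
            rintro e _ ⟨f, hf, _⟩
            exact absurd hf (Finset.notMem_empty f)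
          rw [this] at hlt
          simp at hlt
        have hTS : T ∈ S := Finset.mem_erase.2 ⟨hT0, Finset.mem_powerset.2 hT⟩
        rw [← ind_true hlt]
        exact Finset.single_le_sum
          (f := fun T => ind (c * T.card * Real.log n < ((W ∩ lp k ε T).card : ℝ)))
          (fun T _ => ind_nonneg _) hTS
    refine h1.trans ?_
    rw [exs_sum]
    have h2 : ∑ T ∈ S, exs (edges n k) (pp k δ n)
        (fun W => ind (c * T.card * Real.log n < ((W ∩ lp k ε T).card : ℝ))) ≤
        ∑ T ∈ S, x ^ T.card := by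
      refine Finset.sum_le_sum fun T hT => ?_
      exact one_set hk hc hl hε hδ hδ1 hn.1 hn.2
        (Finset.mem_powerset.1 (Finset.mem_of_mem_erase hT))
    refine h2.trans ?_
    have h3 : ∑ T ∈ S, x ^ T.card = (x + 1) ^ (facets n k).card - 1 := by
      rw [← Finset.sum_pow_mul_eq_add_pow x 1 (facets n k), eq_sub_iff_add_eq, hS]
      have h4 := Finset.sum_erase_add (facets n k).powerset (fun T => x ^ T.card)
        (Finset.empty_mem_powerset (facets n k))
      simp only [Finset.card_empty, pow_zero] at h4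
      rw [h4]
      exact Finset.sum_congr rfl fun T _ => by rw [one_pow, mul_one]
    rw [h3]
    have h5 : (x + 1) ^ (facets n k).card ≤ Real.exp ((facets n k).card * x) := by
      rw [Real.exp_nat_mul]
      exact pow_le_pow_left₀ (by linarith) (Real.add_one_le_exp x) _
    have h6 : ((facets n k).card : ℝ) ≤ (n : ℝ) ^ (k - 1) := by
      unfold facets
      rw [Finset.card_powersetCard, Finset.card_univ, Fintype.card_fin]
      exact_mod_cast Nat.choose_le_pow n (k - 1)
    have h7 : ((facets n k).card : ℝ) * x ≤ (n : ℝ)⁻¹ := by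
      refine (mul_le_mul_of_nonneg_right h6 hx0).trans ?_
      rw [hx, ← div_eq_mul_inv, div_le_iff₀ (by positivity), ← div_eq_inv_mul,
        le_div_iff₀ hn0, ← pow_succ]
      exact pow_le_pow_right₀ hn1 (by omega)
    have h8 := Real.exp_le_exp.2 h7
    linarith

end Pool.Agent.TH948.HT
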