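import Pool.Agent.TH221.Defs

set_option autoImplicit false

open MeasureTheory Set Filter Topology Metric
open scoped ENNReal NNReal ContDiff

namespace Pool.Agent.TH221

namespace J147

open scoped InnerProductSpace

theorem min_deriv {α : Type*} [MeasurableSpace α] {μ : Measure α} {E : Type*}
    [NormedAddCommGroup E] [InnerProductSpace ℝ E] {n : ℕ} (hn : 2 ≤ n)
    {p b : α → E} (hp : MemLp p n μ) (hb : MemLp b n μ)
    (hmin : ∀ ε : ℝ, ∫⁻ y, ENNReal.ofReal ‖p y‖ ^ n ∂μ ≤
      ∫⁻ y, ENNReal.ofReal ‖p y + ε • b y‖ ^ n ∂μ) :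
    ∫ y, ‖p y‖ ^ (n - 2) * ⟪p y, b y⟫_ℝ ∂μ = 0 := by
  have hn1 : (1 : ℝ) < n := by exact_mod_cast (by omega : 1 < n)
  have hn0 : n ≠ 0 := by omega
  have hpow : ∀ t : ℝ, t ^ ((n : ℝ) - 2) = t ^ (n - 2) := by
    intro t
    rw [← Real.rpow_natCast, Nat.cast_sub hn, Nat.cast_ofNat]
  have hpn : ∀ ε : ℝ, Integrable (fun y => ‖p y + ε • b y‖ ^ n) μ := fun ε =>
    (hp.add (hb.const_smul ε)).integrable_norm_pow hn0
  set F : ℝ → α → ℝ := fun ε y => ‖p y + ε • b y‖ ^ n with hF
  set F' : ℝ → α → ℝ := fun ε y => n * (‖p y + ε • b y‖ ^ (n - 2) * ⟪p y + ε • b y, b y⟫_ℝ)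
    with hF'
  have hmeas : ∀ ε : ℝ, AEStronglyMeasurable (fun y => p y + ε • b y) μ := fun ε =>
    hp.1.add (hb.1.const_smul ε)
  have hder : Integrable (F' 0) μ ∧ HasDerivAt (fun ε => ∫ y, F ε y ∂μ) (∫ y, F' 0 y ∂μ) 0 := by
    refine hasDerivAt_integral_of_dominated_loc_of_deriv_le (ball_mem_nhds (0 : ℝ) one_pos)
      (Eventually.of_forall fun ε => (hpn ε).1) (hpn 0)
      (bound := fun y => n * (‖p y‖ + ‖b y‖) ^ n) ?_ ?_ ?_ ?_
    · exact (((hmeas 0).norm.pow _).mul ((hmeas 0).inner hb.1)).const_mul _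
    · refine Eventually.of_forall fun y ε hε => ?_
      rw [mem_ball_zero_iff, Real.norm_eq_abs] at hε
      have hx : ‖p y + ε • b y‖ ≤ ‖p y‖ + ‖b y‖ := by
        refine (norm_add_le _ _).trans ?_
        rw [norm_smul, Real.norm_eq_abs]
        have := norm_nonneg (b y)
        nlinarith
      have hb0 := norm_nonneg (b y)
      have hp0 := norm_nonneg (p y)
      have hx0 := norm_nonneg (p y + ε • b y)
      simp only [hF']
      rw [norm_mul, norm_mul, Real.norm_of_nonneg (Nat.cast_nonneg n), norm_pow, norm_norm]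
      gcongr
      calc ‖p y + ε • b y‖ ^ (n - 2) * ‖⟪p y + ε • b y, b y⟫_ℝ‖ ≤
          (‖p y‖ + ‖b y‖) ^ (n - 2) * ((‖p y‖ + ‖b y‖) * (‖p y‖ + ‖b y‖)) := by
            gcongr
            refine (norm_inner_le_norm _ _).trans ?_
            gcongr
            linarith
        _ = (‖p y‖ + ‖b y‖) ^ n := by
            rw [← pow_two, ← pow_add]
            congr 1
            omega
    · have h := (hp.norm.add hb.norm).integrable_norm_pow hn0
      refine Integrable.const_mul ?_ _
      refine h.congr (Eventually.of_forall fun y => ?_)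
      simp only [Pi.add_apply]
      rw [Real.norm_of_nonneg (by positivity)]
    · refine Eventually.of_forall fun y ε hε => ?_
      have h1 : HasDerivAt (fun ε : ℝ => p y + ε • b y) (b y) ε := by
        simpa using ((hasDerivAt_id ε).smul_const (b y)).const_add (p y)
      have h2 := (hasFDerivAt_norm_rpow (p y + ε • b y) hn1).comp_hasDerivAt ε h1
      have h3 : HasDerivAt (F · y)
          ((((n : ℝ) * ‖p y + ε • b y‖ ^ ((n : ℝ) - 2)) • innerSL ℝ (p y + ε • b y)) (b y)) ε := by
        refine h2.congr_of_eventuallyEq (Eventually.of_forall fun t => ?_)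
        simp only [hF, Function.comp, Real.rpow_natCast]
      have h4 : F' ε y = ((((n : ℝ) * ‖p y + ε • b y‖ ^ ((n : ℝ) - 2)) •
          innerSL ℝ (p y + ε • b y)) (b y)) := by
        rw [hpow, _root_.smul_apply, innerSL_apply_apply, smul_eq_mul, mul_assoc]
      rw [h4]
      exact h3
  have hmin' : ∀ ε : ℝ, ∫ y, F 0 y ∂μ ≤ ∫ y, F ε y ∂μ := by
    intro ε
    have e : ∀ t : ℝ, ENNReal.ofReal (∫ y, F t y ∂μ) =
        ∫⁻ y, ENNReal.ofReal ‖p y + t • b y‖ ^ n ∂μ := by
      intro t
      rw [ofReal_integral_eq_lintegral_ofReal (hpn t) (Eventually.of_forall fun y => by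
        show (0 : ℝ) ≤ ‖p y + t • b y‖ ^ n
        positivity)]
      refine lintegral_congr fun y => ?_
      rw [ENNReal.ofReal_pow (norm_nonneg _)]
    have h1 : ENNReal.ofReal (∫ y, F 0 y ∂μ) ≤ ENNReal.ofReal (∫ y, F ε y ∂μ) := by
      rw [e, e]
      simpa using hmin ε
    rwa [ENNReal.ofReal_le_ofReal_iff] at h1
    exact integral_nonneg fun y => by
      show (0 : ℝ) ≤ ‖p y + ε • b y‖ ^ n
      positivity
  have hloc : IsLocalMin (fun ε => ∫ y, F ε y ∂μ) 0 := Eventually.of_forall hmin'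
  have h0 := hloc.hasDerivAt_eq_zero hder.2
  simp only [hF', zero_smul, add_zero, integral_const_mul] at h0
  have hnn : (n : ℝ) ≠ 0 := by exact_mod_cast hn0
  exact (mul_eq_zero.mp h0).resolve_left hnn

end J147

/-- first variation of the `n`-energy at the radial potential -/
theorem variation {n : ℕ} (hn : 2 ≤ n) (x : Eu n) {r R : ℝ} (hr : 0 < r) (hR : r < R)
    {B : Eu n → Eu n →L[ℝ] ℝ} (hB : MemLp B n (volume.restrict {y | r < ‖y - x‖ ∧ ‖y - x‖ < R}))
    (hmin : ∀ ε : ℝ,
      ∫⁻ y in {y | r < ‖y - x‖ ∧ ‖y - x‖ < R}, ENNReal.ofReal (1 / (Real.log (R / r) * ‖y - x‖)) ^ n ≤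
      ∫⁻ y in {y | r < ‖y - x‖ ∧ ‖y - x‖ < R},
        ENNReal.ofReal ‖(Real.log (R / r) * ‖y - x‖ ^ 2)⁻¹ • innerSL ℝ (y - x) + ε • B y‖ ^ n) :
    ∫ y in {y | r < ‖y - x‖ ∧ ‖y - x‖ < R}, (‖y - x‖ ^ n)⁻¹ * B y (y - x) = 0 := by
  set A : Set (Eu n) := {y | r < ‖y - x‖ ∧ ‖y - x‖ < R} with hA
  set L : ℝ := Real.log (R / r) with hL
  have hL0 : 0 < L := Real.log_pos (by rwa [one_lt_div hr])
  have hcn : Continuous fun y : Eu n => ‖y - x‖ := (continuous_id.sub continuous_const).norm
  have hAo : IsOpen A := (isOpen_lt continuous_const hcn).inter (isOpen_lt hcn continuous_const)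
  have hAm : MeasurableSet A := hAo.measurableSet
  set J := (InnerProductSpace.toDual ℝ (Eu n)) with hJ
  set p : Eu n → Eu n := fun y => (L * ‖y - x‖ ^ 2)⁻¹ • (y - x) with hp
  set b : Eu n → Eu n := fun y => J.symm (B y) with hb
  have hJn : ∀ v : Eu n →L[ℝ] ℝ, ‖J.symm v‖ = ‖v‖ := fun v => J.symm.norm_map v
  have hbmem : MemLp b n (volume.restrict A) := by
    refine hB.of_le_mul (c := 1) ?_ (Eventually.of_forall fun y => ?_)
    · exact J.symm.continuous.comp_aestronglyMeasurable hB.1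
    · rw [one_mul]; exact (hJn _).le
  have hAfin : volume A < ⊤ := by
    refine (measure_mono (t := closedBall x R) ?_).trans_lt measure_closedBall_lt_top
    intro y hy
    rw [mem_closedBall, dist_eq_norm]
    exact hy.2.le
  have : IsFiniteMeasure (volume.restrict A) := ⟨by simpa using hAfin⟩
  have hpcont : ContinuousOn p A := by
    have hc1 : Continuous fun y : Eu n => y - x := by fun_prop
    have hc2 : Continuous fun y : Eu n => L * ‖y - x‖ ^ 2 := by fun_prop
    have hc3 : ContinuousOn (fun y : Eu n => (L * ‖y - x‖ ^ 2)⁻¹) A := by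
      refine ContinuousOn.inv₀ hc2.continuousOn ?_
      intro y hy
      have : 0 < ‖y - x‖ := hr.trans hy.1
      positivity
    exact hc3.smul hc1.continuousOn
  have hpnorm : ∀ y ∈ A, ‖p y‖ = 1 / (L * ‖y - x‖) := by
    intro y hy
    have : 0 < ‖y - x‖ := hr.trans hy.1
    simp only [hp]
    rw [norm_smul, norm_inv, Real.norm_of_nonneg (by positivity)]
    field_simp
  have hpmem : MemLp p n (volume.restrict A) := by
    refine MemLp.of_bound (hpcont.aestronglyMeasurable hAm) (1 / (L * r)) ?_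
    refine (ae_restrict_iff' hAm).mpr (Eventually.of_forall fun y hy => ?_)
    rw [hpnorm y hy]
    have : r < ‖y - x‖ := hy.1
    gcongr
  have key := J147.min_deriv (μ := volume.restrict A) hn hpmem hbmem ?_
  · have e : ∫ y in A, ‖p y‖ ^ (n - 2) * inner ℝ (p y) (b y) =
        ∫ y in A, (L ^ (n - 1))⁻¹ * ((‖y - x‖ ^ n)⁻¹ * B y (y - x)) := by
      refine setIntegral_congr_fun hAm fun y hy => ?_
      have h0 : 0 < ‖y - x‖ := hr.trans hy.1
      have h1 : inner ℝ (p y) (b y) = (L * ‖y - x‖ ^ 2)⁻¹ * B y (y - x) := by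
        simp only [hp, hb]
        rw [real_inner_smul_left, real_inner_comm, InnerProductSpace.toDual_symm_apply]
      rw [h1, hpnorm y hy]
      obtain ⟨k, rfl⟩ : ∃ k, n = k + 2 := ⟨n - 2, by omega⟩
      simp only [Nat.add_sub_cancel, show k + 2 - 1 = k + 1 by omega]
      rw [div_pow, one_pow, mul_pow]
      field_simp
      ring
    rw [e, integral_const_mul] at key
    refine (mul_eq_zero.mp key).resolve_left ?_
    positivity
  · intro ε
    have h := hmin ε
    have e1 : ∫⁻ y in A, ENNReal.ofReal ‖p y‖ ^ n =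
        ∫⁻ y in A, ENNReal.ofReal (1 / (L * ‖y - x‖)) ^ n :=
      setLIntegral_congr_fun hAm fun y hy => by
        rw [hpnorm y hy]
    have e2 : ∫⁻ y in A, ENNReal.ofReal ‖p y + ε • b y‖ ^ n =
        ∫⁻ y in A, ENNReal.ofReal ‖(L * ‖y - x‖ ^ 2)⁻¹ • innerSL ℝ (y - x) + ε • B y‖ ^ n := by
      refine lintegral_congr fun y => ?_
      congr 2
      have : p y + ε • b y = J.symm ((L * ‖y - x‖ ^ 2)⁻¹ • innerSL ℝ (y - x) + ε • B y) := by
        rw [map_add]
        congr 1
        · simp only [hp]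
          apply J.injective
          rw [LinearIsometryEquiv.apply_symm_apply]
          ext v
          simp [hJ, InnerProductSpace.toDual_apply_apply]
        · simp only [hb]
          rw [map_smulₛₗ]
          simp
      rw [this, hJn]
    rw [e1, e2]
    exact h


namespace J147

variable {n : ℕ}

/-- integrability of the two kinds of terms -/
theorem int1 {G : Eu n → Eu n →L[ℝ] ℝ} (hG : LocallyIntegrable G volume) {φ : Eu n → ℝ}
    (hφ : Continuous φ) (hc : HasCompactSupport φ) {u : Eu n → Eu n} (hu : Continuous u) :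
    Integrable (fun y => φ y * G y (u y)) volume := by
  have hGm : AEStronglyMeasurable G volume := hG.aestronglyMeasurable
  have h1 : Integrable (fun y => (φ y * ‖u y‖) • ‖G y‖) volume := by
    have hGn : LocallyIntegrable (fun y => ‖G y‖) volume := fun y => by
      obtain ⟨t, ht, hi⟩ := hG y
      exact ⟨t, ht, hi.norm⟩
    exact hGn.integrable_smul_left_of_hasCompactSupport (hφ.mul hu.norm) hc.mul_right
  refine h1.mono ?_ (Eventually.of_forall fun y => ?_)
  · refine hφ.aestronglyMeasurable.mul ?_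
    exact isBoundedBilinearMap_apply.continuous.comp_aestronglyMeasurable
      (hGm.prodMk hu.aestronglyMeasurable)
  · rw [norm_mul, norm_smul, norm_mul, norm_norm, norm_norm, mul_assoc]
    gcongr
    rw [mul_comm]
    exact (G y).le_opNorm _

theorem int2 {w : Eu n → ℝ} (hw : Continuous w) {ψ : Eu n → ℝ} (hψ : Continuous ψ)
    (hc : HasCompactSupport ψ) : Integrable (fun y => w y * ψ y) volume :=
  (hw.mul hψ).integrable_of_hasCompactSupport hc.mul_left

/-- the identity (I_x) for a test function which vanishes near `x` -/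
theorem identity_at (hn : 1 ≤ n) {w : Eu n → ℝ} 
    {G : Eu n → Eu n →L[ℝ] ℝ}
    (hI : ∀ (x : Eu n) (r R : ℝ), 0 < r → r < R → ∀ χ : Eu n → ℝ, ContDiff ℝ ∞ χ →
      HasCompactSupport χ → tsupport χ ⊆ {y | r < ‖y - x‖ ∧ ‖y - x‖ < R} →
      ∫ y, (‖y - x‖ ^ n)⁻¹ * (χ y * G y (y - x) + w y * fderiv ℝ χ y (y - x)) = 0)
    {φ : Eu n → ℝ} (hφ : ContDiff ℝ ∞ φ) (hc : HasCompactSupport φ)
    (x : Eu n) {r R : ℝ} (hr : 0 < r) (hR : r < R)
    (hsupp : tsupport φ ⊆ {y | r < ‖y - x‖ ∧ ‖y - x‖ < R}) :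
    ∫ y, (φ y * G y (y - x) + (w y * fderiv ℝ φ y (y - x) + w y * (n * φ y))) = 0 := by
  set χ : Eu n → ℝ := fun y => ‖y - x‖ ^ n * φ y with hχ
  have hχs : tsupport χ ⊆ tsupport φ := tsupport_mul_subset_right
  have hχc : HasCompactSupport χ := hc.mul_left
  have hx0 : ∀ y ∈ tsupport φ, y - x ≠ 0 := by
    intro y hy h0
    have := (hsupp hy).1
    rw [h0, norm_zero] at this
    linarith
  have hχd : ContDiff ℝ ∞ χ := by
    rw [contDiff_iff_contDiffAt]
    intro y
    by_cases hy : y ∈ tsupport φ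
    · refine ContDiffAt.mul ?_ hφ.contDiffAt
      refine ContDiffAt.pow ?_ n
      exact (contDiffAt_id.sub contDiffAt_const).norm ℝ (hx0 y hy)
    · have : χ =ᶠ[𝓝 y] fun _ => 0 := by
        have h1 : (tsupport φ)ᶜ ∈ 𝓝 y := (isClosed_tsupport φ).isOpen_compl.mem_nhds hy
        filter_upwards [h1] with z hz
        simp only [hχ]
        rw [image_eq_zero_of_notMem_tsupport hz, mul_zero]
      exact contDiffAt_const.congr_of_eventuallyEq this
  have key := hI x r R hr hR χ hχd hχc (hχs.trans hsupp)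
  rw [← key]
  refine integral_congr_ae (Eventually.of_forall fun y => ?_)
  simp only
  by_cases hy : y ∈ tsupport φ
  · have hy0 : 0 < ‖y - x‖ := norm_pos_iff.mpr (hx0 y hy)
    have hfd : fderiv ℝ χ y (y - x) = ‖y - x‖ ^ n * (fderiv ℝ φ y (y - x) + n * φ y) := by
      have h1 : HasDerivAt (fun t : ℝ => y + t • (y - x)) (y - x) 0 := by
        simpa using ((hasDerivAt_id (0 : ℝ)).smul_const (y - x)).const_add y
      have h2 : HasDerivAt (fun t : ℝ => χ (y + t • (y - x))) (fderiv ℝ χ y (y - x)) 0 := by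
        have h3 : HasFDerivAt χ (fderiv ℝ χ y) (y + (0 : ℝ) • (y - x)) := by
          rw [zero_smul, add_zero]
          exact (hχd.differentiable (by simp)).differentiableAt.hasFDerivAt
        exact h3.comp_hasDerivAt (0 : ℝ) h1
      have h4 : HasDerivAt (fun t : ℝ => φ (y + t • (y - x))) (fderiv ℝ φ y (y - x)) 0 := by
        have h3 : HasFDerivAt φ (fderiv ℝ φ y) (y + (0 : ℝ) • (y - x)) := by
          rw [zero_smul, add_zero]
          exact (hφ.differentiable (by simp)).differentiableAt.hasFDerivAt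
        exact h3.comp_hasDerivAt (0 : ℝ) h1
      have h5 : HasDerivAt (fun t : ℝ => (1 + t) ^ n * ‖y - x‖ ^ n) (n * ‖y - x‖ ^ n) 0 := by
        have h6 : HasDerivAt (fun t : ℝ => (1 + t) ^ n) (n * (1 + 0) ^ (n - 1) * 1) 0 := by
          have := ((hasDerivAt_id (0 : ℝ)).const_add 1).pow n
          exact this
        have := h6.mul_const (‖y - x‖ ^ n)
        simpa using this
      have h7 := h5.mul h4
      have h8 : (fun t : ℝ => χ (y + t • (y - x))) =ᶠ[𝓝 0]
          (fun t : ℝ => (1 + t) ^ n * ‖y - x‖ ^ n) * (fun t : ℝ => φ (y + t • (y - x))) := by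
        have : ∀ᶠ t : ℝ in 𝓝 0, -1 < t := lt_mem_nhds (by norm_num)
        filter_upwards [this] with t ht
        simp only [hχ, Pi.mul_apply]
        have e : y + t • (y - x) - x = (1 + t) • (y - x) := by
          rw [add_smul, one_smul]; abel
        rw [e, norm_smul, Real.norm_of_nonneg (by linarith), mul_pow]
      have h9 := (h7.congr_of_eventuallyEq h8).unique h2
      rw [← h9]
      simp
      ring
    rw [hfd]
    simp only [hχ]
    field_simp
    try ring
  · have e1 : φ y = 0 := image_eq_zero_of_notMem_tsupport hy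
    have e2 : fderiv ℝ φ y = 0 := by
      by_contra h
      exact hy (tsupport_fderiv_subset ℝ (subset_tsupport _ h))
    have e3 : fderiv ℝ χ y = 0 := by
      by_contra h
      exact hy (hχs (tsupport_fderiv_subset ℝ (subset_tsupport _ h)))
    simp [hχ, e1, e2]
    right; right
    rw [← hχ, e3]
    simp

end J147

/-- if the identities `∫ φ G(y - x) + w (∇φ · (y - x) + n φ) = 0` hold for `x` off the support
of `φ`, then `G` is the weak gradient of `w` -/
theorem weakGrad_of_identity {n : ℕ} (hn : 1 ≤ n) {w : Eu n → ℝ} (hw : Continuous w)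
    {G : Eu n → Eu n →L[ℝ] ℝ} (hG : LocallyIntegrable G volume)
    (hI : ∀ (x : Eu n) (r R : ℝ), 0 < r → r < R → ∀ χ : Eu n → ℝ, ContDiff ℝ ∞ χ →
      HasCompactSupport χ → tsupport χ ⊆ {y | r < ‖y - x‖ ∧ ‖y - x‖ < R} →
      ∫ y, (‖y - x‖ ^ n)⁻¹ * (χ y * G y (y - x) + w y * fderiv ℝ χ y (y - x)) = 0) :
    WeakGrad univ w G := by
  intro φ hφ hc _ v
  obtain ⟨ρ, hρ0, hρ⟩ : ∃ ρ : ℝ, 0 < ρ ∧ ∀ y ∈ tsupport φ, ‖y‖ ≤ ρ := by
    obtain ⟨ρ, hρ⟩ := hc.isCompact.isBounded.exists_norm_le
    exact ⟨max ρ 1, by positivity, fun y hy => (hρ y hy).trans (le_max_left _ _)⟩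
  have hid : ∀ x : Eu n, ρ + 1 ≤ ‖x‖ →
      ∫ y, (φ y * G y (y - x) + (w y * fderiv ℝ φ y (y - x) + w y * (n * φ y))) = 0 := by
    intro x hx
    refine J147.identity_at hn hI hφ hc x (r := 1 / 2) (R := ‖x‖ + ρ + 1) (by norm_num)
      (by have := norm_nonneg x; linarith) ?_
    intro y hy
    have h1 := hρ y hy
    have h2 : ‖x‖ - ‖y‖ ≤ ‖y - x‖ := by
      rw [norm_sub_rev]; exact norm_sub_norm_le _ _
    have h3 : ‖y - x‖ ≤ ‖y‖ + ‖x‖ := norm_sub_le _ _
    constructor
    · linarith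
    · linarith
  -- two base points
  set e : Eu n := EuclideanSpace.single ⟨0, by omega⟩ (1 : ℝ) with he
  have hen : ‖e‖ = 1 := by simp [he]
  set x : Eu n := (ρ + 1 + ‖v‖) • e with hx
  have hxn : ‖x‖ = ρ + 1 + ‖v‖ := by
    rw [hx, norm_smul, hen, mul_one, Real.norm_of_nonneg (by positivity)]
  have hx1 := hid x (by rw [hxn]; linarith [norm_nonneg v])
  have hx2 := hid (x - v) (by
    have := norm_sub_norm_le x v
    rw [hxn] at this
    linarith)
  have hφc : Continuous φ := hφ.continuous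
  have hfc : ∀ u : Eu n → Eu n, Continuous u → Continuous fun y => fderiv ℝ φ y (u y) := by
    intro u hu
    exact (hφ.continuous_fderiv (by simp)).clm_apply hu
  have hfs : ∀ u : Eu n → Eu n, HasCompactSupport fun y => fderiv ℝ φ y (u y) := by
    intro u
    refine HasCompactSupport.intro (K := tsupport φ) hc.isCompact ?_
    intro y hy
    have e2 : fderiv ℝ φ y = 0 := by
      by_contra h
      exact hy (tsupport_fderiv_subset ℝ (subset_tsupport _ h))
    rw [e2]; rfl
  have i1 : ∀ x : Eu n, Integrable (fun y => φ y * G y (y - x)) volume := fun x =>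
    J147.int1 hG hφc hc (by fun_prop)
  have i2 : ∀ x : Eu n, Integrable (fun y => w y * fderiv ℝ φ y (y - x)) volume := fun x =>
    J147.int2 hw (hfc _ (by fun_prop)) (hfs _)
  have i3 : Integrable (fun y => w y * (n * φ y)) volume :=
    J147.int2 hw (by fun_prop) hc.mul_left
  have i4 : Integrable (fun y => φ y * G y v) volume := J147.int1 hG hφc hc continuous_const
  have i5 : Integrable (fun y => w y * fderiv ℝ φ y v) volume :=
    J147.int2 hw (hfc _ continuous_const) (hfs _)
  have hdiff : ∫ y, (φ y * G y v + w y * fderiv ℝ φ y v) = 0 := by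
    have h1 : ∫ y, (φ y * G y v + w y * fderiv ℝ φ y v) =
        ∫ y, ((φ y * G y (y - (x - v)) + (w y * fderiv ℝ φ y (y - (x - v)) + w y * (n * φ y))) -
          (φ y * G y (y - x) + (w y * fderiv ℝ φ y (y - x) + w y * (n * φ y)))) := by
      refine integral_congr_ae (Eventually.of_forall fun y => ?_)
      simp only
      rw [show y - (x - v) = (y - x) + v by abel, map_add, map_add]
      ring
    rw [h1, integral_sub, hx1, hx2, sub_zero]
    · exact (i1 _).add ((i2 _).add i3)
    · exact (i1 _).add ((i2 _).add i3)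
  rw [integral_add i4 i5] at hdiff
  linarith

end Pool.Agent.TH221
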