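import Pool.Agent.TH221.Defs

set_option autoImplicit false

open MeasureTheory Set Filter Topology Metric
open scoped ENNReal NNReal ContDiff

namespace Pool.Agent.TH221

namespace J145

theorem add_pow_le (n : ℕ) (a b : ℝ≥0∞) : (a + b) ^ n ≤ (2 * a) ^ n + (2 * b) ^ n := by
  rcases le_total a b with h | h
  · have : (a + b) ^ n ≤ (2 * b) ^ n := by
      gcongr
      rw [two_mul]
      gcongr
    exact this.trans le_add_self
  · have : (a + b) ^ n ≤ (2 * a) ^ n := by
      gcongr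
      rw [two_mul]
      gcongr
    exact this.trans le_self_add

theorem pow_sum_le (n : ℕ) (hn : 1 ≤ n) : ∀ (N : ℕ) (a : ℕ → ℝ≥0∞),
    (∑ i ∈ Finset.range N, a i) ^ n ≤ ∑ i ∈ Finset.range N, (2 ^ (i + 1) * a i) ^ n := by
  intro N
  induction N with
  | zero => intro a; simp; omega
  | succ N ih =>
    intro a
    rw [Finset.sum_range_succ', Finset.sum_range_succ']
    refine (add_pow_le n _ _).trans ?_
    rw [zero_add, pow_one]
    gcongr
    rw [Finset.mul_sum]
    refine (ih (fun i => 2 * a (i + 1))).trans (le_of_eq ?_)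
    refine Finset.sum_congr rfl fun i _ => ?_
    congr 1
    rw [← mul_assoc, ← pow_succ]

theorem pow_tsum_le (n : ℕ) (hn : 1 ≤ n) (a : ℕ → ℝ≥0∞) :
    (∑' i, a i) ^ n ≤ ∑' i, (2 ^ (i + 1) * a i) ^ n := by
  have h1 := (ENNReal.continuous_pow n).continuousAt.tendsto.comp (ENNReal.tendsto_nat_tsum a)
  have h2 := ENNReal.tendsto_nat_tsum (fun i => (2 ^ (i + 1) * a i) ^ n)
  exact le_of_tendsto_of_tendsto' h1 h2 fun N => pow_sum_le n hn N a

end J145

/-- a continuous function with small `Lⁿ` norm, infinite exactly on a given compact null set -/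
theorem exists_infinite_on {n : ℕ} (hn : 1 ≤ n) {P : Set (Eu n)} (hP : IsCompact P)
    (hP0 : volume P = 0) {ε : ℝ≥0∞} (hε : 0 < ε) :
    ∃ h : Eu n → ℝ≥0∞, Continuous h ∧ (∀ x ∈ P, h x = ⊤) ∧ (∀ x ∉ P, h x ≠ ⊤) ∧
      ∫⁻ x, h x ^ n ≤ ε := by
  classical
  -- choice of the radii
  have hr : ∀ i : ℕ, ∃ r : ℝ, 0 < r ∧ r ≤ (1 / 2) ^ i ∧
      volume (cthickening r P) ≤ min ε 1 * ((4 : ℝ≥0∞)⁻¹ ^ (i + 1)) ^ n := by
    intro i
    have hpos : 0 < min ε 1 * ((4 : ℝ≥0∞)⁻¹ ^ (i + 1)) ^ n := by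
      refine ENNReal.mul_pos (lt_min hε one_pos).ne' ?_
      refine (ENNReal.pow_pos (ENNReal.pow_pos ?_ _) _).ne'
      simp
    have ht := tendsto_measure_cthickening_of_isCompact (μ := (volume : Measure (Eu n))) hP
    rw [hP0] at ht
    have hev := ht.eventually (gt_mem_nhds hpos)
    rw [Metric.eventually_nhds_iff] at hev
    obtain ⟨δ, hδ, h⟩ := hev
    refine ⟨min (δ / 2) ((1 / 2) ^ i), by positivity, min_le_right _ _, ?_⟩
    refine (h ?_).le
    rw [Real.dist_eq, sub_zero, abs_of_pos (by positivity)]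
    exact lt_of_le_of_lt (min_le_left _ _) (by linarith)
  choose r hr0 hr1 hr2 using hr
  set H : ℕ → Eu n → ℝ≥0∞ := fun i x => 1 - Metric.infEDist x P / ENNReal.ofReal (r i) with hH
  have hrne : ∀ i, ENNReal.ofReal (r i) ≠ 0 := fun i => by
    simpa using hr0 i
  have hHc : ∀ i, Continuous (H i) := fun i =>
    (ENNReal.continuous_sub_left ENNReal.one_ne_top).comp
      ((ENNReal.continuous_div_const _ (hrne i)).comp Metric.continuous_infEDist)
  have hH1 : ∀ i x, H i x ≤ 1 := fun i x => tsub_le_self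
  have hHP : ∀ i, ∀ x ∈ P, H i x = 1 := by
    intro i x hx
    simp [hH, Metric.infEDist_zero_of_mem hx]
  have hH0 : ∀ i x, ENNReal.ofReal (r i) ≤ Metric.infEDist x P → H i x = 0 := by
    intro i x h
    simp only [hH]
    rw [tsub_eq_zero_iff_le]
    rw [ENNReal.le_div_iff_mul_le (Or.inl (hrne i)) (Or.inl ENNReal.ofReal_ne_top), one_mul]
    exact h
  -- local finiteness
  have hloc : ∀ x ∉ P, ∃ N : ℕ, ∀ᶠ y in 𝓝 x, ∀ i, N ≤ i → H i y = 0 := by
    intro x hx
    have hpos : 0 < Metric.infEDist x P := by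
      rw [pos_iff_ne_zero]
      intro h0
      apply hx
      rwa [← Metric.mem_closure_iff_infEDist_zero, hP.isClosed.closure_eq] at h0
    obtain ⟨c, hc0, hc⟩ := ENNReal.lt_iff_exists_nnreal_btwn.mp hpos
    have hc0' : 0 < (c : ℝ) := by
      exact_mod_cast hc0
    obtain ⟨N, hN⟩ := exists_pow_lt_of_lt_one hc0' (by norm_num : (1 / 2 : ℝ) < 1)
    refine ⟨N, ?_⟩
    have hev : ∀ᶠ y in 𝓝 x, (c : ℝ≥0∞) < Metric.infEDist y P :=
      Metric.continuous_infEDist.continuousAt.eventually (lt_mem_nhds hc)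
    filter_upwards [hev] with y hy i hi
    apply hH0
    refine le_trans ?_ hy.le
    rw [← ENNReal.ofReal_coe_nnreal]
    apply ENNReal.ofReal_le_ofReal
    refine (hr1 i).trans (le_trans ?_ hN.le)
    exact pow_le_pow_of_le_one (by norm_num) (by norm_num) hi
  have hfin : ∀ (N : ℕ) y, (∀ i, N ≤ i → H i y = 0) → ∑' i, H i y = ∑ i ∈ Finset.range N, H i y := by
    intro N y h
    refine tsum_eq_sum fun i hi => h i ?_
    simpa using hi
  refine ⟨fun x => ∑' i, H i x, ?_, ?_, ?_, ?_⟩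
  · rw [continuous_iff_continuousAt]
    intro x
    by_cases hx : x ∈ P
    · have htop : ∑' i, H i x = ⊤ := by
        simp only [hHP _ x hx]
        exact ENNReal.tsum_const_eq_top_of_ne_zero one_ne_zero
      unfold ContinuousAt
      simp only [htop]
      rw [ENNReal.tendsto_nhds_top_iff_nat]
      intro k
      have hc : Continuous fun y => ∑ i ∈ Finset.range (k + 1), H i y :=
        continuous_finsetSum _ fun i _ => hHc i
      have hval : ∑ i ∈ Finset.range (k + 1), H i x = (k + 1 : ℕ) := by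
        simp [hHP _ x hx]
      have hlt : (k : ℝ≥0∞) < ∑ i ∈ Finset.range (k + 1), H i x := by
        rw [hval]
        exact_mod_cast Nat.lt_succ_self k
      filter_upwards [hc.continuousAt.eventually (lt_mem_nhds hlt)] with y hy
      exact hy.trans_le (ENNReal.sum_le_tsum _)
    · obtain ⟨N, hN⟩ := hloc x hx
      have hc : Continuous fun y => ∑ i ∈ Finset.range N, H i y :=
        continuous_finsetSum _ fun i _ => hHc i
      refine hc.continuousAt.congr ?_
      filter_upwards [hN] with y hy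
      exact (hfin N y hy).symm
  · intro x hx
    simp only [hHP _ x hx]
    exact ENNReal.tsum_const_eq_top_of_ne_zero one_ne_zero
  · intro x hx
    obtain ⟨N, hN⟩ := hloc x hx
    show ∑' i, H i x ≠ ⊤
    rw [hfin N x hN.self_of_nhds]
    refine ENNReal.sum_ne_top.mpr fun i _ => ne_top_of_le_ne_top ENNReal.one_ne_top (hH1 i x)
  · calc ∫⁻ x, (∑' i, H i x) ^ n ≤ ∫⁻ x, ∑' i, (2 ^ (i + 1) * H i x) ^ n :=
          lintegral_mono fun x => J145.pow_tsum_le n hn _
      _ = ∑' i, ∫⁻ x, (2 ^ (i + 1) * H i x) ^ n := by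
          rw [lintegral_tsum]
          intro i
          exact (((hHc i).measurable.const_mul _).pow_const n).aemeasurable
      _ ≤ ∑' i : ℕ, ε * (2⁻¹ : ℝ≥0∞) ^ (i + 1) := by
          refine ENNReal.tsum_le_tsum fun i => ?_
          have hle : ∀ x, (2 ^ (i + 1) * H i x) ^ n ≤
              (cthickening (r i) P).indicator (fun _ => ((2 : ℝ≥0∞) ^ (i + 1)) ^ n) x := by
            intro x
            by_cases hx : x ∈ cthickening (r i) P
            · rw [indicator_of_mem hx]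
              gcongr
              calc 2 ^ (i + 1) * H i x ≤ 2 ^ (i + 1) * 1 := by gcongr; exact hH1 i x
                _ = 2 ^ (i + 1) := mul_one _
            · rw [indicator_of_notMem hx]
              rw [mem_cthickening_iff, not_le] at hx
              rw [hH0 i x hx.le, mul_zero, zero_pow (by omega)]
          calc ∫⁻ x, (2 ^ (i + 1) * H i x) ^ n ≤
              ∫⁻ x, (cthickening (r i) P).indicator (fun _ => ((2 : ℝ≥0∞) ^ (i + 1)) ^ n) x :=
                lintegral_mono hle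
            _ = ((2 : ℝ≥0∞) ^ (i + 1)) ^ n * volume (cthickening (r i) P) := by
                rw [lintegral_indicator isClosed_cthickening.measurableSet, lintegral_const,
                  Measure.restrict_apply_univ]
            _ ≤ ((2 : ℝ≥0∞) ^ (i + 1)) ^ n * (min ε 1 * ((4 : ℝ≥0∞)⁻¹ ^ (i + 1)) ^ n) := by
                gcongr
                exact hr2 i
            _ = min ε 1 * ((2⁻¹ : ℝ≥0∞) ^ (i + 1)) ^ n := by
                rw [mul_left_comm]
                congr 1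
                rw [← mul_pow, ← mul_pow]
                congr 2
                rw [show (4 : ℝ≥0∞) = 2 * 2 by norm_num, ENNReal.mul_inv (by simp) (by simp),
                  ← mul_assoc, ENNReal.mul_inv_cancel (by simp) (by simp), one_mul]
            _ ≤ ε * (2⁻¹ : ℝ≥0∞) ^ (i + 1) := by
                refine mul_le_mul' (min_le_left _ _) ?_
                refine pow_le_of_le_one (by simp) ?_ (by omega)
                exact pow_le_one₀ (by simp) (by simp)
      _ = ε := by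
          rw [ENNReal.tsum_mul_left]
          have : ∑' i : ℕ, (2⁻¹ : ℝ≥0∞) ^ (i + 1) = 1 := by
            simp only [pow_succ]
            rw [ENNReal.tsum_mul_right, ENNReal.tsum_geometric, ENNReal.one_sub_inv_two, inv_inv,
              ENNReal.mul_inv_cancel (by simp) (by simp)]
          rw [this, mul_one]


namespace J145

/-- a `1`-Lipschitz function pushes the length to at least the length of its range -/
theorem restrict_le_map {u : ℝ → ℝ} (hu : LipschitzWith 1 u) {ℓ R₀ R₁ : ℝ} (hℓ : 0 ≤ ℓ)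
    (h0 : u 0 ≤ R₀) (h1 : R₁ ≤ u ℓ) :
    (volume.restrict (Icc R₀ R₁) : Measure ℝ) ≤ Measure.map u (volume.restrict (Icc 0 ℓ)) := by
  rw [Measure.le_iff]
  intro B hB
  rw [Measure.map_apply hu.continuous.measurable hB, Measure.restrict_apply hB,
    Measure.restrict_apply (hu.continuous.measurable hB)]
  have hsub : B ∩ Icc R₀ R₁ ⊆ u '' (u ⁻¹' B ∩ Icc 0 ℓ) := by
    rintro y ⟨hy, hyI⟩
    have := intermediate_value_Icc hℓ hu.continuous.continuousOn
    obtain ⟨s, hs, rfl⟩ := this ⟨h0.trans hyI.1, hyI.2.trans h1⟩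
    exact ⟨s, ⟨hy, hs⟩, rfl⟩
  calc volume (B ∩ Icc R₀ R₁) ≤ volume (u '' (u ⁻¹' B ∩ Icc 0 ℓ)) := measure_mono hsub
    _ ≤ volume (u ⁻¹' B ∩ Icc 0 ℓ) := by
      have := hu.hausdorffMeasure_image_le (d := 1) zero_le_one (u ⁻¹' B ∩ Icc 0 ℓ)
      simpa [hausdorffMeasure_real] using this

theorem lint_eq {R₀ R₁ Λ : ℝ} (hR₀ : 0 < R₀) (hR : R₀ < R₁) (hΛ : Λ = Real.log (R₁ / R₀)) :
    ∫⁻ r in Icc R₀ R₁, ENNReal.ofReal (1 / (Λ * max R₀ r)) = 1 := by
  have hΛ0 : 0 < Λ := by
    rw [hΛ]; exact Real.log_pos (by rwa [one_lt_div hR₀])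
  have e1 : ∫⁻ r in Icc R₀ R₁, ENNReal.ofReal (1 / (Λ * max R₀ r)) =
      ∫⁻ r in Icc R₀ R₁, ENNReal.ofReal (Λ⁻¹ * r⁻¹) := by
    refine setLIntegral_congr_fun measurableSet_Icc ?_
    intro r hr
    simp only
    rw [max_eq_right hr.1, one_div, mul_inv]
  rw [e1]
  have hint : IntegrableOn (fun r : ℝ => Λ⁻¹ * r⁻¹) (Icc R₀ R₁) := by
    refine ContinuousOn.integrableOn_Icc ?_
    refine continuousOn_const.mul (ContinuousOn.inv₀ continuousOn_id ?_)
    intro r hr
    exact (hR₀.trans_le hr.1).ne'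
  rw [← ofReal_integral_eq_lintegral_ofReal hint]
  · rw [integral_Icc_eq_integral_Ioc, ← intervalIntegral.integral_of_le hR.le,
      intervalIntegral.integral_const_mul, integral_inv_of_pos hR₀ (hR₀.trans hR), ← hΛ,
      inv_mul_cancel₀ hΛ0.ne', ENNReal.ofReal_one]
  · refine (ae_restrict_iff' measurableSet_Icc).mpr (Eventually.of_forall ?_)
    intro r hr
    have : 0 < r := hR₀.trans_le hr.1
    show (0 : ℝ) ≤ Λ⁻¹ * r⁻¹
    positivity

theorem piece {n : ℕ} {R₀ Λ ρ : ℝ} (hΛ : 0 < Λ) (hρ : 0 < ρ) (S : Set (Eu n))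
    (hSm : MeasurableSet S)
    (hS : S ⊆ closedBall 0 (2 * ρ)) (h : ∀ x ∈ S, ρ ≤ max R₀ ‖x‖) :
    ∫⁻ x in S, (ENNReal.ofReal (1 / (Λ * max R₀ ‖x‖))) ^ n ≤
      volume (ball (0 : Eu n) 1) * ENNReal.ofReal ((2 / Λ) ^ n) := by
  calc ∫⁻ x in S, (ENNReal.ofReal (1 / (Λ * max R₀ ‖x‖))) ^ n ≤
      ∫⁻ x in S, (ENNReal.ofReal (1 / (Λ * ρ))) ^ n := by
        refine setLIntegral_mono' hSm fun x hx => ?_
        gcongr
        exact h x hx
    _ = (ENNReal.ofReal (1 / (Λ * ρ))) ^ n * volume S := by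
        rw [setLIntegral_const]
    _ ≤ (ENNReal.ofReal (1 / (Λ * ρ))) ^ n * volume (closedBall (0 : Eu n) (2 * ρ)) := by
        gcongr
    _ = volume (ball (0 : Eu n) 1) * ENNReal.ofReal ((2 / Λ) ^ n) := by
        rw [Measure.addHaar_closedBall _ _ (by positivity), finrank_euclideanSpace_fin,
          ← mul_assoc, mul_comm]
        congr 1
        rw [← ENNReal.ofReal_pow (by positivity), ← ENNReal.ofReal_mul (by positivity)]
        congr 1
        rw [← mul_pow]
        congr 1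
        field_simp

theorem energy {n : ℕ} {R₀ Λ : ℝ} (hR₀ : 0 < R₀) (hΛ : 0 < Λ) (m : ℕ) :
    ∫⁻ x in closedBall (0 : Eu n) (2 ^ m * R₀), (ENNReal.ofReal (1 / (Λ * max R₀ ‖x‖))) ^ n ≤
      (m + 1 : ℕ) * (volume (ball (0 : Eu n) 1) * ENNReal.ofReal ((2 / Λ) ^ n)) := by
  induction m with
  | zero =>
    simp only [pow_zero, one_mul, zero_add, Nat.cast_one]
    refine piece hΛ hR₀ _ measurableSet_closedBall (closedBall_subset_closedBall (by linarith)) ?_
    intro x _
    exact le_max_left _ _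
  | succ m ih =>
    have hsub : closedBall (0 : Eu n) (2 ^ (m + 1) * R₀) ⊆ closedBall 0 (2 ^ m * R₀) ∪
        (closedBall (0 : Eu n) (2 ^ (m + 1) * R₀) \ closedBall 0 (2 ^ m * R₀)) := by
      intro x hx
      by_cases h : x ∈ closedBall (0 : Eu n) (2 ^ m * R₀)
      · exact Or.inl h
      · exact Or.inr ⟨hx, h⟩
    refine (lintegral_mono_set hsub).trans ((lintegral_union_le _ _ _).trans ?_)
    rw [Nat.cast_add (m + 1) 1, Nat.cast_one, add_mul, one_mul]
    refine add_le_add ih ?_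
    refine piece (ρ := 2 ^ m * R₀) hΛ (by positivity) _
      (measurableSet_closedBall.diff measurableSet_closedBall) ?_ ?_
    · intro x hx
      have : (2 : ℝ) ^ (m + 1) * R₀ = 2 * (2 ^ m * R₀) := by ring
      rw [← this]
      exact hx.1
    · intro x hx
      have h2 := hx.2
      rw [mem_closedBall_zero_iff, not_le] at h2
      exact h2.le.trans (le_max_right _ _)

end J145

/-- a function with small energy which makes it expensive to go from a ball to infinity -/
theorem exists_barrier {n : ℕ} (hn : 2 ≤ n) {R₀ : ℝ} (hR₀ : 0 < R₀) {ε : ℝ≥0∞} (hε : 0 < ε) :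
    ∃ (R₁ : ℝ) (b : Eu n → ℝ≥0∞), R₀ < R₁ ∧ Continuous b ∧ (∀ x, b x ≠ ⊤) ∧
      ∫⁻ x in closedBall 0 (2 * R₁), b x ^ n ≤ ε ∧
      ∀ γ : ℝ → Eu n, LipschitzWith 1 γ → ∀ ℓ : ℝ, 0 ≤ ℓ → ‖γ 0‖ ≤ R₀ → R₁ ≤ ‖γ ℓ‖ →
        1 ≤ cost b γ 0 ℓ := by
  have hl2 : 0 < Real.log 2 := Real.log_pos (by norm_num)
  -- choice of m
  obtain ⟨m, hm1, hm⟩ : ∃ m : ℕ, 1 ≤ m ∧ (m + 1 + 1 : ℕ) * (volume (ball (0 : Eu n) 1) *
      ENNReal.ofReal ((2 / (m * Real.log 2)) ^ n)) ≤ ε := by
    have ht : Tendsto (fun m : ℕ => volume (ball (0 : Eu n) 1) *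
        ENNReal.ofReal (3 * (2 / Real.log 2) ^ n / m)) atTop (𝓝 0) := by
      have h1 := tendsto_const_div_atTop_nhds_zero_nat (3 * (2 / Real.log 2) ^ n : ℝ)
      have h2 := ENNReal.tendsto_ofReal h1
      rw [ENNReal.ofReal_zero] at h2
      have h3 := ENNReal.Tendsto.const_mul (a := volume (ball (0 : Eu n) 1)) h2
        (Or.inr measure_ball_lt_top.ne)
      rwa [mul_zero] at h3
    obtain ⟨m, hm, hm1⟩ := ((ht.eventually (gt_mem_nhds hε)).and (eventually_ge_atTop 1)).exists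
    refine ⟨m, hm1, le_trans ?_ hm.le⟩
    rw [mul_left_comm]
    gcongr
    rw [← ENNReal.ofReal_natCast, ← ENNReal.ofReal_mul (by positivity)]
    apply ENNReal.ofReal_le_ofReal
    have hm1' : (1 : ℝ) ≤ m := by exact_mod_cast hm1
    have hm0 : (0 : ℝ) < m := by linarith
    have e1 : (2 / (m * Real.log 2)) ^ n = (2 / Real.log 2) ^ n / (m : ℝ) ^ n := by
      rw [← div_pow]
      congr 1
      field_simp
    rw [e1]
    have h1 : (((m + 1 + 1 : ℕ) : ℝ)) ≤ 3 * m := by push_cast; linarith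
    have h2 : (m : ℝ) * m ≤ (m : ℝ) ^ n := by
      calc (m : ℝ) * m = (m : ℝ) ^ 2 := by ring
        _ ≤ (m : ℝ) ^ n := pow_le_pow_right₀ hm1' hn
    have hc : 0 < (2 / Real.log 2) ^ n := by positivity
    calc (((m + 1 + 1 : ℕ) : ℝ)) * ((2 / Real.log 2) ^ n / (m : ℝ) ^ n) ≤
        (3 * m) * ((2 / Real.log 2) ^ n / ((m : ℝ) * m)) := by gcongr
      _ = 3 * (2 / Real.log 2) ^ n / m := by field_simp
  have hm0 : (0 : ℝ) < m := by
    have : (1 : ℝ) ≤ m := by exact_mod_cast hm1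
    linarith
  set Λ : ℝ := m * Real.log 2 with hΛ
  have hΛ0 : 0 < Λ := by positivity
  have h2m : (1 : ℝ) < 2 ^ m := one_lt_pow₀ (by norm_num) (by omega)
  have hΛR : Λ = Real.log ((2 ^ m * R₀) / R₀) := by
    rw [mul_div_assoc, div_self hR₀.ne', mul_one, Real.log_pow]
  have hR : R₀ < 2 ^ m * R₀ := by nlinarith
  refine ⟨2 ^ m * R₀, fun x => ENNReal.ofReal (1 / (Λ * max R₀ ‖x‖)), hR, ?_, ?_, ?_, ?_⟩
  · refine ENNReal.continuous_ofReal.comp ?_
    refine continuous_const.div (continuous_const.mul (continuous_const.max continuous_norm)) ?_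
    intro x
    have : 0 < max R₀ ‖x‖ := lt_max_of_lt_left hR₀
    positivity
  · intro x
    exact ENNReal.ofReal_ne_top
  · have h1 := J145.energy (n := n) hR₀ hΛ0 (m + 1)
    rw [show (2 : ℝ) ^ (m + 1) * R₀ = 2 * (2 ^ m * R₀) by ring] at h1
    exact h1.trans hm
  · intro γ hγ ℓ hℓ h0 h1
    have hu : LipschitzWith 1 (fun s => ‖γ s‖) := by
      have := lipschitzWith_one_norm.comp hγ
      rw [mul_one] at this
      exact this
    have hle := J145.restrict_le_map hu hℓ h0 h1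
    calc (1 : ℝ≥0∞) = ∫⁻ r in Icc R₀ (2 ^ m * R₀), ENNReal.ofReal (1 / (Λ * max R₀ r)) :=
          (J145.lint_eq hR₀ hR hΛR).symm
      _ ≤ ∫⁻ r, ENNReal.ofReal (1 / (Λ * max R₀ r)) ∂(Measure.map (fun s => ‖γ s‖)
            (volume.restrict (Icc 0 ℓ))) := lintegral_mono' hle le_rfl
      _ = cost (fun x => ENNReal.ofReal (1 / (Λ * max R₀ ‖x‖))) γ 0 ℓ := by
          rw [lintegral_map _ hu.continuous.measurable]
          · rfl
          · refine ENNReal.measurable_ofReal.comp ?_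
            fun_prop

end Pool.Agent.TH221
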