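import Pool.Agent.TH27.FS.Cross

/-!
# FS-K5: commutators with elements fixing all concatenations of boxes

`TB.comm_of_fix`: if all three cycles of the boxes which are not deep are in the normal subgroup
`N`, then the commutator of the three cycle on all boxes with an element fixing all
bi-infinite concatenations of boxes is in `N`.
-/

set_option autoImplicit false

namespace Pool.Agent.TH27.FS

open Equiv

variable {A : Type}

namespace K5

/-- deep boxes form a good control -/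
theorem good_D (T : TB A) (R : ℕ) : T.F.Good (T.D R) := by
  refine ⟨fun x n p _ => ?_, ?_, fun x y hm p _ hD k h1 h2 => ?_⟩
  · unfold TB.D
    refine forall_congr' fun k => ?_
    have := T.F.site_sh x n (p + k * T.d)
    change T.site _ _ ↔ T.site _ _ at this
    rw [this, show p + k * T.d + n = p + n + k * T.d by ring]
  · obtain ⟨s, hs⟩ := T.F.site_loc
    have hd := T.d_pos
    refine ⟨s + R * T.d.toNat, fun x y p hxy _ hD k h1 h2 => ?_⟩
    push_cast at hxy
    rw [Int.toNat_of_nonneg hd.le] at hxy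
    have h3 : -(R * T.d) ≤ k * T.d := by nlinarith
    have h4 : k * T.d ≤ R * T.d := by nlinarith
    exact hs x y _ (fun i h5 h6 => hxy i (by linarith) (by linarith)) (hD k h1 h2)
  · exact hm.site (F := T.F) (hD k h1 h2)

theorem site_congr (T : TB A) {x y : ℤ → A} {p : ℤ}
    (h : ∀ j, p - 2 * T.S.μ ≤ j → j < p + T.n + 2 * T.S.μ → x j = y j) (hs : T.site x p) :
    T.site y p := by
  obtain ⟨h1, h2, h3, h4, h5⟩ := hs
  refine ⟨(MS.occ_congr' fun j h4 h5 => h j (by omega) (by omega)).1 h1,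
      (MS.occ_congr' fun j h4 h5 => h j (by omega) (by omega)).1 h2, ?_,
      (MS.occ_congr' fun j h4 h5 => h j (by omega) (by omega)).1 h4,
      (MS.occ_congr' fun j h4 h5 => h j (by omega) (by omega)).1 h5⟩
  rwa [cont_congr fun i h4 h5 => (h _ (by omega) (by omega)).symm]

theorem site_of_blk (T : TB A) {s x x' : ℤ → A} {q p p' : ℤ} (hx : T.site x p)
    (hx' : T.site x' p')
    (h : ∀ i : ℤ, 0 ≤ i → i < T.d → s (q - 2 * T.S.μ + i) = x (p - 2 * T.S.μ + i))
    (h' : ∀ i : ℤ, 0 ≤ i → i < T.S.μ →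
      s (q + T.d - 2 * T.S.μ + i) = x' (p' - 2 * T.S.μ + i)) :
    T.site s q := by
  have hμ := T.S.hμ
  obtain ⟨h1, h2, h3, h4, h5⟩ := hx
  have hd : T.d = T.n + 3 * T.S.μ := rfl
  refine ⟨(MS.occ_congr fun i h6 h7 => ?_).1 h1, (MS.occ_congr fun i h6 h7 => ?_).1 h2, ?_,
    (MS.occ_congr fun i h6 h7 => ?_).1 h4, (MS.occ_congr fun i h6 h7 => ?_).1 hx'.1⟩
  · exact (h i h6 (by omega)).symm
  · have := h (T.S.μ + i) (by omega) (by omega)
    rw [show q - T.S.μ + i = q - 2 * T.S.μ + (T.S.μ + i) by ring,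
      show p - T.S.μ + i = p - 2 * T.S.μ + (T.S.μ + i) by ring]
    exact this.symm
  · have : cont T.n s q = cont T.n x p := by
      apply cont_congr
      intro i h6 h7
      have := h (2 * T.S.μ + i) (by omega) (by omega)
      rw [show q - 2 * T.S.μ + (2 * T.S.μ + i) = q + i by ring,
        show p - 2 * T.S.μ + (2 * T.S.μ + i) = p + i by ring] at this
      exact this
    rwa [this]
  · have := h (2 * T.S.μ + T.n + i) (by omega) (by omega)
    rw [show q - 2 * T.S.μ + (2 * T.S.μ + T.n + i) = q + T.n + i by ring,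
      show p - 2 * T.S.μ + (2 * T.S.μ + T.n + i) = p + T.n + i by ring] at this
    exact this.symm
  · have := h' i h6 h7
    rw [show q + T.n + T.S.μ + i = q + T.d - 2 * T.S.μ + i by rw [hd]; ring]
    exact this.symm

/-- periodic continuation -/
theorem exists_S (T : TB A) (R : ℕ) {x : ℤ → A} {p : ℤ} (hD : T.D R x p) :
    ∃ s ∈ T.Sset, ∀ j, p - 2 * T.S.μ - R * T.d ≤ j →
      j < p - 2 * T.S.μ + (R + 1) * T.d → s j = x j := by
  classical
  have hd := T.d_pos
  set o : ℤ := p - 2 * T.S.μ with ho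
  set s : ℤ → A := fun j => if o - R * T.d ≤ j ∧ j < o + (R + 1) * T.d then x j
    else x (o + (j - o) % T.d) with hs
  have hblk : ∀ k : ℤ, ∃ q, T.site x q ∧ ∀ i, 0 ≤ i → i < T.d →
      s (p + k * T.d - 2 * T.S.μ + i) = x (q - 2 * T.S.μ + i) := by
    intro k
    by_cases hk : -R ≤ k ∧ k ≤ R
    · refine ⟨p + k * T.d, hD k hk.1 hk.2, fun i h1 h2 => ?_⟩
      have h3 : -(R * T.d) ≤ k * T.d := by nlinarith
      have h4 : k * T.d ≤ R * T.d := by nlinarith
      simp only [hs]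
      rw [if_pos]
      constructor
      · rw [ho]; linarith
      · rw [ho]; linarith
    · refine ⟨p, by simpa using hD 0 (by omega) (by omega), fun i h1 h2 => ?_⟩
      simp only [hs]
      rw [if_neg]
      · rw [show p + k * T.d - 2 * T.S.μ + i - o = i + k * T.d by rw [ho]; ring,
          Int.add_mul_emod_self_right, Int.emod_eq_of_lt h1 h2]
      · rintro ⟨h3, h4⟩
        apply hk
        rw [ho] at h3 h4
        constructor
        · by_contra hc
          have : (k + 1) * T.d ≤ -R * T.d := mul_le_mul_of_nonneg_right (by omega) hd.le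
          linarith
        · by_contra hc
          have : (R + 1) * T.d ≤ k * T.d := mul_le_mul_of_nonneg_right (by omega) hd.le
          linarith
  refine ⟨s, ⟨p, fun k => ?_⟩, fun j h1 h2 => ?_⟩
  · obtain ⟨q, hq, hq'⟩ := hblk k
    obtain ⟨q', hq1, hq1'⟩ := hblk (k + 1)
    refine site_of_blk T hq hq1 hq' fun i h1 h2 => ?_
    rw [show p + k * T.d + T.d - 2 * T.S.μ + i = p + (k + 1) * T.d - 2 * T.S.μ + i by ring]
    have hd' : T.d = T.n + 3 * T.S.μ := rfl
    exact hq1' i h1 (by omega)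
  · simp only [hs]
    rw [if_pos ⟨h1, h2⟩]

/-- a local map which does not change the interior of long concatenations of boxes -/
structure Fx (T : TB A) (f : (ℤ → A) → (ℤ → A)) (r : ℕ) : Prop where
  loc : ∀ (x y : ℤ → A) (n : ℤ), (∀ i, n - r ≤ i → i ≤ n + r → x i = y i) → f x n = f y n
  fix : ∀ (x : ℤ → A) (p j : ℤ), T.D (r + 1) x p → p - 2 * T.S.μ ≤ j →
    j < p + T.n + 2 * T.S.μ → f x j = x j

theorem Fx.mk' (T : TB A) {f : (ℤ → A) → (ℤ → A)} {r : ℕ}
    (hr : ∀ (x y : ℤ → A) (n : ℤ), (∀ i, n - r ≤ i → i ≤ n + r → x i = y i) → f x n = f y n)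
    (hf : ∀ s ∈ T.Sset, f s = s) : Fx T f r := by
  refine ⟨hr, fun x p j hD h1 h2 => ?_⟩
  obtain ⟨s, hs, hsx⟩ := exists_S T (r + 1) hD
  have hd' : T.d = T.n + 3 * T.S.μ := rfl
  have hμ := T.S.hμ
  have hd1 : 1 ≤ T.d := T.d_pos
  have e1 : (r : ℤ) ≤ r * T.d := by nlinarith
  push_cast at hsx
  have e2 : f x j = f s j := by
    apply hr
    intro i h3 h4
    refine (hsx i ?_ ?_).symm
    · linarith
    · have : (T.d : ℤ) + T.S.μ ≤ 2 * T.d := by omega
      have e3 : p + T.n + 2 * T.S.μ = p - 2 * T.S.μ + (T.d + T.S.μ) := by rw [hd']; ring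
      linarith
  rw [e2, hf s hs]
  apply hsx
  · linarith
  · have : (T.d : ℤ) + T.S.μ ≤ 2 * T.d := by omega
    have e3 : p + T.n + 2 * T.S.μ = p - 2 * T.S.μ + (T.d + T.S.μ) := by rw [hd']; ring
    linarith

theorem D_sub (T : TB A) {R S : ℕ} {x : ℤ → A} {p : ℤ} (h : T.D (R + S) x p) {k : ℤ}
    (h1 : -R ≤ k) (h2 : k ≤ R) : T.D S x (p + k * T.d) := by
  intro m h3 h4
  have := h (k + m) (by push_cast; linarith) (by push_cast; linarith)
  rwa [show p + (k + m) * T.d = p + k * T.d + m * T.d by ring] at this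

theorem D_mono (T : TB A) {R S : ℕ} {x : ℤ → A} {p : ℤ} (hRS : S ≤ R) (h : T.D R x p) :
    T.D S x p := fun m h3 h4 => h m (by omega) (by omega)

theorem D_site (T : TB A) {R : ℕ} {x : ℤ → A} {p : ℤ} (h : T.D R x p) : T.site x p := by
  simpa using h 0 (by omega) (by omega)

theorem D_mod (T : TB A) {R : ℕ} {x y : ℤ → A} {p : ℤ} (hm : T.F.Mod x y) (h : T.D R x p) :
    T.D R y p := (good_D T R).inv x y hm p (D_site T h) h

theorem D_map (T : TB A) {f : (ℤ → A) → (ℤ → A)} {r : ℕ} (hf : Fx T f r) {R : ℕ} {x : ℤ → A}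
    {p : ℤ} (h : T.D (R + (r + 1)) x p) : T.D R (f x) p := by
  intro k h1 h2
  have hD := D_sub T h h1 h2
  exact site_congr T (fun j h3 h4 => (hf.fix x _ j hD h3 h4).symm) (D_site T hD)

theorem zone (T : TB A) {r S : ℕ} {x : ℤ → A} {p j : ℤ} (hD : T.D (r + S) x p)
    (h1 : p - 2 * T.S.μ - r ≤ j) (h2 : j < p - 2 * T.S.μ + T.d + r) :
    ∃ q, T.D S x q ∧ q - 2 * T.S.μ ≤ j ∧ j < q - 2 * T.S.μ + T.d := by
  have hd1 : 1 ≤ T.d := T.d_pos
  have hd := T.d_pos
  have e1 : (r : ℤ) ≤ r * T.d := by nlinarith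
  set o : ℤ := p - 2 * T.S.μ with ho
  set k : ℤ := (j - o) / T.d with hk
  have h3 : -(r : ℤ) ≤ k := by
    rw [hk, Int.le_ediv_iff_mul_le hd]; linarith
  have h4 : k < r + 1 := by
    rw [hk, Int.ediv_lt_iff_lt_mul hd]; linarith
  refine ⟨p + k * T.d, D_sub T hD h3 (by omega), ?_, ?_⟩
  · have := Int.ediv_mul_le (j - o) hd.ne'
    rw [← hk] at this
    rw [ho] at this; linarith
  · have := Int.lt_ediv_add_one_mul_self (j - o) hd
    rw [← hk] at this
    rw [ho] at this; linarith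

theorem nz (T : TB A) {f : (ℤ → A) → (ℤ → A)} {r : ℕ} (hf : Fx T f r) {x x' : ℤ → A}
    (hch : ∀ j, x' j ≠ x j → ∃ p, T.D (r + (r + 1)) x p ∧ p ≤ j ∧ j < p + T.n) {j : ℤ}
    (hj : ¬ ∃ q, T.D (r + 1) x q ∧ q - 2 * T.S.μ ≤ j ∧ j < q - 2 * T.S.μ + T.d) :
    f x' j = f x j := by
  have hd' : T.d = T.n + 3 * T.S.μ := rfl
  apply hf.loc
  intro i h1 h2
  by_contra hc
  obtain ⟨p, hp, h3, h4⟩ := hch i hc
  exact hj (zone T hp (by omega) (by omega))

theorem mod_map (T : TB A) {f : (ℤ → A) → (ℤ → A)} {r : ℕ} (hf : Fx T f r) {x x' : ℤ → A}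
    (hm : T.F.Mod x x')
    (hch : ∀ j, x' j ≠ x j → ∃ p, T.D (r + (r + 1)) x p ∧ p ≤ j ∧ j < p + T.n) :
    T.F.Mod (f x) (f x') := by
  have hd' : T.d = T.n + 3 * T.S.μ := rfl
  have hμ := T.S.hμ
  refine ⟨fun j hj => ?_, fun p hp => ?_⟩
  · by_cases hz : ∃ q, T.D (r + 1) x q ∧ q - 2 * T.S.μ ≤ j ∧ j < q - 2 * T.S.μ + T.d
    · obtain ⟨q, hq, h1, h2⟩ := hz
      rw [hf.fix x q j hq h1 (by omega), hf.fix x' q j (D_mod T hm hq) h1 (by omega)]
      by_contra hc
      obtain ⟨p, hp, h3⟩ := hch j hc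
      exact hj p (D_site T (D_map T hf hp)) h3
    · exact nz T hf hch hz
  · by_cases hD : T.D (r + 1) x p
    · have hD' := D_mod T hm hD
      have e1 : cont T.n (f x') p = cont T.n x' p :=
        cont_congr fun i h1 h2 => hf.fix x' p _ hD' (by omega) (by omega)
      rw [e1]
      exact T.F.memZ x' p (D_site T hD')
    · have e1 : cont T.n (f x') p = cont T.n (f x) p := by
        refine cont_congr fun i h1 h2 => nz T hf hch ?_
        rintro ⟨q, hq, h3, h4⟩
        have hq' : T.site (f x) q :=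
          D_site T (D_map T hf (R := 0) (by rwa [Nat.zero_add]))
        rcases lt_trichotomy p q with h | h | h
        · have := TB.site_dist hp hq' h
          omega
        · subst h; exact hD hq
        · have := TB.site_dist hq' hp h
          omega
      rw [e1]
      exact T.F.memZ _ p hp

theorem ch_of_ctl {l : ℕ} {F : Fam A l} {C : (ℤ → A) → ℤ → Prop} {π : Perm (Fin l → A)}
    (hm : F.ctl C π ∈ F.CtlG) {x : ℤ → A} {j : ℤ} (h : actf (F.ctl C π) x j ≠ x j) :
    ∃ p, F.site x p ∧ C x p ∧ p ≤ j ∧ j < p + l := by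
  classical
  by_contra hc
  apply h
  refine actf_out hm fun p hp h1 hj => hc ⟨p, hp, ?_, hj⟩
  by_contra h2
  apply h1
  unfold Fam.ctl
  rw [if_neg]
  rintro ⟨_, h3⟩
  exact h2 h3

/-- the family of deep boxes -/
noncomputable def G (T : TB A) (R : ℕ) : Fam A T.n := T.F.restrict (T.D R) (good_D T R)

theorem G_Z (T : TB A) (R : ℕ) : (G T R).Z = T.Z := rfl

theorem good_conj (T : TB A) {t : AutG A} {r : ℕ} (h2 : Fx T (t⁻¹).1 r) (R' : ℕ) :
    (G T (r + (r + 1))).Good (fun x p => T.D R' ((t⁻¹).1 x) p) := by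
  refine ⟨fun x n p _ => ?_, ?_, fun x y hm p _ hD => ?_⟩
  · rw [AutG.comm]
    unfold TB.D
    refine forall_congr' fun k => ?_
    have := T.F.site_sh ((t⁻¹).1 x) n (p + k * T.d)
    change T.site _ _ ↔ T.site _ _ at this
    rw [this, show p + k * T.d + n = p + n + k * T.d by ring]
  · obtain ⟨s, hs⟩ := (good_D T R').loc
    refine ⟨s + r, fun x y p hxy _ hD => ?_⟩
    push_cast at hxy
    refine hs _ _ p (fun i h3 h4 => h2.loc x y i fun k h5 h6 => hxy k ?_ ?_) (D_site T hD) hD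
    · linarith
    · linarith
  · refine D_mod T (mod_map T h2 (Fam.restrict_mod hm) fun j hj => ?_) hD
    by_contra hc
    apply hj
    refine hm.1 j fun p hp hpj => hc ⟨p, hp.2, hpj⟩

theorem conj_formula (T : TB A) {t : AutG A} {r : ℕ} (h1 : Fx T t.1 r) (h2 : Fx T (t⁻¹).1 r)
    {π : Perm (Fin T.n → A)} (hπ : T.F.OK π) (y : ℤ → A) :
    t.1 (actf (T.F.ctl (T.D (r + (r + 1) + (r + 1))) π) y) =
      actf ((G T (r + (r + 1))).ctl
        (fun x p => T.D (r + (r + 1) + (r + 1)) ((t⁻¹).1 x) p) π) (t.1 y) := by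
  classical
  have hd' : T.d = T.n + 3 * T.S.μ := rfl
  have hμ := T.S.hμ
  have m1 : T.F.ctl (T.D (r + (r + 1) + (r + 1))) π ∈ T.F.CtlG := Fam.ctl_mem (good_D T _) hπ
  have m2 : (G T (r + (r + 1))).ctl
        (fun x p => T.D (r + (r + 1) + (r + 1)) ((t⁻¹).1 x) p) π ∈ (G T (r + (r + 1))).CtlG :=
    Fam.ctl_mem (good_conj T h2 _) hπ
  have hmod : T.F.Mod y (actf (T.F.ctl (T.D (r + (r + 1) + (r + 1))) π) y) := actf_mod m1 y
  set y' := actf (T.F.ctl (T.D (r + (r + 1) + (r + 1))) π) y with hy'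
  have hch : ∀ j, y' j ≠ y j → ∃ p, T.D (r + (r + 1) + (r + 1)) y p ∧ p ≤ j ∧ j < p + T.n := by
    intro j hj
    obtain ⟨p, _, h3, h4⟩ := ch_of_ctl m1 hj
    exact ⟨p, h3, h4⟩
  funext j
  by_cases hj : ∃ p, T.D (r + (r + 1) + (r + 1)) y p ∧ p ≤ j ∧ j < p + T.n
  · obtain ⟨p, hp, hj⟩ := hj
    have hs : T.F.site y p := D_site T hp
    have e1 : cont T.n y' p = π (cont T.n y p) := by
      rw [hy', cont_actf m1 hs]
      unfold Fam.ctl
      rw [if_pos ⟨hs, hp⟩]
    have hD0 : T.D (r + 1) y p := D_mono T (by omega) hp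
    have hD0' : T.D (r + 1) y' p := D_mod T hmod hD0
    have e2 : (G T (r + (r + 1))).site (t.1 y) p :=
      ⟨D_site T (D_map T h1 hp), D_map T h1 hp⟩
    have e3 := cont_actf m2 e2
    have e4 : cont T.n (t.1 y) p = cont T.n y p :=
      cont_congr fun i h3 h4 => h1.fix y p _ hD0 (by omega) (by omega)
    have e5 : (G T (r + (r + 1))).ctl
        (fun x p => T.D (r + (r + 1) + (r + 1)) ((t⁻¹).1 x) p) π (t.1 y) p = π := by
      unfold Fam.ctl
      rw [if_pos]
      refine ⟨e2, ?_⟩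
      simpa using hp
    rw [e5, e4, ← e1] at e3
    obtain ⟨i, rfl⟩ := exists_fin hj
    have e6 := congrFun e3 i
    rw [h1.fix y' p _ hD0' (by omega) (by omega)]
    exact e6.symm
  · have e1 : actf ((G T (r + (r + 1))).ctl
        (fun x p => T.D (r + (r + 1) + (r + 1)) ((t⁻¹).1 x) p) π) (t.1 y) j = t.1 y j := by
      by_contra hc
      obtain ⟨p, _, h3, h4⟩ := ch_of_ctl m2 hc
      exact hj ⟨p, by simpa using h3, h4⟩
    have e2 : y' j = y j := by
      by_contra hc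
      exact hj (hch j hc)
    rw [e1]
    by_cases hz : ∃ q, T.D (r + 1) y q ∧ q - 2 * T.S.μ ≤ j ∧ j < q - 2 * T.S.μ + T.d
    · obtain ⟨q, hq, h3, h4⟩ := hz
      rw [h1.fix y q j hq h3 (by omega), h1.fix y' q j (D_mod T hmod hq) h3 (by omega), e2]
    · refine nz T h1 (fun i hi => ?_) hz
      obtain ⟨p, hp, h3⟩ := hch i hi
      exact ⟨p, D_mono T (by omega) hp, h3⟩

theorem good_D_G (T : TB A) (R R' : ℕ) : (G T R').Good (T.D R) := by
  obtain ⟨h1, h2, h3⟩ := good_D T R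
  refine ⟨fun x n p h => h1 x n p h.1, ?_, fun x y hm p hp => h3 x y (Fam.restrict_mod hm) p hp.1⟩
  obtain ⟨s, hs⟩ := h2
  exact ⟨s, fun x y p hxy hp => hs x y p hxy hp.1⟩

theorem tc_deep {T : TB A} {N : Subgroup (AutG A)} [N.Normal] (h5 : T.Five) (hD : T.Deep N)
    (R R' : ℕ) {a b c : Fin T.n → A} (ha : a ∈ T.Z) (hb : b ∈ T.Z) (hc : c ∈ T.Z)
    (habc : D3 a b c) :
    InN N (actf ((G T R).ctl (fun x p => ¬ T.D R' x p) (tc a b c))) := by
  obtain ⟨d, hd, e, he, h2, h3, h4⟩ := h5 a b c ha hb hc habc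
  unfold G
  rw [Fam.restrict_ctl]
  have k := hD R' a b d ha hb hd ⟨habc.1, h2.1, h3.1⟩
  exact sub_ctl (F := T.F) (good_D T R').not ((good_D T R).and (good_D T R').not)
    (fun x p _ h => h.2) ha hb hc hd he habc h2 h3 h4 k

theorem tc_sub {T : TB A} {N : Subgroup (AutG A)} [N.Normal] (h5 : T.Five) (hD : T.Deep N)
    (R R' : ℕ) {C : (ℤ → A) → ℤ → Prop} (hC : (G T R).Good C)
    (hsub : ∀ x p, (G T R).site x p → C x p → ¬ T.D R' x p)
    {a b c : Fin T.n → A} (ha : a ∈ T.Z) (hb : b ∈ T.Z) (hc : c ∈ T.Z)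
    (habc : D3 a b c) :
    InN N (actf ((G T R).ctl C (tc a b c))) := by
  obtain ⟨d, hd, e, he, h2, h3, h4⟩ := h5 a b c ha hb hc habc
  have k := tc_deep h5 hD R R' ha hb hd ⟨habc.1, h2.1, h3.1⟩
  exact sub_ctl (F := G T R) (good_D_G T R' R).not hC hsub ha hb hc hd he habc h2 h3 h4 k

end K5

open K5 in
/-- **Lemma G.** If the three cycles on the boxes which are not deep are in `N`, then the
commutator of a three cycle on all boxes with an element fixing all bi-infinite concatenations of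
boxes is in `N`. -/
theorem TB.comm_of_fix {A : Type} (T : TB A) {N : Subgroup (AutG A)} [N.Normal] (h5 : T.Five)
    (hD : T.Deep N) {a b c : Fin T.n → A} (ha : a ∈ T.Z) (hb : b ∈ T.Z) (hc : c ∈ T.Z)
    (habc : D3 a b c) (t : AutG A) (ht : ∀ s ∈ T.Sset, t.1 s = s) :
    T.g ha hb hc * t * (T.g ha hb hc)⁻¹ * t⁻¹ ∈ N := by
  classical
  obtain ⟨r1, hr1⟩ := AutG.loc t
  obtain ⟨r2, hr2⟩ := AutG.loc t⁻¹
  set r : ℕ := r1 + r2 with hr
  have ht' : ∀ s ∈ T.Sset, (t⁻¹).1 s = s := by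
    intro s hs
    have := AutG.inv_apply_self t s
    rwa [ht s hs] at this
  have f1 : Fx T t.1 r := Fx.mk' T (fun x y n h => hr1 x y n fun i h1 h2 => h i
    (by rw [hr]; push_cast; omega) (by rw [hr]; push_cast; omega)) ht
  have f2 : Fx T (t⁻¹).1 r := Fx.mk' T (fun x y n h => hr2 x y n fun i h1 h2 => h i
    (by rw [hr]; push_cast; omega) (by rw [hr]; push_cast; omega)) ht'
  set R1 : ℕ := r + (r + 1) with hR1
  set R' : ℕ := R1 + (r + 1) with hR'
  have hok : T.F.OK (tc a b c) := Fam.ok_tc ha hb hc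
  have hokG : (G T R1).OK (tc a b c) := hok
  -- the controls
  set C' : (ℤ → A) → ℤ → Prop := fun x p => T.D R' ((t⁻¹).1 x) p with hC'
  have gC' : (G T R1).Good C' := good_conj T f2 R'
  have gD : (G T R1).Good (T.D R') := good_D_G T R' R1
  have gE1 : (G T R1).Good (fun x p => C' x p ∧ ¬ T.D R' x p) := gC'.and gD.not
  have gE2 : (G T R1).Good (fun x p => T.D R' x p ∧ ¬ C' x p) := gD.and gC'.not
  have gK : (G T R1).Good (fun x p => C' x p ∧ T.D R' x p) := gC'.and gD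
  have i1 : InN N (actf ((G T R1).ctl (fun x p => C' x p ∧ ¬ T.D R' x p) (tc a b c))) := by
    refine tc_sub h5 hD R1 (R' + (r + 1)) gE1 (fun x p _ h h' => h.2 ?_) ha hb hc habc
    exact D_mono T (by omega) h'
  have i2 : InN N (actf ((G T R1).ctl (fun x p => T.D R' x p ∧ ¬ C' x p) (tc a b c))) := by
    refine tc_sub h5 hD R1 (R' + (r + 1)) gE2 (fun x p _ h h' => h.2 ?_) ha hb hc habc
    exact D_map T f2 h'
  have mE1 := Fam.ctl_mem gE1 hokG
  have mE2 := Fam.ctl_mem gE2 hokG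
  have mK := Fam.ctl_mem gK hokG
  have mC := Fam.ctl_mem gC' hokG
  have mD := Fam.ctl_mem gD hokG
  have mDF := Fam.ctl_mem (good_D T R') hok
  have mDF' := Fam.ctl_mem (good_D T R').not hok
  have j1 := (InN_act (N := N) ⟨_, mE1⟩).1 i1
  have j2 := (InN_act (N := N) ⟨_, mE2⟩).1 i2
  have j3 := (InN_act (N := N) ⟨_, mDF'⟩).1 (hD R' a b c ha hb hc habc)
  -- decompositions
  have k1 : (G T R1).act ⟨_, mC⟩ = (G T R1).act ⟨_, mE1⟩ * (G T R1).act ⟨_, mK⟩ := by
    rw [← map_mul]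
    congr 1
    apply Subtype.ext
    change (G T R1).ctl C' (tc a b c) = (G T R1).ctl _ (tc a b c) * (G T R1).ctl _ (tc a b c)
    funext x p
    simp only [Pi.mul_apply, Fam.ctl]
    by_cases q1 : (G T R1).site x p <;> by_cases q2 : C' x p <;>
      by_cases q3 : T.D R' x p <;> simp [q1, q2, q3]
  have k2 : (G T R1).act ⟨_, mD⟩ = (G T R1).act ⟨_, mE2⟩ * (G T R1).act ⟨_, mK⟩ := by
    rw [← map_mul]
    congr 1
    apply Subtype.ext
    change (G T R1).ctl (T.D R') (tc a b c) =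
      (G T R1).ctl _ (tc a b c) * (G T R1).ctl _ (tc a b c)
    funext x p
    simp only [Pi.mul_apply, Fam.ctl]
    by_cases q1 : (G T R1).site x p <;> by_cases q2 : C' x p <;>
      by_cases q3 : T.D R' x p <;> simp [q1, q2, q3]
  have k3 : T.g ha hb hc = T.F.act ⟨_, mDF⟩ * T.F.act ⟨_, mDF'⟩ := by
    rw [← map_mul]
    unfold TB.g
    congr 1
    apply Subtype.ext
    change T.F.ctl (fun _ _ => True) (tc a b c) =
      T.F.ctl _ (tc a b c) * T.F.ctl _ (tc a b c)
    funext x p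
    simp only [Pi.mul_apply, Fam.ctl]
    by_cases q1 : T.F.site x p <;>
      by_cases q3 : T.D R' x p <;> simp [q1, q3]
  have k4 : T.F.act ⟨_, mDF⟩ = (G T R1).act ⟨_, mD⟩ := by
    apply AutG.ext'
    intro x
    change actf (T.F.ctl (T.D R') (tc a b c)) x = actf ((G T R1).ctl (T.D R') (tc a b c)) x
    unfold G
    rw [Fam.restrict_ctl]
    congr 1
    refine Fam.ctl_congr (fun x p => ?_) _
    constructor
    · rintro ⟨h1, h2⟩
      exact ⟨h1, D_mono T (by omega) h2, h2⟩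
    · rintro ⟨h1, _, h2⟩
      exact ⟨h1, h2⟩
  have k5 : t * T.F.act ⟨_, mDF⟩ * t⁻¹ = (G T R1).act ⟨_, mC⟩ := by
    apply AutG.ext'
    intro x
    rw [AutG.mul_apply, AutG.mul_apply]
    change t.1 (actf (T.F.ctl (T.D R') (tc a b c)) ((t⁻¹).1 x)) =
      actf ((G T R1).ctl C' (tc a b c)) x
    have := conj_formula T f1 f2 hok ((t⁻¹).1 x)
    rw [AutG.apply_inv_self] at this
    exact this
  -- conclusion in the quotient
  rw [← QuotientGroup.eq_one_iff]
  have l1 : ((T.g ha hb hc : AutG A) : AutG A ⧸ N) =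
      (((G T R1).act ⟨_, mK⟩ : AutG A) : AutG A ⧸ N) := by
    rw [k3, k4, k2, QuotientGroup.mk_mul, QuotientGroup.mk_mul,
      (QuotientGroup.eq_one_iff _).2 j2, (QuotientGroup.eq_one_iff _).2 j3, one_mul, mul_one]
  have l2 : ((t : AutG A) : AutG A ⧸ N) * ((T.g ha hb hc : AutG A) : AutG A ⧸ N) *
      ((t : AutG A) : AutG A ⧸ N)⁻¹ = (((G T R1).act ⟨_, mK⟩ : AutG A) : AutG A ⧸ N) := by
    have : ((T.g ha hb hc : AutG A) : AutG A ⧸ N) =
      ((T.F.act ⟨_, mDF⟩ : AutG A) : AutG A ⧸ N) := by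
      rw [k3, QuotientGroup.mk_mul, (QuotientGroup.eq_one_iff _).2 j3, mul_one]
    rw [this, ← QuotientGroup.mk_mul, ← QuotientGroup.mk_inv, ← QuotientGroup.mk_mul, k5, k1,
      QuotientGroup.mk_mul, (QuotientGroup.eq_one_iff _).2 j1, one_mul]
  simp only [QuotientGroup.mk_mul, QuotientGroup.mk_inv]
  rw [l1] at l2 ⊢
  have l3 := mul_inv_eq_iff_eq_mul.1 l2
  rw [← l3, mul_inv_cancel_right, mul_inv_cancel]

end Pool.Agent.TH27.FS
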