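import Pool.Agent.TH27.FS.Defs

/-!
`AutG A` acts as the full symmetric group on the orbits of least period `k`.
-/

set_option autoImplicit false

namespace Pool.Agent.TH554.J514

open Pool.Agent.TH27.FS
open scoped Classical

variable {A : Type}

theorem per_dvd {k : ℕ} {x : ℤ → A} (hx : ∀ i, x (i + k) = x i) {i j : ℤ}
    (h : (k : ℤ) ∣ i - j) : x i = x j := by
  obtain ⟨m, hm⟩ := h
  have hp : Function.Periodic x (k : ℤ) := hx
  have h1 := hp.int_mul m j
  rw [← h1]
  congr 1
  push_cast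
  linarith

/-- the sites of a configuration -/
def Site (a b : A) (k : ℕ) (x X : ℤ → A) (p : ℤ) : Prop :=
  (X p = a ∨ X p = b) ∧ ∀ t : ℤ, t ≠ 0 → -(k : ℤ) < t → t < k → X (p + t) = x t

theorem site_dist {k : ℕ} {x y : ℤ → A} {a b : A} (hx : LP k x) (hy : LP k y) (hxa : x 0 = a)
    (hyb : y 0 = b) (hxy : ∀ j : ℤ, ¬ (k : ℤ) ∣ j → y j = x j) {X : ℤ → A} {p q : ℤ}
    (hp : Site a b k x X p) (hq : Site a b k x X q) (hlt : p < q) : p + k ≤ q := by
  by_contra hcon
  push Not at hcon
  obtain ⟨s, hs⟩ : ∃ s : ℕ, (s : ℤ) = q - p := ⟨(q - p).toNat, by omega⟩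
  have hs0 : 0 < s := by omega
  have hsk : s < k := by omega
  have hk0 : (k : ℤ) ≠ 0 := by omega
  -- the modified point
  obtain ⟨z, hzLP, hz0, hzx⟩ : ∃ z : ℤ → A, LP k z ∧ z 0 = X p ∧ ∀ j : ℤ, ¬ (k : ℤ) ∣ j → z j = x j := by
    rcases hp.1 with h | h
    · exact ⟨x, hx, by rw [hxa, h], fun _ _ => rfl⟩
    · exact ⟨y, hy, by rw [hyb, h], hxy⟩
  have hns : ¬ (k : ℤ) ∣ -(s : ℤ) := by
    rw [dvd_neg]
    intro h
    have := Int.le_of_dvd (by omega) h
    omega
  have hc : X p = x (-(s : ℤ)) := by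
    have := hq.2 (-(s : ℤ)) (by omega) (by omega) (by omega)
    rw [← this]; congr 1; omega
  have hstep : ∀ t : ℤ, ¬ (k : ℤ) ∣ t → z (t + s) = z t := by
    intro t ht
    by_cases hts : (k : ℤ) ∣ t + s
    · have h1 : z (t + s) = z 0 := per_dvd hzLP.1 (by simpa using hts)
      have h2 : z t = z (-(s : ℤ)) := per_dvd hzLP.1 (by simpa using hts)
      rw [h1, h2, hz0, hzx _ hns, hc]
    · rw [hzx _ hts, hzx _ ht]
      have hm1 : 0 ≤ t % k := Int.emod_nonneg _ hk0
      have hm2 : t % k < k := Int.emod_lt_of_pos _ (by omega)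
      have hm3 : t % k ≠ 0 := fun h => ht (Int.dvd_of_emod_eq_zero h)
      have hm4 : (k : ℤ) ∣ t - t % k := Int.dvd_self_sub_emod
      set σ : ℤ := t % k - k with hσ
      have e1 : (k : ℤ) ∣ t - σ := by
        have : t - σ = (t - t % k) + k := by rw [hσ]; ring
        rw [this]; exact dvd_add hm4 dvd_rfl
      have e2 : σ + s ≠ 0 := by
        intro h
        apply hts
        have : t + s = (t - σ) + (σ + s) := by ring
        rw [this, h, add_zero]; exact e1
      have e3 := hp.2 (σ + s) e2 (by omega) (by omega)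
      have e4 := hq.2 σ (by omega) (by omega) (by omega)
      have e5 : x (t + s) = x (σ + s) := per_dvd hx.1 (by simpa using e1)
      have e6 : x t = x σ := per_dvd hx.1 e1
      rw [e5, e6, ← e3, ← e4]
      congr 1; omega
  have hex : ∃ m : ℕ, 0 < m ∧ (k : ℤ) ∣ (m : ℤ) * s := ⟨k, by omega, dvd_mul_right _ _⟩
  classical
  obtain ⟨hm0, hmk⟩ := Nat.find_spec hex
  have hmin := fun {j : ℕ} (h : j < Nat.find hex) => Nat.find_min hex h
  set m := Nat.find hex with hm
  have hind : ∀ j : ℕ, j + 1 ≤ m → z (((j + 1 : ℕ) : ℤ) * s) = z s := by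
    intro j
    induction j with
    | zero => intro _; simp
    | succ j ih =>
      intro hj
      have h1 : ¬ (k : ℤ) ∣ ((j + 1 : ℕ) : ℤ) * s := fun h => hmin (by omega) ⟨by omega, h⟩
      rw [← ih (by omega), ← hstep _ h1]
      congr 1
      push_cast; ring
  have hs' : z s = z 0 := by
    have h1 := hind (m - 1) (by omega)
    have h2 : m - 1 + 1 = m := by omega
    rw [h2] at h1
    rw [← h1]
    exact per_dvd hzLP.1 (by simpa using hmk)
  obtain ⟨i, hi⟩ := hzLP.2 s hs0 hsk
  apply hi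
  by_cases hki : (k : ℤ) ∣ i
  · have h1 : z (i + s) = z s := per_dvd hzLP.1 (by simpa using hki)
    have h2 : z i = z 0 := per_dvd hzLP.1 (by simpa using hki)
    rw [h1, h2, hs']
  · exact hstep i hki

/-- the flip map -/
noncomputable def phi (a b : A) (k : ℕ) (x X : ℤ → A) : ℤ → A := fun p =>
  if Site a b k x X p then Equiv.swap a b (X p) else X p

theorem phi_pos {a b : A} {k : ℕ} {x X : ℤ → A} {p : ℤ} (h : Site a b k x X p) :
    phi a b k x X p = Equiv.swap a b (X p) := if_pos h

theorem phi_neg {a b : A} {k : ℕ} {x X : ℤ → A} {p : ℤ} (h : ¬ Site a b k x X p) :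
    phi a b k x X p = X p := if_neg h

theorem swap_mem {a b c : A} : (Equiv.swap a b c = a ∨ Equiv.swap a b c = b) ↔ (c = a ∨ c = b) := by
  constructor
  · rintro (h | h)
    · right; exact (Equiv.swap a b).injective (h.trans (Equiv.swap_apply_right a b).symm)
    · left; exact (Equiv.swap a b).injective (h.trans (Equiv.swap_apply_left a b).symm)
  · rintro (rfl | rfl)
    · right; simp
    · left; simp

section flip

variable {k : ℕ} {x y : ℤ → A} {a b : A} (hx : LP k x) (hy : LP k y) (hxa : x 0 = a)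
    (hyb : y 0 = b) (hxy : ∀ j : ℤ, ¬ (k : ℤ) ∣ j → y j = x j)

include hx hy hxa hyb hxy

theorem not_site {X : ℤ → A} {p t : ℤ} (hp : Site a b k x X p) (h0 : t ≠ 0) (h1 : -(k : ℤ) < t)
    (h2 : t < k) : ¬ Site a b k x X (p + t) := by
  intro h
  rcases lt_or_gt_of_ne h0 with h' | h'
  · have := site_dist hx hy hxa hyb hxy h hp (by omega)
    omega
  · have := site_dist hx hy hxa hyb hxy hp h (by omega)
    omega

theorem site_phi (X : ℤ → A) (p : ℤ) :
    Site a b k x (phi a b k x X) p ↔ Site a b k x X p := by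
  classical
  have key : ∀ p, Site a b k x X p → Site a b k x (phi a b k x X) p := by
    intro p hp
    refine ⟨?_, ?_⟩
    · unfold phi
      rw [if_pos hp]
      exact swap_mem.2 hp.1
    · intro t h0 h1 h2
      have := not_site hx hy hxa hyb hxy hp h0 h1 h2
      unfold phi
      rw [if_neg this]
      exact hp.2 t h0 h1 h2
  refine ⟨fun hp => ⟨?_, ?_⟩, key p⟩
  · by_cases h : Site a b k x X p
    · exact h.1
    · have := hp.1
      unfold phi at this
      rwa [if_neg h] at this
  · intro t h0 h1 h2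
    by_cases h : Site a b k x X (p + t)
    · exact absurd (key _ h) (not_site hx hy hxa hyb hxy hp h0 h1 h2)
    · have := hp.2 t h0 h1 h2
      unfold phi at this
      rwa [if_neg h] at this

theorem phi_phi (X : ℤ → A) : phi a b k x (phi a b k x X) = X := by
  funext p
  by_cases h : Site a b k x X p
  · rw [phi_pos ((site_phi hx hy hxa hyb hxy X p).2 h), phi_pos h, Equiv.swap_apply_self]
  · rw [phi_neg (fun h' => h ((site_phi hx hy hxa hyb hxy X p).1 h')), phi_neg h]

end flip

theorem site_sh {k : ℕ} {x : ℤ → A} {a b : A} (n : ℤ) (X : ℤ → A) (p : ℤ) :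
    Site a b k x (sh n X) p ↔ Site a b k x X (p + n) := by
  unfold Site
  simp only [sh_apply]
  refine and_congr Iff.rfl (forall_congr' fun t => ?_)
  rw [show p + t + n = p + n + t by ring]

theorem phi_sh {k : ℕ} {x : ℤ → A} {a b : A} (n : ℤ) (X : ℤ → A) :
    phi a b k x (sh n X) = sh n (phi a b k x X) := by
  funext p
  rw [sh_apply]
  unfold phi
  by_cases h : Site a b k x X (p + n)
  · rw [if_pos ((site_sh n X p).2 h), if_pos h, sh_apply]
  · rw [if_neg (fun h' => h ((site_sh n X p).1 h')), if_neg h, sh_apply]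

theorem phi_local {k : ℕ} {x : ℤ → A} {a b : A} : LocalMap (phi a b k x) := by
  refine ⟨k, fun X Y p h => ?_⟩
  have e0 : X p = Y p := h p (by omega) (by omega)
  have e1 : Site a b k x X p ↔ Site a b k x Y p := by
    unfold Site
    rw [e0]
    refine and_congr Iff.rfl (forall_congr' fun t => forall_congr' fun _ => forall_congr' fun h1 =>
      forall_congr' fun h2 => ?_)
    rw [h (p + t) (by omega) (by omega)]
  unfold phi
  rw [e0]
  by_cases hs : Site a b k x Y p
  · rw [if_pos hs, if_pos (e1.2 hs)]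
  · rw [if_neg hs, if_neg (fun h' => hs (e1.1 h'))]

/-- the orbit of a point -/
def mk {k : ℕ} (x : PP A k) : Orb A k := Quotient.mk _ x

theorem mk_eq {k : ℕ} {x y : PP A k} (h : ∃ n : ℤ, y.1 = sh n x.1) : mk x = mk y :=
  Quotient.sound h

theorem mk_exact {k : ℕ} {x y : PP A k} (h : mk x = mk y) : ∃ n : ℤ, y.1 = sh n x.1 :=
  Quotient.exact h

theorem theta_mk' {k : ℕ} (g : AutG A) (x : PP A k) :
    theta A k g (mk x) = mk (mapPP g x) := rfl

section flip2

variable {k : ℕ} {x y : ℤ → A} {a b : A} (hx : LP k x) (hy : LP k y) (hxa : x 0 = a)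
    (hyb : y 0 = b) (hxy : ∀ j : ℤ, ¬ (k : ℤ) ∣ j → y j = x j)

include hx hy hxa hyb hxy

/-- the flip as an automorphism -/
theorem exists_flip : ∃ g : AutG A, ∀ X, g.1 X = phi a b k x X :=
  ⟨⟨⟨phi a b k x, phi a b k x, phi_phi hx hy hxa hyb hxy, phi_phi hx hy hxa hyb hxy⟩,
    fun n X => phi_sh n X, phi_local, phi_local⟩, fun _ => rfl⟩

theorem phi_x (hk : 1 ≤ k) : phi a b k x x = y := by
  have h0 : ∀ p : ℤ, (k : ℤ) ∣ p → Site a b k x x p := by
    intro p hp
    refine ⟨Or.inl ?_, ?_⟩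
    · rw [← hxa]; exact per_dvd hx.1 (by simpa using hp)
    · intro t _ _ _
      exact per_dvd hx.1 (by simpa using hp)
  funext p
  by_cases hp : (k : ℤ) ∣ p
  · rw [phi_pos (h0 p hp)]
    have h1 : x p = a := by rw [← hxa]; exact per_dvd hx.1 (by simpa using hp)
    have h2 : y p = b := by rw [← hyb]; exact per_dvd hy.1 (by simpa using hp)
    rw [h1, h2, Equiv.swap_apply_left]
  · rw [hxy p hp]
    apply phi_neg
    have hm1 : 0 ≤ p % k := Int.emod_nonneg _ (by omega)
    have hm2 : p % k < k := Int.emod_lt_of_pos _ (by omega)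
    have hm3 : p % k ≠ 0 := fun h => hp (Int.dvd_of_emod_eq_zero h)
    have hm4 : (k : ℤ) ∣ p - p % k := Int.dvd_self_sub_emod
    have h1 := not_site hx hy hxa hyb hxy (h0 _ hm4) hm3 (by omega) hm2
    rwa [sub_add_cancel] at h1

theorem swap_mem_range (hk : 1 ≤ k) :
    Equiv.swap (mk ⟨x, hx⟩ : Orb A k) (mk ⟨y, hy⟩) ∈ (theta A k).range := by
  obtain ⟨g, hg⟩ := exists_flip hx hy hxa hyb hxy
  have hgx : g.1 x = y := by rw [hg, phi_x hx hy hxa hyb hxy hk]
  have hgy : g.1 y = x := by
    rw [hg, ← phi_x hx hy hxa hyb hxy hk, phi_phi hx hy hxa hyb hxy]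
  refine ⟨g, ?_⟩
  ext q
  induction q using Quotient.inductionOn with
  | _ z =>
    change theta A k g (mk z) = Equiv.swap (mk ⟨x, hx⟩ : Orb A k) (mk ⟨y, hy⟩) (mk z)
    rw [theta_mk']
    by_cases hs : ∃ p, Site a b k x z.1 p
    · obtain ⟨p, hp⟩ := hs
      -- z is a translate of x or of y
      have hper := z.2.1
      rcases hp.1 with h | h
      · -- z = sh (-p) x
        have hz : z.1 = sh (-p) x := by
          funext j
          rw [sh_apply]
          by_cases hj : (k : ℤ) ∣ j - p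
          · have h1 : z.1 j = z.1 p := per_dvd hper hj
            have h2 : x (j + -p) = x 0 := per_dvd hx.1 (by simpa [sub_eq_add_neg] using hj)
            rw [h1, h2, h, hxa]
          · have hm1 : 0 ≤ (j - p) % k := Int.emod_nonneg _ (by omega)
            have hm2 : (j - p) % k < k := Int.emod_lt_of_pos _ (by omega)
            have hm3 : (j - p) % k ≠ 0 := fun h => hj (Int.dvd_of_emod_eq_zero h)
            have hm4 : (k : ℤ) ∣ (j - p) - (j - p) % k := Int.dvd_self_sub_emod
            have h1 := hp.2 _ hm3 (by omega) hm2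
            have h2 : z.1 j = z.1 (p + (j - p) % k) := per_dvd hper (by
              have : j - (p + (j - p) % k) = (j - p) - (j - p) % k := by ring
              rw [this]; exact hm4)
            have h3 : x (j + -p) = x ((j - p) % k) := per_dvd hx.1 (by
              rw [← sub_eq_add_neg]; exact hm4)
            rw [h2, h3, h1]
        have e1 : mk z = mk ⟨x, hx⟩ :=
          mk_eq ⟨p, by show x = sh p z.1; rw [hz, sh_sh]; simp⟩
        have e2 : mk (mapPP g z) = mk ⟨y, hy⟩ :=
          mk_eq ⟨p, by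
            show y = sh p (g.1 z.1)
            rw [hz, AutG.comm, sh_sh, hgx]; simp⟩
        rw [e1, e2, Equiv.swap_apply_left]
      · have hz : z.1 = sh (-p) y := by
          funext j
          rw [sh_apply]
          by_cases hj : (k : ℤ) ∣ j - p
          · have h1 : z.1 j = z.1 p := per_dvd hper hj
            have h2 : y (j + -p) = y 0 := per_dvd hy.1 (by simpa [sub_eq_add_neg] using hj)
            rw [h1, h2, h, hyb]
          · have hm1 : 0 ≤ (j - p) % k := Int.emod_nonneg _ (by omega)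
            have hm2 : (j - p) % k < k := Int.emod_lt_of_pos _ (by omega)
            have hm3 : (j - p) % k ≠ 0 := fun h => hj (Int.dvd_of_emod_eq_zero h)
            have hm4 : (k : ℤ) ∣ (j - p) - (j - p) % k := Int.dvd_self_sub_emod
            have h1 := hp.2 _ hm3 (by omega) hm2
            have h2 : z.1 j = z.1 (p + (j - p) % k) := per_dvd hper (by
              have : j - (p + (j - p) % k) = (j - p) - (j - p) % k := by ring
              rw [this]; exact hm4)
            have h3 : x (j + -p) = x ((j - p) % k) := per_dvd hx.1 (by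
              rw [← sub_eq_add_neg]; exact hm4)
            rw [h2, hxy _ (by rwa [← sub_eq_add_neg]), h3, h1]
        have e1 : mk z = mk ⟨y, hy⟩ :=
          mk_eq ⟨p, by show y = sh p z.1; rw [hz, sh_sh]; simp⟩
        have e2 : mk (mapPP g z) = mk ⟨x, hx⟩ :=
          mk_eq ⟨p, by
            show x = sh p (g.1 z.1)
            rw [hz, AutG.comm, sh_sh, hgy]; simp⟩
        rw [e1, e2, Equiv.swap_apply_right]
    · have hfix : g.1 z.1 = z.1 := by
        rw [hg]
        funext p
        exact phi_neg (fun h => hs ⟨p, h⟩)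
      have e1 : mapPP g z = z := Subtype.ext hfix
      rw [e1]
      have hs0 : ∀ n : ℤ, Site a b k x (sh n z.1) 0 → False := by
        intro n h
        exact hs ⟨0 + n, (site_sh n z.1 0).1 h⟩
      have n1 : mk z ≠ mk ⟨x, hx⟩ := by
        intro h
        obtain ⟨n, hn⟩ := mk_exact h
        apply hs0 n
        have hn' : x = sh n z.1 := hn
        rw [← hn']
        exact ⟨Or.inl hxa, fun t _ _ _ => by rw [zero_add]⟩
      have n2 : mk z ≠ mk ⟨y, hy⟩ := by
        intro h
        obtain ⟨n, hn⟩ := mk_exact h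
        apply hs0 n
        have hn' : y = sh n z.1 := hn
        rw [← hn']
        refine ⟨Or.inr hyb, fun t h0 h1 h2 => ?_⟩
        rw [zero_add]
        apply hxy
        intro hd
        rcases lt_or_gt_of_ne h0 with h' | h'
        · have := Int.le_of_dvd (by omega) (dvd_neg.2 hd)
          omega
        · have := Int.le_of_dvd h' hd
          omega
      rw [Equiv.swap_apply_of_ne_of_ne n1 n2]

end flip2

/-- flip at an arbitrary residue class -/
theorem swap_mem_range' {k : ℕ} (hk : 1 ≤ k) (x y : PP A k) (i : ℤ)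
    (hxy : ∀ j : ℤ, ¬ (k : ℤ) ∣ j - i → y.1 j = x.1 j) :
    Equiv.swap (mk x) (mk y) ∈ (theta A k).range := by
  have hsh : ∀ z : PP A k, LP k (sh i z.1) := by
    intro z
    refine ⟨fun j => ?_, fun s h1 h2 => ?_⟩
    · simp only [sh_apply]
      rw [show j + k + i = j + i + k by ring]; exact z.2.1 _
    · obtain ⟨j, hj⟩ := z.2.2 s h1 h2
      refine ⟨j - i, ?_⟩
      simp only [sh_apply]
      rw [show j - i + s + i = j + s by ring, sub_add_cancel]; exact hj
  have h := swap_mem_range (hsh x) (hsh y) rfl rfl (by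
    intro j hj
    simp only [sh_apply]
    exact hxy _ (by rwa [add_sub_cancel_right])) hk
  have ex : mk ⟨sh i x.1, hsh x⟩ = mk x :=
    mk_eq ⟨-i, by show x.1 = sh (-i) (sh i x.1); rw [sh_sh]; simp⟩
  have ey : mk ⟨sh i y.1, hsh y⟩ = mk y :=
    mk_eq ⟨-i, by show y.1 = sh (-i) (sh i y.1); rw [sh_sh]; simp⟩
  rwa [ex, ey] at h

/-- change the letters in a residue class -/
noncomputable def upd (k : ℕ) (x : ℤ → A) (i : ℤ) (c : A) : ℤ → A := fun j =>
  if (k : ℤ) ∣ j - i then c else x j

theorem upd_pos {k : ℕ} {x : ℤ → A} {i : ℤ} {c : A} {j : ℤ} (h : (k : ℤ) ∣ j - i) :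
    upd k x i c j = c := if_pos h

theorem upd_neg {k : ℕ} {x : ℤ → A} {i : ℤ} {c : A} {j : ℤ} (h : ¬ (k : ℤ) ∣ j - i) :
    upd k x i c j = x j := if_neg h

theorem upd_per {k : ℕ} {x : ℤ → A} (hx : ∀ j, x (j + k) = x j) (i : ℤ) (c : A) :
    ∀ j, upd k x i c (j + k) = upd k x i c j := by
  intro j
  have e : (k : ℤ) ∣ j + k - i ↔ (k : ℤ) ∣ j - i := by
    rw [show j + k - i = (j - i) + k by ring]
    exact dvd_add_self_right
  by_cases h : (k : ℤ) ∣ j - i
  · rw [upd_pos h, upd_pos (e.2 h)]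
  · rw [upd_neg h, upd_neg (fun h' => h (e.1 h')), hx]

/-- the run condition -/
def V (o : A) (k : ℕ) (x : ℤ → A) (i : ℤ) (L : ℕ) : Prop :=
  x i ≠ o ∧ (∀ t : ℤ, 1 ≤ t → t ≤ L → x (i + t) = o) ∧
    ∀ j, x j ≠ o → (∀ t : ℤ, 1 ≤ t → t ≤ L + 1 → x (j + t) = o) → (k : ℤ) ∣ j - i

/-- the strong run condition -/
def U (o : A) (k : ℕ) (x : ℤ → A) (i : ℤ) (L : ℕ) : Prop :=
  x i ≠ o ∧ (∀ t : ℤ, 1 ≤ t → t ≤ L → x (i + t) = o) ∧
    ∀ j, x j ≠ o → (∀ t : ℤ, 1 ≤ t → t ≤ L → x (j + t) = o) → (k : ℤ) ∣ j - i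

theorem U.toV {o : A} {k : ℕ} {x : ℤ → A} {i : ℤ} {L : ℕ} (h : U o k x i L) : V o k x i L :=
  ⟨h.1, h.2.1, fun j hj hjt => h.2.2 j hj fun t h1 h2 => hjt t h1 (by omega)⟩

theorem U.lp {o : A} {k : ℕ} {x : ℤ → A} {i : ℤ} {L : ℕ} (hx : ∀ j, x (j + k) = x j)
    (h : U o k x i L) : LP k x := by
  refine ⟨hx, fun s h1 h2 => ?_⟩
  by_contra hc
  push Not at hc
  have hd : (k : ℤ) ∣ (i + s) - i := by
    refine h.2.2 (i + s) (by rw [hc]; exact h.1) (fun t ht1 ht2 => ?_)
    rw [show i + s + t = i + t + s by ring, hc]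
    exact h.2.1 t ht1 ht2
  rw [add_sub_cancel_left] at hd
  have := Int.le_of_dvd (by omega) hd
  omega

theorem not_dvd_small {k : ℕ} {n : ℤ} (h1 : 0 < n) (h2 : n < k) : ¬ (k : ℤ) ∣ n := fun h => by
  have := Int.le_of_dvd h1 h
  omega

theorem V.step {o : A} {k : ℕ} {x : ℤ → A} {i : ℤ} {L : ℕ} (hx : ∀ j, x (j + k) = x j)
    (h : V o k x i L) (hL : L + 1 < k) : U o k (upd k x (i + (L + 1)) o) i (L + 1) := by
  have hi : ¬ (k : ℤ) ∣ i - (i + (L + 1)) := by
    rw [show i - (i + ((L : ℤ) + 1)) = -(L + 1) by ring, dvd_neg]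
    exact not_dvd_small (by omega) (by omega)
  have hz : ∀ t : ℤ, 1 ≤ t → t ≤ L + 1 → upd k x (i + (L + 1)) o (i + t) = o := by
    intro t h1 h2
    rcases eq_or_ne t (L + 1) with h3 | h3
    · subst h3; exact upd_pos (by simp)
    · by_cases h4 : (k : ℤ) ∣ (i + t) - (i + (L + 1))
      · exact upd_pos h4
      · rw [upd_neg h4]; exact h.2.1 t h1 (by omega)
  refine ⟨?_, ?_, ?_⟩
  · rw [upd_neg hi]; exact h.1
  · intro t h1 h2
    push_cast at h2
    exact hz t h1 h2
  · intro j hj hjt
    push_cast at hjt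
    have hj0 : ¬ (k : ℤ) ∣ j - (i + (L + 1)) := fun hd => hj (upd_pos hd)
    by_cases hex : ∃ t : ℤ, 1 ≤ t ∧ t ≤ L + 1 ∧ (k : ℤ) ∣ (j + t) - (i + (L + 1))
    · obtain ⟨t, h1, h2, h3⟩ := hex
      rcases eq_or_ne t (L + 1) with h4 | h4
      · subst h4
        simpa using h3
      · exfalso
        apply hj
        have h5 : (k : ℤ) ∣ j - (i + (L + 1 - t)) := by
          rw [show j - (i + ((L : ℤ) + 1 - t)) = (j + t) - (i + (L + 1)) by ring]; exact h3
        rw [per_dvd (upd_per hx _ _) h5]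
        exact hz _ (by omega) (by omega)
    · push Not at hex
      refine h.2.2 j ?_ ?_
      · rwa [upd_neg hj0] at hj
      · intro t h1 h2
        have := hjt t h1 h2
        rwa [upd_neg (hex t h1 h2)] at this

/-- the base point -/
noncomputable def e0 (o e : A) (k : ℕ) : ℤ → A := fun j => if (k : ℤ) ∣ j then e else o

theorem e0_lp {o e : A} (hoe : e ≠ o) {k : ℕ} : LP k (e0 o e k) := by
  refine ⟨fun j => ?_, fun s h1 h2 => ⟨0, ?_⟩⟩
  · unfold e0
    simp only [dvd_add_self_right]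
  · unfold e0
    rw [if_neg, if_pos (dvd_zero _)]
    · exact hoe.symm
    · rw [zero_add]; exact not_dvd_small (by omega) (by omega)

theorem main_ind {o e : A} (hoe : e ≠ o) {k : ℕ} (hk : 2 ≤ k) (d : ℕ) :
    ∀ L : ℕ, L + d + 1 = k → ∀ (x : PP A k) (i : ℤ), V o k x.1 i L →
      Equiv.swap (mk x) (mk ⟨e0 o e k, e0_lp hoe⟩) ∈ (theta A k).range := by
  induction d with
  | zero =>
    intro L hL x i hV
    -- compare with the translate of the base point
    have hy : LP k (sh (-i) (e0 o e k)) := by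
      have h0 := e0_lp hoe (k := k)
      refine ⟨fun j => ?_, fun s h1 h2 => ?_⟩
      · simp only [sh_apply]
        rw [show j + k + -i = j + -i + k by ring]; exact h0.1 _
      · obtain ⟨j, hj⟩ := h0.2 s h1 h2
        refine ⟨j + i, ?_⟩
        simp only [sh_apply]
        rw [show j + i + s + -i = j + s by ring, show j + i + -i = j by ring]; exact hj
    have hmk : mk (⟨sh (-i) (e0 o e k), hy⟩ : PP A k) = mk ⟨e0 o e k, e0_lp hoe⟩ :=
      mk_eq ⟨i, by show e0 o e k = sh i (sh (-i) (e0 o e k)); rw [sh_sh]; simp⟩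
    rw [← hmk]
    refine swap_mem_range' (by omega) x _ i ?_
    intro j hj
    simp only [sh_apply]
    have hm1 : 0 ≤ (j - i) % k := Int.emod_nonneg _ (by omega)
    have hm2 : (j - i) % k < k := Int.emod_lt_of_pos _ (by omega)
    have hm3 : (j - i) % k ≠ 0 := fun h => hj (Int.dvd_of_emod_eq_zero h)
    have hm4 : (k : ℤ) ∣ (j - i) - (j - i) % k := Int.dvd_self_sub_emod
    have h1 : x.1 j = x.1 (i + (j - i) % k) := per_dvd x.2.1 (by
      rw [show j - (i + (j - i) % k) = (j - i) - (j - i) % k by ring]; exact hm4)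
    rw [h1, hV.2.1 _ (by omega) (by omega)]
    unfold e0
    rw [if_neg (by rwa [← sub_eq_add_neg])]
  | succ d ih =>
    intro L hL x i hV
    by_cases hz : x.1 (i + (L + 1)) = o
    · refine ih (L + 1) (by omega) x i ⟨hV.1, ?_, ?_⟩
      · intro t h1 h2
        push_cast at h2
        rcases eq_or_ne t (L + 1) with h3 | h3
        · subst h3; exact hz
        · exact hV.2.1 t h1 (by omega)
      · intro j hj hjt
        push_cast at hjt
        exact hV.2.2 j hj fun t h1 h2 => hjt t h1 (by omega)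
    · have hU := V.step x.2.1 hV (by omega)
      have hlp : LP k (upd k x.1 (i + (L + 1)) o) := hU.lp (upd_per x.2.1 _ _)
      have h1 := ih (L + 1) (by omega) ⟨_, hlp⟩ i hU.toV
      have h2 := swap_mem_range' (by omega) x ⟨_, hlp⟩ (i + (L + 1)) (fun j hj => upd_neg hj)
      exact SubmonoidClass.swap_mem_trans _ h2 h1

theorem all_swap {o e : A} (hoe : e ≠ o) {k : ℕ} (hk : 2 ≤ k) (x : PP A k) :
    Equiv.swap (mk x) (mk ⟨e0 o e k, e0_lp hoe⟩) ∈ (theta A k).range := by
  -- a maximal run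
  have hne : ∃ i, x.1 i ≠ o := by
    by_contra h
    push Not at h
    obtain ⟨i, hi⟩ := x.2.2 1 (by omega) (by omega)
    exact hi (by rw [h, h])
  let S : ℕ → Prop := fun L => L < k ∧ ∃ i, x.1 i ≠ o ∧ ∀ t : ℤ, 1 ≤ t → t ≤ L → x.1 (i + t) = o
  have hS0 : S 0 := by
    obtain ⟨i, hi⟩ := hne
    exact ⟨by omega, i, hi, fun t h1 h2 => by omega⟩
  have hbdd : ∀ L, S L → L ≤ k := fun L h => h.1.le
  set L := Nat.findGreatest S k with hL
  have hSL : S L := Nat.findGreatest_spec (Nat.zero_le k) hS0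
  have hmax : ¬ S (L + 1) := by
    intro h
    have := Nat.le_findGreatest (hbdd _ h) h
    omega
  obtain ⟨hLk, i, hi, hit⟩ := hSL
  refine main_ind hoe hk (k - 1 - L) L (by omega) x i ⟨hi, hit, ?_⟩
  intro j hj hjt
  by_cases hlast : L + 1 < k
  · exact absurd ⟨hlast, j, hj, fun t h1 h2 => hjt t h1 (by push_cast at h2; omega)⟩ hmax
  · have hLk' : L + 1 = k := by omega
    exfalso
    apply hj
    have := hjt k (by omega) (by omega)
    rwa [x.2.1] at this

theorem orb_finite [Finite A] {k : ℕ} (hk : 0 < k) : Finite (Orb A k) := by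
  have : Finite (PP A k) := by
    refine Finite.of_injective (β := Fin k → A) (fun x i => x.1 i) ?_
    intro x y hxy
    apply Subtype.ext
    funext j
    have hm1 : 0 ≤ j % k := Int.emod_nonneg _ (by omega)
    have hm2 : j % k < k := Int.emod_lt_of_pos _ (by omega)
    have hm4 : (k : ℤ) ∣ j - j % k := Int.dvd_self_sub_emod
    rw [per_dvd x.2.1 hm4, per_dvd y.2.1 hm4]
    have := congrFun hxy ⟨(j % k).toNat, by omega⟩
    simpa [Int.toNat_of_nonneg hm1] using this
  exact Quotient.finite _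

/-- `AutG A` acts as the full symmetric group on the orbits of least period `k`. -/
theorem theta_surjective (A : Type) [Fintype A] [Nontrivial A] (k : ℕ) (hk : 2 ≤ k) :
    Function.Surjective (theta A k) := by
  obtain ⟨o, e, hoe⟩ := exists_pair_ne A
  have : Finite (Orb A k) := orb_finite (by omega)
  have := Fintype.ofFinite (Orb A k)
  rw [← MonoidHom.range_eq_top, eq_top_iff, ← Equiv.Perm.closure_isSwap, Subgroup.closure_le]
  rintro σ ⟨u, v, _, rfl⟩
  induction u using Quotient.inductionOn with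
  | _ x =>
    induction v using Quotient.inductionOn with
    | _ y =>
      have h1 := all_swap hoe.symm hk x
      have h2 := all_swap hoe.symm hk y
      rw [Equiv.swap_comm] at h2
      exact SubmonoidClass.swap_mem_trans _ h1 h2

end Pool.Agent.TH554.J514
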