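import Pool.Agent.TH281.HB.Defs

set_option autoImplicit false

namespace Pool.Agent.TH554.J1152

open Pool.Agent.TH281.HB Metric Set

section

variable {Y : Type*} [NormedAddCommGroup Y] [NormedSpace ℝ Y]

theorem norming (E : Submodule ℝ Y) [FiniteDimensional ℝ E] :
    ∃ Ψ : Finset (Y →L[ℝ] ℝ), (∀ f ∈ Ψ, ‖f‖ ≤ 1) ∧ ∀ g ∈ E, g ≠ 0 → ∃ f ∈ Ψ, ‖g‖ ≤ 2 * |f g| := by
  classical
  set S : Set Y := (fun x : E => (x : Y)) '' (sphere (0 : E) 1) with hS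
  have hcomp : IsCompact S := (isCompact_sphere (0 : E) 1).image continuous_subtype_val
  have hmem : ∀ g ∈ S, ‖g‖ = 1 := by
    rintro _ ⟨x, hx, rfl⟩
    simpa using hx
  have hex : ∀ g : Y, ∃ f : Y →L[ℝ] ℝ, ‖f‖ ≤ 1 ∧ (g ≠ 0 → f g = ‖g‖) := by
    intro g
    by_cases hg : g = 0
    · exact ⟨0, by simp, fun h => absurd hg h⟩
    · obtain ⟨f, hf1, hf2⟩ := exists_dual_vector ℝ g (norm_ne_zero_iff.2 hg)
      exact ⟨f, hf1.le, fun _ => by simpa using hf2⟩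
  choose F hF1 hF2 using hex
  obtain ⟨t, _, ht⟩ := hcomp.elim_nhds_subcover (fun g => {y | ‖y‖ < 2 * |F g y|}) (by
    intro g hg
    have hg1 := hmem g hg
    have hg0 : g ≠ 0 := by
      rintro rfl
      simp at hg1
    refine (isOpen_lt (by fun_prop) (by fun_prop)).mem_nhds ?_
    show ‖g‖ < 2 * |F g g|
    rw [hF2 g hg0, hg1]
    norm_num)
  refine ⟨t.image F, ?_, ?_⟩
  · intro f hf
    obtain ⟨g, _, rfl⟩ := Finset.mem_image.1 hf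
    exact hF1 g
  · intro g hg hg0
    have hn : 0 < ‖g‖ := norm_pos_iff.2 hg0
    have hgS : (‖g‖⁻¹ • g) ∈ S := by
      refine ⟨⟨‖g‖⁻¹ • g, E.smul_mem _ hg⟩, ?_, rfl⟩
      rw [mem_sphere_zero_iff_norm]
      show ‖‖g‖⁻¹ • g‖ = 1
      rw [norm_smul, norm_inv, norm_norm, inv_mul_cancel₀ hn.ne']
    obtain ⟨x, hx, hx2⟩ := Set.mem_iUnion₂.1 (ht hgS)
    refine ⟨F x, Finset.mem_image_of_mem _ hx, ?_⟩
    have h3 : ‖‖g‖⁻¹ • g‖ < 2 * |F x (‖g‖⁻¹ • g)| := hx2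
    rw [map_smul, norm_smul, smul_eq_mul, abs_mul, norm_inv, norm_norm, abs_inv, abs_of_pos hn] at h3
    have h4 := mul_lt_mul_of_pos_left h3 hn
    have e1 : ‖g‖ * (‖g‖⁻¹ * ‖g‖) = ‖g‖ := by field_simp
    have e2 : ‖g‖ * (2 * (‖g‖⁻¹ * |F x g|)) = 2 * |F x g| := by field_simp
    rw [e1, e2] at h4
    exact h4.le

theorem killed (hY : ¬ FiniteDimensional ℝ Y) (Ψ : Finset (Y →L[ℝ] ℝ)) :
    ∃ z : Y, ‖z‖ = 1 ∧ ∀ f ∈ Ψ, f z = 0 := by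
  classical
  set L : Y →ₗ[ℝ] (Ψ → ℝ) := LinearMap.pi (fun f : Ψ => ((f : Y →L[ℝ] ℝ) : Y →ₗ[ℝ] ℝ)) with hL
  have hni : ¬ Function.Injective L := by
    intro hinj
    exact hY (Module.Finite.of_injective L hinj)
  have hker : LinearMap.ker L ≠ ⊥ := fun h => hni (LinearMap.ker_eq_bot.1 h)
  obtain ⟨y, hy, hy0⟩ := (Submodule.ne_bot_iff _).1 hker
  have hn : 0 < ‖y‖ := norm_pos_iff.2 hy0
  refine ⟨‖y‖⁻¹ • y, ?_, ?_⟩
  · rw [norm_smul, norm_inv, norm_norm, inv_mul_cancel₀ hn.ne']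
  · intro f hf
    have h1 : L y = 0 := hy
    have h2 := congrFun h1 ⟨f, hf⟩
    have h3 : f y = 0 := h2
    rw [map_smul, h3, smul_zero]

theorem step (hY : ¬ FiniteDimensional ℝ Y) (E : Submodule ℝ Y) [FiniteDimensional ℝ E]
    (Φ : Finset (Y →L[ℝ] ℝ)) (hΦ : ∀ f ∈ Φ, ‖f‖ ≤ 1) :
    ∃ (Φ' : Finset (Y →L[ℝ] ℝ)) (z : Y), Φ ⊆ Φ' ∧ (∀ f ∈ Φ', ‖f‖ ≤ 1) ∧ ‖z‖ = 1 ∧
      (∀ f ∈ Φ', f z = 0) ∧ ∀ g ∈ E, g ≠ 0 → ∃ f ∈ Φ', ‖g‖ ≤ 2 * |f g| := by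
  classical
  obtain ⟨Ψ, h1, h2⟩ := norming E
  obtain ⟨z, hz, hz2⟩ := killed hY (Φ ∪ Ψ)
  refine ⟨Φ ∪ Ψ, z, Finset.subset_union_left, ?_, hz, hz2, ?_⟩
  · intro f hf
    rcases Finset.mem_union.1 hf with hf | hf
    · exact hΦ f hf
    · exact h1 f hf
  · intro g hg hg0
    obtain ⟨f, hf, hf2⟩ := h2 g hg hg0
    exact ⟨f, Finset.mem_union_right _ hf, hf2⟩

/-- states -/
structure St (Y : Type*) [NormedAddCommGroup Y] [NormedSpace ℝ Y] where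
  E : Submodule ℝ Y
  Φ : Finset (Y →L[ℝ] ℝ)
  fin : FiniteDimensional ℝ E
  le : ∀ f ∈ Φ, ‖f‖ ≤ 1

theorem exists_mazur (hY : ¬ FiniteDimensional ℝ Y) : ∃ z : ℕ → Y, Mazur z := by
  classical
  have hst : ∀ s : St Y, ∃ (Φ' : Finset (Y →L[ℝ] ℝ)) (z : Y), s.Φ ⊆ Φ' ∧ (∀ f ∈ Φ', ‖f‖ ≤ 1) ∧
      ‖z‖ = 1 ∧ (∀ f ∈ Φ', f z = 0) ∧ ∀ g ∈ s.E, g ≠ 0 → ∃ f ∈ Φ', ‖g‖ ≤ 2 * |f g| := by
    intro s
    have := s.fin
    exact step hY s.E s.Φ s.le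
  choose P Z h1 h2 h3 h4 h5 using hst
  have hfin : ∀ s : St Y, FiniteDimensional ℝ (s.E ⊔ Submodule.span ℝ {Z s} : Submodule ℝ Y) := by
    intro s
    have := s.fin
    infer_instance
  let s0 : St Y := ⟨⊥, ∅, inferInstance, by simp⟩
  let nx : St Y → St Y := fun s => ⟨s.E ⊔ Submodule.span ℝ {Z s}, P s, hfin s, h2 s⟩
  let s : ℕ → St Y := fun n => Nat.rec s0 (fun _ => nx) n
  have hs : ∀ n, s (n+1) = nx (s n) := fun n => rfl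
  refine ⟨fun n => Z (s n), fun i => h3 _, ?_⟩
  have hE : ∀ n, (s n).E ≤ (s (n+1)).E := fun n => by
    rw [hs]
    exact le_sup_left
  have hEm : Monotone (fun n => (s n).E) := monotone_nat_of_le_succ hE
  have hP : ∀ n, P (s n) ⊆ P (s (n+1)) := fun n => by
    have := h1 (s (n+1))
    rw [hs] at this ⊢
    exact this
  have hPm : Monotone (fun n => P (s n)) := monotone_nat_of_le_succ hP
  have hZE : ∀ n, Z (s n) ∈ (s (n+1)).E := by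
    intro n
    rw [hs]
    exact (le_sup_right : _ ≤ (s n).E ⊔ Submodule.span ℝ {Z (s n)})
      (Submodule.mem_span_singleton_self _)
  intro N g hg b hb
  by_cases hg0 : g = 0
  · subst hg0
    simp
  have hgE : g ∈ (s N).E := by
    refine (Submodule.span_le.2 ?_) hg
    rintro _ ⟨i, hi, rfl⟩
    exact hEm (Nat.succ_le_of_lt hi) (hZE i)
  obtain ⟨f, hf, hf2⟩ := h5 (s N) g hgE hg0
  have hfb : f b = 0 := by
    have : Submodule.span ℝ ((fun n => Z (s n)) '' {i | N ≤ i}) ≤ LinearMap.ker (f : Y →ₗ[ℝ] ℝ) := by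
      rw [Submodule.span_le]
      rintro _ ⟨i, hi, rfl⟩
      exact h4 (s i) f (hPm hi hf)
    exact this hb
  have h6 : |f g| ≤ ‖g + b‖ := by
    have h7 : f (g + b) = f g := by rw [map_add, hfb, add_zero]
    rw [← h7, ← Real.norm_eq_abs]
    calc ‖f (g + b)‖ ≤ ‖f‖ * ‖g + b‖ := f.le_opNorm _
      _ ≤ 1 * ‖g + b‖ := by gcongr; exact h2 _ f hf
      _ = ‖g + b‖ := one_mul _
  linarith

end

end Pool.Agent.TH554.J1152
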