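import Pool.Agent.TH317.CC.Geo

/-!
# The main theorem for all multiples (job 2581)
-/

set_option autoImplicit false

universe u

namespace Pool.Agent.TH317.CC

namespace TH554

variable {M : Type u} [MetricSpace M]

theorem clen_le_mult (p : ℕ) (hp : 0 < p) (γ : C(UnitAddCircle, M)) :
    clen γ ≤ clen (mult p γ) := by
  have hpR : (0 : ℝ) < p := by exact_mod_cast hp
  have hmono : MonotoneOn (fun t : ℝ => (p : ℝ) * t) (Set.Icc 0 (1 / (p : ℝ))) := by
    intro a _ b _ hab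
    exact mul_le_mul_of_nonneg_left hab hpR.le
  have h1 := eVariationOn.comp_eq_of_monotoneOn (fun t : ℝ => γ (t : UnitAddCircle))
    (fun t : ℝ => (p : ℝ) * t) hmono
  have h2 : (fun t : ℝ => (p : ℝ) * t) '' Set.Icc 0 (1 / (p : ℝ)) = Set.Icc 0 1 := by
    ext s
    simp only [Set.mem_image, Set.mem_Icc]
    constructor
    · rintro ⟨t, ⟨ht0, ht1⟩, rfl⟩
      rw [le_div_iff₀ hpR] at ht1
      exact ⟨by positivity, by linarith⟩
    · rintro ⟨hs0, hs1⟩
      refine ⟨s / p, ⟨by positivity, ?_⟩, ?_⟩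
      · exact div_le_div_of_nonneg_right hs1 hpR.le
      · field_simp
  rw [h2] at h1
  have h3 : ((fun t : ℝ => γ (t : UnitAddCircle)) ∘ fun t : ℝ => (p : ℝ) * t) =
      fun t : ℝ => (mult p γ) (t : UnitAddCircle) := by
    funext t
    show γ (((p : ℝ) * t : ℝ) : UnitAddCircle) = γ (p • (t : UnitAddCircle))
    rw [← AddCircle.coe_nsmul, nsmul_eq_mul]
  rw [h3] at h1
  unfold clen
  rw [← h1]
  apply eVariationOn.mono
  intro t ht
  refine ⟨ht.1, ht.2.trans ?_⟩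
  rw [div_le_one hpR]
  exact_mod_cast hp

theorem clen_of_contrLe {γ : C(UnitAddCircle, M)} {L : ℝ} (h : ContrLe γ L) :
    clen γ ≤ ENNReal.ofReal L := by
  obtain ⟨H, h0, _, h2⟩ := h
  have h3 := h2 0
  have h4 : (fun x => H (0, x)) = γ := funext h0
  rw [h4] at h3
  exact h3

theorem contrLe_of_lt {γ : C(UnitAddCircle, M)} {L : ℝ} (h : ContrLt γ L) : ContrLe γ L := by
  obtain ⟨H, h0, h1, h2⟩ := h
  exact ⟨H, h0, h1, fun t => (h2 t).le⟩

theorem mult_mult (p m : ℕ) (γ : C(UnitAddCircle, M)) :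
    mult p (mult m γ) = mult (p * m) γ := by
  ext x
  show γ (m • (p • x)) = γ ((p * m) • x)
  rw [mul_nsmul]

theorem mult_one (γ : C(UnitAddCircle, M)) : mult 1 γ = γ := by
  ext x
  show γ (1 • x) = γ x
  rw [one_smul]

end TH554

theorem main_all {M : Type u} [MetricSpace M]
    (hA : ∀ (p : ℕ) (_ : 0 < p) (γ : C(UnitAddCircle, M)) (L0 L1 : ℝ) (_ : L0 < L1) (_ : 0 ≤ L0)
      (_ : ContrLe (mult p γ) L0),
      ∃ K, IsCompact K ∧ K.Nonempty ∧ ∀ b > 0, ∃ N0, ∀ N ≥ N0,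
      PContr b L1 K (List.replicate p (sample γ N)).flatten)
    (hB : ∀ (p : ℕ) [Fact p.Prime] (K : Set M) (_ : IsCompact K) (_ : K.Nonempty) (L0 L1 : ℝ)
      (_ : L0 < L1), ∃ K', IsCompact K' ∧ ∀ s > 0, ∃ b > 0, ∀ v : List M,
      PContr b L0 K (List.replicate p v).flatten → PContr s L1 K' v)
    (hC : ∀ (γ : C(UnitAddCircle, M)) (K : Set M) (_ : IsCompact K) (L1 L : ℝ) (_ : L1 < L)
      (_ : clen γ < ENNReal.ofReal L),
      ∃ s > 0, ∃ N₀ : ℕ, 0 < N₀ ∧ ∀ N ≥ N₀, PContr s L1 K (sample γ N) → ContrLt γ L)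
    (m : ℕ) (hm : 1 ≤ m) (γ : C(UnitAddCircle, M)) (L0 L : ℝ) (h : L0 < L) (h0 : 0 ≤ L0)
    (hc : ContrLe (mult m γ) L0) : ContrLt γ L := by
  have prime_case : ∀ (p : ℕ) (_ : p.Prime) (γ : C(UnitAddCircle, M)) (L0 L : ℝ), L0 < L →
      0 ≤ L0 → ContrLe (mult p γ) L0 → ContrLt γ L := by
    intro p hp γ L0 L h h0 hc
    have hfact : Fact p.Prime := ⟨hp⟩
    have hlen : clen γ < ENNReal.ofReal L := by
      refine lt_of_le_of_lt ((TH554.clen_le_mult p hp.pos γ).trans (TH554.clen_of_contrLe hc)) ?_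
      exact (ENNReal.ofReal_lt_ofReal_iff (by linarith)).mpr h
    set L' : ℝ := L0 + (L - L0) / 3 with hL'
    set L'' : ℝ := L0 + 2 * ((L - L0) / 3) with hL''
    have h1 : L0 < L' := by rw [hL']; linarith
    have h2 : L' < L'' := by rw [hL', hL'']; linarith
    have h3 : L'' < L := by rw [hL'']; linarith
    obtain ⟨K, hK, hKne, hKA⟩ := hA p hp.pos γ L0 L' h1 h0 hc
    obtain ⟨K', hK', hKB⟩ := hB p K hK hKne L' L'' h2
    obtain ⟨s, hs, N₀, _, hN₀⟩ := hC γ K' hK' L'' L h3 hlen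
    obtain ⟨b, hb, hb'⟩ := hKB s hs
    obtain ⟨N0, hN0⟩ := hKA b hb
    exact hN₀ (max N₀ N0) (le_max_left _ _) (hb' _ (hN0 (max N₀ N0) (le_max_right _ _)))
  induction m using Nat.strong_induction_on generalizing γ L0 L with
  | _ m ih =>
    rcases hm.eq_or_lt with h1 | h1
    · subst h1
      rw [TH554.mult_one] at hc
      obtain ⟨H, g0, g1, g2⟩ := hc
      exact ⟨H, g0, g1, fun t => lt_of_le_of_lt (g2 t)
        ((ENNReal.ofReal_lt_ofReal_iff (by linarith)).mpr h)⟩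
    · have hp := Nat.minFac_prime (n := m) (by omega)
      obtain ⟨m', hm'⟩ := Nat.minFac_dvd m
      have hm'0 : 0 < m' := by
        rcases Nat.eq_zero_or_pos m' with h2 | h2
        · rw [h2, mul_zero] at hm'
          omega
        · exact h2
      have hlt : m' < m := by
        have h2 := hp.two_le
        have h3 : 2 * m' ≤ m.minFac * m' := Nat.mul_le_mul_right m' h2
        omega
      rw [hm', ← TH554.mult_mult] at hc
      have h2 := prime_case _ hp (mult m' γ) L0 (L0 + (L - L0) / 2) (by linarith) h0 hc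
      exact ih m' hlt hm'0 γ (L0 + (L - L0) / 2) L (by linarith) (by linarith)
        (TH554.contrLe_of_lt h2)

end Pool.Agent.TH317.CC
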