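import Pool.Agent.TH317.CC.Geo

/-!
# A rectifiable closed curve is homotopic to a realization of its samples (job 2579)
-/

set_option autoImplicit false

universe u

open Set

namespace Pool.Agent.TH317.CC

namespace TH554R

variable {M : Type u} [MetricSpace M]

theorem small_var (f : ℝ → M) (hf : ContinuousOn f (Icc 0 1))
    (hV : eVariationOn f (Icc 0 1) ≠ ⊤) (δ : ℝ) (hδ : 0 < δ) :
    ∃ h > 0, ∀ y ∈ Icc (0 : ℝ) 1, ∀ z ∈ Icc (0 : ℝ) 1, y ≤ z → z - y < h →
      eVariationOn f (Icc y z) ≤ ENNReal.ofReal δ := by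
  have hBV : BoundedVariationOn f (Icc 0 1) := hV
  have hδ2 : (0 : ENNReal) < ENNReal.ofReal (δ / 2) := ENNReal.ofReal_pos.mpr (by positivity)
  have key : ∀ x : Icc (0 : ℝ) 1, ∃ r > 0, ∀ y ∈ Icc (0 : ℝ) 1, y ∈ Metric.ball (x : ℝ) r →
      eVariationOn f (Icc 0 1 ∩ Icc y x) ≤ ENNReal.ofReal (δ / 2) ∧
      eVariationOn f (Icc 0 1 ∩ Icc x y) ≤ ENNReal.ofReal (δ / 2) := by
    rintro ⟨x, hx⟩
    have h1 := hBV.tendsto_eVariationOn_Icc_zero_left (x := x)
      ((hf x hx).mono inter_subset_left)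
    have h2 := hBV.tendsto_eVariationOn_Icc_zero_right x ((hf x hx).mono inter_subset_left)
    have h3 := (h1.eventually (gt_mem_nhds hδ2)).and (h2.eventually (gt_mem_nhds hδ2))
    rw [Filter.eventually_iff, Metric.mem_nhdsWithin_iff] at h3
    obtain ⟨r, hr, hr'⟩ := h3
    refine ⟨r, hr, fun y hy hyr => ?_⟩
    have h4 := hr' ⟨hyr, hy⟩
    exact ⟨h4.1.le, h4.2.le⟩
  choose r hr hr' using key
  obtain ⟨h, hh, hh'⟩ := lebesgue_number_lemma_of_metric (s := Icc (0 : ℝ) 1)
    (c := fun x : Icc (0 : ℝ) 1 => Metric.ball (x : ℝ) (r x)) isCompact_Icc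
    (fun _ => Metric.isOpen_ball)
    (fun x hx => mem_iUnion.mpr ⟨⟨x, hx⟩, Metric.mem_ball_self (hr ⟨x, hx⟩)⟩)
  refine ⟨h, hh, fun y hy z hz hyz hzy => ?_⟩
  obtain ⟨x, hx⟩ := hh' y hy
  have hyx := hx (Metric.mem_ball_self hh)
  have hzx := hx (show z ∈ Metric.ball y h by
    rw [Metric.mem_ball, Real.dist_eq, abs_of_nonneg (by linarith)]; exact hzy)
  have a1 := (hr' x y hy hyx).1
  have a2 := (hr' x z hz hzx).2
  have a3 := (hr' x y hy hyx).2
  have a4 := (hr' x z hz hzx).1
  have hx01 := x.2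
  have hdd : ENNReal.ofReal (δ / 2) ≤ ENNReal.ofReal δ := ENNReal.ofReal_le_ofReal (by linarith)
  rcases le_total (x : ℝ) y with h1 | h1
  · refine (eVariationOn.mono f ?_).trans (a2.trans hdd)
    intro t ht
    exact ⟨⟨hy.1.trans ht.1, ht.2.trans hz.2⟩, ⟨h1.trans ht.1, ht.2⟩⟩
  · rcases le_total (x : ℝ) z with h2 | h2
    · have h3 := eVariationOn.Icc_add_Icc f (s := Icc (0 : ℝ) 1) h1 h2 hx01
      have h4 : Icc (0 : ℝ) 1 ∩ Icc y z = Icc y z :=
        inter_eq_right.mpr fun t ht => ⟨hy.1.trans ht.1, ht.2.trans hz.2⟩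
      rw [← h4, ← h3]
      refine (add_le_add a1 a2).trans (le_of_eq ?_)
      rw [← ENNReal.ofReal_add (by positivity) (by positivity)]
      congr 1
      ring
    · refine (eVariationOn.mono f ?_).trans (a1.trans hdd)
      intro t ht
      exact ⟨⟨hy.1.trans ht.1, ht.2.trans hz.2⟩, ⟨ht.1, ht.2.trans h2⟩⟩

theorem homLt_refl {γ : C(UnitAddCircle, M)} {L : ℝ} (h : clen γ < ENNReal.ofReal L) :
    HomLt γ γ L :=
  ⟨⟨fun p => γ p.2, γ.continuous.comp continuous_snd⟩, fun _ => rfl, fun _ => rfl, fun _ => h⟩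

theorem homLt_trans {γ₁ γ₂ γ₃ : C(UnitAddCircle, M)} {L : ℝ} (h : HomLt γ₁ γ₂ L)
    (h' : HomLt γ₂ γ₃ L) : HomLt γ₁ γ₃ L := by
  obtain ⟨H, h0, h1, h2⟩ := h
  obtain ⟨H', h0', h1', h2'⟩ := h'
  let F : ContinuousMap.Homotopy γ₁ γ₂ := ⟨H, h0, h1⟩
  let F' : ContinuousMap.Homotopy γ₂ γ₃ := ⟨H', h0', h1'⟩
  refine ⟨(F.trans F').toContinuousMap, (F.trans F').map_zero_left, (F.trans F').map_one_left, ?_⟩
  intro t
  by_cases ht : (t : ℝ) ≤ 1 / 2
  · have h3 : (fun x => (F.trans F').toContinuousMap (t, x)) =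
        fun x => H (⟨2 * t, (unitInterval.mul_pos_mem_iff zero_lt_two).2 ⟨t.2.1, ht⟩⟩, x) := by
      funext x
      have h4 := ContinuousMap.Homotopy.trans_apply F F' (t, x)
      rw [dif_pos ht] at h4
      exact h4
    rw [h3]
    exact h2 _
  · have h3 : (fun x => (F.trans F').toContinuousMap (t, x)) =
        fun x => H' (⟨2 * t - 1, unitInterval.two_mul_sub_one_mem_iff.2 ⟨(not_le.1 ht).le, t.2.2⟩⟩,
          x) := by
      funext x
      have h4 := ContinuousMap.Homotopy.trans_apply F F' (t, x)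
      rw [dif_neg ht] at h4
      exact h4
    rw [h3]
    exact h2' _

theorem sample_eq (γ : C(UnitAddCircle, M)) (N : ℕ) :
    sample γ N = (List.range N).map (fun k : ℕ => γ (((k : ℝ) / N : ℝ) : UnitAddCircle)) := by
  unfold sample
  rw [show (do let a ← List.range N; pure (a : ℝ)) =
    (List.range N).map (fun k : ℕ => (k : ℝ)) from ?_, List.map_map]
  · rfl
  · rw [List.map_eq_flatMap]; rfl

end TH554R

theorem realize_init {M : Type u} [MetricSpace M] (hR : ArcReplace M) (hN : NearArc M)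
    (hcs : ∀ (f : UnitAddCircle → M) (c d : ℝ) (_ : c ≤ d) (_ : d ≤ c + 1),
      clen f = eVariationOn (fun t : ℝ => f (t : UnitAddCircle)) (Set.Icc c d) +
      eVariationOn (fun t : ℝ => f (t : UnitAddCircle)) (Set.Icc d (c + 1)))
    (γ : C(UnitAddCircle, M)) (L : ℝ) (hγ : clen γ < ENNReal.ofReal L) :
    ∃ N₀ : ℕ, 0 < N₀ ∧ ∀ N ≥ N₀, ∃ ε₀ > 0, ∀ ε > 0, ε ≤ ε₀ → ∃ f : C(UnitAddCircle, M),
      Realizes ε f (sample γ N) ∧ HomLt γ f L := by
  have hK : IsCompact (range γ) := isCompact_range γ.continuous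
  obtain ⟨r₀, hr₀, C₀, hC₀, hrep⟩ := hR (range γ) hK
  obtain ⟨r₁, hr₁, harc⟩ := hN (range γ) hK
  have hVfin : clen γ ≠ ⊤ := (lt_of_lt_of_le hγ le_top).ne
  set V : ℝ := (clen γ).toReal with hV
  have hV0 : 0 ≤ V := ENNReal.toReal_nonneg
  have hVeq : clen γ = ENNReal.ofReal V := (ENNReal.ofReal_toReal hVfin).symm
  have hVL : V < L := by
    rw [hVeq] at hγ
    exact (ENNReal.ofReal_lt_ofReal_iff_of_nonneg hV0).mp hγ
  set η : ℝ := L - V with hη
  have hη0 : 0 < η := by rw [hη]; linarith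
  have hC₀R : (1 : ℝ) ≤ C₀ := by exact_mod_cast hC₀
  have hC₀0 : (0 : ℝ) < C₀ := by linarith
  set δ : ℝ := min (min (r₀ / 4) (r₁ / 2)) (η / (8 * C₀)) with hδ
  have hδ0 : 0 < δ := by positivity
  have hδ1 : δ ≤ r₀ / 4 := (min_le_left _ _).trans (min_le_left _ _)
  have hδ2 : δ ≤ r₁ / 2 := (min_le_left _ _).trans (min_le_right _ _)
  have hδ3 : C₀ * δ ≤ η / 8 := by
    have h1 : δ ≤ η / (8 * C₀) := min_le_right _ _
    rw [le_div_iff₀ (by positivity)] at h1
    linarith
  set γ' : ℝ → M := fun t => γ (t : UnitAddCircle) with hγ'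
  have hγ'c : Continuous γ' := γ.continuous.comp (AddCircle.continuous_mk' 1)
  obtain ⟨h, hh, hvar⟩ := TH554R.small_var γ' hγ'c.continuousOn hVfin δ hδ0
  obtain ⟨N₁, hN₁⟩ := exists_nat_gt (1 / h)
  refine ⟨N₁ + 1, Nat.succ_pos _, fun N hNN => ?_⟩
  have hNpos : 0 < N := by omega
  have hNR : (0 : ℝ) < N := by exact_mod_cast hNpos
  have hNh : 1 / (N : ℝ) < h := by
    rw [div_lt_comm₀ hNR hh]
    have : (N₁ : ℝ) < N := by exact_mod_cast (by omega : N₁ < N)
    linarith
  refine ⟨min (r₀ / 4) (η / (8 * (N + C₀))), by positivity, fun ε hε hε₀ => ?_⟩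
  have hε1 : ε ≤ r₀ / 4 := hε₀.trans (min_le_left _ _)
  have hε2 : N * ε + C₀ * ε ≤ η / 8 := by
    have h1 : ε ≤ η / (8 * (N + C₀)) := hε₀.trans (min_le_right _ _)
    rw [le_div_iff₀ (by positivity)] at h1
    linarith
  have hkn : ∀ k : ℕ, ((k : ℝ) + 1) / N - k / N = 1 / N := by
    intro k
    rw [← sub_div]
    congr 1
    ring
  have hkmem : ∀ k : ℕ, k ≤ N → (k : ℝ) / N ∈ Icc (0 : ℝ) 1 := by
    intro k hk
    refine ⟨by positivity, ?_⟩
    rw [div_le_one hNR]
    exact_mod_cast hk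
  have hkmem' : ∀ k : ℕ, k < N → ((k : ℝ) + 1) / N ∈ Icc (0 : ℝ) 1 := by
    intro k hk
    have := hkmem (k + 1) hk
    push_cast at this
    exact this
  have hklt : ∀ k : ℕ, (k : ℝ) / N < ((k : ℝ) + 1) / N := by
    intro k
    exact div_lt_div_of_pos_right (by linarith) hNR
  have hvark : ∀ k : ℕ, k < N →
      eVariationOn γ' (Icc ((k : ℝ) / N) (((k : ℝ) + 1) / N)) ≤ ENNReal.ofReal δ := by
    intro k hk
    refine hvar _ (hkmem k hk.le) _ (hkmem' k hk) (hklt k).le ?_
    rw [hkn]
    exact hNh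
  have hdk : ∀ k : ℕ, k < N → ∀ s ∈ Icc ((k : ℝ) / N) (((k : ℝ) + 1) / N),
      ∀ t ∈ Icc ((k : ℝ) / N) (((k : ℝ) + 1) / N), dist (γ' s) (γ' t) ≤ δ := by
    intro k hk s hs t ht
    have h1 := (eVariationOn.edist_le γ' hs ht).trans (hvark k hk)
    rw [edist_dist] at h1
    exact (ENNReal.ofReal_le_ofReal_iff hδ0.le).mp h1
  have claim : ∀ j : ℕ, j ≤ N → ∃ f : C(UnitAddCircle, M), HomLt γ f L ∧
      (∀ k < j, eVariationOn (fun t : ℝ => f (t : UnitAddCircle))
        (Icc ((k : ℝ) / N) (((k : ℝ) + 1) / N)) ≤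
          ENNReal.ofReal (dist (γ' ((k : ℝ) / N)) (γ' (((k : ℝ) + 1) / N)) + ε)) ∧
      (∀ k ≤ N, f (((k : ℝ) / N : ℝ) : UnitAddCircle) = γ' ((k : ℝ) / N)) ∧
      (∀ t ∈ Icc ((j : ℝ) / N) 1, f (t : UnitAddCircle) = γ' t) ∧
      clen f ≤ clen γ + j * ENNReal.ofReal ε := by
    intro j
    induction j with
    | zero =>
      intro _
      refine ⟨γ, TH554R.homLt_refl hγ, fun k hk => absurd hk (Nat.not_lt_zero k), fun k _ => rfl,
        fun t _ => rfl, by simp⟩
    | succ j ih =>
      intro hj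
      obtain ⟨f, hf1, hf2, hf3, hf4, hf5⟩ := ih (by omega)
      have hjN : j < N := by omega
      set c : ℝ := (j : ℝ) / N with hc
      set d : ℝ := ((j : ℝ) + 1) / N with hd
      have hcd : c < d := hklt j
      have hc01 := hkmem j hjN.le
      have hd01 := hkmem' j hjN
      have hdc1 : d ≤ c + 1 := by linarith [hd01.2, hc01.1]
      have hcd01 : ∀ t ∈ Icc c d, t ∈ Icc c 1 := fun t ht => ⟨ht.1, ht.2.trans hd01.2⟩
      obtain ⟨g, hg1, hg2, hg3, hg4⟩ := harc (γ' c) (mem_range_self _) (γ' d)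
        (lt_of_le_of_lt (hdk j hjN c ⟨le_rfl, hcd.le⟩ d ⟨hcd.le, le_rfl⟩) (by linarith)) ε hε c d hcd
      have hdist : dist (γ' c) (γ' d) ≤ δ := hdk j hjN c ⟨le_rfl, hcd.le⟩ d ⟨hcd.le, le_rfl⟩
      have hg5 : eVariationOn g (Icc c d) ≤ ENNReal.ofReal (δ + ε) :=
        hg4.trans (ENNReal.ofReal_le_ofReal (by linarith))
      have hff : EqOn (fun t : ℝ => f (t : UnitAddCircle)) γ' (Icc c d) := fun t ht =>
        hf4 t (hcd01 t ht)
      have hfvar : eVariationOn (fun t : ℝ => f (t : UnitAddCircle)) (Icc c d) ≤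
          ENNReal.ofReal (δ + ε) := by
        rw [eVariationOn.congr hff]
        exact (hvark j hjN).trans (ENNReal.ofReal_le_ofReal (by linarith))
      obtain ⟨f', hf'1, hf'2, hf'3⟩ := hrep (γ' c) (mem_range_self _) f c d g
        (ENNReal.ofReal (δ + ε)) hcd hdc1 hg1
        (hg2.trans (hf4 c ⟨le_rfl, hc01.2⟩).symm)
        (hg3.trans (hf4 d ⟨hcd.le, hd01.2⟩).symm)
        (fun t ht => by
          rw [Metric.mem_ball]
          have h1 : f (t : UnitAddCircle) = γ' t := hff ht
          rw [h1]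
          exact lt_of_le_of_lt (hdk j hjN t ht c ⟨le_rfl, hcd.le⟩) (by linarith))
        (fun t ht => by
          rw [Metric.mem_ball]
          have h1 := (eVariationOn.edist_le g ht (left_mem_Icc.mpr hcd.le)).trans hg5
          rw [edist_dist, hg2] at h1
          have h2 := (ENNReal.ofReal_le_ofReal_iff (by positivity)).mp h1
          linarith)
        hfvar hg5
      have hclen := hcs f c d hcd.le hdc1
      have hclen' := hcs f' c d hcd.le hdc1
      have hjeps : clen f ≤ ENNReal.ofReal (V + j * ε) := by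
        refine hf5.trans (le_of_eq ?_)
        rw [hVeq, ENNReal.ofReal_add hV0 (by positivity), ENNReal.ofReal_mul (by positivity),
          ENNReal.ofReal_natCast]
      have hjN' : (j : ℝ) * ε ≤ N * ε := by
        have : (j : ℝ) ≤ N := by exact_mod_cast hjN.le
        exact mul_le_mul_of_nonneg_right this hε.le
      have hhom : HomLt f f' L := by
        apply hf'3
        have h1 : eVariationOn (fun t : ℝ => f (t : UnitAddCircle)) (Icc d (c + 1)) ≤
            ENNReal.ofReal (V + j * ε) := by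
          refine le_trans ?_ hjeps
          rw [hclen]
          exact le_add_self
        have h2 : (C₀ : ENNReal) * ENNReal.ofReal (δ + ε) = ENNReal.ofReal (C₀ * (δ + ε)) := by
          rw [ENNReal.ofReal_mul hC₀0.le, ENNReal.ofReal_coe_nnreal]
        rw [h2]
        refine lt_of_le_of_lt (add_le_add_left h1 _) ?_
        rw [← ENNReal.ofReal_add (by positivity) (by positivity)]
        apply (ENNReal.ofReal_lt_ofReal_iff (by linarith)).mpr
        have h3 : C₀ * (δ + ε) = C₀ * δ + C₀ * ε := by ring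
        rw [h3]
        linarith
      have hper : ∀ t : ℝ, t ∈ Icc 0 c → f' (t : UnitAddCircle) = f (t : UnitAddCircle) := by
        intro t ht
        have h1 := hf'2 (t + 1) ⟨by linarith [hd01.2, ht.1], by linarith [ht.2]⟩
        have h2 : ((t + 1 : ℝ) : UnitAddCircle) = (t : UnitAddCircle) := by
          rw [AddCircle.coe_add, AddCircle.coe_period, add_zero]
        rw [h2] at h1
        exact h1
      refine ⟨f', TH554R.homLt_trans hf1 hhom, ?_, ?_, ?_, ?_⟩
      · intro k hk
        rcases Nat.lt_succ_iff_lt_or_eq.mp hk with hk | rfl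
        · have h1 : EqOn (fun t : ℝ => f' (t : UnitAddCircle))
              (fun t : ℝ => f (t : UnitAddCircle)) (Icc ((k : ℝ) / N) (((k : ℝ) + 1) / N)) := by
            intro t ht
            apply hper
            refine ⟨le_trans (by positivity) ht.1, ht.2.trans ?_⟩
            rw [hc]
            apply div_le_div_of_nonneg_right _ hNR.le
            exact_mod_cast hk
          rw [eVariationOn.congr h1]
          exact hf2 k hk
        · have h1 : EqOn (fun t : ℝ => f' (t : UnitAddCircle)) g (Icc c d) := hf'1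
          rw [eVariationOn.congr h1]
          exact hg4
      · intro k hk
        rcases lt_trichotomy k j with h1 | h1 | h1
        · rw [hper]
          · exact hf3 k hk
          · refine ⟨by positivity, ?_⟩
            rw [hc]
            apply div_le_div_of_nonneg_right _ hNR.le
            exact_mod_cast h1.le
        · rw [h1]
          rw [hf'1 c ⟨le_rfl, hcd.le⟩]
          exact hg2
        · have h2 : d ≤ (k : ℝ) / N := by
            rw [hd]
            apply div_le_div_of_nonneg_right _ hNR.le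
            exact_mod_cast h1
          rw [hf'2 _ ⟨h2, by linarith [(hkmem k hk).2, hc01.1]⟩]
          exact hf3 k hk
      · intro t ht
        have h1 : d ≤ t := by
          have := ht.1
          push_cast at this
          exact this
        rw [hf'2 t ⟨h1, by linarith [ht.2, hc01.1]⟩]
        exact hf4 t ⟨hcd.le.trans h1, ht.2⟩
      · have h1 : eVariationOn (fun t : ℝ => f' (t : UnitAddCircle)) (Icc c d) =
            eVariationOn g (Icc c d) := eVariationOn.congr hf'1
        have h2 : eVariationOn (fun t : ℝ => f' (t : UnitAddCircle)) (Icc d (c + 1)) =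
            eVariationOn (fun t : ℝ => f (t : UnitAddCircle)) (Icc d (c + 1)) :=
          eVariationOn.congr hf'2
        rw [hclen', h1, h2]
        have h3 : eVariationOn g (Icc c d) ≤
            eVariationOn (fun t : ℝ => f (t : UnitAddCircle)) (Icc c d) + ENNReal.ofReal ε := by
          refine hg4.trans ?_
          rw [ENNReal.ofReal_add dist_nonneg hε.le, ← edist_dist]
          refine add_le_add_left ?_ _
          rw [eVariationOn.congr hff]
          exact eVariationOn.edist_le γ' (left_mem_Icc.mpr hcd.le) (right_mem_Icc.mpr hcd.le)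
        calc eVariationOn g (Icc c d) +
            eVariationOn (fun t : ℝ => f (t : UnitAddCircle)) (Icc d (c + 1))
            ≤ (eVariationOn (fun t : ℝ => f (t : UnitAddCircle)) (Icc c d) + ENNReal.ofReal ε) +
            eVariationOn (fun t : ℝ => f (t : UnitAddCircle)) (Icc d (c + 1)) :=
              add_le_add_left h3 _
          _ = clen f + ENNReal.ofReal ε := by rw [hclen]; ring
          _ ≤ clen γ + j * ENNReal.ofReal ε + ENNReal.ofReal ε := add_le_add_left hf5 _
          _ = clen γ + ((j + 1 : ℕ) : ENNReal) * ENNReal.ofReal ε := by push_cast; ring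
  obtain ⟨f, hf1, hf2, hf3, hf4, hf5⟩ := claim N le_rfl
  refine ⟨f, ?_, hf1⟩
  rw [TH554R.sample_eq γ N]
  set P : List M := (List.range N).map
    (fun k : ℕ => γ (((k : ℝ) / N : ℝ) : UnitAddCircle)) with hPd
  have hlen : P.length = N := by rw [hPd, List.length_map, List.length_range]
  refine ⟨fun k => (k : ℝ) / N, ?_, ?_, ?_⟩
  · intro a b hab
    exact div_lt_div_of_pos_right (by exact_mod_cast hab) hNR
  · rw [hlen]
    simp only [Nat.cast_zero, zero_div, zero_add]
    exact div_self hNR.ne'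
  · intro k hk
    have hkN : k < N := by rwa [hlen] at hk
    have hP : ∀ (i : ℕ) (hi : i < P.length), P[i] = γ' ((i : ℝ) / N) := by
      intro i hi
      simp [hPd, hγ']
    refine ⟨?_, ?_⟩
    · rw [hP]
      exact hf3 k hkN.le
    · rw [hP, hP]
      have h1 := hf2 k hkN
      have h2 : γ' ((((k + 1) % P.length : ℕ) : ℝ) / N) = γ' (((k : ℝ) + 1) / N) := by
        rw [hlen]
        rcases Nat.lt_or_ge (k + 1) N with h3 | h3
        · rw [Nat.mod_eq_of_lt h3]
          push_cast
          rfl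
        · have h4 : k + 1 = N := by omega
          rw [h4, Nat.mod_self]
          have h5 : ((k : ℝ) + 1) / N = 1 := by
            rw [← h4]
            push_cast
            exact div_self (by positivity)
          rw [h5]
          simp only [hγ', Nat.cast_zero, zero_div]
          congr 1
          rw [AddCircle.coe_period]
          rfl
      rw [h2]
      push_cast
      exact h1

end Pool.Agent.TH317.CC
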