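import Pool.Agent.TH331.HV.Defs

set_option autoImplicit false

open MeasureTheory UpperHalfPlane
open scoped UpperHalfPlane MeasureTheory Convex

namespace Pool.Agent.TH554.J1319

open Pool.Agent.TH331.HV

/-! ### An open convex set minus a countable set is preconnected -/

theorem exists_mid {W C : Set ℂ} (hW : IsOpen W) (hWc : Convex ℝ W) (hC : C.Countable) {a b : ℂ}
    (ha : a ∈ W \ C) (hb : b ∈ W \ C) (hab : a ≠ b) :
    ∃ z, [a -[ℝ] z] ⊆ W \ C ∧ [b -[ℝ] z] ⊆ W \ C := by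
  have h : 1 < Module.rank ℝ ℂ := by
    rw [Complex.rank_real_complex]
    exact Cardinal.one_lt_two
  let c := (2 : ℝ)⁻¹ • (a + b)
  let x := (2 : ℝ)⁻¹ • (b - a)
  have Ia : c - x = a := by
    simp only [c, x]
    module
  have Ib : c + x = b := by
    simp only [c, x]
    module
  have x_ne_zero : x ≠ 0 := by simpa [x] using sub_ne_zero.2 hab.symm
  obtain ⟨y, hy⟩ : ∃ y, LinearIndependent ℝ ![x, y] :=
    exists_linearIndependent_pair_of_one_lt_rank h x_ne_zero
  have A : Set.Countable {t : ℝ | ([c + x -[ℝ] c + t • y] ∩ C).Nonempty} := by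
    apply Set.countable_ofPred_nonempty_of_disjoint _ (fun t ↦ Set.inter_subset_right) hC
    intro t t' htt'
    apply Set.disjoint_iff_inter_eq_empty.2
    have N : {c + x} ∩ C = ∅ := by
      rw [Set.singleton_inter_eq_empty, Ib]
      exact hb.2
    rw [Set.inter_assoc, Set.inter_comm C, Set.inter_assoc, Set.inter_self, ← Set.inter_assoc,
      ← Set.subset_empty_iff, ← N]
    apply Set.inter_subset_inter_left
    apply Eq.subset
    apply segment_inter_eq_endpoint_of_linearIndependent_of_ne hy htt'.symm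
  have B : Set.Countable {t : ℝ | ([c - x -[ℝ] c + t • y] ∩ C).Nonempty} := by
    apply Set.countable_ofPred_nonempty_of_disjoint _ (fun t ↦ Set.inter_subset_right) hC
    intro t t' htt'
    apply Set.disjoint_iff_inter_eq_empty.2
    have N : {c - x} ∩ C = ∅ := by
      rw [Set.singleton_inter_eq_empty, Ia]
      exact ha.2
    rw [Set.inter_assoc, Set.inter_comm C, Set.inter_assoc, Set.inter_self, ← Set.inter_assoc,
      ← Set.subset_empty_iff, ← N]
    apply Set.inter_subset_inter_left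
    rw [sub_eq_add_neg _ x]
    apply Eq.subset
    apply segment_inter_eq_endpoint_of_linearIndependent_of_ne _ htt'.symm
    convert! hy.units_smul ![-1, 1]
    simp [← List.ofFn_inj]
  have hc : c ∈ W := by
    have := hWc ha.1 hb.1 (show (0 : ℝ) ≤ 2⁻¹ by norm_num) (show (0 : ℝ) ≤ 2⁻¹ by norm_num)
      (by norm_num)
    simpa [c, smul_add] using this
  have hO : IsOpen {t : ℝ | c + t • y ∈ W} := hW.preimage (by fun_prop)
  have h0 : (0 : ℝ) ∈ {t : ℝ | c + t • y ∈ W} := by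
    show c + (0 : ℝ) • y ∈ W
    rw [zero_smul, add_zero]
    exact hc
  obtain ⟨t, htW, ht⟩ := ((A.union B).dense_compl ℝ).inter_open_nonempty _ hO ⟨0, h0⟩
  simp only [Set.compl_union, Set.mem_inter_iff, Set.mem_compl_iff, Set.mem_ofPred_eq,
    Set.not_nonempty_iff_eq_empty] at ht
  have htW' : c + t • y ∈ W := htW
  refine ⟨c + t • y, ?_, ?_⟩
  · intro w hw
    refine ⟨hWc.segment_subset ha.1 htW' hw, fun hwC => ?_⟩
    have : w ∈ [c - x -[ℝ] c + t • y] ∩ C := ⟨by rw [Ia]; exact hw, hwC⟩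
    rw [ht.2] at this
    exact this
  · intro w hw
    refine ⟨hWc.segment_subset hb.1 htW' hw, fun hwC => ?_⟩
    have : w ∈ [c + x -[ℝ] c + t • y] ∩ C := ⟨by rw [Ib]; exact hw, hwC⟩
    rw [ht.1] at this
    exact this

theorem preconn_diff {W C : Set ℂ} (hW : IsOpen W) (hWc : Convex ℝ W) (hC : C.Countable) :
    IsPreconnected (W \ C) := by
  refine isPreconnected_of_forall_pair fun a ha b hb => ?_
  by_cases hab : a = b
  · subst hab
    exact ⟨{a}, Set.singleton_subset_iff.2 ha, rfl, rfl, isPreconnected_singleton⟩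
  · obtain ⟨z, h1, h2⟩ := exists_mid hW hWc hC ha hb hab
    refine ⟨[a -[ℝ] z] ∪ [b -[ℝ] z], Set.union_subset h1 h2, Or.inl (left_mem_segment ℝ a z),
      Or.inr (left_mem_segment ℝ b z), ?_⟩
    exact IsPreconnected.union z (right_mem_segment ℝ a z) (right_mem_segment ℝ b z)
      (convex_segment a z).isPreconnected (convex_segment b z).isPreconnected

/-! ### Cells -/

section cells

variable {S : Set ℍ} (hS : ∀ A : Set ℍ, Bornology.IsBounded A → (S ∩ A).Finite)

include hS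

theorem S_countable : S.Countable := by
  by_cases hne : S.Nonempty
  · obtain ⟨p, _⟩ := hne
    have : S = ⋃ n : ℕ, S ∩ Metric.closedBall p n := by
      ext q
      simp only [Set.mem_iUnion, Set.mem_inter_iff, Metric.mem_closedBall, exists_and_left]
      constructor
      · intro hq
        exact ⟨hq, exists_nat_ge (dist q p)⟩
      · exact fun h => h.1
    rw [this]
    exact Set.countable_iUnion fun n => (hS _ Metric.isBounded_closedBall).countable
  · rw [Set.not_nonempty_iff_eq_empty.1 hne]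
    exact Set.countable_empty

theorem exists_near {p : ℍ} (hp : p ∈ S) (z : ℍ) : ∃ r ∈ S, z ∈ cell S r := by
  obtain ⟨r, hr, hmin⟩ := Set.exists_min_image (S ∩ Metric.closedBall z (dist z p))
    (fun r => dist z r) (hS _ Metric.isBounded_closedBall)
    ⟨p, hp, by rw [Metric.mem_closedBall, dist_comm]⟩
  refine ⟨r, hr.1, fun q hq => ?_⟩
  by_cases h : dist z q ≤ dist z p
  · exact hmin q ⟨hq, by rw [Metric.mem_closedBall, dist_comm]; exact h⟩
  · have h1 : dist z r ≤ dist z p := hmin p ⟨hp, by rw [Metric.mem_closedBall, dist_comm]⟩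
    linarith

theorem locFin {p : ℍ} (hp : p ∈ S) : LocallyFinite (fun r : S => cell S (r : ℍ)) := by
  intro z
  refine ⟨Metric.ball z 1, Metric.ball_mem_nhds z one_pos, ?_⟩
  have hfin := hS (Metric.closedBall z (2 + dist z p)) Metric.isBounded_closedBall
  refine Set.Finite.of_finite_image (f := fun r : S => (r : ℍ)) (hfin.subset ?_)
    Subtype.val_injective.injOn
  rintro _ ⟨r, ⟨y, hy1, hy2⟩, rfl⟩
  refine ⟨r.2, ?_⟩
  rw [Metric.mem_closedBall, dist_comm]
  have h1 : dist y (r : ℍ) ≤ dist y p := hy1 p hp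
  rw [Metric.mem_ball] at hy2
  have h2 := dist_triangle z y (r : ℍ)
  have h3 := dist_triangle y z p
  rw [dist_comm z y] at h2
  linarith

theorem cell_nhds {p : ℍ} : cell S p ∈ nhds p := by
  have hfin : ((S ∩ Metric.closedBall p 1) \ {p}).Finite :=
    (hS _ Metric.isBounded_closedBall).subset Set.sdiff_subset
  have h1 : ((S ∩ Metric.closedBall p 1) \ {p})ᶜ ∈ nhds p :=
    hfin.isClosed.isOpen_compl.mem_nhds (fun h => h.2 rfl)
  obtain ⟨ε, hε, h2⟩ := Metric.mem_nhds_iff.1 h1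
  have hδ : 0 < min ε 1 / 2 := by positivity
  refine Filter.mem_of_superset (Metric.ball_mem_nhds p hδ) fun z hz q hq => ?_
  rw [Metric.mem_ball] at hz
  by_cases hqp : q = p
  · rw [hqp]
  · have h3 : min ε 1 ≤ dist q p := by
      by_contra h4
      rw [not_le] at h4
      have h5 : q ∈ Metric.ball p ε := lt_of_lt_of_le h4 (min_le_left _ _)
      refine h2 h5 ⟨⟨hq, ?_⟩, hqp⟩
      exact (lt_of_lt_of_le h4 (min_le_right _ _)).le
    have h4 := dist_triangle q z p
    rw [dist_comm q z] at h4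
    linarith

end cells

end Pool.Agent.TH554.J1319

namespace Pool.Agent.TH331.HV

open Pool.Agent.TH554.J1319

theorem local_walk
    (hlen : ∀ (S : Set ℍ) (p q a b : ℍ), a ≠ b → a ∈ cell S p ∩ cell S q → b ∈ cell S p ∩ cell S q →
      0 < μH[1] (cell S p ∩ cell S q))
    (hcl : ∀ (S : Set ℍ) (p : ℍ), IsClosed (cell S p))
    (S : Set ℍ) (hS : ∀ A : Set ℍ, Bornology.IsBounded A → (S ∩ A).Finite) (W : Set ℂ)
    (hW : IsOpen W) (hWc : Convex ℝ W) (hWH : ∀ z ∈ W, 0 < z.im) (p q : S)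
    (hp : ((p : ℍ) : ℂ) ∈ W) (hq : ((q : ℍ) : ℂ) ∈ W) :
    ∃ w : (vor S).Walk p q, ∀ u ∈ w.support, ∃ z : ℍ, (z : ℂ) ∈ W ∧ z ∈ cell S (u : ℍ) := by
  classical
  set V : Set ℍ := {z | (z : ℂ) ∈ W} with hV
  have hVo : IsOpen V := hW.preimage UpperHalfPlane.isOpenEmbedding_coe.continuous
  -- vertices whose cell meets `W`
  set SW : Set S := {r | ∃ z : ℍ, (z : ℂ) ∈ W ∧ z ∈ cell S (r : ℍ)} with hSW
  by_contra hcon
  set Rc : S → Prop := fun r => ∃ w : (vor S).Walk p r, ∀ u ∈ w.support, u ∈ SW with hRc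
  have hRq : ¬ Rc q := hcon
  have hself : ∀ r : S, (r : ℍ) ∈ cell S (r : ℍ) := fun r t _ => by
    rw [dist_self]; exact dist_nonneg
  have hpSW : p ∈ SW := ⟨p, hp, hself p⟩
  have hqSW : q ∈ SW := ⟨q, hq, hself q⟩
  have hRp : Rc p := ⟨SimpleGraph.Walk.nil, by
    intro u hu
    rw [SimpleGraph.Walk.support_nil, List.mem_singleton] at hu
    rw [hu]; exact hpSW⟩
  set T1 : Set S := {r | r ∈ SW ∧ Rc r} with hT1
  set T2 : Set S := {r | r ∈ SW ∧ ¬ Rc r} with hT2
  have hadj : ∀ r ∈ T1, ∀ r' ∈ T2, ¬ (vor S).Adj r r' := by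
    rintro r ⟨_, w, hw⟩ r' ⟨hr', hn⟩ h
    apply hn
    refine ⟨w.concat h, fun u hu => ?_⟩
    rw [SimpleGraph.Walk.support_concat, List.mem_append, List.mem_singleton] at hu
    rcases hu with hu | hu
    · exact hw u hu
    · rw [hu]; exact hr'
  have hsub : ∀ r ∈ T1, ∀ r' ∈ T2, (cell S (r : ℍ) ∩ cell S (r' : ℍ)).Subsingleton := by
    intro r hr r' hr' a ha b hb
    by_contra hab
    refine hadj r hr r' hr' ⟨?_, hlen S r r' a b hab ha hb⟩
    rintro rfl
    exact hr'.2 hr.2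
  have hScount : Countable S := (S_countable hS).to_subtype
  set A : Set ℍ := ⋃ r : T1, cell S ((r : S) : ℍ) with hA
  set B : Set ℍ := ⋃ r : T2, cell S ((r : S) : ℍ) with hB
  have hLF := locFin hS p.2
  have hAc : IsClosed A :=
    (hLF.comp_injective (Subtype.val_injective (p := fun r => r ∈ T1))).isClosed_iUnion
      fun r => hcl S _
  have hBc : IsClosed B :=
    (hLF.comp_injective (Subtype.val_injective (p := fun r => r ∈ T2))).isClosed_iUnion
      fun r => hcl S _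
  have hcov : V ⊆ A ∪ B := by
    intro z hz
    obtain ⟨r, hr, hzr⟩ := exists_near hS p.2 z
    have hrSW : (⟨r, hr⟩ : S) ∈ SW := ⟨z, hz, hzr⟩
    by_cases h : Rc ⟨r, hr⟩
    · exact Or.inl (Set.mem_iUnion.2 ⟨⟨⟨r, hr⟩, hrSW, h⟩, hzr⟩)
    · exact Or.inr (Set.mem_iUnion.2 ⟨⟨⟨r, hr⟩, hrSW, h⟩, hzr⟩)
  have hC : (A ∩ B).Countable := by
    have : A ∩ B ⊆ ⋃ r : T1, ⋃ r' : T2, cell S ((r : S) : ℍ) ∩ cell S ((r' : S) : ℍ) := by
      rintro z ⟨h1, h2⟩
      obtain ⟨r, hr⟩ := Set.mem_iUnion.1 h1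
      obtain ⟨r', hr'⟩ := Set.mem_iUnion.1 h2
      exact Set.mem_iUnion.2 ⟨r, Set.mem_iUnion.2 ⟨r', hr, hr'⟩⟩
    refine Set.Countable.mono this ?_
    exact Set.countable_iUnion fun r => Set.countable_iUnion fun r' =>
      (hsub r r.2 r' r'.2).finite.countable
  set C : Set ℂ := (fun z : ℍ => (z : ℂ)) '' (A ∩ B) with hCdef
  have hCc : C.Countable := hC.image _
  have himg : (fun z : ℍ => (z : ℂ)) '' (V \ (A ∩ B)) = W \ C := by
    ext w
    constructor
    · rintro ⟨z, ⟨hz1, hz2⟩, rfl⟩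
      refine ⟨hz1, ?_⟩
      rintro ⟨z', hz', e⟩
      have : z' = z := UpperHalfPlane.isEmbedding_coe.injective e
      exact hz2 (this ▸ hz')
    · rintro ⟨hw1, hw2⟩
      refine ⟨⟨w, hWH w hw1⟩, ⟨hw1, fun h => hw2 ⟨_, h, rfl⟩⟩, rfl⟩
  have hpre : IsPreconnected (V \ (A ∩ B)) := by
    rw [← UpperHalfPlane.isEmbedding_coe.isInducing.isPreconnected_image]
    have := preconn_diff hW hWc hCc
    rw [← himg] at this
    exact this
  -- small neighbourhoods
  have hsmall : ∀ r : S, ((r : ℍ) : ℂ) ∈ W → ∃ z, z ∈ V \ (A ∩ B) ∧ z ∈ cell S (r : ℍ) := by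
    intro r hr
    have h1 : V ∩ cell S (r : ℍ) ∈ nhds (r : ℍ) :=
      Filter.inter_mem (hVo.mem_nhds hr) (cell_nhds hS)
    obtain ⟨U, hU1, hU2, hU3⟩ := mem_nhds_iff.1 h1
    have hUo : IsOpen ((fun z : ℍ => (z : ℂ)) '' U) :=
      UpperHalfPlane.isOpenEmbedding_coe.isOpenMap U hU2
    obtain ⟨w, ⟨z, hz, rfl⟩, hw⟩ := (hCc.dense_compl ℝ).inter_open_nonempty _ hUo
      ⟨_, r, hU3, rfl⟩
    exact ⟨z, ⟨(hU1 hz).1, fun h => hw ⟨z, h, rfl⟩⟩, (hU1 hz).2⟩
  obtain ⟨zp, hzp1, hzp2⟩ := hsmall p hp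
  obtain ⟨zq, hzq1, hzq2⟩ := hsmall q hq
  obtain ⟨z, hz, hzA, hzB⟩ := isPreconnected_closed_iff.1 hpre A B hAc hBc
    (Set.sdiff_subset.trans hcov)
    ⟨zp, hzp1, Set.mem_iUnion.2 ⟨⟨p, hpSW, hRp⟩, hzp2⟩⟩
    ⟨zq, hzq1, Set.mem_iUnion.2 ⟨⟨q, hqSW, hRq⟩, hzq2⟩⟩
  exact hz.2 ⟨hzA, hzB⟩

end Pool.Agent.TH331.HV
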