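import Mathlib

set_option autoImplicit false

namespace Pool.Agent.TH554.J64

open Filter Topology

theorem countable_of_finiteType (C : Type) [CommRing C] [Algebra.FiniteType ℤ C] : Countable C := by
  obtain ⟨n, f, hf⟩ := Algebra.FiniteType.iff_quotient_mvPolynomial''.mp
    (inferInstance : Algebra.FiniteType ℤ C)
  have h1 : Cardinal.mk (MvPolynomial (Fin n) ℤ) ≤ Cardinal.aleph0 := by
    refine le_trans MvPolynomial.cardinalMk_le_max ?_
    simp
  have : Countable (MvPolynomial (Fin n) ℤ) := Cardinal.mk_le_aleph0_iff.mp h1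
  exact hf.countable

section

variable {p : ℕ} [Fact p.Prime] {C : Type} [CommRing C] {s : C}
  {γ : C →+* Localization.Away s}

/-- the defining relation of the recursion -/
theorem key_rel (φ φ' : C →+* ℤ_[p]) (hs : IsUnit (φ s))
    (hrec : ∀ c, φ' c = IsLocalization.Away.lift s hs (γ c))
    {c a : C} {M : ℕ} (h : γ c * algebraMap C (Localization.Away s) s ^ M =
      algebraMap C (Localization.Away s) a) :
    φ' c * φ s ^ M = φ a := by
  have h2 := congrArg (IsLocalization.Away.lift s hs) h
  rw [map_mul, map_pow, IsLocalization.Away.lift_eq, IsLocalization.Away.lift_eq, ← hrec] at h2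
  exact h2

end

theorem P2 (p : ℕ) [Fact p.Prime] {R C : Type} [CommRing R] [CommRing C] [Algebra R C]
    [Algebra.FiniteType ℤ C] (s : C) (γ : C →+* Localization.Away s)
    (hγ : ∀ r : R, γ (algebraMap R C r) = algebraMap C (Localization.Away s) (algebraMap R C r))
    {D : Type} [TopologicalSpace D] [BaireSpace D] [FirstCountableTopology D] [Nonempty D]
    (S : Set D) (hS : Dense S)
    (φ : ℕ → D → (C →+* ℤ_[p])) (hcont : ∀ j c, Continuous fun b => φ j b c)
    (hs : ∀ j b, IsUnit (φ j b s))
    (hrec : ∀ j b c, φ (j + 1) b c = IsLocalization.Away.lift s (hs j b) (γ c))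
    (hnd : ∀ r : R, r ≠ 0 → ∀ U : Set D, IsOpen U → U.Nonempty →
      ∃ b ∈ U, φ 0 b (algebraMap R C r) ≠ 0)
    (hdist : ∀ j, ∀ U : Set D, IsOpen U → U.Nonempty → ∃ b ∈ U, φ (j + 1) b ≠ φ j b)
    (hdich : ∀ b, (∀ j c, ‖φ (j + 1) b c - φ j b c‖ ≤ (p : ℝ) ^ (-(j : ℤ))) ∨
      Function.Injective (fun j => φ j b))
    (hper : ∀ b ∈ S, ¬ Function.Injective (fun j => φ j b)) :
    ∃ 𝔮 : ℕ → Ideal C, (∀ m, (𝔮 m).IsPrime) ∧ (∀ m, s ∉ 𝔮 m) ∧
      (∀ m, Ideal.comap γ (Ideal.map (algebraMap C (Localization.Away s)) (𝔮 (m + 1))) = 𝔮 m) ∧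
      (∀ c, γ c - algebraMap C (Localization.Away s) c ∈
        Ideal.map (algebraMap C (Localization.Away s)) (𝔮 0)) ∧
      Ideal.comap (algebraMap R C) (𝔮 0) = ⊥ ∧ 𝔮 1 < 𝔮 0 := by
  classical
  have hCcount : Countable C := countable_of_finiteType C
  have hNoeth : IsNoetherianRing C := Algebra.FiniteType.isNoetherianRing ℤ C
  have hp1 : (1 : ℝ) < p := by exact_mod_cast (Fact.out : p.Prime).one_lt
  have hp0 : (0 : ℝ) < p := by linarith
  set ρ : ℝ := (p : ℝ)⁻¹ with hρ
  have hρ0 : 0 < ρ := by positivity
  have hρ1 : ρ < 1 := inv_lt_one_of_one_lt₀ hp1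
  have hpow : ∀ j : ℕ, (p : ℝ) ^ (-(j : ℤ)) = ρ ^ j := by
    intro j; rw [zpow_neg, zpow_natCast, hρ, inv_pow]
  -- relation for every element
  have hrel : ∀ c : C, ∃ (M : ℕ) (a : C), γ c * algebraMap C (Localization.Away s) s ^ M =
      algebraMap C (Localization.Away s) a := fun c => IsLocalization.Away.surj s (γ c)
  have key : ∀ (j : ℕ) (b : D) {c a : C} {M : ℕ},
      γ c * algebraMap C (Localization.Away s) s ^ M = algebraMap C (Localization.Away s) a →
      φ (j + 1) b c * φ j b s ^ M = φ j b a := fun j b c a M h =>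
    key_rel (φ j b) (φ (j + 1) b) (hs j b) (hrec j b) h
  -- determinism
  have hdet : ∀ (i j : ℕ) (b : D), φ i b = φ j b → φ (i + 1) b = φ (j + 1) b := by
    intro i j b h
    ext1 c
    obtain ⟨M, a, ha⟩ := hrel c
    have h1 := key i b ha
    have h2 := key j b ha
    rw [h] at h1
    have h3 : φ (i + 1) b c * φ j b s ^ M = φ (j + 1) b c * φ j b s ^ M := by rw [h1, h2]
    exact ((hs j b).pow M).mul_right_cancel h3
  have hdet' : ∀ (i j : ℕ) (b : D), φ i b = φ j b → ∀ t, φ (i + t) b = φ (j + t) b := by
    intro i j b h t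
    induction t with
    | zero => simpa using h
    | succ t ih => exact hdet _ _ b ih
  -- geometric convergence for all b
  have hgeo : ∀ b j c, ‖φ (j + 1) b c - φ j b c‖ ≤ ρ ^ j := by
    intro b j c
    have hcl : IsClosed {b : D | ‖φ (j + 1) b c - φ j b c‖ ≤ ρ ^ j} :=
      isClosed_le (((hcont (j + 1) c).sub (hcont j c)).norm) continuous_const
    have hsub : S ⊆ {b : D | ‖φ (j + 1) b c - φ j b c‖ ≤ ρ ^ j} := by
      intro b hb
      rcases hdich b with h | h
      · have h2 := h j c
        rw [hpow] at h2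
        exact h2
      · exact absurd h (hper b hb)
    have hcls := closure_minimal hsub hcl
    exact hcls (hS b)
  have hdistle : ∀ b c j, dist (φ j b c) (φ (j + 1) b c) ≤ 1 * ρ ^ j := by
    intro b c j
    rw [dist_comm, dist_eq_norm, one_mul]
    exact hgeo b j c
  have hlim : ∀ b c, ∃ y : ℤ_[p], Tendsto (fun j => φ j b c) atTop (𝓝 y) := fun b c =>
    cauchySeq_tendsto_of_complete (cauchySeq_of_le_geometric ρ 1 hρ1 (hdistle b c))
  choose y0 hy0 using hlim
  let y : D → (C →+* ℤ_[p]) := fun b =>
    { toFun := y0 b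
      map_one' := by
        refine tendsto_nhds_unique (hy0 b 1) ?_
        simp only [map_one]
        exact tendsto_const_nhds
      map_mul' := by
        intro c d
        refine tendsto_nhds_unique (hy0 b (c * d)) ?_
        simp only [map_mul]
        exact (hy0 b c).mul (hy0 b d)
      map_zero' := by
        refine tendsto_nhds_unique (hy0 b 0) ?_
        simp only [map_zero]
        exact tendsto_const_nhds
      map_add' := by
        intro c d
        refine tendsto_nhds_unique (hy0 b (c + d)) ?_
        simp only [map_add]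
        exact (hy0 b c).add (hy0 b d) }
  have hy : ∀ b c, Tendsto (fun j => φ j b c) atTop (𝓝 (y b c)) := hy0
  have hyd : ∀ b c j, dist (φ j b c) (y b c) ≤ 1 * ρ ^ j / (1 - ρ) := fun b c j =>
    dist_le_of_le_geometric_of_tendsto ρ 1 hρ1 (hdistle b c) (hy b c) j
  have hbound0 : Tendsto (fun j : ℕ => 1 * ρ ^ j / (1 - ρ)) atTop (𝓝 0) := by
    have h := (tendsto_pow_atTop_nhds_zero_of_lt_one hρ0.le hρ1)
    have h2 := (h.const_mul 1).div_const (1 - ρ)
    simpa using h2
  have hycont : ∀ c, Continuous fun b => y b c := by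
    intro c
    have hunif : TendstoUniformly (fun (j : ℕ) (b : D) => φ j b c) (fun b => y b c) atTop := by
      rw [Metric.tendstoUniformly_iff]
      intro ε hε
      have := hbound0.eventually (gt_mem_nhds hε)
      filter_upwards [this] with j hj b
      rw [dist_comm]
      exact lt_of_le_of_lt (hyd b c j) hj
    exact hunif.continuous (Frequently.of_forall fun j => hcont j c)
  -- the constant ideals
  let idl : Set D → Ideal C := fun U => ⨅ b ∈ U, RingHom.ker (y b)
  have mem_idl : ∀ (U : Set D) (c : C), c ∈ idl U ↔ ∀ b ∈ U, y b c = 0 := by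
    intro U c
    simp only [idl, Ideal.mem_iInf, RingHom.mem_ker]
  obtain ⟨U0, hU0o, hU0n, hU0max⟩ : ∃ U0 : Set D, IsOpen U0 ∧ U0.Nonempty ∧
      ∀ U : Set D, IsOpen U → U.Nonempty → U ⊆ U0 → idl U = idl U0 := by
    have hwf : WellFounded ((· > ·) : Ideal C → Ideal C → Prop) :=
      (inferInstance : WellFoundedGT (Ideal C)).wf
    obtain ⟨I, ⟨U0, ho, hn, rfl⟩, hmax⟩ := hwf.has_min
      {I : Ideal C | ∃ U : Set D, IsOpen U ∧ U.Nonempty ∧ I = idl U}
      ⟨idl Set.univ, Set.univ, isOpen_univ, Set.univ_nonempty, rfl⟩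
    refine ⟨U0, ho, hn, ?_⟩
    intro U hUo hUn hU
    have hle : idl U0 ≤ idl U := by
      intro c hc
      rw [mem_idl] at hc ⊢
      exact fun b hb => hc b (hU hb)
    by_contra hne
    exact hmax (idl U) ⟨U, hUo, hUn, rfl⟩ (lt_of_le_of_ne hle (fun h => hne h.symm))
  -- Baire
  have hGr : ∀ r : C, r ∉ idl U0 → IsOpen ({b : D | y b r ≠ 0} ∪ (closure U0)ᶜ) ∧
      Dense ({b : D | y b r ≠ 0} ∪ (closure U0)ᶜ) := by
    intro r hr
    constructor
    · refine IsOpen.union ?_ isClosed_closure.isOpen_compl
      exact isOpen_ne_fun (hycont r) continuous_const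
    · rw [dense_iff_inter_open]
      intro V hVo hVn
      by_cases hVU : (V ∩ U0).Nonempty
      · have h1 := hU0max (V ∩ U0) (hVo.inter hU0o) hVU Set.inter_subset_right
        have h2 : r ∉ idl (V ∩ U0) := by rwa [h1]
        rw [mem_idl] at h2
        push Not at h2
        obtain ⟨b, hb, hb2⟩ := h2
        exact ⟨b, hb.1, Or.inl hb2⟩
      · obtain ⟨v, hv⟩ := hVn
        refine ⟨v, hv, Or.inr ?_⟩
        intro hcl
        rw [mem_closure_iff] at hcl
        exact hVU (hcl V hVo hv)
  have hH : ∀ j, IsOpen {b : D | φ (j + 1) b ≠ φ j b} ∧ Dense {b : D | φ (j + 1) b ≠ φ j b} := by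
    intro j
    constructor
    · have : {b : D | φ (j + 1) b ≠ φ j b} = ⋃ c : C, {b : D | φ (j + 1) b c ≠ φ j b c} := by
        ext b
        simp only [Set.mem_ofPred_eq, Set.mem_iUnion]
        constructor
        · intro h
          by_contra hcon
          push Not at hcon
          exact h (RingHom.ext hcon)
        · rintro ⟨c, hc⟩ h
          exact hc (by rw [h])
      rw [this]
      exact isOpen_iUnion fun c => isOpen_ne_fun (hcont (j + 1) c) (hcont j c)
    · rw [dense_iff_inter_open]
      intro V hVo hVn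
      obtain ⟨b, hb, hb2⟩ := hdist j V hVo hVn
      exact ⟨b, hb, hb2⟩
  let G : C ⊕ ℕ → Set D := fun i => match i with
    | Sum.inl r => if r ∈ idl U0 then Set.univ else {b : D | y b r ≠ 0} ∪ (closure U0)ᶜ
    | Sum.inr j => {b : D | φ (j + 1) b ≠ φ j b}
  have hGo : ∀ i, IsOpen (G i) := by
    rintro (r | j)
    · by_cases hr : r ∈ idl U0
      · simp [G, hr]
      · simp only [G, hr, if_false]; exact (hGr r hr).1
    · exact (hH j).1
  have hGd : ∀ i, Dense (G i) := by
    rintro (r | j)
    · by_cases hr : r ∈ idl U0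
      · simp [G, hr]
      · simp only [G, hr, if_false]; exact (hGr r hr).2
    · exact (hH j).2
  have hdense : Dense (⋂ i, G i) := dense_iInter_of_isOpen hGo hGd
  obtain ⟨bs, hbsU, hbsG⟩ := (dense_iff_inter_open.mp hdense) U0 hU0o hU0n
  rw [Set.mem_iInter] at hbsG
  have hbs1 : ∀ r, r ∉ idl U0 → y bs r ≠ 0 := by
    intro r hr
    have := hbsG (Sum.inl r)
    simp only [G, hr, if_false] at this
    rcases this with h | h
    · exact h
    · exact absurd (subset_closure hbsU) h
  have hbs2 : ∀ j, φ (j + 1) bs ≠ φ j bs := fun j => hbsG (Sum.inr j)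
  -- ultrafilter
  have hNe : (𝓝[S] bs).NeBot := mem_closure_iff_nhdsWithin_neBot.mp (hS bs)
  let F : Ultrafilter D := Ultrafilter.of (𝓝[S] bs)
  have hF : (F : Filter D) ≤ 𝓝[S] bs := Ultrafilter.of_le _
  have hFn : (F : Filter D) ≤ 𝓝 bs := hF.trans nhdsWithin_le_nhds
  have hFS : ∀ᶠ b in (F : Filter D), b ∈ S := hF self_mem_nhdsWithin
  -- eventually constant
  have hconst : ∀ b ∈ S, ∃ n, φ (n + 1) b = φ n b := by
    intro b hb
    have hni := hper b hb
    rw [Function.not_injective_iff] at hni
    obtain ⟨i, j, hij, hne⟩ := hni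
    -- periodic
    have main : ∀ i j : ℕ, i < j → φ i b = φ j b → ∃ n, φ (n + 1) b = φ n b := by
      intro i j hlt h
      have hperd : ∀ t, φ (i + t) b = φ (i + t + (j - i)) b := by
        intro t
        have := hdet' i j b h t
        rw [this]
        congr 1
        omega
      have hmult : ∀ t n, φ (i + t) b = φ (i + t + n * (j - i)) b := by
        intro t n
        induction n with
        | zero => simp
        | succ n ih =>
          rw [ih]
          have := hperd (t + n * (j - i))
          rw [show i + (t + n * (j - i)) = i + t + n * (j - i) by ring] at this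
          rw [this]
          congr 1
          ring
      have heq : ∀ t, φ (i + t) b = y b := by
        intro t
        ext1 c
        have hk : 0 < j - i := by omega
        have htend : Tendsto (fun n : ℕ => i + t + n * (j - i)) atTop atTop := by
          refine tendsto_atTop_mono (fun n => ?_) tendsto_id
          have : n * 1 ≤ n * (j - i) := Nat.mul_le_mul_left n hk
          simp only [id]
          omega
        have h1 := (hy b c).comp htend
        refine tendsto_nhds_unique ?_ h1
        have : (fun n : ℕ => φ (i + t) b c) = ((fun j => φ j b c) ∘ fun n : ℕ => i + t + n * (j - i)) := by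
          funext n
          simp only [Function.comp]
          rw [hmult t n]
        rw [← this]
        exact tendsto_const_nhds
      refine ⟨i, ?_⟩
      have h1 := heq 1
      have h0 := heq 0
      rw [h1]
      simpa using h0.symm
    rcases lt_or_gt_of_ne hne with h | h
    · exact main i j h hij
    · exact main j i h hij.symm
  let N : D → ℕ := fun b => if h : ∃ n, φ (n + 1) b = φ n b then Nat.find h else 0
  have hN1 : ∀ b ∈ S, φ (N b + 1) b = φ (N b) b := by
    intro b hb
    have h := hconst b hb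
    simp only [N, h, dif_pos]
    exact Nat.find_spec h
  have hNmin : ∀ b ∈ S, ∀ k < N b, φ (k + 1) b ≠ φ k b := by
    intro b hb k hk
    have h := hconst b hb
    simp only [N, h, dif_pos] at hk
    exact Nat.find_min h hk
  have hNconst : ∀ b ∈ S, ∀ t, φ (N b + t) b = φ (N b) b := by
    intro b hb t
    induction t with
    | zero => rfl
    | succ t ih =>
      have := hdet' (N b + 1) (N b) b (hN1 b hb) t
      rw [← ih, ← this]
      congr 1
      ring
  have hNy : ∀ b ∈ S, φ (N b) b = y b := by
    intro b hb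
    ext1 c
    refine tendsto_nhds_unique ?_ ((hy b c).comp (tendsto_add_atTop_nat (N b)))
    have : ((fun j => φ j b c) ∘ fun a => a + N b) = fun _ : ℕ => φ (N b) b c := by
      funext t
      simp only [Function.comp]
      rw [add_comm, hNconst b hb t]
    rw [this]
    exact tendsto_const_nhds
  have hNlarge : ∀ n : ℕ, ∀ᶠ b in (F : Filter D), n < N b := by
    intro n
    have h1 : ∀ᶠ b in (F : Filter D), ∀ k ∈ Finset.range (n + 1), φ (k + 1) b ≠ φ k b := by
      rw [Filter.eventually_all_finset]
      intro k _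
      exact hFn ((hH k).1.mem_nhds (hbs2 k))
    filter_upwards [h1, hFS] with b hb hbS
    by_contra hcon
    push Not at hcon
    exact hb (N b) (Finset.mem_range.mpr (by omega)) (hN1 b hbS)
  -- the primes
  let 𝔮 : ℕ → Ideal C := fun m =>
    { carrier := {r | ∀ᶠ b in (F : Filter D), φ (N b - m) b r = 0}
      add_mem' := by
        intro a b ha hb
        simp only [Set.mem_ofPred_eq] at ha hb ⊢
        filter_upwards [ha, hb] with x h1 h2
        rw [map_add, h1, h2, add_zero]
      zero_mem' := by
        exact Filter.Eventually.of_forall fun _ => map_zero _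
      smul_mem' := by
        intro c a ha
        simp only [Set.mem_ofPred_eq] at ha ⊢
        filter_upwards [ha] with x h1
        rw [smul_eq_mul, map_mul, h1, mul_zero] }
  have mem_q : ∀ m r, r ∈ 𝔮 m ↔ ∀ᶠ b in (F : Filter D), φ (N b - m) b r = 0 := fun m r => Iff.rfl
  have hprime : ∀ m, (𝔮 m).IsPrime := by
    intro m
    refine ⟨?_, ?_⟩
    · intro h
      have h1 : (1 : C) ∈ 𝔮 m := by rw [h]; trivial
      rw [mem_q] at h1
      obtain ⟨b, hb⟩ := h1.exists
      rw [map_one] at hb
      exact one_ne_zero hb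
    · intro a b hab
      rw [mem_q] at hab
      have : ∀ᶠ x in (F : Filter D), φ (N x - m) x a = 0 ∨ φ (N x - m) x b = 0 := by
        filter_upwards [hab] with x hx
        rw [map_mul] at hx
        exact mul_eq_zero.mp hx
      rw [Ultrafilter.eventually_or] at this
      exact this
  have hsq : ∀ m, s ∉ 𝔮 m := by
    intro m h
    rw [mem_q] at h
    obtain ⟨b, hb⟩ := h.exists
    exact (hs _ b).ne_zero hb
  have hmapmem : ∀ m (z : Localization.Away s) (M : ℕ) (a : C),
      z * algebraMap C (Localization.Away s) s ^ M = algebraMap C (Localization.Away s) a →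
      (z ∈ Ideal.map (algebraMap C (Localization.Away s)) (𝔮 m) ↔ a ∈ 𝔮 m) := by
    intro m z M a h
    have hu : IsUnit (algebraMap C (Localization.Away s) s ^ M) :=
      IsLocalization.Away.algebraMap_pow_isUnit s M
    have hdisj : Disjoint ((Submonoid.powers s : Submonoid C) : Set C) (𝔮 m) := by
      rw [Set.disjoint_left]
      rintro x ⟨k, rfl⟩ hx
      exact hsq m ((hprime m).mem_of_pow_mem k hx)
    have hcm := IsLocalization.under_map_of_isPrime_disjoint (Submonoid.powers s)
      (Localization.Away s) (hprime m) hdisj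
    constructor
    · intro hz
      have h1 : algebraMap C (Localization.Away s) a ∈
          Ideal.map (algebraMap C (Localization.Away s)) (𝔮 m) := by
        rw [← h]; exact Ideal.mul_mem_right _ _ hz
      have h2 : a ∈ (Ideal.map (algebraMap C (Localization.Away s)) (𝔮 m)).under C := h1
      rwa [hcm] at h2
    · intro ha
      have h1 : z * algebraMap C (Localization.Away s) s ^ M ∈
          Ideal.map (algebraMap C (Localization.Away s)) (𝔮 m) := by
        rw [h]; exact Ideal.mem_map_of_mem _ ha
      exact (Ideal.mul_unit_mem_iff_mem _ hu).mp h1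
  -- q 0 = w
  have hq0w : ∀ r, r ∈ 𝔮 0 ↔ r ∈ idl U0 := by
    intro r
    constructor
    · intro h
      by_contra hcon
      have h1 := hbs1 r hcon
      have h2 : ∀ᶠ b in (F : Filter D), y b r ≠ 0 :=
        hFn ((isOpen_ne_fun (hycont r) continuous_const).mem_nhds h1)
      rw [mem_q] at h
      obtain ⟨b, hb1, hb2, hb3⟩ := (h.and (h2.and hFS)).exists
      rw [Nat.sub_zero, hNy b hb3] at hb1
      exact hb2 hb1
    · intro h
      rw [mem_idl] at h
      rw [mem_q]
      have h2 : ∀ᶠ b in (F : Filter D), b ∈ U0 := hFn (hU0o.mem_nhds hbsU)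
      filter_upwards [h2, hFS] with b hb1 hb2
      rw [Nat.sub_zero, hNy b hb2]
      exact h b hb1
  have hfix : ∀ (c a : C) (M : ℕ), γ c * algebraMap C (Localization.Away s) s ^ M =
      algebraMap C (Localization.Away s) a → a - c * s ^ M ∈ 𝔮 0 := by
    intro c a M h
    rw [mem_q]
    filter_upwards [hFS] with b hb
    have h1 := key (N b) b h
    rw [hN1 b hb] at h1
    rw [Nat.sub_zero, map_sub, map_mul, map_pow, h1, sub_self]
  refine ⟨𝔮, hprime, hsq, ?_, ?_, ?_, ?_⟩
  · intro m
    ext c
    rw [Ideal.mem_comap]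
    obtain ⟨M, a, h⟩ := hrel c
    rw [hmapmem (m + 1) (γ c) M a h, mem_q, mem_q]
    have hl := hNlarge (m + 1)
    constructor
    · intro h1
      filter_upwards [h1, hl] with b hb1 hb2
      have h2 := key (N b - (m + 1)) b h
      rw [show N b - (m + 1) + 1 = N b - m by omega, hb1] at h2
      exact (mul_eq_zero.mp h2).resolve_right ((hs _ b).pow M).ne_zero
    · intro h1
      filter_upwards [h1, hl] with b hb1 hb2
      have h2 := key (N b - (m + 1)) b h
      rw [show N b - (m + 1) + 1 = N b - m by omega, hb1, zero_mul] at h2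
      exact h2.symm
  · intro c
    obtain ⟨M, a, h⟩ := hrel c
    rw [hmapmem 0 _ M (a - c * s ^ M)]
    · exact hfix c a M h
    · rw [sub_mul, h, map_sub, map_mul, map_pow]
  · rw [eq_bot_iff]
    intro r hr
    rw [Ideal.mem_comap] at hr
    rw [Ideal.mem_bot]
    by_contra hr0
    rw [hq0w, mem_idl] at hr
    obtain ⟨b, hb, hb2⟩ := hnd r hr0 U0 hU0o hU0n
    have hc : ∀ j, φ j b (algebraMap R C r) = φ 0 b (algebraMap R C r) := by
      intro j
      induction j with
      | zero => rfl
      | succ j ih => rw [hrec j b, hγ, IsLocalization.Away.lift_eq, ih]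
    have h1 : y b (algebraMap R C r) = φ 0 b (algebraMap R C r) := by
      refine tendsto_nhds_unique (hy b _) ?_
      simp only [hc]
      exact tendsto_const_nhds
    exact hb2 (h1 ▸ hr b hb)
  · have hle : 𝔮 1 ≤ 𝔮 0 := by
      intro r hr
      rw [hq0w]
      by_contra hcon
      have h1 := hbs1 r hcon
      rw [mem_q] at hr
      -- limit along F
      have hlimF : Tendsto (fun b => y b r) (F : Filter D) (𝓝 (y bs r)) :=
        ((hycont r).tendsto bs).mono_left hFn
      have hlim0 : Tendsto (fun b => y b r) (F : Filter D) (𝓝 0) := by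
        rw [Metric.tendsto_nhds]
        intro ε hε
        have h2 := hbound0.eventually (gt_mem_nhds hε)
        obtain ⟨n0, hn0⟩ := h2.exists_forall_of_atTop
        filter_upwards [hr, hNlarge (n0 + 1)] with b hb1 hb2
        have h3 := hyd b r (N b - 1)
        rw [hb1, dist_comm] at h3
        exact lt_of_le_of_lt h3 (hn0 _ (by omega))
      exact h1 (tendsto_nhds_unique hlimF hlim0)
    refine lt_of_le_of_ne hle ?_
    intro heq
    -- generators
    obtain ⟨t, ht⟩ := (inferInstance : Algebra.FiniteType ℤ C).out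
    have h1 : ∀ᶠ b in (F : Filter D), ∃ c ∈ (t : Set C), φ (N b) b c ≠ φ (N b - 1) b c := by
      filter_upwards [hFS, hNlarge 0] with b hb1 hb2
      by_contra hcon
      push Not at hcon
      have hne := hNmin b hb1 (N b - 1) (by omega)
      rw [show N b - 1 + 1 = N b by omega] at hne
      apply hne
      have h2 : (φ (N b) b).toIntAlgHom = (φ (N b - 1) b).toIntAlgHom := by
        refine AlgHom.ext_of_adjoin_eq_top ht ?_
        intro c hc
        exact hcon c hc
      ext1 c
      exact DFunLike.congr_fun h2 c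
    rw [Ultrafilter.eventually_exists_mem_iff t.finite_toSet] at h1
    obtain ⟨c, -, hc⟩ := h1
    obtain ⟨M, a, h⟩ := hrel c
    have h2 := hfix c a M h
    rw [← heq, mem_q] at h2
    obtain ⟨b, hb1, hb2, hb3⟩ := (h2.and (hc.and (hNlarge 0))).exists
    have h3 := key (N b - 1) b h
    rw [show N b - 1 + 1 = N b by omega] at h3
    rw [map_sub, map_mul, map_pow, ← h3, ← sub_mul] at hb1
    have h4 := (mul_eq_zero.mp hb1).resolve_right ((hs _ b).pow M).ne_zero
    exact hb2 (sub_eq_zero.mp h4)

end Pool.Agent.TH554.J64
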