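import Pool.Agent.TH371.Harm.Defs

/-!
# HARM3 (job 2813): the level curves at heights `0` and `π` end at the tips
-/

set_option autoImplicit false

namespace Pool.Agent.TH554.HarmTip

open Pool.Agent.TH371.Harm
open Complex Filter Topology Set

lemma im_FF (A B X h : ℝ) : (FF A B (X + h * I)).im =
    h * (B - A * X) + arg ((X : ℂ) + h * I + 1) := by
  unfold FF
  have h1 : (-((A : ℂ) / 2) * ((X : ℂ) + h * I) ^ 2 + B * (X + h * I)) =
      ((-(A / 2) * (X ^ 2 - h ^ 2) + B * X : ℝ) : ℂ) + ((h * (B - A * X) : ℝ) : ℂ) * I := by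
    push_cast
    linear_combination (-((A : ℂ) / 2) * h ^ 2) * I_sq
  rw [h1, add_im, log_im, add_im, ofReal_im, mul_I_im, ofReal_re, zero_add]

lemma arg_facts (Y h : ℝ) (hh : 0 < h) : 0 < arg ((Y : ℂ) + h * I) ∧
    arg ((Y : ℂ) + h * I) < Real.pi ∧
    Y * Real.sin (arg ((Y : ℂ) + h * I)) = h * Real.cos (arg ((Y : ℂ) + h * I)) := by
  obtain ⟨w, hw⟩ : ∃ w : ℂ, w = (Y : ℂ) + h * I := ⟨_, rfl⟩
  have hre : w.re = Y := by rw [hw]; simp
  have him : w.im = h := by rw [hw]; simp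
  rw [← hw]
  have h1 : 0 ≤ arg w := arg_nonneg_iff.2 (by rw [him]; exact hh.le)
  have h2 := norm_mul_cos_arg w
  have h3 := norm_mul_sin_arg w
  rw [hre] at h2
  rw [him] at h3
  refine ⟨lt_of_le_of_ne h1 fun h0 => ?_, lt_of_le_of_ne (arg_le_pi w) fun h0 => ?_, ?_⟩
  · rw [← h0, Real.sin_zero, mul_zero] at h3
    exact hh.ne h3
  · rw [h0, Real.sin_pi, mul_zero] at h3
    exact hh.ne h3
  · calc Y * Real.sin (arg w) = (‖w‖ * Real.sin (arg w)) * Real.cos (arg w) := by
          rw [← h2]; ring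
      _ = h * Real.cos (arg w) := by rw [h3]

lemma tend (A B t : ℝ) (hA : 0 < A) (ht : -1 < t) (h1 : -A * t + B + 1 / (t + 1) = 0)
    (X θ : ℝ → ℝ) (hθ : ∀ h : ℝ, 0 < h → 0 < θ h ∧ θ h < Real.pi ∧ h * (A * X h - B) = θ h ∧
      (X h + 1) * Real.sin (θ h) = h * Real.cos (θ h)) :
    Tendsto X (𝓝[>] 0) (𝓝 t) := by
  have ht1 : 0 < t + 1 := by linarith
  obtain ⟨p, hp⟩ : ∃ p : ℝ, p = A * t - B := ⟨_, rfl⟩
  have hpt : p * (t + 1) = 1 := by
    have : p = 1 / (t + 1) := by rw [hp]; linarith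
    rw [this]; field_simp
  have hp0 : 0 < p := pos_of_mul_pos_left (by rw [hpt]; exact one_pos) ht1.le
  -- bounds
  have key : ∀ h : ℝ, 0 < h → X h ≤ t ∧ ((p * h) ^ 2 ≤ 2 →
      t - (p * h) ^ 2 / (2 * (A * (t + 1))) ≤ X h) := by
    intro h hh
    obtain ⟨a1, a2, a3, a4⟩ := hθ h hh
    obtain ⟨u, hu⟩ : ∃ u, u = θ h := ⟨_, rfl⟩
    obtain ⟨x, hx⟩ : ∃ x, x = X h := ⟨_, rfl⟩
    rw [← hu] at a1 a2 a3 a4
    rw [← hx] at a3 a4 ⊢
    have hs : 0 < Real.sin u := Real.sin_pos_of_pos_of_lt_pi a1 a2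
    have hψ : 0 < A * x - B := by
      rcases lt_or_ge 0 (A * x - B) with hc | hc
      · exact hc
      · have : h * (A * x - B) ≤ 0 := mul_nonpos_of_nonneg_of_nonpos hh.le hc
        linarith
    have hg : (A * x - B) * (x + 1) * Real.sin u = u * Real.cos u := by
      calc (A * x - B) * (x + 1) * Real.sin u = (A * x - B) * ((x + 1) * Real.sin u) := by ring
        _ = (h * (A * x - B)) * Real.cos u := by rw [a4]; ring
        _ = u * Real.cos u := by rw [a3]
    have hle : u * Real.cos u ≤ Real.sin u := by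
      rcases le_or_gt (Real.cos u) 0 with hc | hc
      · exact (mul_nonpos_of_nonneg_of_nonpos a1.le hc).trans hs.le
      · have hu2 : u < Real.pi / 2 := by
          by_contra hcon
          have h5 := Real.cos_nonpos_of_pi_div_two_le_of_le (not_lt.1 hcon) (by linarith)
          linarith
        have h4 := Real.le_tan a1.le hu2
        rw [Real.tan_eq_sin_div_cos, le_div_iff₀ hc] at h4
        exact h4
    have hg1 : (A * x - B) * (x + 1) ≤ 1 := by
      by_contra hcon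
      have : Real.sin u < (A * x - B) * (x + 1) * Real.sin u := by
        nlinarith [not_le.1 hcon]
      linarith
    have hxt : x ≤ t := by
      by_contra hcon
      have hcon' := not_le.1 hcon
      have h5 : p < A * x - B := by
        have := mul_lt_mul_of_pos_left hcon' hA
        linarith
      have h6 : 1 < (A * x - B) * (x + 1) := by
        calc 1 = p * (t + 1) := hpt.symm
          _ < (A * x - B) * (x + 1) := mul_lt_mul'' h5 (by linarith) hp0.le ht1.le
      linarith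
    refine ⟨hxt, fun hsq => ?_⟩
    -- lower bound
    have hup : u ≤ p * h := by
      rw [← a3, hp]
      have := mul_le_mul_of_nonneg_left hxt hA.le
      nlinarith
    have hu2 : u ^ 2 ≤ (p * h) ^ 2 := pow_le_pow_left₀ a1.le hup 2
    have hc1 : 1 - u ^ 2 / 2 ≤ Real.cos u := Real.one_sub_sq_div_two_le_cos
    have hs1 : Real.sin u ≤ u := Real.sin_le a1.le
    have h7 : (1 - u ^ 2 / 2) * Real.sin u ≤ u * Real.cos u := by
      have h8 : 0 ≤ 1 - u ^ 2 / 2 := by linarith
      calc (1 - u ^ 2 / 2) * Real.sin u ≤ (1 - u ^ 2 / 2) * u :=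
            mul_le_mul_of_nonneg_left hs1 h8
        _ = u * (1 - u ^ 2 / 2) := mul_comm _ _
        _ ≤ u * Real.cos u := mul_le_mul_of_nonneg_left hc1 a1.le
    have h9 : 1 - u ^ 2 / 2 ≤ (A * x - B) * (x + 1) := by
      rw [← hg] at h7
      exact le_of_mul_le_mul_right h7 hs
    have h10 : A * (t - x) * (t + 1) + (A * x - B) * (t - x) =
        1 - (A * x - B) * (x + 1) := by
      have h14 : A * (t - x) * (t + 1) + (A * x - B) * (t - x) =
        (A * t - B) * (t + 1) - (A * x - B) * (x + 1) := by ring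
      rw [h14, ← hp, hpt]
    have h11 : 0 ≤ (A * x - B) * (t - x) := mul_nonneg hψ.le (by linarith)
    have h12 : (t - x) * (2 * (A * (t + 1))) ≤ (p * h) ^ 2 := by
      nlinarith
    have h13 : t - x ≤ (p * h) ^ 2 / (2 * (A * (t + 1))) := by
      rw [le_div_iff₀ (by positivity)]
      exact h12
    linarith
  have hlim : Tendsto (fun h : ℝ => t - (p * h) ^ 2 / (2 * (A * (t + 1)))) (𝓝[>] 0) (𝓝 t) := by
    have hc : Continuous fun h : ℝ => t - (p * h) ^ 2 / (2 * (A * (t + 1))) := by fun_prop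
    have h2 := hc.tendsto 0
    simp only [mul_zero, ne_eq, OfNat.ofNat_ne_zero, not_false_eq_true, zero_pow, zero_div,
      sub_zero] at h2
    exact h2.mono_left nhdsWithin_le_nhds
  have hlim2 : Tendsto (fun h : ℝ => (p * h) ^ 2) (𝓝[>] 0) (𝓝 0) := by
    have hc : Continuous fun h : ℝ => (p * h) ^ 2 := by fun_prop
    have h2 := hc.tendsto 0
    simp only [mul_zero, ne_eq, OfNat.ofNat_ne_zero, not_false_eq_true, zero_pow] at h2
    exact h2.mono_left nhdsWithin_le_nhds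
  refine tendsto_of_tendsto_of_tendsto_of_le_of_le' hlim tendsto_const_nhds ?_ ?_
  · filter_upwards [self_mem_nhdsWithin, hlim2.eventually_le_const (by norm_num : (0 : ℝ) < 2)]
      with h hh hh2
    exact (key h hh).2 hh2
  · filter_upwards [self_mem_nhdsWithin] with h hh
    exact (key h hh).1

theorem level_tip1 (A B t : ℝ) (hA : 0 < A) (ht : -1 < t) (h1 : -A * t + B + 1 / (t + 1) = 0)
    (X : ℝ → ℝ) (hX : ∀ h : ℝ, 0 < h → (FF A B (X h + h * I)).im = 0) :
    Tendsto X (𝓝[>] 0) (𝓝 t) := by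
  refine tend A B t hA ht h1 X (fun h => arg (((X h + 1 : ℝ) : ℂ) + h * I)) fun h hh => ?_
  have h2 := hX h hh
  rw [im_FF] at h2
  have h3 : (X h : ℂ) + h * I + 1 = ((X h + 1 : ℝ) : ℂ) + h * I := by push_cast; ring
  rw [h3] at h2
  obtain ⟨a1, a2, a3⟩ := arg_facts (X h + 1) h hh
  exact ⟨a1, a2, by linarith, a3⟩

theorem level_tip2 (A B t : ℝ) (hA : 0 < A) (ht : t < -1) (h1 : -A * t + B + 1 / (t + 1) = 0)
    (X : ℝ → ℝ) (hX : ∀ h : ℝ, 0 < h → (FF A B (X h + h * I)).im = Real.pi) :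
    Tendsto X (𝓝[>] 0) (𝓝 t) := by
  have hne : t + 1 ≠ 0 := by linarith
  have hne' : -2 - t + 1 ≠ 0 := by intro h; apply hne; linarith
  have h4 : 1 / (-2 - t + 1) = -(1 / (t + 1)) := by
    field_simp
    ring
  have h5 : Tendsto (fun h => -2 - X h) (𝓝[>] 0) (𝓝 (-2 - t)) := by
    refine tend A (-B - 2 * A) (-2 - t) hA (by linarith) (by rw [h4]; linarith) _
      (fun h => Real.pi - arg (((X h + 1 : ℝ) : ℂ) + h * I)) fun h hh => ?_
    have h2 := hX h hh
    rw [im_FF] at h2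
    have h3 : (X h : ℂ) + h * I + 1 = ((X h + 1 : ℝ) : ℂ) + h * I := by push_cast; ring
    rw [h3] at h2
    obtain ⟨a1, a2, a3⟩ := arg_facts (X h + 1) h hh
    refine ⟨by linarith, by linarith, ?_, ?_⟩
    · rw [← h2]; ring
    · rw [Real.sin_pi_sub, Real.cos_pi_sub]
      linear_combination -a3
  have h6 := (tendsto_const_nhds (x := (-2 : ℝ)) (f := 𝓝[>] (0 : ℝ))).sub h5
  have e1 : (fun h => (-2 : ℝ) - (-2 - X h)) = X := by funext h; ring
  rw [e1] at h6
  have e2 : (-2 : ℝ) - (-2 - t) = t := by ring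
  rw [e2] at h6
  exact h6

end Pool.Agent.TH554.HarmTip
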