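import Pool.Agent.TH480.J341

set_option autoImplicit false
set_option linter.unusedSectionVars false

namespace Pool.Agent.TH554.J343

open Finset Pool.Agent.TH492

universe u
variable {V : Type u} [Fintype V] [DecidableEq V]

/-- a star: centre `c`, targets `A ⊆ W`, for every target `w` the vertex set `P w` of a walk of
length `< R` from `c` to a neighbour of `w` avoiding `L`. -/
structure IsStar (G : SimpleGraph V) (L W : Finset V) (R : ℕ) (c : V) (A : Finset V)
    (P : V → Finset V) : Prop where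
  sub : A ⊆ W
  path : ∀ w ∈ A, ∃ (z : V) (q : G.Walk c z), q.length < R ∧ (∀ x, x ∈ P w ↔ x ∈ q.support) ∧
    (∀ x ∈ q.support, x ∉ L) ∧ G.Adj z w

theorem pre_walk {G : SimpleGraph V} {Q : Set V} {w : V} (hw : w ∈ Q) :
    ∀ {c z : V} (q : G.Walk c z), c ∉ Q → G.Adj z w →
    ∃ Pre : Set V, c ∈ Pre ∧ (∀ x ∈ Pre, x ∈ q.support) ∧ (∀ x ∈ Pre, x ∉ Q) ∧
      (∀ y ∈ Pre, ∃ p : G.Walk c y, p.length ≤ q.length ∧ ∀ x ∈ p.support, x ∈ Pre) ∧
      ∃ a ∈ Pre, ∃ b ∈ Q, G.Adj a b := by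
  intro c z q
  induction q with
  | nil =>
    intro hc hadj
    rename_i u
    refine ⟨{u}, rfl, ?_, ?_, ?_, u, rfl, w, hw, hadj⟩
    · rintro x rfl; simp
    · rintro x rfl; exact hc
    · rintro y rfl
      exact ⟨SimpleGraph.Walk.nil, by simp, by simp⟩
  | cons h q' ih =>
    rename_i u v' z'
    intro hc hadj
    by_cases hv : v' ∈ Q
    · refine ⟨{u}, rfl, ?_, ?_, ?_, u, rfl, v', hv, h⟩
      · rintro x rfl; simp
      · rintro x rfl; exact hc
      · rintro y rfl
        exact ⟨SimpleGraph.Walk.nil, by simp, by simp⟩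
    · obtain ⟨Pre, hP1, hP2, hP3, hP4, a, ha, b, hb, hab⟩ := ih hv hadj
      refine ⟨insert u Pre, Set.mem_insert _ _, ?_, ?_, ?_, a, Set.mem_insert_of_mem _ ha, b, hb, hab⟩
      · intro x hx
        rcases hx with rfl | hx
        · simp
        · simp [hP2 x hx]
      · intro x hx
        rcases hx with rfl | hx
        · exact hc
        · exact hP3 x hx
      · intro y hy
        rcases hy with rfl | hy
        · exact ⟨SimpleGraph.Walk.nil, by simp, by simp⟩
        · obtain ⟨p, hp1, hp2⟩ := hP4 y hy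
          refine ⟨SimpleGraph.Walk.cons h p, by simpa using hp1, ?_⟩
          intro x hx
          rw [SimpleGraph.Walk.support_cons, List.mem_cons] at hx
          rcases hx with rfl | hx
          · exact Set.mem_insert _ _
          · exact Set.mem_insert_of_mem _ (hp2 x hx)

/-- number of rich pairs -/
theorem count_rich {D n p a : ℕ} (hD : 1 ≤ D) (ha : 0 < a) (hn : n = D ^ 2 * (4 * p + 6))
    (W : Finset V) (haW : W.card = a) (A : Fin n → Finset V) (hA : ∀ i, A i ⊆ W)
    (hAc : ∀ i, W.card ≤ D * (A i).card) :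
    n * (p + 1) ≤ ((univ : Finset (Fin n × Fin n)).filter
      (fun e => e.1 < e.2 ∧ a ≤ 2 * D ^ 2 * (A e.1 ∩ A e.2).card)).card := by
  classical
  have hn0 : 0 < n := by rw [hn]; positivity
  set ρ := ((univ : Finset (Fin n × Fin n)).filter
      (fun e => e.1 < e.2 ∧ a ≤ 2 * D ^ 2 * (A e.1 ∩ A e.2).card)).card with hρ
  -- double counting
  have e1 : ∑ e : Fin n × Fin n, (A e.1 ∩ A e.2).card
      = ∑ w ∈ W, (∑ i, if w ∈ A i then 1 else 0) ^ 2 := by
    have h1 : ∀ e : Fin n × Fin n, (A e.1 ∩ A e.2).card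
        = ∑ w ∈ W, (if w ∈ A e.1 then 1 else 0) * (if w ∈ A e.2 then 1 else 0) := by
      intro e
      have : A e.1 ∩ A e.2 = W.filter (fun w => w ∈ A e.1 ∧ w ∈ A e.2) := by
        ext w
        simp only [mem_inter, mem_filter]
        constructor
        · rintro ⟨h1, h2⟩; exact ⟨hA e.1 h1, h1, h2⟩
        · rintro ⟨_, h1, h2⟩; exact ⟨h1, h2⟩
      rw [this, card_filter]
      refine sum_congr rfl fun w _ => ?_
      by_cases h1 : w ∈ A e.1 <;> by_cases h2 : w ∈ A e.2 <;> simp [h1, h2]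
    simp_rw [h1]
    rw [sum_comm]
    refine sum_congr rfl fun w _ => ?_
    rw [sq, sum_mul_sum, ← univ_product_univ, sum_product]
  have e2 : ∑ i, (A i).card = ∑ w ∈ W, ∑ i, (if w ∈ A i then 1 else 0) := by
    rw [sum_comm]
    refine sum_congr rfl fun i _ => ?_
    rw [← card_filter]
    congr 1
    ext w
    simp only [mem_filter]
    exact ⟨fun h => ⟨hA i h, h⟩, fun h => h.2⟩
  have e3 : (∑ i, (A i).card) ^ 2 ≤ a * ∑ e : Fin n × Fin n, (A e.1 ∩ A e.2).card := by
    rw [e1, e2, ← haW]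
    have := sq_sum_le_card_mul_sum_sq (s := W) (f := fun w => ((∑ i, (if w ∈ A i then 1 else 0) : ℕ) : ℤ))
    exact_mod_cast this
  have e4 : n * a ≤ D * ∑ i, (A i).card := by
    rw [mul_sum]
    calc n * a = ∑ _i : Fin n, a := by simp
      _ ≤ _ := sum_le_sum fun i _ => haW ▸ hAc i
  have e5 : n ^ 2 * a ≤ D ^ 2 * ∑ e : Fin n × Fin n, (A e.1 ∩ A e.2).card := by
    have h1 : (n * a) ^ 2 ≤ (D * ∑ i, (A i).card) ^ 2 := Nat.pow_le_pow_left e4 2
    have h2 : a * (n ^ 2 * a) ≤ a * (D ^ 2 * ∑ e : Fin n × Fin n, (A e.1 ∩ A e.2).card) := by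
      calc a * (n ^ 2 * a) = (n * a) ^ 2 := by ring
        _ ≤ _ := h1
        _ = D ^ 2 * (∑ i, (A i).card) ^ 2 := by ring
        _ ≤ D ^ 2 * (a * ∑ e : Fin n × Fin n, (A e.1 ∩ A e.2).card) := Nat.mul_le_mul_left _ e3
        _ = _ := by ring
    exact Nat.le_of_mul_le_mul_left h2 ha
  -- splitting
  have hcardle : ∀ i j, (A i ∩ A j).card ≤ a := fun i j =>
    haW ▸ card_le_card (inter_subset_left.trans (hA i))
  have e6 : ∑ e : Fin n × Fin n, 2 * (D ^ 2 * (A e.1 ∩ A e.2).card) ≤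
      ∑ e : Fin n × Fin n, ((if e.1 = e.2 then 2 * D ^ 2 * a else 0) +
        (if e.1 < e.2 ∧ a ≤ 2 * D ^ 2 * (A e.1 ∩ A e.2).card then 2 * D ^ 2 * a else 0) +
        (if e.2 < e.1 ∧ a ≤ 2 * D ^ 2 * (A e.2 ∩ A e.1).card then 2 * D ^ 2 * a else 0) +
        (if e.1 ≠ e.2 then a else 0)) := by
    refine sum_le_sum fun e _ => ?_
    have h1 : 2 * (D ^ 2 * (A e.1 ∩ A e.2).card) ≤ 2 * D ^ 2 * a := by
      rw [mul_assoc]
      exact Nat.mul_le_mul_left _ (Nat.mul_le_mul_left _ (hcardle _ _))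
    rcases lt_trichotomy e.1 e.2 with h | h | h
    · by_cases hr : a ≤ 2 * D ^ 2 * (A e.1 ∩ A e.2).card
      · simp only [h.ne, h, hr, and_self, if_true, if_false]
        omega
      · have h2 : 2 * (D ^ 2 * (A e.1 ∩ A e.2).card) ≤ a := by
          have := (not_le.mp hr).le
          rw [mul_assoc] at this
          exact this
        simp only [h.ne, h, hr, ne_eq, not_false_eq_true, and_false, if_true, if_false]
        omega
    · simp only [h, if_true]
      have h1' := h1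
      rw [h] at h1'
      omega
    · rw [inter_comm (A e.1)] at h1 ⊢
      by_cases hr : a ≤ 2 * D ^ 2 * (A e.2 ∩ A e.1).card
      · simp only [h.ne', h, hr, and_self, if_true, if_false]
        omega
      · have h2 : 2 * (D ^ 2 * (A e.2 ∩ A e.1).card) ≤ a := by
          have := (not_le.mp hr).le
          rw [mul_assoc] at this
          exact this
        simp only [h.ne', h, hr, ne_eq, not_false_eq_true, and_false, if_true, if_false]
        omega
  rw [sum_add_distrib, sum_add_distrib, sum_add_distrib, ← sum_filter, ← sum_filter, ← sum_filter,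
    ← sum_filter, sum_const, sum_const, sum_const, sum_const, smul_eq_mul, smul_eq_mul, smul_eq_mul,
    smul_eq_mul, ← mul_sum, ← mul_sum] at e6
  have c1 : ((univ : Finset (Fin n × Fin n)).filter (fun e => e.1 = e.2)).card = n := by
    have : (univ : Finset (Fin n × Fin n)).filter (fun e => e.1 = e.2)
        = (univ : Finset (Fin n)).map ⟨fun i => (i, i), fun i j h => by simpa using h⟩ := by
      ext ⟨i, j⟩
      simp only [mem_filter, mem_univ, true_and, mem_map]
      constructor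
      · rintro rfl; exact ⟨i, rfl⟩
      · rintro ⟨k, hk⟩
        have h1 : (k, k) = (i, j) := hk
        simp only [Prod.mk.injEq] at h1
        exact h1.1.symm.trans h1.2
    rw [this, card_map, card_univ, Fintype.card_fin]
  have c2 : ((univ : Finset (Fin n × Fin n)).filter (fun e => e.1 ≠ e.2)).card + n = n * n := by
    have h := card_filter_add_card_filter_not (s := (univ : Finset (Fin n × Fin n))) (fun e => e.1 = e.2)
    rw [c1, card_univ, Fintype.card_prod, Fintype.card_fin] at h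
    simp only [ne_eq]
    omega
  have c3 : ((univ : Finset (Fin n × Fin n)).filter
      (fun e => e.2 < e.1 ∧ a ≤ 2 * D ^ 2 * (A e.2 ∩ A e.1).card)).card = ρ := by
    rw [hρ]
    refine card_bij (fun e _ => (e.2, e.1)) ?_ ?_ ?_
    · intro e he; simpa using he
    · rintro ⟨i, j⟩ _ ⟨i', j'⟩ _ h
      simp only [Prod.mk.injEq] at h
      simp [h.1, h.2]
    · rintro ⟨i, j⟩ h
      exact ⟨(j, i), by simpa using h, rfl⟩
  rw [c1, c3] at e6
  set M := ((univ : Finset (Fin n × Fin n)).filter (fun e => e.1 ≠ e.2)).card with hM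
  set S := ∑ e : Fin n × Fin n, (A e.1 ∩ A e.2).card with hS
  -- 2 n^2 a ≤ 2 D^2 S ≤ 2 D^2 n a + 4 D^2 ρ a + M a
  have f1 : 2 * (n ^ 2 * a) ≤ n * (2 * D ^ 2 * a) + ρ * (2 * D ^ 2 * a) + ρ * (2 * D ^ 2 * a) + M * a := by
    refine le_trans (Nat.mul_le_mul_left 2 e5) e6
  have f2 : a * (2 * n ^ 2) ≤ a * (2 * D ^ 2 * n + 4 * D ^ 2 * ρ + M) := by
    nlinarith [f1]
  have f3 := Nat.le_of_mul_le_mul_left f2 ha
  have f4 : n ^ 2 + n ≤ 2 * D ^ 2 * n + 4 * D ^ 2 * ρ := by nlinarith [f3, c2]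
  have f5 : n ^ 2 = D ^ 2 * (4 * p + 6) * n := by
    rw [sq, ← hn]
  have hD2 : 0 < D ^ 2 := by positivity
  have f6 : D ^ 2 * (4 * (n * (p + 1))) ≤ D ^ 2 * (4 * ρ) := by
    nlinarith [f4, f5]
  have := Nat.le_of_mul_le_mul_left f6 hD2
  omega


theorem sum_le_of_star {R D n K a : ℕ} (hR : 1 ≤ R) (hn0 : 0 < n)
    (hK : K = 2048 * D ^ 4 * n ^ 5 * R ^ 2) {S : ℕ} (h : K * S ≤ n * R ^ 2 * a ^ 2) :
    2048 * D ^ 4 * n ^ 4 * S ≤ a ^ 2 := by
  have h1 : (n * R ^ 2) * (2048 * D ^ 4 * n ^ 4 * S) ≤ (n * R ^ 2) * a ^ 2 := by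
    calc (n * R ^ 2) * (2048 * D ^ 4 * n ^ 4 * S) = K * S := by rw [hK]; ring
      _ ≤ _ := h
  exact Nat.le_of_mul_le_mul_left h1 (by positivity)

open Classical in
/-- pairs of conflicting targets of two stars -/
theorem conf_count (A A' : Finset V) (P P' : V → Finset V) :
    ((A ×ˢ A').filter (fun x : V × V => ¬ Disjoint (P x.1) (P' x.2))).card ≤
      ∑ v : V, (A.filter (fun w => v ∈ P w)).card * (A'.filter (fun w => v ∈ P' w)).card := by
  have : (A ×ˢ A').filter (fun x : V × V => ¬ Disjoint (P x.1) (P' x.2)) ⊆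
      univ.biUnion (fun v => (A.filter (fun w => v ∈ P w)) ×ˢ (A'.filter (fun w => v ∈ P' w))) := by
    intro x hx
    rw [mem_filter, mem_product, not_disjoint_iff] at hx
    obtain ⟨⟨h1, h2⟩, v, hv1, hv2⟩ := hx
    simp only [mem_biUnion, mem_univ, true_and, mem_product, mem_filter]
    exact ⟨v, ⟨h1, hv1⟩, h2, hv2⟩
  refine (card_le_card this).trans (card_biUnion_le.trans (le_of_eq ?_))
  exact sum_congr rfl fun v _ => card_product _ _

/-- A3 -/
theorem stars_false {G : SimpleGraph V} {r p R D n K : ℕ} (hd : Dens G r p) (hRr : R ≤ r)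
    (hR : 1 ≤ R) (hD : 1 ≤ D) (hn : n = D ^ 2 * (4 * p + 6))
    (hK : K = 2048 * D ^ 4 * n ^ 5 * R ^ 2) (L W : Finset V) (hWL : W ⊆ L)
    (hW : 512 * D ^ 4 * n ^ 4 ≤ W.card)
    (c : Fin n → V) (A : Fin n → Finset V) (P : Fin n → V → Finset V)
    (h1 : ∀ i, IsStar G L W R (c i) (A i) (P i) ∧ W.card ≤ D * (A i).card)
    (h2 : ∀ i j, i ≠ j → c i ≠ c j)
    (h3 : ∀ i j, i ≠ j → K * ∑ x : V, ((A i).filter (fun w => x ∈ P i w)).card *
        ((A j).filter (fun w => x ∈ P j w)).card ≤ n * R ^ 2 * W.card ^ 2) : False := by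
  classical
  have hn0 : 0 < n := by rw [hn]; positivity
  obtain ⟨a, ha⟩ : ∃ a, W.card = a := ⟨_, rfl⟩
  rw [ha] at hW
  have ha0 : 0 < a := lt_of_lt_of_le (by positivity) hW
  have hcP : ∀ i, ∀ w ∈ A i, c i ∈ P i w := by
    intro i w hw
    obtain ⟨z, q, hq, hP, _, _⟩ := (h1 i).1.path w hw
    exact (hP _).2 q.start_mem_support
  have hPL : ∀ i, ∀ w ∈ A i, ∀ x ∈ P i w, x ∉ L := by
    intro i w hw x hx
    obtain ⟨z, q, hq, hP, hL, _⟩ := (h1 i).1.path w hw
    exact hL x ((hP x).1 hx)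
  have hac : ∀ i, a ≤ D * (A i).card := fun i => ha ▸ (h1 i).2
  have hAne : ∀ i, 0 < (A i).card := by
    intro i
    rcases Nat.eq_zero_or_pos (A i).card with h | h
    · have := hac i; rw [h, mul_zero] at this; omega
    · exact h
  have hcL : ∀ i, c i ∉ L := by
    intro i
    obtain ⟨w, hw⟩ := card_pos.1 (hAne i)
    exact hPL i w hw _ (hcP i w hw)
  have hov : ∀ i j, i ≠ j → 2048 * D ^ 4 * n ^ 4 * (∑ x : V, ((A i).filter (fun w => x ∈ P i w)).card *
        ((A j).filter (fun w => x ∈ P j w)).card) ≤ a ^ 2 := by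
    intro i j hij
    exact sum_le_of_star hR hn0 hK (ha ▸ h3 i j hij)
  have hl : ∀ i k, k ≠ i → 2048 * D ^ 3 * n ^ 4 * ((A i).filter (fun w => c k ∈ P i w)).card ≤ a := by
    intro i k hki
    have e1 := hov i k hki.symm
    have e2 : ((A i).filter (fun w => c k ∈ P i w)).card * (A k).card ≤
        ∑ x : V, ((A i).filter (fun w => x ∈ P i w)).card *
        ((A k).filter (fun w => x ∈ P k w)).card := by
      have e3 : (A k).filter (fun w => c k ∈ P k w) = A k := by
        rw [filter_eq_self]; exact fun w hw => hcP k w hw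
      calc _ = ((A i).filter (fun w => c k ∈ P i w)).card * ((A k).filter (fun w => c k ∈ P k w)).card := by
            rw [e3]
        _ ≤ _ := single_le_sum (f := fun x => ((A i).filter (fun w => x ∈ P i w)).card *
            ((A k).filter (fun w => x ∈ P k w)).card) (fun _ _ => Nat.zero_le _) (mem_univ (c k))
    set l := ((A i).filter (fun w => c k ∈ P i w)).card
    have e4 : a * (2048 * D ^ 3 * n ^ 4 * l) ≤ a * a := by
      calc a * (2048 * D ^ 3 * n ^ 4 * l) ≤ (D * (A k).card) * (2048 * D ^ 3 * n ^ 4 * l) :=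
            Nat.mul_le_mul_right _ (hac k)
        _ = 2048 * D ^ 4 * n ^ 4 * (l * (A k).card) := by ring
        _ ≤ _ := Nat.mul_le_mul_left _ e2
        _ ≤ a ^ 2 := e1
        _ = a * a := sq a
    exact Nat.le_of_mul_le_mul_left e4 ha0
  -- rich pairs
  let E := {e : Fin n × Fin n // e.1 < e.2 ∧ a ≤ 2 * D ^ 2 * (A e.1 ∩ A e.2).card}
  have hEcard : n * (p + 1) ≤ Fintype.card E := by
    have := count_rich hD ha0 hn W ha A (fun i => (h1 i).1.sub) (fun i => (h1 i).2)
    rwa [← Fintype.card_subtype] at this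
  let en : E → Bool → Fin n := fun e s => if s then e.1.2 else e.1.1
  let Z : E → Finset V := fun e => A e.1.1 ∩ A e.1.2
  have hZ : ∀ e s, ∀ w ∈ Z e, w ∈ A (en e s) := by
    intro e s w hw
    cases s
    · exact (mem_inter.1 hw).1
    · exact (mem_inter.1 hw).2
  let bad : E → V → Prop := fun e w => ∃ s k, k ≠ en e s ∧ c k ∈ P (en e s) w
  let conf : E → V → E → V → Prop := fun e w e' w' =>
    w = w' ∨ ∃ s t, en e s ≠ en e' t ∧ ¬ Disjoint (P (en e s) w) (P (en e' t) w')
  have hsymm : ∀ e w e' w', conf e w e' w' → conf e' w' e w := by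
    rintro e w e' w' (h | ⟨s, t, h, h'⟩)
    · exact Or.inl h.symm
    · exact Or.inr ⟨t, s, h.symm, fun hh => h' hh.symm⟩
  have hN : Fintype.card E ≤ n ^ 2 := by
    have := Fintype.card_subtype_le (fun e : Fin n × Fin n => e.1 < e.2 ∧ a ≤ 2 * D ^ 2 * (A e.1 ∩ A e.2).card)
    rw [Fintype.card_prod, Fintype.card_fin, ← sq] at this
    exact this
  have g0 : ∀ e, 16 * D ^ 2 * ((Z e).filter (fun w => bad e w)).card ≤ a := by
    intro e
    have s1 : (Z e).filter (fun w => bad e w) ⊆ (univ : Finset (Bool × Fin n)).biUnion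
        (fun sk => if sk.2 ≠ en e sk.1 then (A (en e sk.1)).filter (fun w => c sk.2 ∈ P (en e sk.1) w)
          else ∅) := by
      intro w hw
      rw [mem_filter] at hw
      obtain ⟨hwZ, s, k, hk, hck⟩ := hw
      simp only [mem_biUnion, mem_univ, true_and]
      refine ⟨(s, k), ?_⟩
      simp only [hk, ne_eq, not_false_eq_true, if_true, mem_filter]
      exact ⟨hZ e s w hwZ, hck⟩
    have s2 : 2048 * D ^ 3 * n ^ 4 * ((Z e).filter (fun w => bad e w)).card ≤ 2 * n * a := by
      calc _ ≤ 2048 * D ^ 3 * n ^ 4 * ∑ sk : Bool × Fin n, (if sk.2 ≠ en e sk.1 then (A (en e sk.1)).filter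
            (fun w => c sk.2 ∈ P (en e sk.1) w) else ∅).card :=
            Nat.mul_le_mul_left _ ((card_le_card s1).trans card_biUnion_le)
        _ ≤ ∑ sk : Bool × Fin n, a := by
            rw [mul_sum]
            refine sum_le_sum fun sk _ => ?_
            by_cases hk : sk.2 ≠ en e sk.1
            · rw [if_pos hk]
              exact hl _ _ hk
            · rw [if_neg hk]; simp
        _ = 2 * n * a := by simp
    set b := ((Z e).filter (fun w => bad e w)).card
    have s3 : 2 * n * (1024 * D ^ 3 * n ^ 3 * b) ≤ 2 * n * a := by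
      calc _ = 2048 * D ^ 3 * n ^ 4 * b := by ring
        _ ≤ _ := s2
    have s4 := Nat.le_of_mul_le_mul_left s3 (by positivity)
    refine le_trans ?_ s4
    refine Nat.mul_le_mul_right _ ?_
    have s5 : 1 ≤ D * n ^ 3 := Nat.one_le_iff_ne_zero.2 (by positivity)
    calc 16 * D ^ 2 ≤ 1024 * D ^ 2 := Nat.mul_le_mul_right _ (by norm_num)
      _ = 1024 * D ^ 2 * 1 := by ring
      _ ≤ 1024 * D ^ 2 * (D * n ^ 3) := Nat.mul_le_mul_left _ s5
      _ = _ := by ring
  set q := a ^ 2 / (2048 * D ^ 4 * n ^ 4) with hq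
  have g1 : ∀ e e', e ≠ e' →
      (((Z e) ×ˢ (Z e')).filter (fun x : V × V => conf e x.1 e' x.2)).card ≤ a + 4 * q := by
    intro e e' _
    have s1 : ((Z e) ×ˢ (Z e')).filter (fun x : V × V => conf e x.1 e' x.2) ⊆
        W.image (fun w => (w, w)) ∪ (univ : Finset (Bool × Bool)).biUnion (fun st =>
          if en e st.1 ≠ en e' st.2 then ((A (en e st.1)) ×ˢ (A (en e' st.2))).filter
            (fun x : V × V => ¬ Disjoint (P (en e st.1) x.1) (P (en e' st.2) x.2)) else ∅) := by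
      intro x hx
      rw [mem_filter, mem_product] at hx
      obtain ⟨⟨hx1, hx2⟩, h | ⟨s, t, hst, hdis⟩⟩ := hx
      · refine mem_union_left _ (mem_image.2 ⟨x.1, ?_, ?_⟩)
        · exact (h1 _).1.sub (hZ e false _ hx1)
        · exact Prod.ext rfl h
      · refine mem_union_right _ (mem_biUnion.2 ⟨(s, t), mem_univ _, ?_⟩)
        simp only [hst, ne_eq, not_false_eq_true, if_true, mem_filter, mem_product]
        exact ⟨⟨hZ e s _ hx1, hZ e' t _ hx2⟩, hdis⟩
    refine (card_le_card s1).trans ((card_union_le _ _).trans (add_le_add ?_ ?_))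
    · exact ha ▸ card_image_le
    · refine card_biUnion_le.trans ?_
      calc _ ≤ ∑ st : Bool × Bool, q := by
            refine sum_le_sum fun st _ => ?_
            by_cases hst : en e st.1 ≠ en e' st.2
            · rw [if_pos hst]
              rw [hq, Nat.le_div_iff_mul_le (by positivity), mul_comm]
              exact (Nat.mul_le_mul_left _ (conf_count _ _ _ _)).trans (hov _ _ hst)
            · rw [if_neg hst]; simp
        _ = 4 * q := by simp
  have hq2 : 2048 * D ^ 4 * n ^ 4 * q ≤ a ^ 2 := by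
    rw [mul_comm]; exact Nat.div_mul_le_self _ _
  have g3 : 16 * D ^ 2 * (n ^ 2 * (a + 4 * q) * (16 * D ^ 2 * n ^ 2)) ≤ a * a := by
    have s1 : 512 * D ^ 4 * n ^ 4 * a ≤ a * a := Nat.mul_le_mul_right _ hW
    have s2 : 2 * (16 * D ^ 2 * (n ^ 2 * (a + 4 * q) * (16 * D ^ 2 * n ^ 2)))
      = 512 * D ^ 4 * n ^ 4 * a + 2048 * D ^ 4 * n ^ 4 * q := by ring
    rw [sq] at hq2
    omega
  obtain ⟨ω, hω1, hω2⟩ := Pool.Agent.TH480.J341.selection Z bad conf hsymm a (D ^ 2) (n ^ 2) (a + 4 * q) ha0 hN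
    (fun e => by convert g0 e) (fun e e' h => by convert g1 e e' h) (fun e => e.2.2) g3
  have hωA : ∀ e s, ω e ∈ A (en e s) := fun e s => hZ e s _ (hω1 e).1
  have hωL : ∀ e, ω e ∈ L := fun e => hWL ((h1 _).1.sub (hωA e false))
  have hpre : ∀ e : E, ∃ Pre : Set V, c e.1.1 ∈ Pre ∧ (∀ x ∈ Pre, x ∈ P e.1.1 (ω e)) ∧
      (∀ x ∈ Pre, ¬ (x ∈ P e.1.2 (ω e) ∨ x = ω e)) ∧
      (∀ y ∈ Pre, ∃ p : G.Walk (c e.1.1) y, p.length ≤ R ∧ ∀ x ∈ p.support, x ∈ Pre) ∧
      ∃ a ∈ Pre, ∃ b, (b ∈ P e.1.2 (ω e) ∨ b = ω e) ∧ G.Adj a b := by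
    intro e
    obtain ⟨z, q, hq, hP, hL, hadj⟩ := (h1 e.1.1).1.path (ω e) (hωA e false)
    have hc : c e.1.1 ∉ {x | x ∈ P e.1.2 (ω e) ∨ x = ω e} := by
      rintro (h | h)
      · exact (hω1 e).2 ⟨true, e.1.1, e.2.1.ne, h⟩
      · exact hcL e.1.1 (h ▸ hωL e)
    obtain ⟨Pre, hP1, hP2, hP3, hP4, a, ha, b, hb, hab⟩ :=
      pre_walk (Q := {x | x ∈ P e.1.2 (ω e) ∨ x = ω e}) (w := ω e) (Or.inr rfl) q hc hadj
    refine ⟨Pre, hP1, fun x hx => (hP x).2 (hP2 x hx), hP3, ?_, a, ha, b, hb, hab⟩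
    intro y hy
    obtain ⟨p, hp1, hp2⟩ := hP4 y hy
    exact ⟨p, by omega, hp2⟩
  choose Pre hPre1 hPre2 hPre3 hPre4 hPre5 using hpre
  let B : Fin n → Set V := fun i => {x | x = c i ∨ (∃ e : E, e.1.1 = i ∧ x ∈ Pre e) ∨
    (∃ e : E, e.1.2 = i ∧ (x ∈ P i (ω e) ∨ x = ω e))}
  have hpiece : ∀ i x, x ∈ B i → x = c i ∨ ∃ (e : E) (s : Bool), en e s = i ∧
      (x ∈ P i (ω e) ∨ x = ω e) ∧ (s = false → x ∈ Pre e) := by
    rintro i x (h | ⟨e, he, hx⟩ | ⟨e, he, hx⟩)
    · exact Or.inl h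
    · exact Or.inr ⟨e, false, he, Or.inl (he ▸ hPre2 e x hx), fun _ => hx⟩
    · exact Or.inr ⟨e, true, he, hx, by simp⟩
  have hdisj : ∀ i j, i ≠ j → Disjoint (B i) (B j) := by
    intro i j hij
    rw [Set.disjoint_left]
    intro x hxi hxj
    rcases hpiece i x hxi with hi | ⟨e, s, hes, hx, hxs⟩
    · rcases hpiece j x hxj with hj | ⟨e', s', hes', hx', _⟩
      · exact h2 i j hij (hi.symm.trans hj)
      · subst hi
        rcases hx' with hx' | hx'
        · refine (hω1 e').2 ⟨s', i, ?_, ?_⟩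
          · rw [hes']; exact hij
          · rw [hes']; exact hx'
        · exact hcL i (hx' ▸ hωL e')
    · rcases hpiece j x hxj with hj | ⟨e', s', hes', hx', hxs'⟩
      · subst hj
        rcases hx with hx | hx
        · refine (hω1 e).2 ⟨s, j, ?_, ?_⟩
          · rw [hes]; exact hij.symm
          · rw [hes]; exact hx
        · exact hcL j (hx ▸ hωL e)
      · by_cases hee : e = e'
        · subst hee
          have hss : s ≠ s' := by
            rintro rfl; exact hij (hes.symm.trans hes')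
          cases s
          · have hs' : s' = true := by
              cases s'
              · exact absurd rfl hss
              · rfl
            subst hs'
            have hj : e.1.2 = j := hes'
            exact hPre3 e x (hxs rfl) (by rw [hj]; exact hx')
          · have hs' : s' = false := by
              cases s'
              · rfl
              · exact absurd rfl hss
            subst hs'
            have hi : e.1.2 = i := hes
            exact hPre3 e x (hxs' rfl) (by rw [hi]; exact hx)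
        · have hc := hω2 e e' hee
          have hc1 : ω e ≠ ω e' := fun h => hc (Or.inl h)
          have hc2 : Disjoint (P i (ω e)) (P j (ω e')) := by
            by_contra h
            refine hc (Or.inr ⟨s, s', ?_, ?_⟩)
            · rw [hes, hes']; exact hij
            · rw [hes, hes']; exact h
          rcases hx with hx | hx <;> rcases hx' with hx' | hx'
          · exact (Finset.disjoint_left.1 hc2) hx hx'
          · have := hPL i (ω e) (hes ▸ hωA e s) x hx
            exact this (hx' ▸ hωL e')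
          · have := hPL j (ω e') (hes' ▸ hωA e' s') x hx'
            exact this (hx ▸ hωL e)
          · exact hc1 (hx.symm.trans hx')
  have hrad : ∀ i, ∃ x ∈ B i, ∀ y ∈ B i, ∃ p : G.Walk x y, p.length ≤ r ∧ ∀ w ∈ p.support, w ∈ B i := by
    intro i
    refine ⟨c i, Or.inl rfl, ?_⟩
    rintro y (h | ⟨e, he, hx⟩ | ⟨e, he, hx⟩)
    · subst h
      exact ⟨SimpleGraph.Walk.nil, by simp, fun w hw => Or.inl (by simpa using hw)⟩
    · obtain ⟨p, hp1, hp2⟩ := hPre4 e y hx
      subst he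
      exact ⟨p, hp1.trans hRr, fun w hw => Or.inr (Or.inl ⟨e, rfl, hp2 w hw⟩)⟩
    · obtain ⟨z, q, hq, hP, hL, hadj⟩ := (h1 i).1.path (ω e) (he ▸ hωA e true)
      rcases hx with hx | hx
      · have hyq := (hP y).1 hx
        refine ⟨q.takeUntil y hyq, ?_, ?_⟩
        · have := q.length_takeUntil_le_length hyq
          omega
        · intro w hw
          exact Or.inr (Or.inr ⟨e, he, Or.inl ((hP w).2 (q.support_takeUntil_subset_support hyq hw))⟩)
      · subst hx
        refine ⟨q.concat hadj, ?_, ?_⟩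
        · rw [SimpleGraph.Walk.length_concat]; omega
        · intro w hw
          rw [SimpleGraph.Walk.support_concat, List.mem_append] at hw
          rcases hw with hw | hw
          · exact Or.inr (Or.inr ⟨e, he, Or.inl ((hP w).2 hw)⟩)
          · exact Or.inr (Or.inr ⟨e, he, Or.inr (by simpa using hw)⟩)
  let H : SimpleGraph (Fin n) :=
    { Adj := fun i j => ∃ e : E, (e.1.1 = i ∧ e.1.2 = j) ∨ (e.1.1 = j ∧ e.1.2 = i)
      symm := ⟨by
        rintro i j ⟨e, h | h⟩
        · exact ⟨e, Or.inr h⟩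
        · exact ⟨e, Or.inl h⟩⟩
      loopless := ⟨by
        rintro i ⟨e, ⟨h, h'⟩ | ⟨h, h'⟩⟩
        · exact e.2.1.ne (h.trans h'.symm)
        · exact e.2.1.ne (h.trans h'.symm)⟩ }
  have hadjE : ∀ e : E, ∃ a ∈ B e.1.1, ∃ b ∈ B e.1.2, G.Adj a b := by
    intro e
    obtain ⟨a, ha, b, hb, hab⟩ := hPre5 e
    exact ⟨a, Or.inr (Or.inl ⟨e, rfl, ha⟩), b, Or.inr (Or.inr ⟨e, rfl, hb⟩), hab⟩
  have hH := hd n H B hdisj hrad (by
    rintro i j ⟨e, ⟨h, h'⟩ | ⟨h, h'⟩⟩
    · obtain ⟨a, ha, b, hb, hab⟩ := hadjE e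
      exact ⟨a, h ▸ ha, b, h' ▸ hb, hab⟩
    · obtain ⟨a, ha, b, hb, hab⟩ := hadjE e
      exact ⟨b, h' ▸ hb, a, h ▸ ha, hab.symm⟩)
  have hinj : Function.Injective (fun e : E => s(e.1.1, e.1.2)) := by
    intro e e' h
    have h' : s(e.1.1, e.1.2) = s(e'.1.1, e'.1.2) := h
    rw [Sym2.eq_iff] at h'
    rcases h' with ⟨h1, h2⟩ | ⟨h1, h2⟩
    · exact Subtype.ext (Prod.ext h1 h2)
    · exfalso
      have a1 := e.2.1
      have a2 := e'.2.1
      rw [h1, h2] at a1
      exact absurd a1 (not_lt.2 a2.le)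
  have hsub : Set.range (fun e : E => s(e.1.1, e.1.2)) ⊆ H.edgeSet := by
    rintro _ ⟨e, rfl⟩
    exact ⟨e, Or.inl ⟨rfl, rfl⟩⟩
  have hcard : Fintype.card E ≤ H.edgeSet.ncard := by
    have := Set.ncard_le_ncard hsub (Set.toFinite _)
    rw [Set.ncard_eq_toFinset_card', Set.toFinset_range, card_image_of_injective _ hinj, card_univ] at this
    exact this
  have : n * (p + 1) ≤ p * n := hEcard.trans (hcard.trans hH)
  nlinarith

end Pool.Agent.TH554.J343
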