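import Pool.Agent.TH547.Arc.Surf
set_option autoImplicit false

namespace Pool.Agent.TH554.J1158

open Pool.Agent.TH547.Arc
open Finset Equiv

/-! ### Partial sums -/

theorem take_succ_sum (δ : List ℕ) (i : ℕ) (hi : i < δ.length) :
    (δ.take (i + 1)).sum = (δ.take i).sum + δ[i] := by
  rw [List.take_succ_eq_append_getElem hi, List.sum_append, List.sum_singleton]

theorem take_mono (δ : List ℕ) {i j : ℕ} (h : i ≤ j) : (δ.take i).sum ≤ (δ.take j).sum := by
  induction j, h using Nat.le_induction with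
  | base => exact le_rfl
  | succ j _ ih =>
    by_cases hj : j < δ.length
    · rw [take_succ_sum δ j hj]; omega
    · have e1 : δ.take (j + 1) = δ := List.take_of_length_le (by omega)
      have e2 : δ.take j = δ := List.take_of_length_le (by omega)
      rw [e1]
      rw [e2] at ih
      exact ih

theorem take_len (δ : List ℕ) : (δ.take δ.length).sum = δ.sum := by rw [List.take_length]

theorem take_le (δ : List ℕ) (i : ℕ) (hi : i ≤ δ.length) : (δ.take i).sum ≤ δ.sum := by
  rw [← take_len δ]; exact take_mono δ hi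

theorem exists_dec (δ : List ℕ) : ∀ n, n < δ.sum →
    ∃ (i : ℕ) (hi : i < δ.length) (j : ℕ), j < δ[i] ∧ n = (δ.take i).sum + j := by
  induction δ with
  | nil => intro n hn; simp at hn
  | cons d δ ih =>
    intro n hn
    rw [List.sum_cons] at hn
    by_cases h : n < d
    · exact ⟨0, by simp, n, by simpa using h, by simp⟩
    · obtain ⟨i, hi, j, hj, he⟩ := ih (n - d) (by omega)
      refine ⟨i + 1, by simpa using hi, j, by simpa using hj, ?_⟩
      rw [List.take_succ_cons, List.sum_cons]
      omega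

theorem dec_unique (δ : List ℕ) {i k j l : ℕ} (hi : i < δ.length) (hk : k < δ.length)
    (hj : j < δ[i]) (hl : l < δ[k]) (h : (δ.take i).sum + j = (δ.take k).sum + l) : i = k := by
  have h1 := take_succ_sum δ i hi
  have h2 := take_succ_sum δ k hk
  rcases lt_trichotomy i k with h3 | h3 | h3
  · have := take_mono δ (Nat.succ_le_of_lt h3)
    rw [Nat.succ_eq_add_one] at this
    omega
  · exact h3
  · have := take_mono δ (Nat.succ_le_of_lt h3)
    rw [Nat.succ_eq_add_one] at this
    omega

/-! ### The list of last points -/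

theorem lasts_len (δ : List ℕ) : ∀ k, (lasts k δ).length = δ.length := by
  induction δ with
  | nil => intro k; rfl
  | cons d δ ih => intro k; simp [lasts, ih]

theorem lasts_get (δ : List ℕ) : ∀ (k i : ℕ) (hi : i < (lasts k δ).length),
    (lasts k δ)[i] = k + (δ.take (i + 1)).sum - 1 := by
  induction δ with
  | nil => intro k i hi; simp [lasts] at hi
  | cons d δ ih =>
    intro k i hi
    rcases i with _ | i
    · simp [lasts]
    · have hi' : i < (lasts (k + d) δ).length := by simpa [lasts] using hi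
      have := ih (k + d) i hi'
      rw [List.take_succ_cons, List.sum_cons]
      have e : (lasts k (d :: δ))[i + 1] = (lasts (k + d) δ)[i] := rfl
      rw [e, this]
      omega

/-- the reversed list of last points -/
def Ls (δ : List ℕ) : List Sy := ((lasts 0 δ).map mr).reverse

theorem Ls_len (δ : List ℕ) : (Ls δ).length = δ.length := by simp [Ls, lasts_len]

theorem Ls_get (δ : List ℕ) (i : ℕ) (hi : i < (Ls δ).length) :
    (Ls δ)[i] = mr ((δ.take (δ.length - i)).sum - 1) := by
  have hl := Ls_len δ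
  have hi' : i < ((lasts 0 δ).map mr).reverse.length := hi
  have e : (Ls δ)[i]'hi = (((lasts 0 δ).map mr).reverse)[i]'hi' := rfl
  refine e.trans ?_
  rw [List.getElem_reverse, List.getElem_map, lasts_get]
  have e2 : ((lasts 0 δ).map mr).length - 1 - i + 1 = δ.length - i := by
    rw [List.length_map, lasts_len]
    omega
  rw [e2, zero_add]

theorem Ls_nodup (δ : List ℕ) (hδ : ∀ d ∈ δ, 1 ≤ d) : (Ls δ).Nodup := by
  rw [List.nodup_iff_injective_get]
  intro a b hab
  have hl := Ls_len δ
  have ha := a.2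
  have hb := b.2
  rw [List.get_eq_getElem, List.get_eq_getElem, Ls_get, Ls_get] at hab
  have h1 : (δ.take (δ.length - a.1)).sum - 1 = (δ.take (δ.length - b.1)).sum - 1 := by
    simpa using hab
  -- strictly increasing
  have hst : ∀ i j : ℕ, i < j → j ≤ δ.length → (δ.take i).sum < (δ.take j).sum := by
    intro i j hij hj
    have h2 := take_succ_sum δ i (by omega)
    have h3 := take_mono δ (Nat.succ_le_of_lt hij)
    rw [Nat.succ_eq_add_one] at h3
    have h4 := hδ (δ[i]'(by omega)) (List.getElem_mem _)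
    omega
  have hp : ∀ i : ℕ, 0 < i → i ≤ δ.length → 1 ≤ (δ.take i).sum := by
    intro i hi hi2
    have := hst 0 i hi hi2
    simp at this
    omega
  have ha1 := hp (δ.length - a.1) (by omega) (by omega)
  have hb1 := hp (δ.length - b.1) (by omega) (by omega)
  apply Fin.ext
  rcases lt_trichotomy a.1 b.1 with h | h | h
  · have := hst (δ.length - b.1) (δ.length - a.1) (by omega) (by omega)
    omega
  · exact h
  · have := hst (δ.length - a.1) (δ.length - b.1) (by omega) (by omega)
    omega

theorem muF_perm (δ : List ℕ) (n : ℕ) (hn : n < δ.sum) :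
    (muF δ).x.formPerm (mr n) = mr ((n + 1) % δ.sum) := by
  have h1 := List.formPerm_apply_getElem (muF δ).x (muF δ).nd n (by simpa [muF] using hn)
  simpa [muF] using h1

theorem flip_mr (n : ℕ) : flipS (mr n) = mr n := rfl

theorem thF_mr (δ : List ℕ) (n : ℕ) : thF δ (mr n) = (Ls δ).formPerm (mr n) := by
  unfold thF Ls
  rw [Perm.mul_apply, flip_mr]

/-- description of the face permutation of the surface without arcs -/
theorem fp_surf (δ : List ℕ) (hδ : ∀ d ∈ δ, 1 ≤ d) (i : ℕ) (hi : i < δ.length) (j : ℕ)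
    (hj : j < δ[i]) : fp (thF δ) (muF δ).x (mr ((δ.take i).sum + j)) =
      mr ((δ.take i).sum + (if j + 1 = δ[i] then 0 else j + 1)) := by
  have hs := take_succ_sum δ i hi
  have hN := take_le δ (i + 1) hi
  have hll := Ls_len δ
  unfold fp
  rw [Perm.mul_apply, thF_mr]
  by_cases hlast : j + 1 = δ[i]
  · rw [if_pos hlast, add_zero]
    have hn : (δ.take i).sum + j = (δ.take (i + 1)).sum - 1 := by omega
    have hidx : δ.length - 1 - i < (Ls δ).length := by omega
    have h1 : mr ((δ.take i).sum + j) = (Ls δ)[δ.length - 1 - i] := by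
      rw [Ls_get, hn]
      congr 3
      congr 1
      omega
    rw [h1, List.formPerm_apply_getElem _ (Ls_nodup δ hδ), Ls_get, hll]
    by_cases h0 : i = 0
    · subst h0
      have e1 : (δ.length - 1 - 0 + 1) % δ.length = 0 := by
        have : δ.length - 1 - 0 + 1 = δ.length := by omega
        rw [this, Nat.mod_self]
      rw [e1, Nat.sub_zero, take_len, muF_perm δ _ (by omega)]
      have e2 : (δ.sum - 1 + 1) % δ.sum = 0 := by
        have : δ.sum - 1 + 1 = δ.sum := by omega
        rw [this, Nat.mod_self]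
      rw [e2]
      simp
    · have e1 : (δ.length - 1 - i + 1) % δ.length = δ.length - i := by
        have : δ.length - 1 - i + 1 = δ.length - i := by omega
        rw [this, Nat.mod_eq_of_lt (by omega)]
      have e3 : δ.length - (δ.length - i) = i := by omega
      rw [e1, e3]
      have hp : 1 ≤ (δ.take i).sum := by
        have h2 := take_succ_sum δ 0 (by omega)
        have h3 := take_mono δ (show 1 ≤ i by omega)
        have h4 := hδ (δ[0]'(by omega)) (List.getElem_mem _)
        simp only [zero_add] at h2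
        omega
      rw [muF_perm δ _ (by omega)]
      have e4 : (δ.take i).sum - 1 + 1 = (δ.take i).sum := by omega
      rw [e4, Nat.mod_eq_of_lt (by omega)]
  · rw [if_neg hlast]
    have hnot : mr ((δ.take i).sum + j) ∉ Ls δ := by
      intro hmem
      obtain ⟨k, hk, he⟩ := List.getElem_of_mem hmem
      rw [Ls_get] at he
      have he' : (δ.take (δ.length - k)).sum - 1 = (δ.take i).sum + j := by simpa using he
      rcases Nat.lt_or_ge i (δ.length - k) with h | h
      · have := take_mono δ (Nat.succ_le_of_lt h)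
        rw [Nat.succ_eq_add_one] at this
        omega
      · have := take_mono δ h
        have h5 : 1 ≤ (δ.take (δ.length - k)).sum := by
          have h2 := take_succ_sum δ 0 (by omega)
          have h3 := take_mono δ (show 1 ≤ δ.length - k by omega)
          have h4 := hδ (δ[0]'(by omega)) (List.getElem_mem _)
          simp only [zero_add] at h2
          omega
        omega
    rw [List.formPerm_apply_of_notMem hnot, muF_perm δ _ (by omega), Nat.mod_eq_of_lt (by omega),
      add_assoc]

/-- the points of a component -/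
def Bk (δ : List ℕ) (i : ℕ) : Finset Sy :=
  (Finset.range (δ.getD i 0)).image (fun j => mr ((δ.take i).sum + j))

theorem mem_Bk {δ : List ℕ} {i : ℕ} (hi : i < δ.length) {s : Sy} :
    s ∈ Bk δ i ↔ ∃ j, j < δ[i] ∧ s = mr ((δ.take i).sum + j) := by
  unfold Bk
  rw [List.getD_eq_getElem _ _ hi]
  simp only [Finset.mem_image, Finset.mem_range]
  constructor
  · rintro ⟨j, h1, h2⟩; exact ⟨j, h1, h2.symm⟩
  · rintro ⟨j, h1, h2⟩; exact ⟨j, h1, h2.symm⟩

theorem Bk_inv {δ : List ℕ} (hδ : ∀ d ∈ δ, 1 ≤ d) {i : ℕ} (hi : i < δ.length) :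
    ∀ s ∈ Bk δ i, fp (thF δ) (muF δ).x s ∈ Bk δ i := by
  intro s hs
  obtain ⟨j, hj, rfl⟩ := (mem_Bk hi).1 hs
  rw [fp_surf δ hδ i hi j hj, mem_Bk hi]
  refine ⟨_, ?_, rfl⟩
  split_ifs <;> omega

theorem sc_first {δ : List ℕ} (hδ : ∀ d ∈ δ, 1 ≤ d) {i : ℕ} (hi : i < δ.length) :
    ∀ j, j < δ[i] → (fp (thF δ) (muF δ).x).SameCycle (mr ((δ.take i).sum)) (mr ((δ.take i).sum + j)) := by
  intro j
  induction j with
  | zero => intro _; exact Perm.SameCycle.refl _ _
  | succ j ih =>
    intro hj
    have h1 := ih (by omega)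
    have h2 := fp_surf δ hδ i hi j (by omega)
    rw [if_neg (by omega)] at h2
    rw [← h2]
    exact Perm.sameCycle_apply_right.2 h1

theorem mem_mu {δ : List ℕ} {s : Sy} : s ∈ (muF δ).x ↔ ∃ n, n < δ.sum ∧ s = mr n := by
  simp only [muF, List.mem_map, List.mem_range]
  constructor
  · rintro ⟨n, h1, h2⟩; exact ⟨n, h1, h2.symm⟩
  · rintro ⟨n, h1, h2⟩; exact ⟨n, h1, h2.symm⟩

theorem mem_mu' {δ : List ℕ} {s : Sy} (hs : s ∈ (muF δ).x) :
    ∃ (i : ℕ) (hi : i < δ.length) (j : ℕ), j < δ[i] ∧ s = mr ((δ.take i).sum + j) := by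
  obtain ⟨n, hn, rfl⟩ := mem_mu.1 hs
  obtain ⟨i, hi, j, hj, rfl⟩ := exists_dec δ n hn
  exact ⟨i, hi, j, hj, rfl⟩

theorem mu_of {δ : List ℕ} {i : ℕ} (hi : i < δ.length) {j : ℕ} (hj : j < δ[i]) :
    mr ((δ.take i).sum + j) ∈ (muF δ).x := by
  have hs := take_succ_sum δ i hi
  have hN := take_le δ (i + 1) hi
  exact mem_mu.2 ⟨_, by omega, rfl⟩

theorem sc_iff {δ : List ℕ} (hδ : ∀ d ∈ δ, 1 ≤ d) {i k : ℕ} (hi : i < δ.length)
    (hk : k < δ.length) (h : (fp (thF δ) (muF δ).x).SameCycle (mr ((δ.take i).sum))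
      (mr ((δ.take k).sum))) : i = k := by
  have hi1 := hδ δ[i] (List.getElem_mem _)
  have hk1 := hδ δ[k] (List.getElem_mem _)
  have h1 : mr ((δ.take i).sum) ∈ Bk δ i := (mem_Bk hi).2 ⟨0, hi1, rfl⟩
  have h2 := Pool.Agent.TH286.J761.sc_mem _ (Bk δ i) (Bk_inv hδ hi) h1 h
  obtain ⟨j, hj, he⟩ := (mem_Bk hi).1 h2
  have he' : (δ.take k).sum + 0 = (δ.take i).sum + j := by simpa using he
  exact (dec_unique δ hk hi hk1 hj he').symm

/-- the number of boundary cycles of the surface without arcs is the number of boundary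
components -/
theorem surf_ncy (δ : List ℕ) (hδ : ∀ d ∈ δ, 1 ≤ d) :
    ncy (fp (thF δ) (muF δ).x) (muF δ).x.toFinset = δ.length := by
  classical
  set σ := fp (thF δ) (muF δ).x with hσ
  set A := (muF δ).x.toFinset with hA
  rw [Pool.Agent.TH286.J768.ncy_eq]
  have h1 : A.image (fun s => A.filter (fun t => σ.SameCycle s t)) =
      (Finset.range δ.length).image (fun i => A.filter (fun t => σ.SameCycle (mr ((δ.take i).sum)) t)) := by
    ext C
    simp only [Finset.mem_image, Finset.mem_range]
    constructor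
    · rintro ⟨s, hs, rfl⟩
      obtain ⟨i, hi, j, hj, rfl⟩ := mem_mu' (List.mem_toFinset.1 hs)
      refine ⟨i, hi, ?_⟩
      have h2 := sc_first hδ hi j hj
      refine Finset.filter_congr fun t _ => ?_
      exact ⟨fun h => h2.symm.trans h, fun h => h2.trans h⟩
    · rintro ⟨i, hi, rfl⟩
      have hi1 := hδ δ[i] (List.getElem_mem _)
      refine ⟨mr ((δ.take i).sum), ?_, rfl⟩
      have := mu_of hi (j := 0) hi1
      exact List.mem_toFinset.2 this
  rw [h1, Finset.card_image_of_injOn, Finset.card_range]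
  intro i hi k hk hik
  rw [Finset.mem_coe, Finset.mem_range] at hi hk
  have hk1 := hδ δ[k] (List.getElem_mem _)
  have h3 : mr ((δ.take k).sum) ∈ A.filter (fun t => σ.SameCycle (mr ((δ.take k).sum)) t) := by
    refine Finset.mem_filter.2 ⟨?_, Perm.SameCycle.refl _ _⟩
    have := mu_of hk (j := 0) hk1
    exact List.mem_toFinset.2 this
  have hik' : A.filter (fun t => σ.SameCycle (mr ((δ.take i).sum)) t) =
    A.filter (fun t => σ.SameCycle (mr ((δ.take k).sum)) t) := hik
  rw [← hik'] at h3
  exact sc_iff hδ hi hk (Finset.mem_filter.1 h3).2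

theorem surf_good (g : ℕ) (δ : List ℕ) (s : ℕ) (hne : δ ≠ []) (hδ : ∀ d ∈ δ, 1 ≤ d) :
    RW.Good (thF δ) (surf g δ s) := by
  classical
  have hfp : ∀ s ∈ (muF δ).x, fp (thF δ) (muF δ).x s ∈ (muF δ).x := by
    intro s hs
    obtain ⟨i, hi, j, hj, rfl⟩ := mem_mu' hs
    rw [fp_surf δ hδ i hi j hj]
    apply mu_of hi
    split_ifs <;> omega
  refine ⟨fun t ht => ⟨ht, hfp t ht⟩, fun t ht => ⟨g, ?_⟩, fun t ht u hu _ => ⟨ht, hu⟩, ?_⟩
  · have ht' : t ∈ (muF δ).x := ht
    have hc : (surf g δ s).cls t = (muF δ).x.toFinset := by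
      unfold RW.cls
      refine Finset.filter_true_of_mem fun u hu => ?_
      exact ⟨ht', List.mem_toFinset.1 hu⟩
    have hw : (surf g δ s).w.x = (muF δ).x := rfl
    have hχ : (surf g δ s).χ t = 2 - 2 * g - δ.length := by
      show (if t ∈ (muF δ).x then _ else _) = _
      rw [if_pos ht']
    rw [hc, hw, surf_ncy δ hδ, hχ]
    ring
  · have hN : 1 ≤ δ.sum := by
      obtain ⟨d, δ', rfl⟩ := List.exists_cons_of_ne_nil hne
      have := hδ d (by simp)
      rw [List.sum_cons]
      omega
    obtain ⟨n, hn⟩ : ∃ n, δ.sum = n + 1 := ⟨δ.sum - 1, by omega⟩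
    refine ⟨(List.range n).map mr, n, ?_⟩
    show (List.range δ.sum).map mr = _
    rw [hn, List.range_succ, List.map_append]
    rfl

end Pool.Agent.TH554.J1158
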