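import Pool.Agent.TH722.AF.Base
import Pool.Agent.TH722.FI.JU
import Pool.Agent.TH480.FI.FI_ENTGEN
import Pool.Agent.TH395.AF_BALL

/-!
Job 1917 (project AF, MP_46d37e_an): generating labels are generating in terms of entropy.
-/

namespace Pool.Agent.TH554.AFGENB

open MeasureTheory Set Filter Pool.Agent.TH722.FI Pool.Agent.TH722.AF
open scoped Topology ENNReal
open Pool.Agent.TH395.AFB (ball_lab)
open Pool.Agent.TH480.FI (ent_gen)


section
variable {r : ℕ} {X : Type*} [MeasurableSpace X] {μ : Measure X}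
  {α β γ δ : Type*}

theorem comap_ball_le (T : FreeGroup (Fin r) → X → X) (l : X → α) (g : FreeGroup (Fin r)) :
    MeasurableSpace.comap (fun x => l (T g x)) ⊤ ≤
      MeasurableSpace.comap (ballLab T l g⁻¹.norm) ⊤ := by
  rintro _ ⟨A, -, rfl⟩
  refine ⟨{z | z ⟨g⁻¹, le_rfl⟩ ∈ A}, trivial, ?_⟩
  ext x
  simp [ballLab]

variable [IsProbabilityMeasure μ]

theorem gen_egen (T : FreeGroup (Fin r) → X → X) (hT : PmpAct μ T) {l : X → α} (hl : IsLab μ l)
    {q : X → γ} (hq : IsLab μ q)
    (hgen : ∀ B : Set X, MeasurableSet B → ∃ B' : Set X,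
      MeasurableSet[⨆ g, (MeasurableSpace.comap (fun x => l (T g x)) ⊤ ⊔
        MeasurableSpace.comap (fun x => q (T g x)) ⊤)] B' ∧ B =ᵐ[μ] B') :
    EGen μ (fun n x => (ballLab T l n x, ballLab T q n x)) := by
  intro c hc ε hε
  have hlab : ∀ n, IsLab μ (fun x => (ballLab T l n x, ballLab T q n x)) := fun n =>
    (Pool.Agent.TH480.FI.lab_pair (ball_lab T hT hl n).1 (ball_lab T hT hq n).1).1
  have hmono : ∀ n, Finer (fun x => (ballLab T l (n + 1) x, ballLab T q (n + 1) x))
      (fun x => (ballLab T l n x, ballLab T q n x)) := by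
    intro n x y hxy
    simp only [Prod.mk.injEq] at hxy ⊢
    exact ⟨(ball_lab T hT hl n).2.1 x y hxy.1, (ball_lab T hT hq n).2.1 x y hxy.2⟩
  have h := ent_gen (μ := μ) (fun n x => (ballLab T l n x, ballLab T q n x)) hlab hmono ?_ hc
  · have h1 := (h.eventually (ge_mem_nhds hε))
    rw [eventually_atTop] at h1
    exact h1
  · intro B hB
    obtain ⟨B', hB', hBB'⟩ := hgen B hB
    refine ⟨B', ?_, hBB'⟩
    have hle : (⨆ g, (MeasurableSpace.comap (fun x => l (T g x)) ⊤ ⊔
        MeasurableSpace.comap (fun x => q (T g x)) ⊤)) ≤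
        ⨆ n, MeasurableSpace.comap (fun x => (ballLab T l n x, ballLab T q n x)) ⊤ := by
      refine iSup_le fun g => sup_le ?_ ?_
      · refine le_trans (comap_ball_le T l g) (le_trans ?_ (le_iSup _ g⁻¹.norm))
        rintro _ ⟨A, -, rfl⟩
        exact ⟨Prod.fst ⁻¹' A, trivial, rfl⟩
      · refine le_trans (comap_ball_le T q g) (le_trans ?_ (le_iSup _ g⁻¹.norm))
        rintro _ ⟨A, -, rfl⟩
        exact ⟨Prod.snd ⁻¹' A, trivial, rfl⟩
    exact hle B' hB'

theorem gen_egen' (T : FreeGroup (Fin r) → X → X) (hT : PmpAct μ T) {l : X → α} (hl : IsLab μ l)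
    (hgen : Gen μ T l) : EGen μ (fun n x => ballLab T l n x) := by
  intro c hc ε hε
  have hlab : ∀ n, IsLab μ (fun x => ballLab T l n x) := fun n => (ball_lab T hT hl n).1
  have hmono : ∀ n, Finer (fun x => ballLab T l (n + 1) x) (fun x => ballLab T l n x) := by
    intro n x y hxy
    exact (ball_lab T hT hl n).2.1 x y hxy
  have h := ent_gen (μ := μ) (fun n x => ballLab T l n x) hlab hmono ?_ hc
  · have h1 := (h.eventually (ge_mem_nhds hε))
    rw [eventually_atTop] at h1
    exact h1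
  · intro B hB
    obtain ⟨B', hB', hBB'⟩ := hgen B hB
    refine ⟨B', ?_, hBB'⟩
    have hle : (⨆ g, (MeasurableSpace.comap (fun x => l (T g x)) ⊤)) ≤
        ⨆ n, MeasurableSpace.comap (fun x => ballLab T l n x) ⊤ :=
      iSup_le fun g => le_trans (comap_ball_le T l g)
        (le_iSup (fun n => MeasurableSpace.comap (fun x => ballLab T l n x) ⊤) g⁻¹.norm)
    exact hle B' hB'

end

end Pool.Agent.TH554.AFGENB
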