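import Pool.Agent.TH722.AF.Base
import Pool.Agent.TH722.FI.JU
import Pool.Agent.TH395.AF_BALL

/-!
Job 1915 (project AF, MP_46d37e_an): independence of the relative f-invariant of the relative
generator.
-/

namespace Pool.Agent.TH554.AFREL

open MeasureTheory Set Filter Pool.Agent.TH722.FI Pool.Agent.TH722.AF
open scoped Topology ENNReal
open Pool.Agent.TH395.AFB (ball_lab ball_split bf_cont)


section
variable {r : ℕ} {X : Type*} [MeasurableSpace X] {μ : Measure X}
  {α β γ δ : Type*}

theorem ballLab_finer (T : FreeGroup (Fin r) → X → X) (c : X → γ) {m n : ℕ} (h : m ≤ n) :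
    Finer (ballLab T c n) (ballLab T c m) := by
  intro x y hxy
  funext k
  exact congrFun hxy ⟨k.1, k.2.trans h⟩

theorem ballLab_finer_self (T : FreeGroup (Fin r) → X → X) (hT : PmpAct μ T) (c : X → γ) (n : ℕ) :
    Finer (ballLab T c n) c := by
  intro x y hxy
  have h := congrFun hxy ⟨1, by simp⟩
  simp only [ballLab, inv_one, hT.one] at h
  exact h

variable [IsProbabilityMeasure μ]

/-- the generating property for arbitrary labels -/
theorem egen_lab {P : ℕ → Type*} {p : ∀ n, X → P n} (hp : EGen μ p) {c : X → δ}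
    (hc : IsLab μ c) (ε : ℝ) (hε : 0 < ε) : ∃ n0, ∀ n ≥ n0,
    ent μ (fun x => (p n x, c x)) - ent μ (p n) ≤ ε := by
  obtain ⟨f, hf⟩ := Set.countable_iff_exists_injOn.mp hc.cnt
  have h1 : Finer c (fun x => f (c x)) := by
    intro x y hxy
    simp only [hxy]
  have h2 : Finer (fun x => f (c x)) c := by
    intro x y hxy
    exact hf (mem_range_self x) (mem_range_self y) hxy
  obtain ⟨n0, hn0⟩ := hp (fun x => f (c x)) (isLab_congr hc h1) ε hε
  refine ⟨n0, fun n hn => ?_⟩
  have h3 : ent μ (fun x => (p n x, c x)) = ent μ (fun x => (p n x, f (c x))) := by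
    apply ent_congr
    · intro x y hxy
      simp only [Prod.mk.injEq] at hxy ⊢
      exact ⟨hxy.1, h1 _ _ hxy.2⟩
    · intro x y hxy
      simp only [Prod.mk.injEq] at hxy ⊢
      exact ⟨hxy.1, h2 _ _ hxy.2⟩
  rw [h3]
  exact hn0 n hn

theorem rel_indep (T : FreeGroup (Fin r) → X → X) (hT : PmpAct μ T) {l : X → α} (hl : IsLab μ l)
    {l' : X → β} (hl' : IsLab μ l') {q : X → γ} (hq : IsLab μ q)
    (hg : EGen μ (fun n x => (ballLab T l n x, ballLab T q n x)))
    (hg' : EGen μ (fun n x => (ballLab T l' n x, ballLab T q n x)))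
    (n : ℕ) (ε : ℝ) (hε : 0 < ε) :
    ∃ n', ∀ k ≥ n', ∃ m0, ∀ m ≥ m0,
      BF μ T (fun x => (ballLab T l' k x, ballLab T q m x)) ≤
        BF μ T (fun x => (ballLab T l n x, ballLab T q m x)) + ε := by
  obtain ⟨N0, hN0⟩ := egen_lab hg hl' (ε / 2) (by positivity)
  set N := max n N0 with hN
  have hlN : IsLab μ (ballLab T l N) := (ball_lab T hT hl N).1
  have hln : IsLab μ (ballLab T l n) := (ball_lab T hT hl n).1
  have hL : IsLab μ (fun x => (ballLab T l N x, l' x)) :=
    (Pool.Agent.TH480.FI.lab_pair hlN hl').1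
  set δ : ℝ := ε / 2 / (|2 * (r : ℝ) - 1| + 1) with hδ
  have hden : 0 < |2 * (r : ℝ) - 1| + 1 := by positivity
  have hδ0 : 0 < δ := by positivity
  have hδ1 : |2 * (r : ℝ) - 1| * δ ≤ ε / 2 := by
    have h1 : (|2 * (r : ℝ) - 1| + 1) * δ = ε / 2 := by
      rw [hδ]; field_simp
    nlinarith
  obtain ⟨n', hn'⟩ := egen_lab hg' hL δ hδ0
  refine ⟨n', fun k hk => ⟨max k (max N n'), fun m hm => ?_⟩⟩
  have hmN : N ≤ m := le_trans (le_trans (le_max_left _ _) (le_max_right _ _)) hm
  have hmn' : n' ≤ m := le_trans (le_trans (le_max_right _ _) (le_max_right _ _)) hm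
  have hqm : IsLab μ (ballLab T q m) := (ball_lab T hT hq m).1
  have hlk : IsLab μ (ballLab T l' k) := (ball_lab T hT hl' k).1
  have hP : IsLab μ (fun x => (ballLab T l' k x, ballLab T q m x)) :=
    (Pool.Agent.TH480.FI.lab_pair hlk hqm).1
  -- step 1
  have s1 := bf_cont T hT hL hP
  have s2 : ent μ (fun x => ((ballLab T l' k x, ballLab T q m x), (ballLab T l N x, l' x))) -
      ent μ (fun x => (ballLab T l' k x, ballLab T q m x)) ≤ δ := by
    have hPn : IsLab μ (fun x => (ballLab T l' n' x, ballLab T q n' x)) :=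
      (Pool.Agent.TH480.FI.lab_pair (ball_lab T hT hl' n').1 (ball_lab T hT hq n').1).1
    refine le_trans (cond_mono hP hPn hL ?_) (hn' n' le_rfl)
    intro x y hxy
    simp only [Prod.mk.injEq] at hxy ⊢
    exact ⟨ballLab_finer T l' hk x y hxy.1, ballLab_finer T q hmn' x y hxy.2⟩
  have s3 : 0 ≤ ent μ (fun x => ((ballLab T l' k x, ballLab T q m x), (ballLab T l N x, l' x))) -
      ent μ (fun x => (ballLab T l' k x, ballLab T q m x)) := by
    have h1 := (Pool.Agent.TH480.FI.lab_of_finer (Pool.Agent.TH480.FI.lab_pair hP hL).1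
      (b := fun x => (ballLab T l' k x, ballLab T q m x)) (fun x y hxy => by
        simp only [Prod.mk.injEq] at hxy ⊢
        exact hxy.1)).2
    linarith
  have s4 : (2 * (r : ℝ) - 1) *
      (ent μ (fun x => ((ballLab T l' k x, ballLab T q m x), (ballLab T l N x, l' x))) -
      ent μ (fun x => (ballLab T l' k x, ballLab T q m x))) ≤ ε / 2 := by
    refine le_trans (le_trans (mul_le_mul_of_nonneg_right (le_abs_self _) s3) ?_) hδ1
    exact mul_le_mul_of_nonneg_left s2 (abs_nonneg _)
  -- step 2
  have hLq : IsLab μ (fun x => ((ballLab T l N x, l' x), ballLab T q m x)) :=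
    (Pool.Agent.TH480.FI.lab_pair hL hqm).1
  have s5 : BF μ T (fun x => ((ballLab T l' k x, ballLab T q m x), (ballLab T l N x, l' x))) ≤
      BF μ T (fun x => ((ballLab T l N x, l' x), ballLab T q m x)) := by
    have h1 := ball_split T hT hLq (c := l') (fun x y hxy => by
      simp only [Prod.mk.injEq] at hxy
      exact hxy.1.2) k
    refine le_trans (le_of_eq ?_) h1
    apply BF_congr
    · intro x y hxy
      simp only [Prod.mk.injEq] at hxy ⊢
      tauto
    · intro x y hxy
      simp only [Prod.mk.injEq] at hxy ⊢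
      tauto
  -- step 3
  have hNq : IsLab μ (fun x => (ballLab T l N x, ballLab T q m x)) :=
    (Pool.Agent.TH480.FI.lab_pair hlN hqm).1
  have s6 : BF μ T (fun x => ((ballLab T l N x, l' x), ballLab T q m x)) ≤
      BF μ T (fun x => (ballLab T l N x, ballLab T q m x)) + ε / 2 := by
    have h1 := bf_join T hT hNq hl'
    have h2 : ent μ (fun x => ((ballLab T l N x, ballLab T q m x), l' x)) -
        ent μ (fun x => (ballLab T l N x, ballLab T q m x)) ≤ ε / 2 := by
      have hPn : IsLab μ (fun x => (ballLab T l N x, ballLab T q N x)) :=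
        (Pool.Agent.TH480.FI.lab_pair hlN (ball_lab T hT hq N).1).1
      refine le_trans (cond_mono hNq hPn hl' ?_) (hN0 N (le_max_right _ _))
      intro x y hxy
      simp only [Prod.mk.injEq] at hxy ⊢
      exact ⟨hxy.1, ballLab_finer T q hmN x y hxy.2⟩
    have h3 : BF μ T (fun x => ((ballLab T l N x, l' x), ballLab T q m x)) =
        BF μ T (fun x => ((ballLab T l N x, ballLab T q m x), l' x)) := by
      apply BF_congr
      · intro x y hxy
        simp only [Prod.mk.injEq] at hxy ⊢
        tauto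
      · intro x y hxy
        simp only [Prod.mk.injEq] at hxy ⊢
        tauto
    rw [h3]
    linarith
  -- step 4
  have hnq : IsLab μ (fun x => (ballLab T l n x, ballLab T q m x)) :=
    (Pool.Agent.TH480.FI.lab_pair hln hqm).1
  have s7 : BF μ T (fun x => (ballLab T l N x, ballLab T q m x)) ≤
      BF μ T (fun x => (ballLab T l n x, ballLab T q m x)) := by
    have h1 := ball_split T hT hnq (c := l) (fun x y hxy => by
      simp only [Prod.mk.injEq] at hxy
      exact ballLab_finer_self T hT l n x y hxy.1) N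
    refine le_trans (le_of_eq ?_) h1
    apply BF_congr
    · intro x y hxy
      simp only [Prod.mk.injEq] at hxy ⊢
      exact ⟨⟨ballLab_finer T l (le_max_left _ _) x y hxy.1, hxy.2⟩, hxy.1⟩
    · intro x y hxy
      simp only [Prod.mk.injEq] at hxy ⊢
      exact ⟨hxy.2, hxy.1.2⟩
  linarith

end

end Pool.Agent.TH554.AFREL
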