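import Pool.Agent.TH716.TW.Defs

set_option autoImplicit false

namespace Pool.Agent.TH554.J1417

open Pool.Agent.TH716.TW NumberField Polynomial IntermediateField

/-- the cubic polynomial -/
noncomputable def ff (R : Type) [CommRing R] : R[X] := X ^ 3 + X ^ 2 - 2 * X - 1

theorem ff_eq (R : Type) [CommRing R] : ff R = C 1 * X ^ 3 + C 1 * X ^ 2 + C (-2) * X + C (-1) := by
  unfold ff
  simp only [map_neg, map_one, one_mul]
  have : (C (2 : R) : R[X]) = 2 := map_ofNat C 2
  rw [this]
  ring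

theorem ff_natDegree (R : Type) [CommRing R] [Nontrivial R] : (ff R).natDegree = 3 := by
  rw [ff_eq]
  exact natDegree_cubic one_ne_zero

theorem ff_monic (R : Type) [CommRing R] [Nontrivial R] : (ff R).Monic := by
  rw [Monic, ff_eq, leadingCoeff_cubic one_ne_zero]

theorem ff_eval {R : Type} [CommRing R] (r : R) : (ff R).eval r = r ^ 3 + r ^ 2 - 2 * r - 1 := by
  simp [ff]

theorem no_int (n : ℤ) (h : n ^ 3 + n ^ 2 - 2 * n - 1 = 0) : False := by
  have h1 : n * (n ^ 2 + n - 2) = 1 := by linarith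
  have h2 : n = 1 ∨ n = -1 := Int.isUnit_iff.1 (IsUnit.of_mul_eq_one _ h1)
  rcases h2 with rfl | rfl <;> norm_num at h

theorem no_rat (r : ℚ) (h : r ^ 3 + r ^ 2 - 2 * r - 1 = 0) : False := by
  have hint : IsIntegral ℤ r := by
    refine ⟨ff ℤ, ff_monic ℤ, ?_⟩
    rw [← aeval_def]
    simp only [ff, map_sub, map_add, map_pow, aeval_X, map_mul, map_one, map_ofNat]
    linarith
  obtain ⟨n, hn⟩ := IsIntegrallyClosed.isIntegral_iff.1 hint
  have hn' : (n : ℚ) = r := by simpa using hn
  rw [← hn'] at h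
  exact no_int n (by exact_mod_cast h)

theorem irr_of_no_root {F : Type} [Field F] (h : ∀ r : F, r ^ 3 + r ^ 2 - 2 * r - 1 ≠ 0) :
    Irreducible (ff F) := by
  rw [(ff_monic F).irreducible_iff_roots_eq_zero_of_degree_le_three
    (by rw [ff_natDegree]; norm_num) (by rw [ff_natDegree])]
  rw [Multiset.eq_zero_iff_forall_notMem]
  intro r hr
  have := (mem_roots'.1 hr).2
  rw [IsRoot, ff_eval] at this
  exact h r this

theorem irrQ : Irreducible (ff ℚ) := irr_of_no_root fun r h => no_rat r h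

theorem no_K {K : Type} [Field K] [NumberField K] (h2 : Module.finrank ℚ K = 2) (r : K) :
    r ^ 3 + r ^ 2 - 2 * r - 1 ≠ 0 := by
  intro h
  have h1 : aeval r (ff ℚ) = 0 := by
    simp only [ff, map_sub, map_add, map_pow, aeval_X, map_mul, map_one, map_ofNat]
    exact h
  have h3 := minpoly.eq_of_irreducible_of_monic irrQ h1 (ff_monic ℚ)
  have h4 := minpoly.degree_dvd (K := ℚ) (L := K) (x := r) (IsIntegral.of_finite ℚ r)
  rw [← h3, ff_natDegree, h2] at h4
  omega

theorem result : S_aut := by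
  intro K M _ _ _ _ _ θ hS
  obtain ⟨h2, h3, _, _, hθ⟩ := hS
  set t : M := (θ : M) with ht
  have heq : t ^ 3 + t ^ 2 - 2 * t - 1 = 0 := by
    have := congrArg (algebraMap (𝓞 M) M) hθ
    simp only [map_sub, map_add, map_pow, map_mul, map_one, map_ofNat, map_zero] at this
    exact this
  have ht0 : aeval t (ff K) = 0 := by
    simp only [ff, map_sub, map_add, map_pow, aeval_X, map_mul, map_one, map_ofNat]
    exact heq
  have hirr : Irreducible (ff K) := irr_of_no_root (no_K h2)
  have hmin : minpoly K t = ff K :=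
    (minpoly.eq_of_irreducible_of_monic hirr ht0 (ff_monic K)).symm
  have hfin : FiniteDimensional K M := Module.finite_of_finrank_pos (by rw [h3]; norm_num)
  have htop : K⟮t⟯ = ⊤ := by
    rw [Field.primitive_element_iff_minpoly_natDegree_eq, hmin, ff_natDegree, h3]
  have hadj : Algebra.adjoin K {t} = ⊤ := by
    rw [← adjoin_simple_toSubalgebra_of_isAlgebraic (Algebra.IsAlgebraic.isAlgebraic t), htop]
    rfl
  let pb : PowerBasis K M := PowerBasis.ofAdjoinEqTop' (IsIntegral.of_finite K t) hadj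
  have hgen : pb.gen = t := PowerBasis.ofAdjoinEqTop'_gen _ _
  have hroot : aeval (t ^ 2 - 2) (minpoly K pb.gen) = 0 := by
    rw [hgen, hmin]
    simp only [ff, map_sub, map_add, map_pow, aeval_X, map_mul, map_one, map_ofNat]
    have e : (t ^ 2 - 2) ^ 3 + (t ^ 2 - 2) ^ 2 - 2 * (t ^ 2 - 2) - 1 =
      (t ^ 3 + t ^ 2 - 2 * t - 1) * (t ^ 3 - t ^ 2 - 2 * t + 1) := by ring
    rw [e, heq, zero_mul]
  let φ : M →ₐ[K] M := pb.lift (t ^ 2 - 2) hroot
  have hφt : φ t = t ^ 2 - 2 := by
    have := pb.lift_gen (t ^ 2 - 2) hroot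
    rwa [hgen] at this
  have hφb : Function.Bijective φ := Algebra.IsAlgebraic.algHom_bijective φ
  let τ : M ≃ₐ[K] M := AlgEquiv.ofBijective φ hφb
  have hτt : τ t = t ^ 2 - 2 := hφt
  have hτ2 : τ (τ t) = 1 - t - t ^ 2 := by
    rw [hτt, map_sub, map_pow, hτt, map_ofNat]
    have e : (t ^ 2 - 2) ^ 2 - 2 - (1 - t - t ^ 2) = (t ^ 3 + t ^ 2 - 2 * t - 1) * (t - 1) := by
      ring
    rw [heq, zero_mul, sub_eq_zero] at e
    exact e
  have hτ3 : τ (τ (τ t)) = t := by
    rw [hτ2, map_sub, map_sub, map_pow, map_one, hτt]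
    have e : 1 - (t ^ 2 - 2) - (t ^ 2 - 2) ^ 2 - t = -(t ^ 3 + t ^ 2 - 2 * t - 1) * (t - 1) := by
      ring
    rw [heq, neg_zero, zero_mul, sub_eq_zero] at e
    exact e
  have hτ3' : ∀ x, τ (τ (τ x)) = x := by
    have : ((τ.trans τ).trans τ : M ≃ₐ[K] M).toAlgHom = AlgHom.id K M := by
      refine pb.algHom_ext ?_
      rw [hgen]
      exact hτ3
    intro x
    exact DFunLike.congr_fun this x
  have hne : τ t ≠ t := by
    rw [hτt]
    intro h
    have h1 : (t - 2) * (t + 1) = 0 := by linear_combination h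
    rcases mul_eq_zero.1 h1 with h4 | h4
    · have h5 : t = 2 := by linear_combination h4
      rw [h5] at heq
      norm_num at heq
    · have h5 : t = -1 := by linear_combination h4
      rw [h5] at heq
      norm_num at heq
  have hne2 : τ (τ t) ≠ t := by
    intro h
    apply hne
    have h1 : τ (τ (τ t)) = τ t := congrArg τ h
    rw [hτ3] at h1
    exact h1.symm
  have hne3 : τ (τ t) ≠ τ t := fun h => hne (τ.injective h)
  classical
  let S : Finset (M ≃ₐ[K] M) := {AlgEquiv.refl, τ, τ.trans τ}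
  have hS3 : S.card = 3 := by
    rw [Finset.card_eq_three]
    refine ⟨AlgEquiv.refl, τ, τ.trans τ, ?_, ?_, ?_, rfl⟩
    · intro h
      exact hne (DFunLike.congr_fun h t).symm
    · intro h
      exact hne2 (DFunLike.congr_fun h t).symm
    · intro h
      exact hne3 (DFunLike.congr_fun h t).symm
  have hle : Fintype.card (M ≃ₐ[K] M) ≤ 3 := by
    rw [← h3]
    exact AlgEquiv.card_le
  have hSu : S = Finset.univ := by
    refine Finset.eq_univ_of_card S ?_
    have := Finset.card_le_univ S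
    omega
  have hgal : IsGalois K M := by
    refine IsGalois.of_card_aut_eq_finrank K M ?_
    rw [Nat.card_eq_fintype_card, h3, ← hS3, hSu]
    rfl
  have hnorm : ∀ x : M, algebraMap K M (Algebra.norm K x) = x * τ x * τ (τ x) := by
    intro x
    rw [Algebra.norm_eq_prod_automorphisms, ← hSu]
    rw [Finset.prod_insert, Finset.prod_insert, Finset.prod_singleton]
    · rw [← mul_assoc]
      rfl
    · rw [Finset.mem_singleton]
      intro h
      exact hne3 (DFunLike.congr_fun h t).symm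
    · rw [Finset.mem_insert, Finset.mem_singleton]
      rintro (h | h)
      · exact hne (DFunLike.congr_fun h t).symm
      · exact hne2 (DFunLike.congr_fun h t).symm
  let σ : 𝓞 M ≃ₐ[𝓞 K] 𝓞 M := NumberField.RingOfIntegers.mapAlgEquiv τ
  have hσ : ∀ x : 𝓞 M, ((σ x : 𝓞 M) : M) = τ x := fun x => rfl
  refine ⟨τ, σ, hσ, ?_, hτ3', hnorm⟩
  unfold Aut3
  apply RingOfIntegers.ext
  rw [hσ, ← ht, hτt]
  have : algebraMap (𝓞 M) M (θ ^ 2 - 2) = t ^ 2 - 2 := by
    simp only [map_sub, map_pow, map_ofNat]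
    rfl
  exact this.symm

end Pool.Agent.TH554.J1417
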