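import Pool.Agent.TH636.BC.Cd

set_option autoImplicit false

namespace Pool.Agent.TH554.J1548

open Pool.Agent.TH636.BC
open Pool.Agent.TH672 (Fm LogK num digits)

/-! ### Injectivity of the Gödel numbering -/

theorem gn_inj : Function.Injective gn := by
  intro φ
  induction φ with
  | bot => intro ψ h; cases ψ <;> simp_all [gn, Nat.pair_eq_pair]
  | eq x y => intro ψ h; cases ψ <;> simp_all [gn, Nat.pair_eq_pair]
  | zero x => intro ψ h; cases ψ <;> simp_all [gn, Nat.pair_eq_pair]
  | succ x y => intro ψ h; cases ψ <;> simp_all [gn, Nat.pair_eq_pair]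
  | add x y z => intro ψ h; cases ψ <;> simp_all [gn, Nat.pair_eq_pair]
  | mul x y z => intro ψ h; cases ψ <;> simp_all [gn, Nat.pair_eq_pair]
  | op i a b c d => intro ψ h; cases ψ <;> simp_all [gn, Nat.pair_eq_pair]
  | imp φ₁ φ₂ h1 h2 =>
    intro ψ h
    cases ψ <;> simp only [gn, Nat.pair_eq_pair] at h <;> try (exfalso; omega)
    rename_i ψ₁ ψ₂
    rw [h1 h.2.1, h2 h.2.2]
  | all x φ h1 =>
    intro ψ h
    cases ψ <;> simp only [gn, Nat.pair_eq_pair] at h <;> try (exfalso; omega)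
    rw [h.2.1, h1 h.2.2]

/-! ### All short lists with small entries -/

/-- all lists of length at most `n` with entries at most `b` -/
def lsts (b : ℕ) : ℕ → List (List ℕ)
  | 0 => [[]]
  | n + 1 => [] :: (lsts b n).flatMap fun l => (List.range (b + 1)).map fun a => a :: l

theorem mem_lsts (b : ℕ) (n : ℕ) (l : List ℕ) :
    l ∈ lsts b n ↔ l.length ≤ n ∧ ∀ a ∈ l, a ≤ b := by
  induction n generalizing l with
  | zero =>
    simp only [lsts, List.mem_singleton, Nat.le_zero, List.length_eq_zero_iff]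
    constructor
    · rintro rfl
      exact ⟨rfl, by simp⟩
    · exact fun h => h.1
  | succ n ih =>
    cases l with
    | nil => simp [lsts]
    | cons a l =>
      simp only [lsts, List.mem_cons, List.mem_flatMap, List.mem_map, List.mem_range,
        List.length_cons, reduceCtorEq, false_or]
      constructor
      · rintro ⟨l', hl', a', ha', h⟩
        rw [List.cons.injEq] at h
        obtain ⟨rfl, rfl⟩ := h
        obtain ⟨h1, h2⟩ := (ih l').1 hl'
        refine ⟨by omega, ?_⟩
        rintro x (rfl | hx)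
        · omega
        · exact h2 x hx
      · rintro ⟨h1, h2⟩
        exact ⟨l, (ih l).2 ⟨by omega, fun x hx => h2 x (Or.inr hx)⟩, a,
          by have := h2 a (Or.inl rfl); omega, rfl⟩

theorem lsts_eq (b n : ℕ) : lsts b n = Nat.rec (motive := fun _ => List (List ℕ)) [[]]
    (fun _ L => [] :: L.flatMap fun l => (List.range (b + 1)).map fun a => a :: l) n := by
  induction n with
  | zero => rfl
  | succ n ih => rw [lsts, ih]

theorem lsts_primrec : Primrec₂ lsts := by
  have h1 : Primrec₂ (fun (q : (ℕ × ℕ × List (List ℕ)) × List ℕ) (a : ℕ) => a :: q.2) :=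
    (Primrec.list_cons.comp Primrec.snd (Primrec.snd.comp Primrec.fst)).to₂
  have h2 : Primrec₂ (fun (p : ℕ × ℕ × List (List ℕ)) (l : List ℕ) =>
      (List.range (p.1 + 1)).map fun a => a :: l) := by
    refine Primrec.list_map (f := fun q : (ℕ × ℕ × List (List ℕ)) × List ℕ =>
      List.range (q.1.1 + 1)) ?_ h1
    exact Primrec.list_range.comp (Primrec.succ.comp (Primrec.fst.comp Primrec.fst))
  have h3 : Primrec (fun p : ℕ × ℕ × List (List ℕ) =>
      p.2.2.flatMap fun l => (List.range (p.1 + 1)).map fun a => a :: l) :=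
    Primrec.list_flatMap (Primrec.snd.comp Primrec.snd) h2
  have h4 : Primrec₂ (fun (b : ℕ) (p : ℕ × List (List ℕ)) =>
      ([] : List ℕ) :: p.2.flatMap fun l => (List.range (b + 1)).map fun a => a :: l) :=
    (Primrec.list_cons.comp (Primrec.const []) h3).to₂
  have h5 := Primrec.nat_rec (f := fun _ : ℕ => ([[]] : List (List ℕ))) (Primrec.const _) h4
  exact h5.of_eq fun b n => (lsts_eq b n).symm

/-! ### The steps of a proof -/

section

variable (L : ℕ → Bool)

/-- a step of a proof, on Gödel numbers -/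
def SG (G l : List ℕ) (b : ℕ) : Prop :=
  (∃ a ∈ G, a = b) ∨ L b = true ∨ (∃ a ∈ l, ∃ c ∈ l, c = Nat.pair 8 (Nat.pair a b)) ∨
    ∃ a ∈ l, b = Nat.pair 9 (Nat.pair b.unpair.2.unpair.1 a)

variable {L}

theorem sg_primrec (hL : Primrec L) : PrimrecPred fun p : List ℕ × List ℕ × ℕ =>
    SG L p.1 p.2.1 p.2.2 := by
  have hmem : PrimrecRel fun (l : List ℕ) (b : ℕ) => ∃ a ∈ l, a = b :=
    PrimrecRel.exists_mem_list (Primrec.eq (α := ℕ))
  have h1 : PrimrecPred fun p : List ℕ × List ℕ × ℕ => ∃ a ∈ p.1, a = p.2.2 :=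
    hmem.comp Primrec.fst (Primrec.snd.comp Primrec.snd)
  have h2 : PrimrecPred fun p : List ℕ × List ℕ × ℕ => L p.2.2 = true :=
    Primrec.eq.comp (hL.comp (Primrec.snd.comp Primrec.snd)) (Primrec.const true)
  have h3' : PrimrecRel fun (a : ℕ) (p : List ℕ × List ℕ × ℕ) =>
      ∃ c ∈ p.2.1, c = Nat.pair 8 (Nat.pair a p.2.2) := by
    refine PrimrecRel.comp (f := fun q : ℕ × List ℕ × List ℕ × ℕ => q.2.2.1)
      (g := fun q : ℕ × List ℕ × List ℕ × ℕ => Nat.pair 8 (Nat.pair q.1 q.2.2.2)) hmem ?_ ?_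
    · exact Primrec.fst.comp (Primrec.snd.comp Primrec.snd)
    · exact Primrec₂.natPair.comp (Primrec.const 8) (Primrec₂.natPair.comp Primrec.fst
        (Primrec.snd.comp (Primrec.snd.comp Primrec.snd)))
  have h3 : PrimrecPred fun p : List ℕ × List ℕ × ℕ =>
      ∃ a ∈ p.2.1, ∃ c ∈ p.2.1, c = Nat.pair 8 (Nat.pair a p.2.2) :=
    (PrimrecRel.exists_mem_list h3').comp (Primrec.fst.comp Primrec.snd) Primrec.id
  have h4' : PrimrecRel fun (a : ℕ) (b : ℕ) =>
      b = Nat.pair 9 (Nat.pair b.unpair.2.unpair.1 a) := by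
    refine PrimrecRel.comp (f := fun q : ℕ × ℕ => q.2)
      (g := fun q : ℕ × ℕ => Nat.pair 9 (Nat.pair q.2.unpair.2.unpair.1 q.1)) Primrec.eq
      Primrec.snd ?_
    exact Primrec₂.natPair.comp (Primrec.const 9) (Primrec₂.natPair.comp
      (Primrec.fst.comp (Primrec.unpair.comp (Primrec.snd.comp (Primrec.unpair.comp Primrec.snd))))
      Primrec.fst)
  have h4 : PrimrecPred fun p : List ℕ × List ℕ × ℕ =>
      ∃ a ∈ p.2.1, p.2.2 = Nat.pair 9 (Nat.pair p.2.2.unpair.2.unpair.1 a) :=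
    (PrimrecRel.exists_mem_list h4').comp (Primrec.fst.comp Primrec.snd)
      (Primrec.snd.comp Primrec.snd)
  exact h1.or (h2.or (h3.or h4))

open Classical in
/-- the list is a proof, on Gödel numbers -/
noncomputable def isPf (L : ℕ → Bool) (G π : List ℕ) : Bool :=
  List.recOn (motive := fun _ => Bool) π true fun b l IH => IH && decide (SG L G l b)

theorem isPf_primrec (hL : Primrec L) : Primrec₂ (isPf L) := by
  classical
  have h1 := (sg_primrec hL).decide
  unfold isPf
  refine Primrec.list_rec (f := fun p : List ℕ × List ℕ => p.2)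
    (g := fun _ : List ℕ × List ℕ => true)
    (h := fun (p : List ℕ × List ℕ) (q : ℕ × List ℕ × Bool) => q.2.2 && decide (SG L p.1 q.2.1 q.1))
    Primrec.snd (Primrec.const true) ?_
  refine Primrec.and.comp (Primrec.snd.comp (Primrec.snd.comp Primrec.snd)) ?_
  refine h1.comp (Primrec.pair (Primrec.fst.comp Primrec.fst) (Primrec.pair
    (Primrec.fst.comp (Primrec.snd.comp Primrec.snd)) (Primrec.fst.comp Primrec.snd)))

theorem isPf_cons (G : List ℕ) (b : ℕ) (l : List ℕ) :
    isPf L G (b :: l) = true ↔ isPf L G l = true ∧ SG L G l b := by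
  unfold isPf
  simp only [Bool.and_eq_true, decide_eq_true_eq]

theorem isPf_nil (G : List ℕ) : isPf L G [] = true := rfl

theorem sg_iff (hL : ∀ n, L n = true ↔ ∃ φ, n = gn φ ∧ LogK φ) (Γ π : List Fml) (φ : Fml) :
    SG L (Γ.map gn) (π.map gn) (gn φ) ↔ Step Γ π φ := by
  unfold SG Step
  refine or_congr ?_ (or_congr ?_ (or_congr ?_ ?_))
  · constructor
    · rintro ⟨a, ha, h⟩
      obtain ⟨ψ, hψ, rfl⟩ := List.mem_map.1 ha
      rw [← gn_inj h]
      exact hψ
    · intro h
      exact ⟨_, List.mem_map_of_mem h, rfl⟩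
  · rw [hL]
    constructor
    · rintro ⟨ψ, h1, h2⟩
      rw [gn_inj h1]
      exact h2
    · intro h
      exact ⟨φ, rfl, h⟩
  · constructor
    · rintro ⟨a, ha, c, hc, h⟩
      obtain ⟨ψ, hψ, rfl⟩ := List.mem_map.1 ha
      obtain ⟨χ, hχ, rfl⟩ := List.mem_map.1 hc
      refine ⟨ψ, hψ, ?_⟩
      have h1 : gn χ = gn (ψ.imp φ) := h
      rw [← gn_inj h1]
      exact hχ
    · rintro ⟨ψ, hψ, h⟩
      exact ⟨_, List.mem_map_of_mem hψ, _, List.mem_map_of_mem h, rfl⟩
  · constructor
    · rintro ⟨a, ha, h⟩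
      obtain ⟨ψ, hψ, rfl⟩ := List.mem_map.1 ha
      refine ⟨ψ, hψ, (gn φ).unpair.2.unpair.1, ?_⟩
      apply gn_inj
      exact h
    · rintro ⟨ψ, hψ, x, rfl⟩
      refine ⟨_, List.mem_map_of_mem hψ, ?_⟩
      simp only [gn, Nat.unpair_pair]

theorem isPf_iff (hL : ∀ n, L n = true ↔ ∃ φ, n = gn φ ∧ LogK φ) (Γ π : List Fml) :
    isPf L (Γ.map gn) (π.map gn) = true ↔ IsProof Γ π := by
  induction π with
  | nil => exact ⟨fun _ => trivial, fun _ => rfl⟩
  | cons φ π ih =>
    rw [List.map_cons, isPf_cons, ih, sg_iff hL]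
    rfl

end

/-! ### Strings -/

theorem num_append (w : List Bool) (b : Bool) : num (w ++ [b]) = 2 * num w + if b then 2 else 1 := by
  unfold num
  rw [List.foldl_append]
  rfl

theorem length_le_num (w : List Bool) : w.length ≤ num w := by
  induction w using List.reverseRecOn with
  | nil => exact Nat.zero_le _
  | append_singleton w b ih =>
    rw [num_append, List.length_append, List.length_singleton]
    split_ifs <;> omega

theorem num_primrec : Primrec num := by
  unfold num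
  refine Primrec.list_foldl (f := fun w : List Bool => w) (g := fun _ => 0)
    (h := fun _ (p : ℕ × Bool) => 2 * p.1 + if p.2 then 2 else 1) Primrec.id (Primrec.const 0) ?_
  refine Primrec.nat_add.comp (Primrec.nat_mul.comp (Primrec.const 2)
    (Primrec.fst.comp Primrec.snd)) ?_
  exact (Primrec.dom_bool fun b => if b then 2 else 1).comp (Primrec.snd.comp Primrec.snd)

theorem one_le_length (φ : Fml) : 1 ≤ (str φ).length := by
  cases φ <;> simp [str]

theorem length_le_strs (Γ : List Fml) : Γ.length ≤ (strs Γ).length := by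
  induction Γ with
  | nil => exact Nat.zero_le _
  | cons φ Γ ih =>
    have := one_le_length φ
    simp only [strs, List.flatMap_cons, List.length_cons, List.length_append] at *
    omega

theorem str_le_strs {Γ : List Fml} {φ : Fml} (h : φ ∈ Γ) : (str φ).length ≤ (strs Γ).length := by
  induction Γ with
  | nil => simp at h
  | cons ψ Γ ih =>
    simp only [strs, List.flatMap_cons, List.length_append] at *
    rcases List.mem_cons.1 h with rfl | h
    · omega
    · have := ih h
      omega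

/-! ### The relation -/

section

variable (F : ℕ → Bool) (s : ℕ → List Bool) (L : ℕ → Bool)

/-- the string of a list, on Gödel numbers -/
def sL (l : List ℕ) : List Bool := l.flatMap s

/-- the check -/
def Chk (π G : List ℕ) (x : ℕ × ℕ × ℕ) : Prop :=
  (∀ a ∈ G, F a = true) ∧ (∀ a ∈ π, F a = true) ∧ num (sL s G) = x.1 ∧ (sL s π).length ≤ x.2.1 ∧
    isPf L G π = true ∧ ∃ f ∈ π.head?.toList, num (s f) = x.2.2

variable {F s L}

theorem sL_primrec (hs : Primrec s) : Primrec (sL s) := by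
  unfold sL
  exact Primrec.list_flatMap Primrec.id (hs.comp Primrec.snd).to₂

theorem chk_primrec (hF : Primrec F) (hs : Primrec s) (hL : Primrec L) :
    PrimrecPred fun p : List ℕ × List ℕ × (ℕ × ℕ × ℕ) => Chk F s L p.1 p.2.1 p.2.2 := by
  have hall : PrimrecPred fun l : List ℕ => ∀ a ∈ l, F a = true :=
    PrimrecPred.forall_mem_list (p := fun a => F a = true)
      (Primrec.eq.comp hF (Primrec.const true))
  have h1 : PrimrecPred fun p : List ℕ × List ℕ × (ℕ × ℕ × ℕ) => ∀ a ∈ p.2.1, F a = true :=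
    hall.comp (Primrec.fst.comp Primrec.snd)
  have h2 : PrimrecPred fun p : List ℕ × List ℕ × (ℕ × ℕ × ℕ) => ∀ a ∈ p.1, F a = true :=
    hall.comp Primrec.fst
  have h3 : PrimrecPred fun p : List ℕ × List ℕ × (ℕ × ℕ × ℕ) => num (sL s p.2.1) = p.2.2.1 :=
    Primrec.eq.comp (num_primrec.comp ((sL_primrec hs).comp (Primrec.fst.comp Primrec.snd)))
      (Primrec.fst.comp (Primrec.snd.comp Primrec.snd))
  have h4 : PrimrecPred fun p : List ℕ × List ℕ × (ℕ × ℕ × ℕ) =>
      (sL s p.1).length ≤ p.2.2.2.1 :=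
    Primrec.nat_le.comp (Primrec.list_length.comp ((sL_primrec hs).comp Primrec.fst))
      (Primrec.fst.comp (Primrec.snd.comp (Primrec.snd.comp Primrec.snd)))
  have h5 : PrimrecPred fun p : List ℕ × List ℕ × (ℕ × ℕ × ℕ) => isPf L p.2.1 p.1 = true :=
    Primrec.eq.comp ((isPf_primrec hL).comp (Primrec.fst.comp Primrec.snd) Primrec.fst)
      (Primrec.const true)
  have h6' : PrimrecRel fun (f : ℕ) (d : ℕ) => num (s f) = d :=
    Primrec.eq.comp (num_primrec.comp (hs.comp Primrec.fst)) Primrec.snd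
  have h6 : PrimrecPred fun p : List ℕ × List ℕ × (ℕ × ℕ × ℕ) =>
      ∃ f ∈ p.1.head?.toList, num (s f) = p.2.2.2.2 :=
    (PrimrecRel.exists_mem_list h6').comp
      (Primrec.optionToList.comp (Primrec.list_head?.comp Primrec.fst))
      (Primrec.snd.comp (Primrec.snd.comp (Primrec.snd.comp Primrec.snd)))
  exact h1.and (h2.and (h3.and (h4.and (h5.and h6))))

theorem sL_map (hs : ∀ φ, s (gn φ) = str φ) (Γ : List Fml) : sL s (Γ.map gn) = strs Γ := by
  unfold sL strs
  rw [List.flatMap_map]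
  congr 1
  funext φ
  exact hs φ

theorem exists_map (hF : ∀ n, F n = true ↔ ∃ φ, n = gn φ) (G : List ℕ)
    (h : ∀ a ∈ G, F a = true) : ∃ Γ : List Fml, G = Γ.map gn := by
  induction G with
  | nil => exact ⟨[], rfl⟩
  | cons a G ih =>
    obtain ⟨Γ, rfl⟩ := ih fun b hb => h b (List.mem_cons_of_mem _ hb)
    obtain ⟨φ, rfl⟩ := (hF a).1 (h a List.mem_cons_self)
    exact ⟨φ :: Γ, rfl⟩

end

theorem prComp (h1 : GnStr) (h2 : GnLog) : PrComp := by
  obtain ⟨⟨F, hF, hF'⟩, ⟨s, hs, hs'⟩, B, hB, hBm, hB'⟩ := h1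
  obtain ⟨L, hL, hL'⟩ := h2
  have key : ∀ x : ℕ × ℕ × ℕ, (∃ G ∈ lsts (B x.1) x.1, ∃ π ∈ lsts (B x.2.1) x.2.1,
      Chk F s L π G x) ↔ PrRel x.1 x.2.1 x.2.2 := by
    rintro ⟨c, m, d⟩
    simp only
    constructor
    · rintro ⟨G, -, π, -, hG, hπ, hc, hm, hpf, f, hf, hd⟩
      obtain ⟨Γ, rfl⟩ := exists_map hF' G hG
      obtain ⟨Q, rfl⟩ := exists_map hF' π hπ
      rw [isPf_iff hL'] at hpf
      rw [sL_map hs'] at hc hm
      cases Q with
      | nil => simp at hf
      | cons φ Q =>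
        simp only [List.map_cons, List.head?_cons, Option.toList_some, List.mem_singleton] at hf
        subst hf
        rw [hs'] at hd
        refine ⟨Γ, φ, hc.symm, ?_, Q, hpf, hm⟩
        refine hd.symm.trans ?_
        simp [code, strs]
    · rintro ⟨Γ, φ, rfl, rfl, Q, hpf, hm⟩
      have hlen : (strs Γ).length ≤ code Γ := length_le_num _
      refine ⟨Γ.map gn, ?_, (φ :: Q).map gn, ?_, ?_, ?_, ?_, ?_, ?_, ?_⟩
      · rw [mem_lsts]
        refine ⟨?_, ?_⟩
        · rw [List.length_map]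
          exact (length_le_strs Γ).trans hlen
        · intro a ha
          obtain ⟨ψ, hψ, rfl⟩ := List.mem_map.1 ha
          exact (hB' ψ).trans (hBm ((str_le_strs hψ).trans hlen))
      · rw [mem_lsts]
        refine ⟨?_, ?_⟩
        · rw [List.length_map]
          exact (length_le_strs _).trans hm
        · intro a ha
          obtain ⟨ψ, hψ, rfl⟩ := List.mem_map.1 ha
          exact (hB' ψ).trans (hBm ((str_le_strs hψ).trans hm))
      · intro a ha
        obtain ⟨ψ, hψ, rfl⟩ := List.mem_map.1 ha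
        exact (hF' _).2 ⟨ψ, rfl⟩
      · intro a ha
        obtain ⟨ψ, hψ, rfl⟩ := List.mem_map.1 ha
        exact (hF' _).2 ⟨ψ, rfl⟩
      · rw [sL_map hs']
        rfl
      · rw [sL_map hs']
        exact hm
      · rw [isPf_iff hL']
        exact hpf
      · refine ⟨gn φ, by simp, ?_⟩
        rw [hs']
        simp [code, strs]
  have hC := chk_primrec hF hs hL
  have h3 : PrimrecRel fun (G : List ℕ) (x : ℕ × ℕ × ℕ) =>
      ∃ π ∈ lsts (B x.2.1) x.2.1, Chk F s L π G x := by
    have h4 : PrimrecRel fun (π : List ℕ) (q : List ℕ × (ℕ × ℕ × ℕ)) =>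
      Chk F s L π q.1 q.2 := hC
    refine (PrimrecRel.exists_mem_list h4).comp (f := fun q : List ℕ × (ℕ × ℕ × ℕ) =>
      lsts (B q.2.2.1) q.2.2.1) (g := fun q => q) ?_ Primrec.id
    have h5 : Primrec fun q : List ℕ × (ℕ × ℕ × ℕ) => q.2.2.1 :=
      Primrec.fst.comp (Primrec.snd.comp Primrec.snd)
    exact lsts_primrec.comp (hB.comp h5) h5
  have h6 : PrimrecPred fun x : ℕ × ℕ × ℕ => ∃ G ∈ lsts (B x.1) x.1,
      ∃ π ∈ lsts (B x.2.1) x.2.1, Chk F s L π G x :=
    (PrimrecRel.exists_mem_list h3).comp (lsts_primrec.comp (hB.comp Primrec.fst) Primrec.fst)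
      Primrec.id
  have h7 : PrimrecPred fun x : ℕ × ℕ × ℕ => PrRel x.1 x.2.1 x.2.2 := h6.of_eq key
  obtain ⟨hd, hp⟩ := h7
  exact ⟨hd, hp.to_comp⟩

end Pool.Agent.TH554.J1548
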