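import Pool.Agent.TH563.V.Defs
import Pool.Agent.TH563.Z.OutCrit
import Pool.Agent.TH554.VHC.A

/-!
# The critical point at a hub as a function of the variable of the parent
-/

set_option autoImplicit false
set_option maxHeartbeats 1000000

namespace Pool.Agent.TH554.J1743

open Filter Topology Metric Set
open Pool.Agent.W711.HT hiding XX
open Pool.Agent.W293.HT
open Pool.Agent.TH563.UV
open Pool.Agent.TH563.Z
open Pool.Agent.TH554.VHC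
open scoped Real

theorem ball_Rc {r : ℝ} {z : ℂ} (hr : 0 < r) (hz : z ∈ Rc (r / 2) (r / 2)) :
    closedBall z (r / 4) ⊆ Rc r r := by
  intro w hw
  rw [mem_closedBall, dist_eq_norm] at hw
  have h1 := (Complex.abs_re_le_norm (w - z)).trans hw
  have h2 := (Complex.abs_im_le_norm (w - z)).trans hw
  rw [Complex.sub_re] at h1
  rw [Complex.sub_im] at h2
  have h3 : |w.re| ≤ |w.re - z.re| + |z.re| := by
    have := abs_add_le (w.re - z.re) z.re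
    rwa [sub_add_cancel] at this
  have h4 : |w.im| ≤ |w.im - z.im| + |z.im| := by
    have := abs_add_le (w.im - z.im) z.im
    rwa [sub_add_cancel] at this
  have h5 := hz.1
  have h6 := hz.2
  exact ⟨by linarith, by linarith⟩

theorem neg_Rc {ρ τ : ℝ} {z : ℂ} (hz : z ∈ Rc ρ τ) : -z ∈ Rc ρ τ := by
  refine ⟨?_, ?_⟩
  · rw [Complex.neg_re, abs_neg]
    exact hz.1
  · rw [Complex.neg_im, abs_neg]
    exact hz.2

theorem norm_lt {ρ : ℝ} {z : ℂ} (hz : z ∈ Rc ρ ρ) : ‖z‖ < 2 * ρ := by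
  have h1 := Complex.norm_le_abs_re_add_abs_im z
  have h2 := hz.1
  have h3 := hz.2
  linarith

/-- the potential as a function of two variables -/
def SS (s' : ℂ → ℂ → ℂ) (p : ℂ × ℂ) : ℂ := s' p.1 p.2

/-- the derivative in the first variable -/
noncomputable def g1 (s' : ℂ → ℂ → ℂ) (p : ℂ × ℂ) : ℂ := fderiv ℂ (SS s') p (1, 0)

/-- the derivative in the second variable -/
noncomputable def g2 (s' : ℂ → ℂ → ℂ) (p : ℂ × ℂ) : ℂ := fderiv ℂ (SS s') p (0, 1)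

section

variable {η r c' C' : ℝ} {s' dl' : ℂ → ℂ → ℂ} (hS : SDZ η r c' C' s' dl')

include hS

theorem W_open : IsOpen (Rc r r ×ˢ Rz η r r) := (isOpen_Rc r r).prod (isOpen_Rz η r r)

theorem SS_d : DifferentiableOn ℂ (SS s') (Rc r r ×ˢ Rz η r r) := hS.san

theorem g1_d : DifferentiableOn ℂ (g1 s') (Rc r r ×ˢ Rz η r r) :=
  Pool.Agent.Helper540.differentiableOn_fderiv_apply (W_open hS) (SS_d hS) _

theorem g2_d : DifferentiableOn ℂ (g2 s') (Rc r r ×ˢ Rz η r r) :=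
  Pool.Agent.Helper540.differentiableOn_fderiv_apply (W_open hS) (SS_d hS) _

theorem at_W {H : ℂ × ℂ → ℂ} (hH : DifferentiableOn ℂ H (Rc r r ×ˢ Rz η r r)) {ψ φ : ℂ}
    (hψ : ψ ∈ Rc r r) (hφ : φ ∈ Rz η r r) : DifferentiableAt ℂ H (ψ, φ) :=
  hH.differentiableAt ((W_open hS).mem_nhds ⟨hψ, hφ⟩)

theorem d1 {ψ φ : ℂ} (hψ : ψ ∈ Rc r r) (hφ : φ ∈ Rz η r r) :
    HasDerivAt (fun w => s' w φ) (g1 s' (ψ, φ)) ψ := deriv_fst (at_W hS (SS_d hS) hψ hφ)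

theorem d2 {ψ φ : ℂ} (hψ : ψ ∈ Rc r r) (hφ : φ ∈ Rz η r r) :
    HasDerivAt (fun w => s' ψ w) (g2 s' (ψ, φ)) φ := deriv_snd (at_W hS (SS_d hS) hψ hφ)

theorem dd1 {ψ φ : ℂ} (hψ : ψ ∈ Rc r r) (hφ : φ ∈ Rz η r r) :
    deriv (deriv fun z => s' z φ) ψ = fderiv ℂ (g1 s') (ψ, φ) (1, 0) := by
  have h1 : deriv (fun z => s' z φ) =ᶠ[𝓝 ψ] fun z => g1 s' (z, φ) := by
    filter_upwards [(isOpen_Rc r r).mem_nhds hψ] with w hw
    exact (d1 hS hw hφ).deriv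
  rw [h1.deriv_eq]
  exact (deriv_fst (at_W hS (g1_d hS) hψ hφ)).deriv

theorem dd2 {ψ φ : ℂ} (hψ : ψ ∈ Rc r r) (hφ : φ ∈ Rz η r r) :
    deriv (deriv fun z => s' ψ z) φ = fderiv ℂ (g2 s') (ψ, φ) (0, 1) := by
  have h1 : deriv (fun z => s' ψ z) =ᶠ[𝓝 φ] fun z => g2 s' (ψ, z) := by
    filter_upwards [(isOpen_Rz η r r).mem_nhds hφ] with w hw
    exact (d2 hS hψ hw).deriv
  rw [h1.deriv_eq]
  exact (deriv_snd (at_W hS (g2_d hS) hψ hφ)).deriv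

theorem half_sub : Rc (r / 2) (r / 2) ⊆ Rc r r :=
  Rc_mono (by linarith [hS.hr.1]) (by linarith [hS.hr.1])

/-- bounds of the derivatives in the first variable -/
theorem b1 {ψ φ : ℂ} (hψ : ψ ∈ Rc (r / 2) (r / 2)) (hφ : φ ∈ Rz η r r) :
    ‖g1 s' (ψ, φ)‖ ≤ C' / (r / 4) ∧ ‖fderiv ℂ (g1 s') (ψ, φ) (1, 0)‖ ≤ 2 * C' / (r / 4) ^ 2 := by
  have hr := hS.hr.1
  have h1 := cauchy_ball (U := Rc r r) (g := fun w => s' w φ)
    (fun w hw => (d1 hS hw hφ).differentiableAt.differentiableWithinAt)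
    (by linarith : 0 < r / 4) (ball_Rc hr hψ) (fun w hw => hS.sbd w hw φ hφ)
  rw [dd1 hS (half_sub hS hψ) hφ, (d1 hS (half_sub hS hψ) hφ).deriv] at h1
  exact h1

theorem zero_half : (0 : ℂ) ∈ Rc (r / 2) (r / 2) :=
  zero_mem_Rc (by linarith [hS.hr.1]) (by linarith [hS.hr.1])

/-- the potential is Lipschitz in the first variable -/
theorem lip1 {ψ φ : ℂ} (hψ : ψ ∈ Rc (r / 2) (r / 2)) (hφ : φ ∈ Rz η r r) :
    ‖s' ψ φ - s' 0 φ‖ ≤ C' / (r / 4) * ‖ψ‖ := by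
  have h := (convex_Rc (r / 2) (r / 2)).norm_image_sub_le_of_norm_hasDerivWithin_le
    (f := fun w => s' w φ) (f' := fun w => g1 s' (w, φ)) (C := C' / (r / 4))
    (fun w hw => (d1 hS (half_sub hS hw) hφ).hasDerivWithinAt)
    (fun w hw => (b1 hS hw hφ).1) (zero_half hS) hψ
  rwa [sub_zero] at h

theorem g1_zero {φ : ℂ} (hφ : φ ∈ Rz η r r) : g1 s' (0, φ) = 0 := by
  have h0 : (0 : ℂ) ∈ Rc r r := half_sub hS (zero_half hS)
  rw [← (d1 hS h0 hφ).deriv]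
  refine deriv_even ?_ (d1 hS h0 hφ).differentiableAt
  filter_upwards [(isOpen_Rc r r).mem_nhds h0] with w hw
  exact hS.ev w hw φ hφ

theorem b1' {ψ φ : ℂ} (hψ : ψ ∈ Rc (r / 2) (r / 2)) (hφ : φ ∈ Rz η r r) :
    ‖g1 s' (ψ, φ)‖ ≤ 2 * C' / (r / 4) ^ 2 * ‖ψ‖ := by
  have h := (convex_Rc (r / 2) (r / 2)).norm_image_sub_le_of_norm_hasDerivWithin_le
    (f := fun w => g1 s' (w, φ)) (f' := fun w => fderiv ℂ (g1 s') (w, φ) (1, 0))
    (C := 2 * C' / (r / 4) ^ 2)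
    (fun w hw => (deriv_fst (at_W hS (g1_d hS) (half_sub hS hw) hφ)).hasDerivWithinAt)
    (fun w hw => (b1 hS hw hφ).2) (zero_half hS) hψ
  rwa [sub_zero, g1_zero hS hφ, sub_zero] at h

variable {ρ τ : ℝ} (hτ : 0 < τ) (hτρ : τ ≤ ρ) (hρr : 3 * ρ ≤ r)

include hτ hτρ hρr

theorem sub3 : Rz η (3 * ρ) (3 * τ) ⊆ Rz η r r := Rz_mono hρr (by linarith)

theorem sub2 : Rz η (2 * ρ) (2 * τ) ⊆ Rz η r r := Rz_mono (by linarith) (by linarith)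

theorem b12 {ψ φ : ℂ} (hψ : ψ ∈ Rc (r / 2) (r / 2)) (hφ : φ ∈ Rz η (2 * ρ) (2 * τ)) :
    ‖fderiv ℂ (g1 s') (ψ, φ) (0, 1)‖ ≤ 2 * C' / (r / 4) ^ 2 * ‖ψ‖ / (τ / 2) := by
  have h3 := sub3 hS hτ hτρ hρr
  have h1 := cauchy_ball (U := Rz η (3 * ρ) (3 * τ)) (g := fun w => g1 s' (ψ, w))
    (fun w hw => (deriv_snd (at_W hS (g1_d hS) (half_sub hS hψ)
      (h3 hw))).differentiableAt.differentiableWithinAt)
    (by linarith : 0 < τ / 2) (cb_subz hτ hτρ hφ) (fun w hw => b1' hS hψ (h3 hw))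
  rw [(deriv_snd (at_W hS (g1_d hS) (half_sub hS hψ) (sub2 hS hτ hτρ hρr hφ))).deriv] at h1
  exact h1.1

theorem b2 {ψ φ : ℂ} (hψ : ψ ∈ Rc r r) (hφ : φ ∈ Rz η (2 * ρ) (2 * τ)) :
    ‖g2 s' (ψ, φ)‖ ≤ C' / (τ / 2) := by
  have h3 := sub3 hS hτ hτρ hρr
  have h1 := cauchy_ball (U := Rz η (3 * ρ) (3 * τ)) (g := fun w => s' ψ w)
    (fun w hw => (d2 hS hψ (h3 hw)).differentiableAt.differentiableWithinAt)
    (by linarith : 0 < τ / 2) (cb_subz hτ hτρ hφ) (fun w hw => hS.sbd ψ hψ w (h3 hw))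
  rw [(d2 hS hψ (sub2 hS hτ hτρ hρr hφ)).deriv] at h1
  exact h1.1

theorem lip2 {ψ ψ' φ : ℂ} (hψ : ψ ∈ Rc (r / 2) (r / 2)) (hψ' : ψ' ∈ Rc (r / 2) (r / 2))
    (hφ : φ ∈ Rz η (2 * ρ) (2 * τ)) :
    ‖g2 s' (ψ, φ) - g2 s' (ψ', φ)‖ ≤ C' / (τ / 2) / (r / 4) * ‖ψ - ψ'‖ := by
  have h2 := sub2 hS hτ hτρ hρr
  have hd : ∀ w ∈ Rc r r, HasDerivAt (fun w => g2 s' (w, φ))
      (fderiv ℂ (g2 s') (w, φ) (1, 0)) w := fun w hw =>
    deriv_fst (at_W hS (g2_d hS) hw (h2 hφ))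
  refine (convex_Rc (r / 2) (r / 2)).norm_image_sub_le_of_norm_hasDerivWithin_le
    (f := fun w => g2 s' (w, φ)) (f' := fun w => fderiv ℂ (g2 s') (w, φ) (1, 0))
    (C := C' / (τ / 2) / (r / 4))
    (fun w hw => (hd w (half_sub hS hw)).hasDerivWithinAt)
    (fun w hw => ?_) hψ' hψ
  have h1 := cauchy_ball (U := Rc r r) (g := fun w => g2 s' (w, φ))
    (fun w hw => (hd w hw).differentiableAt.differentiableWithinAt)
    (by linarith [hS.hr.1] : 0 < r / 4) (ball_Rc hS.hr.1 hw)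
    (fun w hw => b2 hS hτ hτρ hρr hw hφ)
  rw [(hd w (half_sub hS hw)).deriv] at h1
  exact h1.1

variable {j : ℕ} (hj : 1 ≤ j) {ε₁ : ℝ} (hε : ε₁ ≤ c' * τ ^ 2 / 16) {f : ℂ} {Φ : ℂ → ℂ}
  (hΦ : DifferentiableOn ℂ Φ (Rz η (3 * ρ) (3 * τ)))
  (hcl : ∀ φ ∈ Rz η (3 * ρ) (3 * τ), ‖Φ φ - f - j * s' 0 φ‖ ≤ j * ε₁)

include hΦ

theorem q_hd {ψ φ : ℂ} (hψ : ψ ∈ Rc r r) (hφ : φ ∈ Rz η (3 * ρ) (3 * τ)) :
    HasDerivAt (qz fun w => Φ w + s' ψ w) (Complex.I + deriv Φ φ + g2 s' (ψ, φ)) φ := by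
  have h1 := (hΦ.differentiableAt ((isOpen_Rz η (3 * ρ) (3 * τ)).mem_nhds hφ)).hasDerivAt
  have h2 := d2 hS hψ (sub3 hS hτ hτρ hρr hφ)
  have h3 : HasDerivAt (fun w : ℂ => Complex.I * w) Complex.I φ := by
    simpa using (hasDerivAt_id φ).const_mul Complex.I
  exact (h3.add (h1.add h2)).congr_deriv (by ring)

theorem q_dd {ψ φ : ℂ} (hψ : ψ ∈ Rc r r) (hφ : φ ∈ Rz η (3 * ρ) (3 * τ)) :
    deriv (deriv (qz fun w => Φ w + s' ψ w)) φ =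
      deriv (deriv Φ) φ + fderiv ℂ (g2 s') (ψ, φ) (0, 1) := by
  have hU := isOpen_Rz η (3 * ρ) (3 * τ)
  have h1 : deriv (qz fun w => Φ w + s' ψ w) =ᶠ[𝓝 φ]
      fun w => Complex.I + deriv Φ w + g2 s' (ψ, w) := by
    filter_upwards [hU.mem_nhds hφ] with w hw
    exact (q_hd hS hτ hτρ hρr hΦ hψ hw).deriv
  rw [h1.deriv_eq]
  have h2 : HasDerivAt (deriv Φ) (deriv (deriv Φ) φ) φ :=
    ((hΦ.deriv hU).differentiableAt (hU.mem_nhds hφ)).hasDerivAt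
  have h3 := deriv_snd (at_W hS (g2_d hS) hψ (sub3 hS hτ hτρ hρr hφ))
  exact ((h2.const_add Complex.I).add h3).deriv

include hj hε hcl

/-- the real part of the second derivative of the part of the children -/
theorem Phi_dd {φ : ℂ} (hφ : φ ∈ Rz η (2 * ρ) (2 * τ)) : (deriv (deriv Φ) φ).re ≤ 0 := by
  have hU := isOpen_Rz η (3 * ρ) (3 * τ)
  have hsub23 : Rz η (2 * ρ) (2 * τ) ⊆ Rz η (3 * ρ) (3 * τ) := Rz_mono (by linarith) (by linarith)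
  have h0 : (0 : ℂ) ∈ Rc r r := half_sub hS (zero_half hS)
  have hs0 : DifferentiableOn ℂ (fun φ => s' 0 φ) (Rz η (3 * ρ) (3 * τ)) := fun w hw =>
    (d2 hS h0 (sub3 hS hτ hτρ hρr hw)).differentiableAt.differentiableWithinAt
  obtain ⟨E, hE⟩ : ∃ E : ℂ → ℂ, E = fun w => Φ w - f - j * s' 0 w := ⟨_, rfl⟩
  have hEd : DifferentiableOn ℂ E (Rz η (3 * ρ) (3 * τ)) := by
    rw [hE]
    exact (hΦ.sub (differentiableOn_const f)).sub (hs0.const_mul (j : ℂ))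
  have h1 := cauchy_ball (U := Rz η (3 * ρ) (3 * τ)) hEd (by linarith : 0 < τ / 2)
    (cb_subz hτ hτρ hφ) (B := j * ε₁) (fun w hw => by rw [hE]; exact hcl w hw)
  have hA : DifferentiableOn ℂ (fun w => f + j * s' 0 w) (Rz η (3 * ρ) (3 * τ)) :=
    (differentiableOn_const f).add (hs0.const_mul (j : ℂ))
  have h2 : Φ = fun w => (f + j * s' 0 w) + E w := by
    funext w
    rw [hE]
    ring
  have h3 : deriv (deriv Φ) φ = deriv (deriv fun w => f + j * s' 0 w) φ + deriv (deriv E) φ := by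
    rw [h2]
    exact dd_add hU hA hEd (hsub23 hφ)
  have h4 : deriv (deriv fun w => f + j * s' 0 w) φ = j * deriv (deriv fun w => s' 0 w) φ := by
    have e2 : deriv (fun w => f + j * s' 0 w) =ᶠ[𝓝 φ]
        fun w => j * deriv (fun z => s' 0 z) w := by
      filter_upwards [hU.mem_nhds (hsub23 hφ)] with w hw
      rw [deriv_const_add, deriv_const_mul (j : ℂ) (hs0.differentiableAt (hU.mem_nhds hw))]
    rw [e2.deriv_eq]
    exact deriv_const_mul (j : ℂ) ((hs0.deriv hU).differentiableAt (hU.mem_nhds (hsub23 hφ)))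
  rw [h3, h4, Complex.add_re, ← Complex.ofReal_natCast, Complex.re_ofReal_mul]
  have h5 := hS.conc2 0 h0 φ (sub2 hS hτ hτρ hρr hφ)
  have h6 := (Complex.re_le_norm _).trans h1.2
  have hj0 : (0 : ℝ) < j := by exact_mod_cast hj
  have h7 : 2 * (j * ε₁) / (τ / 2) ^ 2 ≤ j * c' / 2 := by
    rw [div_le_iff₀ (by positivity)]
    nlinarith
  have h8 : (j : ℝ) * (deriv (deriv fun w => s' 0 w) φ).re ≤ j * (-c') :=
    mul_le_mul_of_nonneg_left h5 hj0.le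
  have h9 : 0 < (j : ℝ) * c' := mul_pos hj0 hS.hc
  linarith

/-- lower bound of the differences of the derivative -/
theorem conc {ψ z z₀ : ℂ} (hψ : ψ ∈ Rc r r) (hz : z ∈ Rz η (2 * ρ) (2 * τ))
    (hz₀ : z₀ ∈ Rz η (2 * ρ) (2 * τ)) :
    c' * ‖z - z₀‖ ≤ ‖(Complex.I + deriv Φ z + g2 s' (ψ, z)) -
      (Complex.I + deriv Φ z₀ + g2 s' (ψ, z₀))‖ := by
  have hsub23 : Rz η (2 * ρ) (2 * τ) ⊆ Rz η (3 * ρ) (3 * τ) := Rz_mono (by linarith) (by linarith)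
  have h1 := conc_seg (G := qz fun w => Φ w + s' ψ w) (convex_Rz η (2 * ρ) (2 * τ))
    (isOpen_Rz η (2 * ρ) (2 * τ))
    (fun w hw => (q_hd hS hτ hτρ hρr hΦ hψ (hsub23 hw)).differentiableAt.differentiableWithinAt)
    (c := c') (fun w hw => by
      rw [q_dd hS hτ hτρ hρr hΦ hψ (hsub23 hw), Complex.add_re,
        ← dd2 hS hψ (sub2 hS hτ hτρ hρr hw)]
      have h2 := Phi_dd hS hτ hτρ hρr hj hε hΦ hcl hw
      have h3 := hS.conc2 ψ hψ w (sub2 hS hτ hτρ hρr hw)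
      linarith) hz hz₀
  rw [(q_hd hS hτ hτρ hρr hΦ hψ (hsub23 hz)).deriv,
    (q_hd hS hτ hτρ hρr hΦ hψ (hsub23 hz₀)).deriv] at h1
  exact h1

end

/-- the critical point at a hub as a function of the variable of the parent -/
theorem hc : Pool.Agent.TH563.V.S_HC := by
  intro η r c' C' s' dl' hS ρ τ hτ hτρ hρr j hj hgd r₁ hr₁ hr₁τ
  have hr := hS.hr.1
  have hc0 := hS.hc
  have hC0 := hS.hC
  obtain ⟨ε₁, hε₁⟩ : ∃ ε₁ : ℝ, ε₁ = min (c' * τ ^ 2 / 16) (c' * r₁ * τ / 16) := ⟨_, rfl⟩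
  have hε0 : 0 < ε₁ := by rw [hε₁]; exact lt_min (by positivity) (by positivity)
  have hεa : ε₁ ≤ c' * τ ^ 2 / 16 := by rw [hε₁]; exact min_le_left _ _
  have hεb : ε₁ ≤ c' * r₁ * τ / 16 := by rw [hε₁]; exact min_le_right _ _
  obtain ⟨L, hL⟩ : ∃ L : ℝ, L = C' / (r / 4) := ⟨_, rfl⟩
  have hL0 : 0 < L := by rw [hL]; positivity
  obtain ⟨M₁, hM₁⟩ : ∃ M₁ : ℝ, M₁ = 2 * C' / (r / 4) ^ 2 := ⟨_, rfl⟩
  have hM₁0 : 0 < M₁ := by rw [hM₁]; positivity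
  obtain ⟨M₂, hM₂⟩ : ∃ M₂ : ℝ, M₂ = C' / (τ / 2) / (r / 4) := ⟨_, rfl⟩
  have hM₂0 : 0 < M₂ := by rw [hM₂]; positivity
  obtain ⟨K, hK⟩ : ∃ K : ℝ, K = M₂ / c' := ⟨_, rfl⟩
  have hK0 : 0 < K := by rw [hK]; positivity
  obtain ⟨r₂, hr₂⟩ : ∃ r₂ : ℝ, r₂ = min (r / 2) (min (ε₁ / (2 * L)) (c' * τ / (8 * (M₁ * K)))) :=
    ⟨_, rfl⟩
  have hr₂0 : 0 < r₂ := by
    rw [hr₂]
    exact lt_min (by positivity) (lt_min (by positivity) (by positivity))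
  have hr₂a : r₂ ≤ r / 2 := by rw [hr₂]; exact min_le_left _ _
  have hr₂b : L * (2 * r₂) ≤ ε₁ := by
    have h1 : r₂ ≤ ε₁ / (2 * L) := by rw [hr₂]; exact (min_le_right _ _).trans (min_le_left _ _)
    rw [le_div_iff₀ (by positivity)] at h1
    linarith
  have hr₂c : M₁ * (2 * r₂) / (τ / 2) * K ≤ c' / 2 := by
    have h1 : r₂ ≤ c' * τ / (8 * (M₁ * K)) := by
      rw [hr₂]; exact (min_le_right _ _).trans (min_le_right _ _)
    rw [le_div_iff₀ (by positivity)] at h1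
    rw [div_mul_eq_mul_div, div_le_iff₀ (by positivity)]
    linarith
  refine ⟨ε₁, r₂, M₁ + c' / 2, hε0, hr₂0, by linarith, by positivity, ?_⟩
  intro f Φ hΦ hcl
  have hVh : Rc r₂ r₂ ⊆ Rc (r / 2) (r / 2) := Rc_mono hr₂a hr₂a
  have hVr : Rc r₂ r₂ ⊆ Rc r r := hVh.trans (half_sub hS)
  have hVo := isOpen_Rc r₂ r₂
  have h3r := sub3 hS hτ hτρ hρr
  have h12 : Rz η ρ τ ⊆ Rz η (2 * ρ) (2 * τ) := Rz_mono (by linarith) (by linarith)
  have h23 : Rz η (2 * ρ) (2 * τ) ⊆ Rz η (3 * ρ) (3 * τ) := Rz_mono (by linarith) (by linarith)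
  have h13 := h12.trans h23
  have h1r := h13.trans h3r
  -- the critical points
  have hex : ∀ ψ : ℂ, ψ ∈ Rc r₂ r₂ → ∃ z : ℂ, ‖z - η * Complex.I‖ ≤ r₁ ∧ z ∈ Rz η ρ τ ∧
      deriv (qz fun w => Φ w + s' ψ w) z = 0 ∧
      (deriv (deriv (qz fun w => Φ w + s' ψ w)) z).re < 0 ∧
      ∀ x : ℝ, |x| ≤ ρ → x ≠ z.re →
        (qz (fun w => Φ w + s' ψ w) (x + z.im * Complex.I)).re <
          (qz (fun w => Φ w + s' ψ w) z).re := by
    intro ψ hψ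
    refine crit_z hS hτ hτρ hρr (k := j + 1) (by omega) hgd hr₁ hr₁τ hεa hεb (f := f) ?_ ?_
    · refine hΦ.add ?_
      intro w hw
      exact (d2 hS (hVr hψ) (h3r hw)).differentiableAt.differentiableWithinAt
    · intro φ hφ
      have e1 : (Φ φ + s' ψ φ) - f - ((j + 1 : ℕ) : ℂ) * s' 0 φ =
          (Φ φ - f - j * s' 0 φ) + (s' ψ φ - s' 0 φ) := by
        push_cast
        ring
      rw [e1]
      refine (norm_add_le _ _).trans ?_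
      have e2 := hcl φ hφ
      have e3 := lip1 hS (hVh hψ) (h3r hφ)
      rw [← hL] at e3
      have e4 : L * ‖ψ‖ ≤ L * (2 * r₂) := mul_le_mul_of_nonneg_left (norm_lt hψ).le hL0.le
      push_cast
      linarith
  choose! zs hz1 hz2 hz3 hz4 hz5 using hex
  have hcrit : ∀ ψ ∈ Rc r₂ r₂, Complex.I + deriv Φ (zs ψ) + g2 s' (ψ, zs ψ) = 0 := by
    intro ψ hψ
    rw [← (q_hd hS hτ hτρ hρr hΦ (hVr hψ) (h13 (hz2 ψ hψ))).deriv]
    exact hz3 ψ hψ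
  have hconc := @conc η r c' C' s' dl' hS ρ τ hτ hτρ hρr j hj ε₁ hεa f Φ hΦ hcl
  have huniq : ∀ ψ ∈ Rc r₂ r₂, ∀ z ∈ Rz η ρ τ,
      Complex.I + deriv Φ z + g2 s' (ψ, z) = 0 → z = zs ψ := by
    intro ψ hψ z hz h0
    have h1 := hconc (hVr hψ) (h12 hz) (h12 (hz2 ψ hψ))
    rw [h0, hcrit ψ hψ, sub_zero, norm_zero] at h1
    have h2 : ‖z - zs ψ‖ ≤ 0 := by
      by_contra h3
      push Not at h3
      have := mul_pos hc0 h3
      linarith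
    exact sub_eq_zero.1 (norm_le_zero_iff.1 h2)
  -- Lipschitz
  have hlip : ∀ ψ ∈ Rc r₂ r₂, ∀ ψ' ∈ Rc r₂ r₂, ‖zs ψ' - zs ψ‖ ≤ K * ‖ψ' - ψ‖ := by
    intro ψ hψ ψ' hψ'
    have h1 := hconc (hVr hψ) (h12 (hz2 ψ' hψ')) (h12 (hz2 ψ hψ))
    rw [hcrit ψ hψ] at h1
    have e1 : (Complex.I + deriv Φ (zs ψ') + g2 s' (ψ, zs ψ')) - 0 =
        g2 s' (ψ, zs ψ') - g2 s' (ψ', zs ψ') := by
      linear_combination hcrit ψ' hψ'
    rw [e1] at h1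
    have h2 := lip2 hS hτ hτρ hρr (hVh hψ) (hVh hψ') (h12 (hz2 ψ' hψ'))
    rw [← hM₂, norm_sub_rev ψ ψ'] at h2
    rw [hK, div_mul_eq_mul_div, le_div_iff₀ hc0]
    linarith
  -- differentiability of `zs`
  have hUz := isOpen_Rz η (3 * ρ) (3 * τ)
  have hzd : ∀ ψ ∈ Rc r₂ r₂, DifferentiableAt ℂ zs ψ := by
    intro ψ hψ
    have hzψ := hz2 ψ hψ
    have hΦ1 : DifferentiableAt ℂ (fun p : ℂ × ℂ => deriv Φ p.2) (ψ, zs ψ) :=
      DifferentiableAt.comp (g := deriv Φ) (ψ, zs ψ)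
        ((hΦ.deriv hUz).differentiableAt (hUz.mem_nhds (h13 hzψ))) differentiableAt_snd
    have hg2 := at_W hS (g2_d hS) (hVr hψ) (h1r hzψ)
    have hH : DifferentiableAt ℂ (fun p : ℂ × ℂ => Complex.I + deriv Φ p.2 + g2 s' p)
        (ψ, zs ψ) := ((differentiableAt_const _).add hΦ1).add hg2
    refine implicit (H := fun p : ℂ × ℂ => Complex.I + deriv Φ p.2 + g2 s' p) hH ?_ (K := K) ?_ ?_
    · filter_upwards [hVo.mem_nhds hψ] with w hw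
      exact hcrit w hw
    · filter_upwards [hVo.mem_nhds hψ] with w hw
      exact hlip ψ hψ w hw
    · intro h0
      have h1 := deriv_snd hH
      rw [h0] at h1
      have h2 := q_dd hS hτ hτρ hρr hΦ (hVr hψ) (h13 hzψ)
      have h3 : HasDerivAt (deriv Φ) (deriv (deriv Φ) (zs ψ)) (zs ψ) :=
        ((hΦ.deriv hUz).differentiableAt (hUz.mem_nhds (h13 hzψ))).hasDerivAt
      have h4 := (h3.const_add Complex.I).add (deriv_snd hg2)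
      have h5 : (0 : ℂ) = deriv (deriv Φ) (zs ψ) + fderiv ℂ (g2 s') (ψ, zs ψ) (0, 1) :=
        h1.unique h4
      have h6 := hz4 ψ hψ
      rw [h2, ← h5, Complex.zero_re] at h6
      exact lt_irrefl _ h6
  have hzb : ∀ ψ ∈ Rc r₂ r₂, ‖deriv zs ψ‖ ≤ K := by
    intro ψ hψ
    refine norm_deriv_le_of_lip' hK0.le ?_
    filter_upwards [hVo.mem_nhds hψ] with w hw
    exact hlip ψ hψ w hw
  -- the critical value
  obtain ⟨F, hF⟩ : ∃ F : ℂ → ℂ, F = fun ψ => qz (fun w => Φ w + s' ψ w) (zs ψ) := ⟨_, rfl⟩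
  have hFd : ∀ ψ ∈ Rc r₂ r₂, HasDerivAt F (g1 s' (ψ, zs ψ)) ψ := by
    intro ψ hψ
    have hzψ := hz2 ψ hψ
    have e1 : HasDerivAt zs (deriv zs ψ) ψ := (hzd ψ hψ).hasDerivAt
    have e2 : HasDerivAt (fun ψ => Complex.I * zs ψ) (Complex.I * deriv zs ψ) ψ :=
      e1.const_mul Complex.I
    have e3 : HasDerivAt (fun ψ => Φ (zs ψ)) (deriv Φ (zs ψ) * deriv zs ψ) ψ :=
      HasDerivAt.comp ψ (hΦ.differentiableAt (hUz.mem_nhds (h13 hzψ))).hasDerivAt e1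
    have e4 : HasDerivAt (fun ψ => s' ψ (zs ψ))
        (fderiv ℂ (SS s') (ψ, zs ψ) (1, deriv zs ψ)) ψ :=
      HasFDerivAt.comp_hasDerivAt (l := SS s') (f := fun ψ => (ψ, zs ψ)) ψ
        (at_W hS (SS_d hS) (hVr hψ) (h1r hzψ)).hasFDerivAt ((hasDerivAt_id ψ).prodMk e1)
    rw [hF]
    refine (e2.add (e3.add e4)).congr_deriv ?_
    rw [fderiv_pair]
    have e5 : fderiv ℂ (SS s') (ψ, zs ψ) (1, 0) = g1 s' (ψ, zs ψ) := rfl
    have e6 : fderiv ℂ (SS s') (ψ, zs ψ) (0, 1) = g2 s' (ψ, zs ψ) := rfl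
    rw [e5, e6]
    linear_combination (deriv zs ψ) * hcrit ψ hψ
  have hFdd : ∀ ψ ∈ Rc r₂ r₂, deriv (deriv F) ψ =
      fderiv ℂ (g1 s') (ψ, zs ψ) (1, 0) + deriv zs ψ * fderiv ℂ (g1 s') (ψ, zs ψ) (0, 1) := by
    intro ψ hψ
    have hzψ := hz2 ψ hψ
    have e1 : HasDerivAt zs (deriv zs ψ) ψ := (hzd ψ hψ).hasDerivAt
    have h1 : deriv F =ᶠ[𝓝 ψ] fun ψ => g1 s' (ψ, zs ψ) := by
      filter_upwards [hVo.mem_nhds hψ] with w hw
      exact (hFd w hw).deriv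
    rw [h1.deriv_eq]
    have e4 : HasDerivAt (fun ψ => g1 s' (ψ, zs ψ))
        (fderiv ℂ (g1 s') (ψ, zs ψ) (1, deriv zs ψ)) ψ :=
      HasFDerivAt.comp_hasDerivAt (l := g1 s') (f := fun ψ => (ψ, zs ψ)) ψ
        (at_W hS (g1_d hS) (hVr hψ) (h1r hzψ)).hasFDerivAt ((hasDerivAt_id ψ).prodMk e1)
    rw [e4.deriv, fderiv_pair, one_mul]
  have herr : ∀ ψ ∈ Rc r₂ r₂,
      ‖deriv zs ψ * fderiv ℂ (g1 s') (ψ, zs ψ) (0, 1)‖ ≤ c' / 2 := by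
    intro ψ hψ
    rw [norm_mul]
    have h1 := b12 hS hτ hτρ hρr (hVh hψ) (h12 (hz2 ψ hψ))
    rw [← hM₁] at h1
    have h2 : M₁ * ‖ψ‖ / (τ / 2) ≤ M₁ * (2 * r₂) / (τ / 2) := by
      refine div_le_div_of_nonneg_right ?_ (by positivity)
      exact mul_le_mul_of_nonneg_left (norm_lt hψ).le hM₁0.le
    calc ‖deriv zs ψ‖ * ‖fderiv ℂ (g1 s') (ψ, zs ψ) (0, 1)‖
        ≤ K * (M₁ * (2 * r₂) / (τ / 2)) :=
          mul_le_mul (hzb ψ hψ) (h1.trans h2) (norm_nonneg _) hK0.le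
      _ = M₁ * (2 * r₂) / (τ / 2) * K := mul_comm _ _
      _ ≤ c' / 2 := hr₂c
  refine ⟨F, zs, ?_, ?_, ?_, ?_, ?_⟩
  · intro ψ hψ
    exact (hFd ψ hψ).differentiableAt.differentiableWithinAt
  · intro ψ hψ
    exact (hzd ψ hψ).differentiableWithinAt
  · intro ψ hψ
    have hψn := neg_Rc hψ
    have hev : ∀ φ ∈ Rz η r r, s' (-ψ) φ = s' ψ φ := fun φ hφ => hS.ev ψ (hVr hψ) φ hφ
    have hz : zs (-ψ) = zs ψ := by
      refine huniq ψ hψ _ (hz2 _ hψn) ?_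
      have h1 : g2 s' (ψ, zs (-ψ)) = g2 s' (-ψ, zs (-ψ)) := by
        have hm := h1r (hz2 _ hψn)
        rw [← (d2 hS (hVr hψ) hm).deriv, ← (d2 hS (hVr hψn) hm).deriv]
        refine Filter.EventuallyEq.deriv_eq ?_
        filter_upwards [(isOpen_Rz η r r).mem_nhds hm] with w hw
        exact (hev w hw).symm
      rw [h1]
      exact hcrit _ hψn
    rw [hF]
    simp only [qz]
    rw [hz, hev _ (h1r (hz2 ψ hψ))]
  · intro ψ hψ
    have hm := h1r (hz2 ψ hψ)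
    rw [hFdd ψ hψ]
    constructor
    · rw [Complex.add_re, ← dd1 hS (hVr hψ) hm]
      have h1 := hS.conc1 ψ (hVr hψ) _ hm
      have h2 := (Complex.re_le_norm _).trans (herr ψ hψ)
      linarith
    · refine (norm_add_le _ _).trans ?_
      have h1 := (b1 hS (hVh hψ) hm).2
      rw [← hM₁] at h1
      exact add_le_add h1 (herr ψ hψ)
  · intro ψ hψ
    have hm := h1r (hz2 ψ hψ)
    refine ⟨hz1 ψ hψ, hz2 ψ hψ, hz3 ψ hψ, hz4 ψ hψ, hz5 ψ hψ, by rw [hF], ?_⟩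
    rw [(d1 hS (hVr hψ) hm).deriv]
    exact hFd ψ hψ

end Pool.Agent.TH554.J1743
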