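import Pool.Agent.TH279.UP.Defs4

/-!
# Comparison of Hilbert functions
-/

set_option autoImplicit false

open MvPolynomial Pool.Agent.TH279.UP

namespace Pool.Agent.TH554.J3513

/-- the number of monomials of degree `m` -/
theorem finrank_forms (N m : ℕ) : Module.finrank ℂ (homogeneousSubmodule (Fin (N + 1)) ℂ m) =
    (m + N).choose N := by
  classical
  have e0 : ({d : Fin (N + 1) →₀ ℕ | d.degree = m} : Set (Fin (N + 1) →₀ ℕ)) =
      ((Finset.univ : Finset (Fin (N + 1))).finsuppAntidiag m : Set (Fin (N + 1) →₀ ℕ)) := by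
    ext d
    simp [Finset.mem_finsuppAntidiag, Finsupp.degree_eq_sum]
  rw [homogeneousSubmodule_eq_finsupp_supported, e0,
    LinearEquiv.finrank_eq (AddMonoidAlgebra.supportedEquivFinsupp (S := ℂ) (R := ℂ)
      ((Finset.univ : Finset (Fin (N + 1))).finsuppAntidiag m : Set (Fin (N + 1) →₀ ℕ))),
    Module.finrank_finsupp_self]
  simp only [SetLike.coe_sort_coe, Fintype.card_coe]
  rw [Finset.card_finsuppAntidiag_nat_eq_choose]
  rw [Finset.card_univ, Fintype.card_fin]
  rw [show N + 1 + m - 1 = N + m by omega, add_comm m N]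
  exact Nat.choose_symm_add.symm

theorem finite_forms (N m : ℕ) :
    Module.Finite ℂ (homogeneousSubmodule (Fin (N + 1)) ℂ m) := by
  apply Module.finite_of_finrank_pos
  rw [finrank_forms]
  exact Nat.choose_pos (Nat.le_add_left _ _)

/-- a homogeneous multiple of a form has a homogeneous quotient -/
theorem hom_quot {σ : Type} {F P : MvPolynomial σ ℂ} {d D : ℕ} (hF : F.IsHomogeneous d)
    (hP : P.IsHomogeneous D) (hd : d ≤ D) (h : F ∣ P) :
    ∃ Q : MvPolynomial σ ℂ, Q.IsHomogeneous (D - d) ∧ P = F * Q := by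
  obtain ⟨Q, hQ⟩ := h
  refine ⟨homogeneousComponent (D - d) Q, homogeneousComponent_isHomogeneous _ _, ?_⟩
  have h1 : homogeneousComponent D P = P := by
    rw [homogeneousComponent_of_mem (n := D) hP, if_pos rfl]
  rw [← h1, hQ]
  conv_lhs => rw [← sum_homogeneousComponent Q, Finset.mul_sum, map_sum]
  have h2 : ∀ e, homogeneousComponent D (F * homogeneousComponent e Q) =
      if e = D - d then F * homogeneousComponent e Q else 0 := by
    intro e
    have h3 : F * homogeneousComponent e Q ∈ homogeneousSubmodule σ ℂ (d + e) :=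
      hF.mul (homogeneousComponent_isHomogeneous e Q)
    rw [homogeneousComponent_of_mem h3]
    by_cases he : e = D - d
    · rw [if_pos he, if_pos (by omega)]
    · rw [if_neg he, if_neg (by omega)]
  simp only [h2]
  rw [Finset.sum_ite_eq' (Finset.range (Q.totalDegree + 1)) (D - d)]
  split_ifs with h4
  · rfl
  · rw [Finset.mem_range, not_lt] at h4
    rw [homogeneousComponent_eq_zero _ _ (by omega), mul_zero]

section lin

variable {N : ℕ}

/-- the map `P ↦ g * P` on the forms of degree `D`, modulo `F` -/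
noncomputable def mulMap (F g : MvPolynomial (Fin (N + 1)) ℂ) (D : ℕ) :
    homogeneousSubmodule (Fin (N + 1)) ℂ D →ₗ[ℂ]
      MvPolynomial (Fin (N + 1)) ℂ ⧸ (Ideal.span {F}).restrictScalars ℂ :=
  (((Ideal.span {F}).restrictScalars ℂ).mkQ ∘ₗ LinearMap.mulLeft ℂ g) ∘ₗ
    (homogeneousSubmodule (Fin (N + 1)) ℂ D).subtype

/-- the map given by an algebra endomorphism on the forms of degree `D`, modulo `F` -/
noncomputable def algMap (F : MvPolynomial (Fin (N + 1)) ℂ)
    (γ : MvPolynomial (Fin (N + 1)) ℂ →ₐ[ℂ] MvPolynomial (Fin (N + 1)) ℂ) (D : ℕ) :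
    homogeneousSubmodule (Fin (N + 1)) ℂ D →ₗ[ℂ]
      MvPolynomial (Fin (N + 1)) ℂ ⧸ (Ideal.span {F}).restrictScalars ℂ :=
  (((Ideal.span {F}).restrictScalars ℂ).mkQ ∘ₗ γ.toLinearMap) ∘ₗ
    (homogeneousSubmodule (Fin (N + 1)) ℂ D).subtype

/-- multiplication by a form -/
noncomputable def mulH (G : MvPolynomial (Fin (N + 1)) ℂ) (D : ℕ) :
    homogeneousSubmodule (Fin (N + 1)) ℂ D →ₗ[ℂ] MvPolynomial (Fin (N + 1)) ℂ :=
  LinearMap.mulLeft ℂ G ∘ₗ (homogeneousSubmodule (Fin (N + 1)) ℂ D).subtype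

lemma finrank_mulH_le (G : MvPolynomial (Fin (N + 1)) ℂ) (D : ℕ) :
    Module.finrank ℂ (LinearMap.range (mulH G D)) ≤ (D + N).choose N := by
  have := finite_forms N D
  rw [← finrank_forms]
  exact LinearMap.finrank_range_le _

lemma finrank_mulH {G : MvPolynomial (Fin (N + 1)) ℂ} (hG : G ≠ 0) (D : ℕ) :
    Module.finrank ℂ (LinearMap.range (mulH G D)) = (D + N).choose N := by
  rw [← finrank_forms]
  apply LinearMap.finrank_range_of_inj
  intro x y hxy
  apply Subtype.ext
  exact mul_left_cancel₀ hG hxy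

lemma mulMap_ker {F g : MvPolynomial (Fin (N + 1)) ℂ} {d D : ℕ} (hF : F.IsHomogeneous d)
    (hp : Prime F) (hg : ¬ F ∣ g) (hd : d ≤ D) :
    Module.finrank ℂ (LinearMap.ker (mulMap F g D)) ≤ (D - d + N).choose N := by
  have h0 := finite_forms N (D - d)
  have h1 : (LinearMap.ker (mulMap F g D)).map (homogeneousSubmodule (Fin (N + 1)) ℂ D).subtype ≤
      LinearMap.range (mulH F (D - d)) := by
    rintro _ ⟨P, hP, rfl⟩
    have h2 : F ∣ g * P.1 := by
      have h3 : mulMap F g D P = 0 := hP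
      unfold mulMap at h3
      simp only [LinearMap.comp_apply, Submodule.mkQ_apply, Submodule.Quotient.mk_eq_zero,
        Submodule.restrictScalars_mem, Ideal.mem_span_singleton, LinearMap.mulLeft_apply,
        Submodule.subtype_apply] at h3
      exact h3
    have h4 : F ∣ P.1 := (hp.dvd_or_dvd h2).resolve_left hg
    obtain ⟨Q, hQ, hQ2⟩ := hom_quot hF P.2 hd h4
    exact ⟨⟨Q, hQ⟩, hQ2.symm⟩
  have h5 := Submodule.finrank_mono h1
  rw [Submodule.finrank_map_subtype_eq] at h5
  exact h5.trans (finrank_mulH_le _ _)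

lemma algMap_ker {F R : MvPolynomial (Fin (N + 1)) ℂ}
    {γ : MvPolynomial (Fin (N + 1)) ℂ →ₐ[ℂ] MvPolynomial (Fin (N + 1)) ℂ} {r D : ℕ}
    (hR : R.IsHomogeneous r) (hR0 : R ≠ 0) (hF : F ∣ γ R) (hr : r ≤ D) :
    (D - r + N).choose N ≤ Module.finrank ℂ (LinearMap.ker (algMap F γ D)) := by
  have h0 := finite_forms N D
  have h1 : LinearMap.range (mulH R (D - r)) ≤
      (LinearMap.ker (algMap F γ D)).map (homogeneousSubmodule (Fin (N + 1)) ℂ D).subtype := by
    rintro _ ⟨Q, rfl⟩
    have h2 : (R * Q.1).IsHomogeneous D := by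
      have := hR.mul Q.2
      rwa [Nat.add_sub_cancel' hr] at this
    refine ⟨⟨R * Q.1, h2⟩, ?_, rfl⟩
    change algMap F γ D ⟨R * Q.1, h2⟩ = 0
    unfold algMap
    simp only [LinearMap.comp_apply, Submodule.mkQ_apply, Submodule.Quotient.mk_eq_zero,
      Submodule.restrictScalars_mem, Ideal.mem_span_singleton, AlgHom.toLinearMap_apply,
      Submodule.subtype_apply, map_mul]
    exact Dvd.dvd.mul_right hF _
  have h5 := Submodule.finrank_mono h1
  rw [Submodule.finrank_map_subtype_eq, finrank_mulH hR0] at h5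
  exact h5

end lin

theorem CNT : S_CNT := by
  intro n d r c F R s hd hF hirr hR hR0 hFR hs hFs hcond k hk hrk
  have hp : Prime F := UniqueFactorizationMonoid.irreducible_iff_prime.1 hirr
  have f1 := finite_forms (n + 1) ((d - 1) * k)
  have f2 := finite_forms (n + 1) (c + k)
  have h1 : LinearMap.range (mulMap F (gr n F s) ((d - 1) * k)) ≤
      LinearMap.range (algMap F (gr n F) (c + k)) := by
    rintro _ ⟨P, rfl⟩
    obtain ⟨T, hT, hFT⟩ := hcond k P.1 P.2
    refine ⟨⟨T, hT⟩, ?_⟩
    unfold algMap mulMap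
    simp only [LinearMap.comp_apply, Submodule.mkQ_apply, AlgHom.toLinearMap_apply,
      Submodule.subtype_apply, LinearMap.mulLeft_apply]
    rw [eq_comm, Submodule.Quotient.eq]
    simp only [Submodule.restrictScalars_mem, Ideal.mem_span_singleton]
    exact hFT
  have h2 := Submodule.finrank_mono h1
  have h3 := LinearMap.finrank_range_add_finrank_ker (mulMap F (gr n F s) ((d - 1) * k))
  have h4 := LinearMap.finrank_range_add_finrank_ker (algMap F (gr n F) (c + k))
  have h5 := mulMap_ker hF hp hFs hk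
  have h6 := algMap_ker (γ := gr n F) hR hR0 hFR hrk
  rw [finrank_forms] at h3 h4
  have e1 : (d - 1) * k + n + 1 = (d - 1) * k + (n + 1) := by ring
  have e2 : c + k - r + n + 1 = c + k - r + (n + 1) := by ring
  have e3 : (d - 1) * k - d + n + 1 = (d - 1) * k - d + (n + 1) := by ring
  have e4 : c + k + n + 1 = c + k + (n + 1) := by ring
  rw [e1, e2, e3, e4]
  omega

end Pool.Agent.TH554.J3513
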