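import Pool.Agent.TH86.IL.Defs

/-!
Certificates pass to the lamplighter.
-/

set_option autoImplicit false

namespace Pool.Agent.TH554.J534

open Pool.Agent.TH86.IL Finset
open scoped Classical

universe u

variable {K : Type u}

/-- slice of a set of pairs -/
noncomputable def slice (F : Finset K) (P : Finset (Finset K × K)) (s : Finset K) : Finset K :=
  F.filter (fun x => (s, x) ∈ P)

/-- weights on pairs -/
noncomputable def WW (w : K → K → ℝ) (p q : Finset K × K) : ℝ :=
  (if p.1 = q.1 then 3 * w p.2 q.2 else 0) +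
    (if q.2 = p.2 ∧ q.1 = symmDiff p.1 {p.2} then 2 else 0)

theorem sum_slice {M : Type*} [AddCommMonoid M] (F : Finset K) {P : Finset (Finset K × K)}
    (hP : P ⊆ F.powerset ×ˢ F) (f : Finset K × K → M) :
    ∑ p ∈ P, f p = ∑ s ∈ F.powerset, ∑ x ∈ slice F P s, f (s, x) := by
  have h1 : ∑ p ∈ P, f p = ∑ p ∈ F.powerset ×ˢ F, if p ∈ P then f p else 0 := by
    rw [← sum_filter]
    congr 1
    ext p
    simp only [mem_filter]
    exact ⟨fun h => ⟨hP h, h⟩, fun h => h.2⟩
  rw [h1, sum_product]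
  refine sum_congr rfl fun s _ => ?_
  unfold slice
  rw [sum_filter]

theorem comb
    (cube_iso : ∀ {α : Type u} [DecidableEq α] (F : Finset α) (𝒜 : Finset (Finset α)) (k : ℕ),
      𝒜.card ≤ 2 ^ k → ∑ s ∈ 𝒜, (F.filter (fun x => symmDiff s {x} ∈ 𝒜)).card ≤ k * 𝒜.card)
    (F : Finset K) (w : K → K → ℝ) (hw : ∀ x y, 0 ≤ w x y) {N : ℕ}
    (hcert : ∀ S : Finset K, S ⊆ F → S.card ≤ N →
      (S.card : ℝ) ≤ ∑ x ∈ S, ∑ y ∈ F.filter (fun y => y ∉ S), w x y)
    {P : Finset (Finset K × K)} (hP : P ⊆ F.powerset ×ˢ F) (hcard : P.card ≤ 2 ^ (N / 4)) :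
    (P.card : ℝ) ≤ ∑ p ∈ P, ∑ q ∈ (F.powerset ×ˢ F).filter (fun q => q ∉ P), WW w p q := by
  -- big slices
  let sl : Finset K → Finset K := slice F P
  let 𝓑 : Finset (Finset K) := F.powerset.filter (fun s => N < (sl s).card)
  have hmem : ∀ {s x}, (s, x) ∈ P → s ∈ F.powerset ∧ x ∈ F := fun h => mem_product.1 (hP h)
  have hsl : ∀ {s x}, x ∈ sl s ↔ (s, x) ∈ P := by
    intro s x
    simp only [sl, slice, mem_filter]
    exact ⟨fun h => h.2, fun h => ⟨(hmem h).2, h⟩⟩
  have htog : ∀ {s x}, s ∈ F.powerset → x ∈ F → symmDiff s {x} ∈ F.powerset := by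
    intro s x hs hx
    rw [mem_powerset] at hs ⊢
    intro y hy
    rw [mem_symmDiff] at hy
    rcases hy with h | h
    · exact hs h.1
    · rw [mem_singleton.1 h.1]; exact hx
  -- the masses
  have hPcard : P.card = ∑ s ∈ F.powerset, (sl s).card := by
    have := sum_slice F hP (fun _ => 1)
    simpa using this
  set Big := ∑ s ∈ 𝓑, (sl s).card with hBig
  set Small := ∑ s ∈ F.powerset.filter (fun s => ¬ N < (sl s).card), (sl s).card with hSmall
  have hsplit : Big + Small = P.card := by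
    rw [hPcard, hBig, hSmall]
    exact sum_filter_add_sum_filter_not _ _ _
  have h𝓑1 : 𝓑.card * N ≤ Big := by
    rw [hBig, ← smul_eq_mul, ← sum_const]
    exact sum_le_sum fun s hs => (mem_filter.1 hs).2.le
  have h𝓑2 : 𝓑.card ≤ 2 ^ (N / 4) := by
    have h1 : 𝓑.card * 1 ≤ Big := by
      rw [hBig, ← smul_eq_mul, ← sum_const]
      exact sum_le_sum fun s hs => by have := (mem_filter.1 hs).2; omega
    omega
  let T := ∑ s ∈ 𝓑, ((sl s).filter (fun x => symmDiff s {x} ∈ 𝓑)).card
  let U := ∑ s ∈ 𝓑, ((sl s).filter (fun x => symmDiff s {x} ∉ 𝓑 ∧ (symmDiff s {x}, x) ∉ P)).card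
  let V := ∑ s ∈ 𝓑, ((sl s).filter (fun x => symmDiff s {x} ∉ 𝓑 ∧ (symmDiff s {x}, x) ∈ P)).card
  have hT : 4 * T ≤ Big := by
    have h1 : T ≤ N / 4 * 𝓑.card := by
      refine le_trans ?_ (cube_iso F 𝓑 (N / 4) h𝓑2)
      refine sum_le_sum fun s _ => card_le_card ?_
      exact filter_subset_filter _ (filter_subset _ _)
    have h2 : 4 * (N / 4) ≤ N := Nat.mul_div_le N 4
    calc 4 * T ≤ 4 * (N / 4 * 𝓑.card) := Nat.mul_le_mul_left _ h1
      _ = (4 * (N / 4)) * 𝓑.card := by ring
      _ ≤ N * 𝓑.card := Nat.mul_le_mul_right _ h2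
      _ = 𝓑.card * N := mul_comm _ _
      _ ≤ Big := h𝓑1
  have hV : V ≤ Small := by
    have h1 : V = (𝓑.sigma (fun s => (sl s).filter (fun x => symmDiff s {x} ∉ 𝓑 ∧
        (symmDiff s {x}, x) ∈ P))).card := (card_sigma _ _).symm
    have h2 : Small = ((F.powerset.filter (fun s => ¬ N < (sl s).card)).sigma (fun s => sl s)).card :=
      (card_sigma _ _).symm
    rw [h1, h2]
    refine card_le_card_of_injOn (fun p => ⟨symmDiff p.1 {p.2}, p.2⟩) ?_ ?_
    · rintro ⟨s, x⟩ h
      simp only [coe_sigma, Set.mem_sigma_iff, mem_coe, mem_filter] at h ⊢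
      obtain ⟨hs, hx, hb, hp⟩ := h
      have hs' : symmDiff s {x} ∈ F.powerset := (hmem hp).1
      refine ⟨⟨hs', ?_⟩, hsl.2 hp⟩
      intro hlt
      exact hb (mem_filter.2 ⟨hs', hlt⟩)
    · rintro ⟨s, x⟩ _ ⟨t, y⟩ _ h
      simp only [Sigma.mk.injEq, heq_eq_eq] at h
      obtain ⟨h1, rfl⟩ := h
      have : s = t := by
        have := congrArg (fun z => symmDiff z {x}) h1
        simpa [symmDiff_assoc] using this
      rw [this]
  have hBTUV : Big = T + U + V := by
    rw [hBig]
    simp only [T, U, V]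
    rw [← sum_add_distrib, ← sum_add_distrib]
    refine sum_congr rfl fun s _ => ?_
    have e1 := card_filter_add_card_filter_not (s := sl s) (fun x => symmDiff s {x} ∈ 𝓑)
    have e2 := card_filter_add_card_filter_not (s := (sl s).filter (fun x => symmDiff s {x} ∉ 𝓑))
      (fun x => (symmDiff s {x}, x) ∈ P)
    rw [filter_filter, filter_filter] at e2
    omega
  -- lower bound of the boundary
  let wb : Finset K → ℝ := fun s => ∑ x ∈ sl s, ∑ y ∈ F.filter (fun y => y ∉ sl s), w x y
  have hwb0 : ∀ s, 0 ≤ wb s := fun s => sum_nonneg fun x _ => sum_nonneg fun y _ => hw x y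
  have hbd : ∀ p ∈ P, (∑ y ∈ F.filter (fun y => y ∉ sl p.1), 3 * w p.2 y) +
      (if (symmDiff p.1 {p.2}, p.2) ∉ P then 2 else 0) ≤
      ∑ q ∈ (F.powerset ×ˢ F).filter (fun q => q ∉ P), WW w p q := by
    intro p hp
    unfold WW
    rw [sum_add_distrib]
    obtain ⟨hp1, hp2⟩ := mem_product.1 (hP hp)
    refine add_le_add ?_ ?_
    · have h1 : ∑ y ∈ F.filter (fun y => y ∉ sl p.1), 3 * w p.2 y =
          ∑ q ∈ (F.filter (fun y => y ∉ sl p.1)).image (fun y => (p.1, y)),
            (if p.1 = q.1 then 3 * w p.2 q.2 else 0) := by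
        rw [sum_image (fun a _ b _ h => (Prod.mk.inj h).2)]
        simp
      rw [h1]
      refine sum_le_sum_of_subset_of_nonneg ?_ ?_
      · intro q hq
        obtain ⟨y, hy, rfl⟩ := mem_image.1 hq
        rw [mem_filter] at hy
        rw [mem_filter, mem_product]
        exact ⟨⟨hp1, hy.1⟩, fun h => hy.2 (hsl.2 h)⟩
      · intro q _ _
        split_ifs
        · exact mul_nonneg (by norm_num) (hw _ _)
        · exact le_rfl
    · split_ifs with h
      · exact sum_nonneg fun q _ => by split_ifs <;> norm_num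
      · have hq : (symmDiff p.1 {p.2}, p.2) ∈ (F.powerset ×ˢ F).filter (fun q => q ∉ P) := by
          rw [mem_filter, mem_product]
          exact ⟨⟨htog hp1 hp2, hp2⟩, h⟩
        have := single_le_sum (f := fun q : Finset K × K =>
          (if q.2 = p.2 ∧ q.1 = symmDiff p.1 {p.2} then (2 : ℝ) else 0))
          (fun q _ => by split_ifs <;> norm_num) hq
        simpa using this
  have hlow : 3 * (Small : ℝ) + 2 * (U : ℝ) ≤
      ∑ p ∈ P, ((∑ y ∈ F.filter (fun y => y ∉ sl p.1), 3 * w p.2 y) +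
      (if (symmDiff p.1 {p.2}, p.2) ∉ P then 2 else 0)) := by
    rw [sum_add_distrib, sum_slice F hP, sum_slice F hP]
    refine add_le_add ?_ ?_
    · have e1 : ∑ s ∈ F.powerset, ∑ x ∈ slice F P s, ∑ y ∈ F.filter (fun y => y ∉ sl (s, x).1),
          3 * w (s, x).2 y = ∑ s ∈ F.powerset, 3 * wb s := by
        refine sum_congr rfl fun s _ => ?_
        simp only [wb, mul_sum]
        rfl
      rw [e1, ← sum_filter_add_sum_filter_not F.powerset (fun s => N < (sl s).card)]
      have e2 : 0 ≤ ∑ s ∈ F.powerset.filter (fun s => N < (sl s).card), 3 * wb s :=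
        sum_nonneg fun s _ => mul_nonneg (by norm_num) (hwb0 s)
      have e3 : 3 * (Small : ℝ) ≤ ∑ s ∈ F.powerset.filter (fun s => ¬ N < (sl s).card), 3 * wb s := by
        rw [hSmall]
        push_cast
        rw [mul_sum]
        refine sum_le_sum fun s hs => ?_
        have := hcert (sl s) (filter_subset _ _) (not_lt.1 (mem_filter.1 hs).2)
        exact mul_le_mul_of_nonneg_left this (by norm_num)
      linarith
    · have e1 : 2 * (U : ℝ) = ∑ s ∈ 𝓑, ∑ x ∈ sl s,
          (if symmDiff s {x} ∉ 𝓑 ∧ (symmDiff s {x}, x) ∉ P then (2 : ℝ) else 0) := by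
        simp only [U]
        push_cast
        rw [mul_sum]
        refine sum_congr rfl fun s _ => ?_
        rw [← sum_filter, sum_const, nsmul_eq_mul, mul_comm]
      rw [e1]
      refine (sum_le_sum (g := fun s => ∑ x ∈ slice F P s,
        (if (symmDiff (s, x).1 {(s, x).2}, (s, x).2) ∉ P then (2 : ℝ) else 0)) fun s _ =>
          sum_le_sum fun x _ => ?_).trans
        (sum_le_sum_of_subset_of_nonneg (filter_subset _ _) fun s _ _ => sum_nonneg fun x _ => ?_)
      · by_cases h : (symmDiff s {x}, x) ∈ P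
        · simp [h]
        · by_cases h' : symmDiff s {x} ∈ 𝓑
          · simp [h, h']
          · simp [h, h']
      · split_ifs <;> norm_num
  have hfin : (P.card : ℝ) ≤ 3 * (Small : ℝ) + 2 * (U : ℝ) := by
    have : P.card ≤ 3 * Small + 2 * U := by omega
    exact_mod_cast this
  exact hfin.trans (hlow.trans (sum_le_sum hbd))

/-- the lamp configuration of a finite set -/
noncomputable def ch (s : Finset K) : K → ZMod 2 := fun k => if k ∈ s then 1 else 0

theorem ch_fin (s : Finset K) : {k | ch s k ≠ 0}.Finite := by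
  refine s.finite_toSet.subset fun k hk => ?_
  by_contra h
  exact hk (if_neg h)

theorem ch_one {s : Finset K} {k : K} : ch s k = 1 ↔ k ∈ s := by
  unfold ch
  split_ifs with h
  · simp [h]
  · simp [h]

theorem ch_inj {s t : Finset K} (h : ch s = ch t) : s = t := by
  ext k
  rw [← ch_one, ← ch_one, h]

theorem ch_symmDiff (s : Finset K) (x k : K) :
    ch (symmDiff s {x}) k = if k = x then ch s k + 1 else ch s k := by
  unfold ch
  simp only [mem_symmDiff, mem_singleton]
  have h11 : (1 : ZMod 2) + 1 = 0 := by decide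
  by_cases h1 : k = x <;> by_cases h2 : k ∈ s <;> simp [h1, h2, h11]
  · subst h1; simp [h2, h11]
  · subst h1; simp [h2]

theorem tog_iff (s t : Finset K) (x : K) :
    ((∀ k, k ≠ x → ch t k = ch s k) ∧ ch t x = ch s x + 1) ↔ t = symmDiff s {x} := by
  constructor
  · rintro ⟨h1, h2⟩
    apply ch_inj
    funext k
    rw [ch_symmDiff]
    split_ifs with h
    · subst h; exact h2
    · exact h1 k h
  · rintro rfl
    refine ⟨fun k hk => ?_, ?_⟩
    · rw [ch_symmDiff, if_neg hk]
    · rw [ch_symmDiff, if_pos rfl]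

/-- Certificates pass to the lamplighter. -/
theorem QF_lamp
    (cube_iso : ∀ {α : Type u} [DecidableEq α] (F : Finset α) (𝒜 : Finset (Finset α)) (k : ℕ),
      𝒜.card ≤ 2 ^ k → ∑ s ∈ 𝒜, (F.filter (fun x => symmDiff s {x} ∈ 𝒜)).card ≤ k * 𝒜.card)
    {K X : Type u} {E : GM K} {E' : GM X} (T : LampOver E E') {κ : ℝ} {N : ℕ}
    (h : QF E κ N) : QF E' (3 * κ + 2) (2 ^ (N / 4)) := by
  obtain ⟨F, w, hF, hw, hwE, htot, hcert⟩ := h
  have hpos : ∀ (s : Finset K) x, T.pos (T.pt (ch s) x) = x := fun s x => T.pos_pt _ _ (ch_fin s)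
  have hlam : ∀ (s : Finset K) x, T.lam (T.pt (ch s) x) = ch s := fun s x => T.lam_pt _ _ (ch_fin s)
  let G : Finset K × K ↪ X := ⟨fun p => T.pt (ch p.1) p.2, by
    rintro ⟨s, x⟩ ⟨t, y⟩ h
    have h1 := congrArg T.pos h
    have h2 := congrArg T.lam h
    simp only [hpos, hlam] at h1 h2
    rw [h1, ch_inj h2]⟩
  have hG : ∀ p, G p = T.pt (ch p.1) p.2 := fun p => rfl
  let w' : X → X → ℝ := fun g g' =>
    (if T.lam g = T.lam g' then 3 * w (T.pos g) (T.pos g') else 0) +
    (if T.pos g = T.pos g' ∧ (∀ k, k ≠ T.pos g → T.lam g' k = T.lam g k) ∧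
      T.lam g' (T.pos g) = T.lam g (T.pos g) + 1 then 2 else 0)
  have hWW : ∀ p q, w' (G p) (G q) = WW w p q := by
    rintro ⟨s, x⟩ ⟨t, y⟩
    simp only [w', hG, hpos, hlam, WW]
    congr 1
    · by_cases h : s = t
      · subst h; simp
      · rw [if_neg h, if_neg (fun h' => h (ch_inj h'))]
    · have : (x = y ∧ (∀ k, k ≠ x → ch t k = ch s k) ∧ ch t x = ch s x + 1) ↔
          (y = x ∧ t = symmDiff s {x}) := by
        rw [tog_iff]
        exact and_congr_left' eq_comm
      exact if_congr this rfl rfl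
  have hw'0 : ∀ g g', 0 ≤ w' g g' := by
    intro g g'
    simp only [w']
    refine add_nonneg ?_ ?_
    · split_ifs
      · exact mul_nonneg (by norm_num) (hw _ _)
      · exact le_rfl
    · split_ifs <;> norm_num
  refine ⟨(F.powerset ×ˢ F).map G, w', ?_, hw'0, ?_, ?_, ?_⟩
  · rw [map_nonempty, nonempty_product]
    exact ⟨powerset_nonempty F, hF⟩
  · intro g g' hne
    rw [T.adj]
    by_contra hcon
    push Not at hcon
    apply hne
    simp only [w']
    have e1 : (if T.lam g = T.lam g' then 3 * w (T.pos g) (T.pos g') else 0) = 0 := by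
      split_ifs with hl
      · by_contra hz
        have : w (T.pos g) (T.pos g') ≠ 0 := fun h => hz (by rw [h, mul_zero])
        exact absurd (hwE _ _ this) (not_le.2 (hcon.1 hl))
      · rfl
    rw [e1, zero_add, if_neg]
    rintro ⟨h1, h2, h3⟩
    exact hcon.2 h1 h2 h3
  · rw [sum_map, card_map, card_product, card_powerset]
    simp_rw [sum_map, hWW]
    unfold WW
    simp_rw [sum_add_distrib]
    have a1 : ∑ p ∈ F.powerset ×ˢ F, ∑ q ∈ F.powerset ×ˢ F, (if p.1 = q.1 then 3 * w p.2 q.2 else 0)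
        = 2 ^ F.card * (3 * ∑ x ∈ F, ∑ y ∈ F, w x y) := by
      rw [sum_product]
      have : ∀ s ∈ F.powerset, ∑ x ∈ F, ∑ q ∈ F.powerset ×ˢ F,
          (if s = q.1 then 3 * w x q.2 else 0) = 3 * ∑ x ∈ F, ∑ y ∈ F, w x y := by
        intro s hs
        rw [mul_sum]
        refine sum_congr rfl fun x _ => ?_
        rw [sum_product, sum_comm, mul_sum]
        refine sum_congr rfl fun y _ => ?_
        rw [sum_ite_eq, if_pos hs]
      rw [sum_congr rfl this, sum_const, card_powerset, nsmul_eq_mul]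
      push_cast; ring
    have a2 : ∑ p ∈ F.powerset ×ˢ F, ∑ q ∈ F.powerset ×ˢ F,
        (if q.2 = p.2 ∧ q.1 = symmDiff p.1 {p.2} then (2 : ℝ) else 0) ≤ 2 ^ F.card * F.card * 2 := by
      calc _ ≤ ∑ p ∈ F.powerset ×ˢ F, (2 : ℝ) := by
            refine sum_le_sum fun p _ => ?_
            have : ∀ q : Finset K × K, (if q.2 = p.2 ∧ q.1 = symmDiff p.1 {p.2} then (2 : ℝ) else 0)
                = if q = (symmDiff p.1 {p.2}, p.2) then 2 else 0 := by
              intro q
              refine if_congr ?_ rfl rfl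
              rw [Prod.ext_iff]
              exact and_comm
            simp_rw [this]
            rw [sum_ite_eq']
            split_ifs <;> norm_num
        _ = _ := by
            rw [sum_const, card_product, card_powerset, nsmul_eq_mul]
            push_cast; ring
    rw [a1]
    have a3 : (2 : ℝ) ^ F.card * (3 * ∑ x ∈ F, ∑ y ∈ F, w x y) ≤ 2 ^ F.card * (3 * (κ * F.card)) := by
      gcongr
    push_cast
    calc _ ≤ (2 : ℝ) ^ F.card * (3 * (κ * F.card)) + 2 ^ F.card * F.card * 2 := add_le_add a3 a2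
      _ = _ := by ring
  · intro S hS hScard
    obtain ⟨P, hP, rfl⟩ : ∃ P ⊆ F.powerset ×ˢ F, S = P.map G := by
      refine ⟨(F.powerset ×ˢ F).filter (fun p => G p ∈ S), filter_subset _ _, ?_⟩
      ext g
      simp only [mem_map, mem_filter]
      constructor
      · intro hg
        obtain ⟨p, hp, rfl⟩ := mem_map.1 (hS hg)
        exact ⟨p, ⟨hp, hg⟩, rfl⟩
      · rintro ⟨p, ⟨_, hp⟩, rfl⟩; exact hp
    rw [card_map] at hScard ⊢
    have hcomp : ((F.powerset ×ˢ F).map G).filter (fun y => y ∉ P.map G) =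
        ((F.powerset ×ˢ F).filter (fun q => q ∉ P)).map G := by
      ext g
      simp only [mem_map, mem_filter]
      constructor
      · rintro ⟨⟨q, hq, rfl⟩, hn⟩
        exact ⟨q, ⟨hq, fun h => hn ⟨q, h, rfl⟩⟩, rfl⟩
      · rintro ⟨q, ⟨hq, hn⟩, rfl⟩
        refine ⟨⟨q, hq, rfl⟩, ?_⟩
        rintro ⟨q', hq', he⟩
        rw [G.injective he] at hq'
        exact hn hq'
    rw [hcomp, sum_map]
    simp_rw [sum_map, hWW]
    exact comb cube_iso F w hw hcert hP hScard

end Pool.Agent.TH554.J534
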