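import Pool.Agent.TH760.Base
import Pool.Agent.TH760.ZDefs

/-!
Homogeneous rectangle for `d`-dimensional families of small partial functions.
-/

set_option autoImplicit false

namespace Pool.Agent.TH554.J660

open Cardinal Set
open Pool.Agent.TH760

theorem le_tow (μ : Cardinal.{0}) (n : ℕ) : μ ≤ tow μ n := by
  induction n with
  | zero => exact le_rfl
  | succ n ih => exact ih.trans (cantor _).le

/-- pigeonhole -/
theorem pigeon {Λ T : Type} {μ c : Cardinal.{0}} (H : Set Λ) (τ : Λ → T) (hc : ℵ₀ ≤ c) (hμ : μ ≤ c)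
    (hT : #T ≤ c) (hH : c < #H) : ∃ t, μ < #{x // x ∈ H ∧ τ x = t} := by
  by_contra hcon
  push Not at hcon
  have h1 : #H = Cardinal.sum (fun t : T => #{x : H // τ x.1 = t}) := by
    rw [← mk_sigma]
    exact mk_congr (Equiv.sigmaFiberEquiv (fun x : H => τ x.1)).symm
  have h2 : ∀ t, #{x : H // τ x.1 = t} ≤ μ := by
    intro t
    refine le_trans (mk_le_of_injective (f := fun x => (⟨x.1.1, x.1.2, x.2⟩ : {x // x ∈ H ∧ τ x = t})) ?_) (hcon t)
    intro x y hxy
    exact Subtype.ext (Subtype.ext (congrArg (fun z => z.1) hxy))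
  have h3 : #H ≤ c := by
    rw [h1]
    calc Cardinal.sum (fun t : T => #{x : H // τ x.1 = t}) ≤ Cardinal.sum (fun _ : T => μ) :=
          sum_le_sum _ _ h2
      _ = #T * μ := by simp
      _ ≤ c * c := mul_le_mul' hT hμ
      _ = c := mul_eq_self hc
  exact absurd h3 (not_le.2 hH)

/-- value of a partial function at an optional point -/
def val {X V : Type} (q : X → Option V) (o : Option X) : Option V := o.bind q

theorem homog_aux (delta : DeltaSystem) (d : ℕ) : ∀ {Y X V S : Type} {μ : Cardinal.{0}}, ℵ₀ ≤ μ →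
    #V ≤ 2 ^ μ → #S ≤ 2 ^ μ → tow μ (2 * d + 1) < #Y →
    ∀ (p : (Fin d → Y) → X → Option V), (∀ g, #{x // p g x ≠ none} ≤ μ) →
    ∀ (χ : (Fin d → Y) → S),
    ∃ H : Fin d → Set Y, (∀ i, μ < #(H i)) ∧
      (∀ g g', (∀ i, g i ∈ H i) → (∀ i, g' i ∈ H i) → χ g = χ g') ∧
      (∀ g g', (∀ i, g i ∈ H i) → (∀ i, g' i ∈ H i) →
        ∀ x v w, p g x = some v → p g' x = some w → v = w) ∧
      ∀ x, (∃ g, (∀ i, g i ∈ H i) ∧ p g x ≠ none) →
        (∀ g, (∀ i, g i ∈ H i) → p g x ≠ none) ∨
          ∃ i y, ∀ g, (∀ i, g i ∈ H i) → p g x ≠ none → g i = y := by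
  induction d with
  | zero =>
    intro Y X V S μ _ _ _ _ p _ χ
    refine ⟨fun i => i.elim0, fun i => i.elim0, ?_, ?_, ?_⟩
    · intro g g' _ _
      rw [Subsingleton.elim g g']
    · intro g g' _ _ x v w h1 h2
      rw [Subsingleton.elim g g', h2] at h1
      exact (Option.some.inj h1).symm
    · rintro x ⟨g, _, hg⟩
      left
      intro g' _
      rwa [Subsingleton.elim g' g]
  | succ d ih =>
    intro Y X V S μ hμ hV hS hY p hp χ
    -- the small set
    have htow : tow μ (2 * (d + 1) + 1) = 2 ^ tow μ (2 * d + 2) := rfl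
    have htow2 : tow μ (2 * d + 2) = 2 ^ tow μ (2 * d + 1) := rfl
    have hY1 : tow μ (2 * d + 2) ≤ #Y := (cantor _).le.trans (htow ▸ hY).le
    obtain ⟨Y', hY'⟩ := le_mk_iff_exists_set.1 hY1
    have hμY' : μ ≤ #Y' := by rw [hY']; exact le_tow _ _
    have hY'inf : ℵ₀ ≤ #Y' := hμ.trans hμY'
    have hY'big : tow μ (2 * d + 1) < #Y' := by rw [hY', htow2]; exact cantor _
    have hY'ne : Nonempty Y' := mk_ne_zero_iff.1 (fun h => by rw [h] at hY'inf; exact absurd hY'inf (not_le.2 aleph0_pos))
    let A : Type := μ.out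
    have hA : #A = μ := mk_out μ
    let M : Type := (Fin d → Y') × A
    have hfun : #(Fin d → Y') ≤ #Y' := by
      have : #(Fin d → Y') = #Y' ^ (d : Cardinal) := by
        rw [← mk_fin d]; exact (power_def _ _).symm
      rw [this]
      exact power_nat_le hY'inf
    have hM1 : #M ≤ #Y' := by
      have : #M = #(Fin d → Y') * #A := by rw [mk_prod, lift_id, lift_id]
      rw [this, hA]
      exact (mul_le_mul' hfun hμY').trans (mul_eq_self hY'inf).le
    have hfun1 : 1 ≤ #(Fin d → Y') := by
      exact Cardinal.one_le_iff_ne_zero.2 (mk_ne_zero _)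
    have hM2 : μ ≤ #M := by
      have : #M = #(Fin d → Y') * #A := by rw [mk_prod, lift_id, lift_id]
      rw [this, hA]
      calc μ = 1 * μ := (one_mul _).symm
        _ ≤ _ := mul_le_mul' hfun1 le_rfl
    have hM3 : #(Fin d → Y') ≤ #M := by
      have : #M = #(Fin d → Y') * #A := by rw [mk_prod, lift_id, lift_id]
      rw [this, hA]
      calc #(Fin d → Y') = #(Fin d → Y') * 1 := (mul_one _).symm
        _ ≤ _ := mul_le_mul' le_rfl (one_le_aleph0.trans hμ)
    have hMinf : ℵ₀ ≤ #M := hμ.trans hM2
    have hMY : 2 ^ #M < #Y := by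
      refine lt_of_le_of_lt (power_le_power_left two_ne_zero hM1) ?_
      rw [hY']
      exact htow ▸ hY
    -- the enumerations
    have hcons : ∀ (y : Y) (g' : Fin d → Y'), ∃ f : A → Option X,
        ∀ x, p (Fin.cons (α := fun _ => Y) y (fun i => (g' i : Y))) x ≠ none → ∃ a, f a = some x := by
      intro y g'
      have h1 : #{x // p (Fin.cons (α := fun _ => Y) y (fun i => (g' i : Y))) x ≠ none} ≤ #A := by
        rw [hA]; exact hp _
      obtain ⟨i⟩ := h1
      refine ⟨fun a => (Function.partialInv i a).map Subtype.val, fun x hx => ⟨i ⟨x, hx⟩, ?_⟩⟩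
      have := Function.partialInv_left i.injective ⟨x, hx⟩
      show Option.map Subtype.val (Function.partialInv i (i ⟨x, hx⟩)) = some x
      rw [this]
      rfl
    choose f hf using hcons
    let c : Y → (Fin d → Y') → (Fin (d + 1) → Y) := fun y g' =>
      Fin.cons (α := fun _ => Y) y (fun i => (g' i : Y))
    let e : Y → M → Option X := fun y m => f y m.1 m.2
    have he : ∀ y g' x, p (c y g') x ≠ none → ∃ a, e y (g', a) = some x := fun y g' x hx => hf y g' x hx
    obtain ⟨r, H1, hH1, D1, D2, D3⟩ := delta hMinf hMY e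
    -- types
    let T : Type := (M → Option V) × (M → M → Prop) × ((Fin d → Y') → S)
    let τ : Y → T := fun y => (fun m => val (p (c y m.1)) (e y m), fun m m' => e y m = e y m',
      fun g' => χ (c y g'))
    have h2M : ℵ₀ ≤ (2 : Cardinal) ^ #M := hMinf.trans (cantor _).le
    have hpow : ∀ a b : Cardinal.{0}, a ≤ 2 ^ μ → b ≤ #M → a ^ b ≤ 2 ^ #M := by
      intro a b ha hb
      calc a ^ b ≤ (2 ^ μ) ^ b := power_le_power_right ha
        _ = 2 ^ (μ * b) := (power_mul).symm
        _ ≤ 2 ^ (#M * #M) := power_le_power_left two_ne_zero (mul_le_mul' hM2 hb)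
        _ = 2 ^ #M := by rw [mul_eq_self hMinf]
    have hT1 : #(M → Option V) ≤ 2 ^ #M := by
      have h1 : #(Option V) ≤ 2 ^ μ := by
        rw [mk_option]
        exact (add_le_add_left hV 1).trans (add_one_eq (hμ.trans (cantor _).le)).le
      have : #(M → Option V) = #(Option V) ^ #M := (power_def _ _).symm
      rw [this]
      exact hpow _ _ h1 le_rfl
    have hT2 : #(M → M → Prop) ≤ 2 ^ #M := by
      have h1 : #(M → Prop) = 2 ^ #M := by
        have : #(M → Prop) = #Prop ^ #M := (power_def _ _).symm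
        rw [this, mk_Prop]
      have h2 : #(M → M → Prop) = #(M → Prop) ^ #M := (power_def _ _).symm
      rw [h2, h1, ← power_mul, mul_eq_self hMinf]
    have hT3 : #((Fin d → Y') → S) ≤ 2 ^ #M := by
      have : #((Fin d → Y') → S) = #S ^ #(Fin d → Y') := (power_def _ _).symm
      rw [this]
      exact hpow _ _ hS hM3
    have hT : #T ≤ 2 ^ #M := by
      have : #T = #(M → Option V) * (#(M → M → Prop) * #((Fin d → Y') → S)) := by
        rw [mk_prod, lift_id, lift_id, mk_prod, lift_id, lift_id]
      rw [this]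
      calc _ ≤ (2 : Cardinal) ^ #M * (2 ^ #M * 2 ^ #M) := mul_le_mul' hT1 (mul_le_mul' hT2 hT3)
        _ = _ := by rw [mul_eq_self h2M, mul_eq_self h2M]
    obtain ⟨t, ht⟩ := pigeon H1 τ h2M (hM2.trans (cantor _).le) hT hH1
    set H0 : Set Y := {x | x ∈ H1 ∧ τ x = t} with hH0
    have hH0μ : μ < #H0 := ht
    obtain ⟨ys, hys⟩ : H0.Nonempty := by
      rw [nonempty_iff_ne_empty]
      intro h
      rw [h] at hH0μ
      simp at hH0μ
    have hty : ∀ y ∈ H0, τ y = τ ys := fun y hy => hy.2.trans hys.2.symm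
    have hval : ∀ y ∈ H0, ∀ m : M, val (p (c y m.1)) (e y m) = val (p (c ys m.1)) (e ys m) :=
      fun y hy m => congrFun (congrArg (fun z => z.1) (hty y hy)) m
    have heq : ∀ y ∈ H0, ∀ m m' : M, (e y m = e y m') ↔ (e ys m = e ys m') := fun y hy m m' =>
      iff_of_eq (congrFun (congrFun (congrArg (fun z => z.2.1) (hty y hy)) m) m')
    have hχ : ∀ y ∈ H0, ∀ g', χ (c y g') = χ (c ys g') := fun y hy g' =>
      congrFun (congrArg (fun z => z.2.2) (hty y hy)) g'
    obtain ⟨H', hH'1, hH'2, hH'3, hH'4⟩ := ih hμ hV hS hY'big (fun g' => p (c ys g'))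
      (fun g' => hp _) (fun g' => χ (c ys g'))
    let H : Fin (d + 1) → Set Y := Fin.cons (α := fun _ => Set Y) H0 (fun i => Subtype.val '' (H' i))
    have hdec : ∀ g : Fin (d + 1) → Y, (∀ i, g i ∈ H i) → ∃ y ∈ H0, ∃ g' : Fin d → Y',
        (∀ i, g' i ∈ H' i) ∧ g = c y g' := by
      intro g hg
      have h0 : g 0 ∈ H0 := hg 0
      have h1 : ∀ i : Fin d, ∃ z : Y', z ∈ H' i ∧ (z : Y) = g i.succ := fun i => hg i.succ
      choose g' hg' hg'' using h1
      refine ⟨g 0, h0, g', hg', ?_⟩
      funext i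
      refine Fin.cases ?_ (fun i => ?_) i
      · rfl
      · exact (hg'' i).symm
    have key : ∀ y ∈ H0, ∀ m : M, ∀ x, e y m = some x → e ys m = some x →
        p (c y m.1) x = p (c ys m.1) x := by
      intro y hy m x h1 h2
      have := hval y hy m
      rw [h1, h2] at this
      exact this
    refine ⟨H, ?_, ?_, ?_, ?_⟩
    · intro i
      refine Fin.cases ?_ (fun i => ?_) i
      · exact hH0μ
      · show μ < #(Subtype.val '' (H' i) : Set Y)
        rw [mk_image_eq Subtype.val_injective]
        exact hH'1 i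
    · intro g g' hg hg'
      obtain ⟨y, hy, h, hh, rfl⟩ := hdec g hg
      obtain ⟨y', hy', h', hh', rfl⟩ := hdec g' hg'
      rw [hχ y hy, hχ y' hy']
      exact hH'2 h h' hh hh'
    · intro g g' hg hg' x v w hv hw
      obtain ⟨y, hy, h, hh, rfl⟩ := hdec g hg
      obtain ⟨y', hy', h', hh', rfl⟩ := hdec g' hg'
      obtain ⟨a, ha⟩ := he y h x (by rw [hv]; simp)
      obtain ⟨b, hb⟩ := he y' h' x (by rw [hw]; simp)
      -- the same point for `ys`
      have hsame : e ys (h, a) = e ys (h', b) := by
        by_cases hyy : y = y'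
        · subst hyy
          exact (heq y hy _ _).1 (ha.trans hb.symm)
        · cases hr : r (h, a) with
          | none =>
            cases hr' : r (h', b) with
            | none => exact absurd (ha.trans hb.symm) (D2 y hy.1 y' hy'.1 hyy _ _ hr hr')
            | some z' =>
              have h1 := D1 y' hy'.1 _ _ hr'
              exact absurd (ha.trans (hb.symm.trans h1)) (D3 y hy.1 _ _ _ hr hr')
          | some z =>
            cases hr' : r (h', b) with
            | none =>
              have h1 := D1 y hy.1 _ _ hr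
              exact absurd (hb.trans (ha.symm.trans h1)) (D3 y' hy'.1 _ _ _ hr' hr)
            | some z' =>
              have h1 := D1 y hy.1 _ _ hr
              have h2 := D1 y' hy'.1 _ _ hr'
              rw [D1 ys hys.1 _ _ hr, D1 ys hys.1 _ _ hr', ← h1, ← h2, ha, hb]
      have v1 : val (p (c ys h)) (e ys (h, a)) = some v := by
        rw [← hval y hy (h, a)]
        show val (p (c y h)) (e y (h, a)) = some v
        rw [ha]; exact hv
      have v2 : val (p (c ys h')) (e ys (h', b)) = some w := by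
        rw [← hval y' hy' (h', b)]
        show val (p (c y' h')) (e y' (h', b)) = some w
        rw [hb]; exact hw
      cases ho : e ys (h, a) with
      | none =>
        rw [ho] at v1
        simp [val] at v1
      | some z =>
        rw [ho] at v1
        rw [← hsame, ho] at v2
        exact hH'3 h h' hh hh' z v w v1 v2
    · rintro x ⟨g, hg, hgx⟩
      obtain ⟨y, hy, h, hh, rfl⟩ := hdec g hg
      obtain ⟨a, ha⟩ := he y h x hgx
      cases hr : r (h, a) with
      | none =>
        right
        refine ⟨0, y, fun g1 hg1 hx1 => ?_⟩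
        obtain ⟨y1, hy1, h1, hh1, rfl⟩ := hdec g1 hg1
        show y1 = y
        by_contra hne
        obtain ⟨b, hb⟩ := he y1 h1 x hx1
        cases hr' : r (h1, b) with
        | none => exact (D2 y1 hy1.1 y hy.1 hne _ _ hr' hr) (hb.trans ha.symm)
        | some z =>
          have h2 := D1 y1 hy1.1 _ _ hr'
          exact (D3 y hy.1 _ _ _ hr hr') (ha.trans (hb.symm.trans h2))
      | some z =>
        have hz : z = some x := (D1 y hy.1 _ _ hr).symm.trans ha
        subst hz
        have hys' : e ys (h, a) = some x := D1 ys hys.1 _ _ hr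
        have hpx : p (c ys h) x ≠ none := by
          rw [← key y hy (h, a) x ha hys']; exact hgx
        -- `x` is in the root
        have hroot : ∀ y1 ∈ H0, ∀ g1 b, e y1 (g1, b) = some x → ∀ y2 ∈ H0, e y2 (g1, b) = some x := by
          intro y1 hy1 g1 b hb y2 hy2
          cases hr' : r (g1, b) with
          | none => exact absurd hb (D3 y1 hy1.1 _ _ _ hr' hr)
          | some z1 =>
            rw [D1 y2 hy2.1 _ _ hr', ← D1 y1 hy1.1 _ _ hr', hb]
        rcases hH'4 x ⟨h, hh, hpx⟩ with hall | ⟨i, z', hz'⟩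
        · left
          intro g1 hg1
          obtain ⟨y1, hy1, h1, hh1, rfl⟩ := hdec g1 hg1
          have h2 := hall h1 hh1
          obtain ⟨b, hb⟩ := he ys h1 x h2
          have h3 := hroot ys hys h1 b hb y1 hy1
          rw [key y1 hy1 (h1, b) x h3 hb]
          exact h2
        · right
          refine ⟨i.succ, z', fun g1 hg1 hx1 => ?_⟩
          obtain ⟨y1, hy1, h1, hh1, rfl⟩ := hdec g1 hg1
          obtain ⟨b, hb⟩ := he y1 h1 x hx1
          have h3 := hroot y1 hy1 h1 b hb ys hys
          have h4 : p (c ys h1) x ≠ none := by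
            rw [← key y1 hy1 (h1, b) x hb h3]; exact hx1
          show ((h1 i : Y') : Y) = z'
          rw [hz' h1 hh1 h4]

/-- Given a `d`-dimensional family of partial functions `p g : X → Option V` with domains of size
at most `μ` (`g : Fin d → Y`, `Y` very large) and a colouring `χ`, there are large `H i ⊆ Y` such
that on the product of the `H i` the colouring is constant, the partial functions are pairwise
compatible, and each `x` which is in the domain of some of them is in the domain of all of them,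
or else there is a coordinate `i` and `y` such that `x` is only in the domains of `p g` with
`g i = y`. -/
theorem homog (delta : DeltaSystem) (d : ℕ) {Y X V S : Type} {μ : Cardinal.{0}} (hμ : ℵ₀ ≤ μ)
    (hV : #V ≤ 2 ^ μ) (hS : #S ≤ 2 ^ μ) (hY : ∀ n, tow μ n < #Y)
    (p : (Fin d → Y) → X → Option V) (hp : ∀ g, #{x // p g x ≠ none} ≤ μ)
    (χ : (Fin d → Y) → S) :
    ∃ H : Fin d → Set Y, (∀ i, μ < #(H i)) ∧
      (∀ g g', (∀ i, g i ∈ H i) → (∀ i, g' i ∈ H i) → χ g = χ g') ∧
      (∀ g g', (∀ i, g i ∈ H i) → (∀ i, g' i ∈ H i) →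
        ∀ x v w, p g x = some v → p g' x = some w → v = w) ∧
      ∀ x, (∃ g, (∀ i, g i ∈ H i) ∧ p g x ≠ none) →
        (∀ g, (∀ i, g i ∈ H i) → p g x ≠ none) ∨
          ∃ i y, ∀ g, (∀ i, g i ∈ H i) → p g x ≠ none → g i = y :=
  homog_aux delta d hμ hV hS (hY _) p hp χ

end Pool.Agent.TH554.J660
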