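import Mathlib

set_option autoImplicit false

namespace Pool.Agent.TH554.J92

open MvPolynomial

/-- Explicit data over a ring `A`: a projective scheme `V(I) ⊂ P^N_A`, an endomorphism of it given by
a finite family `𝓕` of tuples of forms, and a section `x₀`. -/
structure CData (A : Type) [CommRing A] (N : ℕ) (I : Ideal (MvPolynomial (Fin (N + 1)) A))
    (𝓕 : Set (Fin (N + 1) → MvPolynomial (Fin (N + 1)) A)) (x₀ : Fin (N + 1) → A) : Prop where
  hom : ∃ G : Set (MvPolynomial (Fin (N + 1)) A), G.Finite ∧ (∀ g ∈ G, ∃ d, g.IsHomogeneous d) ∧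
    I = Ideal.span G
  fin : 𝓕.Finite
  tup : ∀ F ∈ 𝓕, ∃ d, ∀ a, (F a).IsHomogeneous d
  uni : ∀ i, ∃ M : ℕ, (X i : MvPolynomial (Fin (N + 1)) A) ^ M ∈
    I ⊔ Ideal.span {P | ∃ F ∈ 𝓕, ∃ a, P = F a}
  prop : ∀ F ∈ 𝓕, ∀ F' ∈ 𝓕, ∀ a b, F a * F' b - F b * F' a ∈ I
  stab : ∀ P ∈ I, ∀ F ∈ 𝓕, bind₁ F P ∈ I
  x1 : ∃ i, x₀ i = 1
  xI : ∀ P ∈ I, eval x₀ P = 0

/-- `w` is an orbit of `x₀` over the field `E` (in homogeneous coordinates). -/
def IsOrbit {A : Type} [CommRing A] {N : ℕ}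
    (𝓕 : Set (Fin (N + 1) → MvPolynomial (Fin (N + 1)) A)) (x₀ : Fin (N + 1) → A)
    {E : Type} [Field E] (φ : A →+* E) (w : ℕ → Fin (N + 1) → E) : Prop :=
  w 0 = (fun a => φ (x₀ a)) ∧
    ∀ n, w (n + 1) ≠ 0 ∧ ∃ F ∈ 𝓕, ∀ a, w (n + 1) a = eval₂ φ (w n) (F a)

/-- iterated compositions (apply an element of `𝓕` first). -/
def Comp {R : Type} [CommRing R] {N : ℕ} (𝓕 : Set (Fin (N + 1) → MvPolynomial (Fin (N + 1)) R)) :
    ℕ → Set (Fin (N + 1) → MvPolynomial (Fin (N + 1)) R)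
  | 0 => {fun a => X a}
  | n + 1 => {G | ∃ F ∈ 𝓕, ∃ F' ∈ Comp 𝓕 n, G = fun a => bind₁ F (F' a)}

section DSC

open Filter

variable {A : Type} [CommRing A] {N : ℕ}

/-- the map induced by the inclusion of the subring generated by `t` -/
noncomputable abbrev io (t : Finset A) :
    MvPolynomial (Fin (N + 1)) (Subring.closure (t : Set A)) →+* MvPolynomial (Fin (N + 1)) A :=
  MvPolynomial.map (Subring.closure (t : Set A)).subtype

theorem io_inj (t : Finset A) : Function.Injective (io (N := N) t) :=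
  MvPolynomial.map_injective _ Subtype.val_injective

theorem ev_lift (P : MvPolynomial (Fin (N + 1)) A) :
    ∀ᶠ t : Finset A in atTop, ∃ P', io t P' = P := by
  filter_upwards [eventually_ge_atTop P.coeffs] with t ht
  have : P ∈ Set.range (MvPolynomial.map (σ := Fin (N + 1)) (Subring.closure (t : Set A)).subtype) := by
    rw [MvPolynomial.mem_range_map_iff_coeffs_subset]
    intro c hc
    exact ⟨⟨c, Subring.subset_closure (ht hc)⟩, rfl⟩
  obtain ⟨P', h⟩ := this
  exact ⟨P', h⟩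

theorem ev_mem (S : Set (MvPolynomial (Fin (N + 1)) A)) (hS : S.Finite)
    (P : MvPolynomial (Fin (N + 1)) A) (hP : P ∈ Ideal.span S) :
    ∀ᶠ t : Finset A in atTop, ∀ P', io t P' = P → P' ∈ Ideal.span (io t ⁻¹' S) := by
  classical
  have hP2 : P ∈ Submodule.span (MvPolynomial (Fin (N + 1)) A) (hS.toFinset : Set (MvPolynomial (Fin (N + 1)) A)) := by
    rw [Set.Finite.coe_toFinset]; exact hP
  rw [Submodule.mem_span_finset] at hP2
  obtain ⟨c, -, hc⟩ := hP2
  have h1 : ∀ᶠ t : Finset A in atTop, ∀ g ∈ hS.toFinset, (∃ g', io t g' = g) ∧ ∃ c', io t c' = c g := by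
    rw [eventually_all_finset]
    intro g _
    exact (ev_lift g).and (ev_lift (c g))
  filter_upwards [h1] with t ht P' hP'
  have hg : ∀ x : {x // x ∈ hS.toFinset}, ∃ g', io t g' = x.1 := fun x => (ht x.1 x.2).1
  have hcc : ∀ x : {x // x ∈ hS.toFinset}, ∃ c', io t c' = c x.1 := fun x => (ht x.1 x.2).2
  choose g' hg' using hg
  choose c' hc' using hcc
  have key : P' = ∑ x : {x // x ∈ hS.toFinset}, c' x * g' x := by
    apply io_inj t
    rw [hP', map_sum, ← hc, ← Finset.sum_coe_sort hS.toFinset]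
    refine Finset.sum_congr rfl ?_
    intro x _
    rw [map_mul, hc', hg', smul_eq_mul]
  rw [key]
  refine Ideal.sum_mem _ fun x _ => Ideal.mul_mem_left _ _ (Ideal.subset_span ?_)
  rw [Set.mem_preimage, hg']
  exact hS.mem_toFinset.mp x.2

theorem hom_of_io {t : Finset A} {P : MvPolynomial (Fin (N + 1)) (Subring.closure (t : Set A))}
    {d : ℕ} (h : (io t P).IsHomogeneous d) : P.IsHomogeneous d := by
  intro e he
  refine h (d := e) ?_
  rw [MvPolynomial.coeff_map]
  intro h0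
  apply he
  exact Subtype.val_injective h0

/-- DSC (descent of the data to a finitely generated subring). -/
theorem DSC (A : Type) [CommRing A] (N : ℕ)
    (I : Ideal (MvPolynomial (Fin (N + 1)) A))
    (𝓕 : Set (Fin (N + 1) → MvPolynomial (Fin (N + 1)) A)) (x₀ : Fin (N + 1) → A)
    (hD : CData A N I 𝓕 x₀) :
    ∃ (R : Subring A) (_ : ∃ t : Finset A, R = Subring.closure (t : Set A))
      (I' : Ideal (MvPolynomial (Fin (N + 1)) R))
      (𝓕' : Set (Fin (N + 1) → MvPolynomial (Fin (N + 1)) R)) (x' : Fin (N + 1) → R),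
      CData R N I' 𝓕' x' ∧
      (∀ F ∈ 𝓕', (fun a => MvPolynomial.map R.subtype (F a)) ∈ 𝓕) ∧
      ∀ a, (x' a : A) = x₀ a := by
  classical
  obtain ⟨G, hGf, hGh, hI⟩ := hD.hom
  set E : Set (MvPolynomial (Fin (N + 1)) A) := {P | ∃ F ∈ 𝓕, ∃ a, P = F a} with hE
  have hEf : E.Finite := by
    have : E ⊆ ⋃ a, (fun F : Fin (N + 1) → MvPolynomial (Fin (N + 1)) A => F a) '' 𝓕 := by
      rintro P ⟨F, hF, a, rfl⟩
      exact Set.mem_iUnion.mpr ⟨a, F, hF, rfl⟩
    exact (Set.finite_iUnion fun a => hD.fin.image _).subset this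
  have huni : ∀ i, ∃ M : ℕ, (X i : MvPolynomial (Fin (N + 1)) A) ^ M ∈ Ideal.span (G ∪ E) := by
    intro i
    obtain ⟨M, hM⟩ := hD.uni i
    refine ⟨M, ?_⟩
    rwa [Ideal.span_union, ← hI]
  choose M hM using huni
  -- eventual properties
  have e1 : ∀ᶠ t : Finset A in atTop, ∀ F ∈ 𝓕, ∃ F' : Fin (N + 1) → _, (fun a => io t (F' a)) = F := by
    rw [eventually_all_finite hD.fin]
    intro F _
    have : ∀ᶠ t : Finset A in atTop, ∀ a, ∃ P', io t P' = F a := by
      rw [eventually_all]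
      exact fun a => ev_lift (F a)
    filter_upwards [this] with t ht
    choose P' hP' using ht
    exact ⟨P', funext hP'⟩
  have e2 : ∀ᶠ t : Finset A in atTop, ∀ a, x₀ a ∈ Subring.closure (t : Set A) := by
    rw [eventually_all]
    intro a
    filter_upwards [eventually_ge_atTop {x₀ a}] with t ht
    exact Subring.subset_closure (ht (by simp))
  have e3 : ∀ᶠ t : Finset A in atTop, ∀ i, ∀ P', io t P' = X i ^ (M i) →
      P' ∈ Ideal.span (io t ⁻¹' (G ∪ E)) := by
    rw [eventually_all]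
    exact fun i => ev_mem _ (hGf.union hEf) _ (hM i)
  have e4 : ∀ᶠ t : Finset A in atTop, ∀ F ∈ 𝓕, ∀ F' ∈ 𝓕, ∀ a b, ∀ P',
      io t P' = F a * F' b - F b * F' a → P' ∈ Ideal.span (io t ⁻¹' G) := by
    rw [eventually_all_finite hD.fin]
    intro F hF
    rw [eventually_all_finite hD.fin]
    intro F' hF'
    rw [eventually_all]
    intro a
    rw [eventually_all]
    intro b
    exact ev_mem _ hGf _ (hI ▸ hD.prop F hF F' hF' a b)
  have e5 : ∀ᶠ t : Finset A in atTop, ∀ g ∈ G, ∀ F ∈ 𝓕, ∀ P',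
      io t P' = bind₁ F g → P' ∈ Ideal.span (io t ⁻¹' G) := by
    rw [eventually_all_finite hGf]
    intro g hg
    rw [eventually_all_finite hD.fin]
    intro F hF
    exact ev_mem _ hGf _ (hI ▸ hD.stab g (hI ▸ Ideal.subset_span hg) F hF)
  obtain ⟨t, h1, h2, h3, h4, h5⟩ := (e1.and (e2.and (e3.and (e4.and e5)))).exists
  have hcoe : ∀ (F' : Fin (N + 1) → MvPolynomial (Fin (N + 1)) (Subring.closure (t : Set A)))
      (P : MvPolynomial (Fin (N + 1)) (Subring.closure (t : Set A))),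
      io t (bind₁ F' P) = bind₁ (fun a => io t (F' a)) (io t P) := fun F' P => map_bind₁ _ _ _
  refine ⟨Subring.closure (t : Set A), ⟨t, rfl⟩, Ideal.span (io t ⁻¹' G),
    {F' | (fun a => io t (F' a)) ∈ 𝓕}, fun a => ⟨x₀ a, h2 a⟩, ?_, fun F hF => hF, fun a => rfl⟩
  constructor
  · refine ⟨io t ⁻¹' G, hGf.preimage (io_inj t).injOn, ?_, rfl⟩
    intro g hg
    obtain ⟨d, hd⟩ := hGh _ hg
    exact ⟨d, hom_of_io hd⟩
  · refine hD.fin.preimage (f := fun F' : Fin (N + 1) → MvPolynomial (Fin (N + 1)) (Subring.closure (t : Set A)) => fun a => io t (F' a)) ?_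
    intro F _ F' _ h
    funext a
    exact io_inj t (congrFun h a)
  · intro F hF
    obtain ⟨d, hd⟩ := hD.tup _ hF
    exact ⟨d, fun a => hom_of_io (hd a)⟩
  · intro i
    refine ⟨M i, ?_⟩
    have h := h3 i (X i ^ M i) (by simp)
    rw [Set.preimage_union, Ideal.span_union] at h
    have hle : Ideal.span (io t ⁻¹' E) ≤ Ideal.span {P | ∃ F ∈ {F' : Fin (N + 1) → MvPolynomial (Fin (N + 1)) (Subring.closure (t : Set A)) | (fun a => io t (F' a)) ∈ 𝓕}, ∃ a, P = F a} := ?_
    · exact (sup_le_sup_left hle _) h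
    rw [Ideal.span_le]
    rintro g' ⟨F, hF, a, hFa⟩
    obtain ⟨F', hF'⟩ := h1 F hF
    refine Ideal.subset_span ⟨F', ?_, a, ?_⟩
    · show (fun a => io t (F' a)) ∈ 𝓕
      rw [hF']; exact hF
    · apply io_inj t
      rw [hFa, ← hF']
  · intro F hF F' hF' a b
    refine h4 _ hF _ hF' a b _ ?_
    rw [map_sub, map_mul, map_mul]
  · intro P hP F hF
    have hle : Ideal.span (io t ⁻¹' G) ≤ Ideal.comap (bind₁ F : MvPolynomial (Fin (N + 1)) _ →ₐ[_] MvPolynomial (Fin (N + 1)) _).toRingHom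
        (Ideal.span (io t ⁻¹' G)) := by
      rw [Ideal.span_le]
      intro g hg
      show bind₁ F g ∈ Ideal.span (io t ⁻¹' G)
      exact h5 _ hg _ hF _ (hcoe F g)
    exact hle hP
  · obtain ⟨i, hi⟩ := hD.x1
    exact ⟨i, Subtype.ext hi⟩
  · intro P hP
    have hle : Ideal.span (io t ⁻¹' G) ≤ RingHom.ker (eval (fun a => (⟨x₀ a, h2 a⟩ : Subring.closure (t : Set A)))) := by
      rw [Ideal.span_le]
      intro g hg
      show eval _ g = 0
      apply Subtype.val_injective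
      have h6 : eval x₀ (io t g) = 0 := hD.xI _ (hI ▸ Ideal.subset_span hg)
      have h7 := eval₂_comp_left (Subring.closure (t : Set A)).subtype (RingHom.id _)
        (fun a => (⟨x₀ a, h2 a⟩ : Subring.closure (t : Set A))) g
      rw [io, eval_map] at h6
      exact h7.trans h6
    exact hle hP

end DSC

end Pool.Agent.TH554.J92
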